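import Pool.Agent.L5helper10.QV.Bk5

/-! The rank inequality, summed over the blocks and the good characters. -/

set_option autoImplicit false

open Filter Topology Set MeasureTheory Complex ComplexConjugate
open H370 (mult)
open Pool.Agent.L5helper10.TV

namespace Pool.Agent.L5helper10.QV

lemma EE_neg {A X ld : ℝ} {f : ℂ → ℂ} {a : ℕ → ℂ} {G : ℂ → ℂ} (hf : GC A X ld f a G) (V x y κ u t : ℝ) :
    EE (Pz f V x y) (fun z => (mult f z : ℂ)) κ (-u) t = conj (EE (Pz f V x y) (fun z => (mult f z : ℂ)) κ u t) := by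
  classical
  unfold EE
  rw [map_sum]
  have hinv : ∀ z : ℂ, 1 - conj (1 - conj z) = z := by
    intro z
    rw [map_sub, map_one, Complex.conj_conj]
    ring
  have hmem : ∀ z ∈ Pz f V x y, 1 - conj z ∈ Pz f V x y := by
    intro z hz
    unfold Pz at hz ⊢
    rw [Finset.mem_filter, mem_Zf hf] at hz ⊢
    have e : (1 - conj z).im = z.im := by simp
    rw [e, zero_refl hf z]
    exact hz
  refine Finset.sum_bij' (fun z _ => 1 - conj z) (fun z _ => 1 - conj z) hmem hmem (fun z _ => hinv z) (fun z _ => hinv z) ?_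
  intro z _
  rw [map_mul, Complex.conj_natCast, mult_refl hf, kk_refl, Complex.conj_conj]

lemma Eb_neg {q : ℕ} [NeZero q] (χ : DirichletCharacter ℂ q) (hχ : χ ≠ 1) (r x y κ u t : ℝ) :
    ‖Eb χ r x y κ (-u) t‖ = ‖Eb χ r x y κ u t‖ := by
  obtain ⟨A, hA1, hGC⟩ := gc_dir
  unfold Eb
  rw [EE_neg (gc_Lc hGC χ hχ), RCLike.norm_conj]

/-- the mean square over a block -/
noncomputable def Qb {q : ℕ} [NeZero q] (χ : DirichletCharacter ℂ q) (r x y κ u : ℝ) : ℝ :=
  ∫ t in x..y, ‖Eb χ r x y κ u t‖ ^ 2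

lemma Qb_cont {q : ℕ} [NeZero q] (χ : DirichletCharacter ℂ q) (r x y κ : ℝ) : Continuous (Qb χ r x y κ) := by
  unfold Qb
  apply intervalIntegral.continuous_parametric_intervalIntegral_of_continuous'
  have := EE_cont (Pz (Lc χ) (Real.sqrt (Real.log q)) (x - r) (y + r)) (fun z => (mult (Lc χ) z : ℂ)) κ
  exact (this.norm.pow 2)

lemma Qb_nonneg {q : ℕ} [NeZero q] (χ : DirichletCharacter ℂ q) (r x y κ u : ℝ) (hxy : x ≤ y) : 0 ≤ Qb χ r x y κ u :=
  intervalIntegral.integral_nonneg hxy fun _ _ => sq_nonneg _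

lemma Qb_neg {q : ℕ} [NeZero q] (χ : DirichletCharacter ℂ q) (hχ : χ ≠ 1) (r x y κ u : ℝ) :
    Qb χ r x y κ (-u) = Qb χ r x y κ u := by
  unfold Qb
  simp only [Eb_neg χ hχ]

lemma GG_mul_integrable (S : Set ℝ) (hS : MeasurableSet S) (R : ℝ) (hSR : S ⊆ Icc 0 R) (g : ℝ → ℝ) (hg : Continuous g) :
    Integrable (fun u => GG S u * g u) := by
  have hSf : volume S < ⊤ := (measure_mono hSR).trans_lt (by simp)
  have hind : (fun u => GG S u * g u) = (Ioc (-(|R| + 1)) (|R| + 1)).indicator (fun u => GG S u * g u) := by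
    funext u
    by_cases hu : u ∈ Ioc (-(|R| + 1)) (|R| + 1)
    · rw [Set.indicator_of_mem hu]
    · rw [Set.indicator_of_notMem hu]
      have hz : GG S u = 0 := by
        rcases le_or_gt u (-(|R| + 1)) with h | h
        · rw [← GG_neg]
          exact GG_zero S R hSR (-u) (by linarith [le_abs_self R])
        · have h2 : |R| + 1 < u := by
            by_contra h3
            exact hu ⟨h, not_lt.1 h3⟩
          exact GG_zero S R hSR u (by linarith [le_abs_self R])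
      rw [hz, zero_mul]
  rw [hind, integrable_indicator_iff measurableSet_Ioc]
  exact GG_mul_intOn S hS hSf g _ _ (hg.continuousOn.integrableOn_Icc.mono_set Ioc_subset_Icc_self)

lemma sym_int (S : Set ℝ) (R : ℝ) (hR : 0 ≤ R) (hSR : S ⊆ Icc 0 R) (g : ℝ → ℝ)
    (hg : ∀ u, g (-u) = g u) : ∫ u : ℝ, GG S u * g u = 2 * ∫ u in Ioc 0 R, GG S u * g u := by
  have h1 : ∫ u : ℝ, GG S u * g u = ∫ u : ℝ, (fun u => GG S u * g u) |u| := by
    apply integral_congr_ae
    refine Eventually.of_forall fun u => ?_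
    simp only
    rcases le_or_gt 0 u with h | h
    · rw [abs_of_nonneg h]
    · rw [abs_of_neg h, GG_neg, hg]
  rw [h1, integral_comp_abs (f := fun u => GG S u * g u)]
  congr 1
  rw [← Ioc_union_Ioi_eq_Ioi hR]
  rw [← integral_indicator (measurableSet_Ioc.union measurableSet_Ioi), ← integral_indicator measurableSet_Ioc]
  apply integral_congr_ae
  refine Eventually.of_forall fun u => ?_
  by_cases hu : u ∈ Ioc 0 R
  · rw [Set.indicator_of_mem hu, Set.indicator_of_mem (show u ∈ Ioc 0 R ∪ Ioi R from Or.inl hu)]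
  · rw [Set.indicator_of_notMem hu]
    by_cases hu2 : u ∈ Ioi R
    · rw [Set.indicator_of_mem (show u ∈ Ioc 0 R ∪ Ioi R from Or.inr hu2), GG_zero S R hSR u hu2, zero_mul]
    · rw [Set.indicator_of_notMem (show u ∉ Ioc 0 R ∪ Ioi R from fun h => h.elim hu hu2)]

/-- the total mean square -/
noncomputable def NN {q : ℕ} [NeZero q] (Gs : Finset (DirichletCharacter ℂ q)) (n : ℕ) (a w : ℕ → ℝ) (r κ u : ℝ) : ℝ :=
  ∑ j ∈ Finset.range n, w j * ∑ χ ∈ Gs, Qb χ r (a j) (a (j + 1)) κ u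

theorem core {q : ℕ} [NeZero q] (Gs : Finset (DirichletCharacter ℂ q)) (hGs : ∀ χ ∈ Gs, χ ≠ 1) (n : ℕ) (a w : ℕ → ℝ)
    (ha : ∀ j, a j ≤ a (j + 1)) (hw : ∀ j, 0 ≤ w j) (r κ : ℝ) (hκ : 0 < κ) (S : Set ℝ) (hS : MeasurableSet S) (R : ℝ)
    (hR : 0 ≤ R) (hSR : S ⊆ Icc 0 R) :
    (volume S).toReal ^ 2 * ∑ j ∈ Finset.range n, w j * (Real.sqrt 2 *
      (∑ χ ∈ Gs, (∫ t in (a j)..(a (j + 1)), Eb χ r (a j) (a (j + 1)) κ 0 t).re) - Real.sqrt Real.pi * κ *
      ∑ χ ∈ Gs, ((Pz (Lc χ) (Real.sqrt (Real.log q)) (a j - r) (a (j + 1) + r)).card : ℝ)) ≤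
      2 * ∫ u in Ioc 0 R, GG S u * NN Gs n a w r κ u := by
  have h1 : ∀ j ∈ Finset.range n, (volume S).toReal ^ 2 * (w j * (Real.sqrt 2 *
      (∑ χ ∈ Gs, (∫ t in (a j)..(a (j + 1)), Eb χ r (a j) (a (j + 1)) κ 0 t).re) - Real.sqrt Real.pi * κ *
      ∑ χ ∈ Gs, ((Pz (Lc χ) (Real.sqrt (Real.log q)) (a j - r) (a (j + 1) + r)).card : ℝ))) ≤
      w j * ∑ χ ∈ Gs, ∫ u : ℝ, GG S u * Qb χ r (a j) (a (j + 1)) κ u := by
    intro j _
    have e : (volume S).toReal ^ 2 * (w j * (Real.sqrt 2 *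
      (∑ χ ∈ Gs, (∫ t in (a j)..(a (j + 1)), Eb χ r (a j) (a (j + 1)) κ 0 t).re) - Real.sqrt Real.pi * κ *
      ∑ χ ∈ Gs, ((Pz (Lc χ) (Real.sqrt (Real.log q)) (a j - r) (a (j + 1) + r)).card : ℝ))) =
      w j * ∑ χ ∈ Gs, (volume S).toReal ^ 2 * (Real.sqrt 2 *
        (∫ t in (a j)..(a (j + 1)), Eb χ r (a j) (a (j + 1)) κ 0 t).re - Real.sqrt Real.pi * κ *
        ((Pz (Lc χ) (Real.sqrt (Real.log q)) (a j - r) (a (j + 1) + r)).card : ℝ)) := by
      rw [← Finset.mul_sum, Finset.sum_sub_distrib, ← Finset.mul_sum, ← Finset.mul_sum]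
      ring
    rw [e]
    apply mul_le_mul_of_nonneg_left _ (hw j)
    apply Finset.sum_le_sum
    intro χ _
    exact rank_lin _ _ κ hκ S hS R hSR _ _ (ha j)
  have h2 := Finset.sum_le_sum h1
  rw [← Finset.mul_sum] at h2
  refine h2.trans (le_of_eq ?_)
  have h3 : ∀ j ∈ Finset.range n, w j * ∑ χ ∈ Gs, ∫ u : ℝ, GG S u * Qb χ r (a j) (a (j + 1)) κ u =
      ∫ u : ℝ, GG S u * (w j * ∑ χ ∈ Gs, Qb χ r (a j) (a (j + 1)) κ u) := by
    intro j _
    rw [← integral_finsetSum Gs (fun χ _ => GG_mul_integrable S hS R hSR _ (Qb_cont χ r (a j) (a (j + 1)) κ)),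
      ← integral_const_mul]
    apply integral_congr_ae
    refine Eventually.of_forall fun u => ?_
    simp only
    rw [← Finset.mul_sum]
    ring
  rw [Finset.sum_congr rfl h3]
  have hc : ∀ j ∈ Finset.range n, Integrable (fun u => GG S u * (w j * ∑ χ ∈ Gs, Qb χ r (a j) (a (j + 1)) κ u)) := by
    intro j _
    apply GG_mul_integrable S hS R hSR
    exact continuous_const.mul (continuous_finsetSum Gs fun χ _ => Qb_cont χ r (a j) (a (j + 1)) κ)
  rw [← integral_finsetSum _ hc]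
  have h4 : (∫ u : ℝ, ∑ j ∈ Finset.range n, GG S u * (w j * ∑ χ ∈ Gs, Qb χ r (a j) (a (j + 1)) κ u)) =
      ∫ u : ℝ, GG S u * NN Gs n a w r κ u := by
    apply integral_congr_ae
    refine Eventually.of_forall fun u => ?_
    simp only
    unfold NN
    rw [Finset.mul_sum]
  rw [h4]
  apply sym_int S R hR hSR
  intro u
  unfold NN
  apply Finset.sum_congr rfl
  intro j _
  congr 1
  apply Finset.sum_congr rfl
  intro χ hχ
  exact Qb_neg χ (hGs χ hχ) r _ _ κ u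

lemma NN_cont {q : ℕ} [NeZero q] (Gs : Finset (DirichletCharacter ℂ q)) (n : ℕ) (a w : ℕ → ℝ) (r κ : ℝ) :
    Continuous (NN Gs n a w r κ) := by
  unfold NN
  exact continuous_finsetSum _ fun j _ => continuous_const.mul
    (continuous_finsetSum Gs fun χ _ => Qb_cont χ r (a j) (a (j + 1)) κ)

end Pool.Agent.L5helper10.QV
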