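import Mathlib

/-! Blocks and weights. -/

set_option autoImplicit false

open Filter Topology Set MeasureTheory

namespace Pool.Agent.L5helper10.QV

lemma rho_lip (s t : ℝ) : 1 / (1 / 4 + t ^ 2) - 8 * |s - t| ≤ 1 / (1 / 4 + s ^ 2) := by
  have hs : 0 < 1 / 4 + s ^ 2 := by positivity
  have ht : 0 < 1 / 4 + t ^ 2 := by positivity
  have h1 : 1 / (1 / 4 + t ^ 2) - 1 / (1 / 4 + s ^ 2) = (s - t) * (s + t) / ((1 / 4 + t ^ 2) * (1 / 4 + s ^ 2)) := by
    field_simp
    ring
  have h2 : |s + t| ≤ 8 * ((1 / 4 + t ^ 2) * (1 / 4 + s ^ 2)) := by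
    have a1 : |s| ≤ 1 / 4 + s ^ 2 := by
      have : s ^ 2 = |s| ^ 2 := (sq_abs s).symm
      rw [this]
      nlinarith [sq_nonneg (|s| - 1 / 2)]
    have a2 : |t| ≤ 1 / 4 + t ^ 2 := by
      have : t ^ 2 = |t| ^ 2 := (sq_abs t).symm
      rw [this]
      nlinarith [sq_nonneg (|t| - 1 / 2)]
    have a3 : |s + t| ≤ |s| + |t| := abs_add_le s t
    have a4 : |s| * (1 / 4) ≤ (1 / 4 + s ^ 2) * (1 / 4 + t ^ 2) := mul_le_mul a1 (by nlinarith [sq_nonneg t]) (by norm_num) hs.le
    have a5 : |t| * (1 / 4) ≤ (1 / 4 + t ^ 2) * (1 / 4 + s ^ 2) := mul_le_mul a2 (by nlinarith [sq_nonneg s]) (by norm_num) ht.le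
    nlinarith
  have h3 : (s - t) * (s + t) / ((1 / 4 + t ^ 2) * (1 / 4 + s ^ 2)) ≤ 8 * |s - t| := by
    rw [div_le_iff₀ (by positivity)]
    calc (s - t) * (s + t) ≤ |s - t| * |s + t| := by rw [← abs_mul]; exact le_abs_self _
      _ ≤ |s - t| * (8 * ((1 / 4 + t ^ 2) * (1 / 4 + s ^ 2))) := mul_le_mul_of_nonneg_left h2 (abs_nonneg _)
      _ = _ := by ring
  linarith

lemma rho_cont : Continuous (fun t : ℝ => 1 / (1 / 4 + t ^ 2)) := by
  apply continuous_const.div (by fun_prop)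
  intro t
  positivity

lemma rho_int (D : ℝ) : ∫ t in (-D)..D, 1 / (1 / 4 + t ^ 2) = 4 * Real.arctan (2 * D) := by
  have h1 : ∀ t ∈ uIcc (-D) D, HasDerivAt (fun t : ℝ => 2 * Real.arctan (2 * t)) (1 / (1 / 4 + t ^ 2)) t := by
    intro t _
    have h2 : HasDerivAt (fun t : ℝ => 2 * t) 2 t := by simpa using (hasDerivAt_id t).const_mul 2
    have h3 := (h2.arctan).const_mul 2
    refine h3.congr_deriv ?_
    field_simp
    ring
  rw [intervalIntegral.integral_eq_sub_of_hasDerivAt h1 (rho_cont.intervalIntegrable _ _)]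
  rw [show 2 * -D = -(2 * D) by ring, Real.arctan_neg]
  ring

/-- blocks with weights -/
theorem blocks_ex (ε : ℝ) (hε : 0 < ε) : ∃ (D : ℝ) (n : ℕ) (a w : ℕ → ℝ), 0 ≤ D ∧ a 0 = -D ∧ a n = D ∧
    (∀ j, a j ≤ a (j + 1)) ∧ (∀ j, 0 ≤ w j) ∧ (∀ j, w j ≤ 4) ∧
    (∀ j t, a j ≤ t → t ≤ a (j + 1) → w j * (1 / 4 + t ^ 2) ≤ 1) ∧
    2 * Real.pi - ε ≤ ∑ j ∈ Finset.range n, w j * (a (j + 1) - a j) ∧
    ∑ j ∈ Finset.range n, w j * (a (j + 1) - a j) ≤ 2 * Real.pi := by
  have hT : Tendsto (fun D : ℝ => 4 * Real.arctan (2 * D)) atTop (𝓝 (2 * Real.pi)) := by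
    have h1 : Tendsto (fun D : ℝ => Real.arctan (2 * D)) atTop (𝓝 (Real.pi / 2)) :=
      (Real.tendsto_arctan_atTop.mono_right nhdsWithin_le_nhds).comp (tendsto_id.const_mul_atTop (by norm_num))
    have := h1.const_mul 4
    rwa [show 4 * (Real.pi / 2) = 2 * Real.pi by ring] at this
  obtain ⟨D, hD1, hD2⟩ := ((hT.eventually_const_lt (show 2 * Real.pi - ε / 2 < 2 * Real.pi by linarith)).and
    (eventually_ge_atTop 1)).exists
  have hD0 : 0 < D := by linarith
  obtain ⟨n, hn⟩ := exists_nat_gt (64 * D ^ 2 / ε)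
  have hn0 : (0 : ℝ) < n := lt_of_le_of_lt (by positivity) hn
  set h : ℝ := 2 * D / n with hh
  have hh0 : 0 < h := by positivity
  set a : ℕ → ℝ := fun j => -D + j * h with ha
  have hstep : ∀ j, a (j + 1) - a j = h := by intro j; simp only [ha]; push_cast; ring
  have hmono : ∀ j, a j ≤ a (j + 1) := by intro j; have := hstep j; linarith
  set m : ℕ → ℝ := fun j => max |a j| |a (j + 1)| with hm
  set w : ℕ → ℝ := fun j => 1 / (1 / 4 + m j ^ 2) with hw
  have ha0 : a 0 = -D := by simp [ha]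
  have han : a n = D := by simp only [ha, hh]; field_simp; ring
  have hmt : ∀ j t, a j ≤ t → t ≤ a (j + 1) → |t| ≤ m j := by
    intro j t h1 h2
    rw [abs_le]
    constructor
    · have h3 : -|a j| ≤ a j := neg_abs_le _
      have h4 : |a j| ≤ m j := le_max_left _ _
      linarith
    · exact h2.trans ((le_abs_self _).trans (le_max_right _ _))
  have hwt : ∀ j t, a j ≤ t → t ≤ a (j + 1) → w j ≤ 1 / (1 / 4 + t ^ 2) := by
    intro j t h1 h2
    simp only [hw]
    apply one_div_le_one_div_of_le (by positivity)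
    have h3 := pow_le_pow_left₀ (abs_nonneg t) (hmt j t h1 h2) 2
    rw [sq_abs] at h3
    linarith
  have hwl : ∀ j t, a j ≤ t → t ≤ a (j + 1) → 1 / (1 / 4 + t ^ 2) - 8 * h ≤ w j := by
    intro j t h1 h2
    have h3 : ∃ s : ℝ, (s = a j ∨ s = a (j + 1)) ∧ m j ^ 2 = s ^ 2 := by
      rcases le_total |a j| |a (j + 1)| with h4 | h4
      · exact ⟨a (j + 1), Or.inr rfl, by simp only [hm]; rw [max_eq_right h4, sq_abs]⟩
      · exact ⟨a j, Or.inl rfl, by simp only [hm]; rw [max_eq_left h4, sq_abs]⟩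
    obtain ⟨s, hs, hms⟩ := h3
    have h5 := rho_lip s t
    have h6 : |s - t| ≤ h := by
      have := hstep j
      rw [abs_le]
      rcases hs with rfl | rfl
      · constructor <;> linarith
      · constructor <;> linarith
    simp only [hw]
    rw [hms]
    linarith
  have hsum : ∑ j ∈ Finset.range n, ∫ t in (a j)..(a (j + 1)), 1 / (1 / 4 + t ^ 2) = 4 * Real.arctan (2 * D) := by
    rw [intervalIntegral.sum_integral_adjacent_intervals (fun k _ => rho_cont.intervalIntegrable _ _), ha0, han, rho_int]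
  refine ⟨D, n, a, w, hD0.le, ha0, han, hmono, fun j => by simp only [hw]; positivity, ?_, ?_, ?_, ?_⟩
  · intro j
    simp only [hw]
    rw [div_le_iff₀ (by positivity)]
    nlinarith [sq_nonneg (m j)]
  · intro j t h1 h2
    have h3 := hwt j t h1 h2
    rwa [le_div_iff₀ (by positivity)] at h3
  · have h1 : ∀ j ∈ Finset.range n, (∫ t in (a j)..(a (j + 1)), 1 / (1 / 4 + t ^ 2)) - 8 * h * h ≤ w j * (a (j + 1) - a j) := by
      intro j _
      have h2 : ∫ t in (a j)..(a (j + 1)), (1 / (1 / 4 + t ^ 2) - 8 * h) ≤ ∫ t in (a j)..(a (j + 1)), w j :=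
        intervalIntegral.integral_mono_on (μ := volume) (hmono j)
        ((rho_cont.sub continuous_const).intervalIntegrable _ _) (intervalIntegrable_const (c := w j))
        (fun t ht => hwl j t ht.1 ht.2)
      rw [intervalIntegral.integral_sub (rho_cont.intervalIntegrable _ _) intervalIntegrable_const,
        intervalIntegral.integral_const, intervalIntegral.integral_const, smul_eq_mul, smul_eq_mul] at h2
      rw [hstep j] at h2 ⊢
      linarith
    have h2 := Finset.sum_le_sum h1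
    rw [Finset.sum_sub_distrib, hsum, Finset.sum_const, Finset.card_range, nsmul_eq_mul] at h2
    have h3 : (n : ℝ) * (8 * h * h) ≤ ε / 2 := by
      have e : (n : ℝ) * (8 * h * h) = 32 * D ^ 2 / n := by rw [hh]; field_simp; ring
      rw [e, div_le_iff₀ hn0]
      rw [div_lt_iff₀ hε] at hn
      linarith
    linarith
  · have h1 : ∀ j ∈ Finset.range n, w j * (a (j + 1) - a j) ≤ ∫ t in (a j)..(a (j + 1)), 1 / (1 / 4 + t ^ 2) := by
      intro j _
      have h2 := intervalIntegral.integral_mono_on (μ := volume) (hmono j) (intervalIntegrable_const (c := w j))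
        (rho_cont.intervalIntegrable _ _) (fun t ht => hwt j t ht.1 ht.2)
      rw [intervalIntegral.integral_const, smul_eq_mul] at h2
      linarith
    have h2 := Finset.sum_le_sum h1
    rw [hsum] at h2
    have := (Real.arctan_lt_pi_div_two (2 * D)).le
    linarith

end Pool.Agent.L5helper10.QV
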