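import Pool.Agent.L5helper10.QV.As1
import Pool.Agent.L5helper10.QV.Rho

/-! Upper bounds for the total mean square. -/

set_option autoImplicit false

open Filter Topology Set MeasureTheory Complex ComplexConjugate
open H370 (mult)
open Pool.Agent.L5helper10.TV

namespace Pool.Agent.L5helper10.QV

lemma FM_nonneg (a : ℕ → ℂ) (κ u η t : ℝ) (hη : 0 < η) : 0 ≤ FM a κ u η t := by
  unfold FM; positivity

lemma ffsq_int {a : ℕ → ℂ} (ha : ∀ n, ‖a n‖ ≤ ArithmeticFunction.vonMangoldt n) (β u : ℝ) (hβ : 0 < β) :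
    Integrable (fun v => ‖ff a v‖ ^ 2 * Real.exp (-(β ^ 2 * (u - v) ^ 2 / 2))) := by
  refine ((gauss_exp β u hβ).1.const_mul (Kc ^ 2)).mono' (((ff_meas a).norm.pow_const 2).mul (by fun_prop)).aestronglyMeasurable
    (Eventually.of_forall fun v => ?_)
  rw [Real.norm_of_nonneg (by positivity)]
  calc ‖ff a v‖ ^ 2 * Real.exp (-(β ^ 2 * (u - v) ^ 2 / 2)) ≤ (Kc ^ 2 * Real.exp v) * Real.exp (-(β ^ 2 * (u - v) ^ 2 / 2)) :=
        mul_le_mul_of_nonneg_right (ff_sq ha v) (Real.exp_pos _).le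
    _ = _ := by rw [mul_assoc, ← Real.exp_add]; congr 2

lemma ffsq_int' {a : ℕ → ℂ} (ha : ∀ n, ‖a n‖ ≤ ArithmeticFunction.vonMangoldt n) (β u : ℝ) (hβ : 0 < β) :
    Integrable (fun v => ‖ff a v‖ ^ 2 * Real.exp (-(β ^ 2 * (u - v) ^ 2))) := by
  refine (ffsq_int ha β u hβ).mono' (((ff_meas a).norm.pow_const 2).mul (by fun_prop)).aestronglyMeasurable
    (Eventually.of_forall fun v => ?_)
  rw [Real.norm_of_nonneg (by positivity)]
  apply mul_le_mul_of_nonneg_left _ (sq_nonneg _)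
  apply Real.exp_le_exp.2
  have : 0 ≤ β ^ 2 * (u - v) ^ 2 := by positivity
  linarith

open Classical in
/-- the non-principal characters -/
noncomputable def Sf (q : ℕ) [NeZero q] : Finset (DirichletCharacter ℂ q) :=
  (Finset.univ : Finset (DirichletCharacter ℂ q)).filter (fun χ => χ ≠ 1)

lemma Ph_eq (q : ℕ) [NeZero q] (v : ℝ) : Ph q v = ∑ χ ∈ Sf q, ‖ff (ac χ) v‖ ^ 2 := by
  unfold Ph Sf
  rfl

theorem FM_sum (q : ℕ) [NeZero q] (κ u η : ℝ) (hκ : 0 < κ) (hη : 0 < η) :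
    Integrable (fun t => ∑ χ ∈ Sf q, FM (ac χ) κ u η t) ∧
    ∫ t, ∑ χ ∈ Sf q, FM (ac χ) κ u η t ≤ 2 * Real.pi * ((1 + η) * (∫ v, Ph q v * Real.exp (-(κ ^ 2 * (u - v) ^ 2))) +
      (1 + 1 / η) * (4 * κ ^ 2) * (∫ v, Ph q v * Real.exp (-(κ ^ 2 * (u - v) ^ 2 / 2)))) := by
  have hi : ∀ χ ∈ Sf q, Integrable (FM (ac χ) κ u η) := fun χ _ => (FM_int (ac_norm χ) κ u η hκ hη).1
  refine ⟨integrable_finsetSum _ hi, ?_⟩
  rw [integral_finsetSum _ hi]
  refine (Finset.sum_le_sum fun χ _ => (FM_int (ac_norm χ) κ u η hκ hη).2).trans (le_of_eq ?_)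
  have e1 : ∫ v, Ph q v * Real.exp (-(κ ^ 2 * (u - v) ^ 2)) = ∑ χ ∈ Sf q, ∫ v, ‖ff (ac χ) v‖ ^ 2 * Real.exp (-(κ ^ 2 * (u - v) ^ 2)) := by
    rw [← integral_finsetSum _ (fun χ _ => ffsq_int' (ac_norm χ) κ u hκ)]
    apply integral_congr_ae
    refine Eventually.of_forall fun v => ?_
    simp only
    rw [Ph_eq, Finset.sum_mul]
  have e2 : ∫ v, Ph q v * Real.exp (-(κ ^ 2 * (u - v) ^ 2 / 2)) = ∑ χ ∈ Sf q, ∫ v, ‖ff (ac χ) v‖ ^ 2 * Real.exp (-(κ ^ 2 * (u - v) ^ 2 / 2)) := by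
    rw [← integral_finsetSum _ (fun χ _ => ffsq_int (ac_norm χ) κ u hκ)]
    apply integral_congr_ae
    refine Eventually.of_forall fun v => ?_
    simp only
    rw [Ph_eq, Finset.sum_mul]
  rw [e1, e2, ← Finset.mul_sum, Finset.sum_add_distrib, ← Finset.mul_sum, ← Finset.mul_sum]

lemma Qb_sum {q : ℕ} [NeZero q] (Gs : Finset (DirichletCharacter ℂ q)) (r x y κ u : ℝ) :
    ∑ χ ∈ Gs, Qb χ r x y κ u = ∫ t in x..y, ∑ χ ∈ Gs, ‖Eb χ r x y κ u t‖ ^ 2 := by
  unfold Qb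
  have hc : ∀ χ ∈ Gs, IntervalIntegrable (fun t => ‖Eb χ r x y κ u t‖ ^ 2) volume x y := fun χ _ =>
    (((Eb_cont χ r x y κ u).norm.pow 2)).intervalIntegrable _ _
  rw [intervalIntegral.integral_finsetSum hc]

lemma Ebs_cont {q : ℕ} [NeZero q] (Gs : Finset (DirichletCharacter ℂ q)) (r x y κ u : ℝ) :
    Continuous (fun t => ∑ χ ∈ Gs, ‖Eb χ r x y κ u t‖ ^ 2) :=
  continuous_finsetSum _ fun χ _ => (Eb_cont χ r x y κ u).norm.pow 2

lemma NN_A {q : ℕ} [NeZero q] (Gs : Finset (DirichletCharacter ℂ q)) (n : ℕ) (a w : ℕ → ℝ)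
    (ha : ∀ j, a j ≤ a (j + 1)) (hw : ∀ j, 0 ≤ w j) (r κ u BA : ℝ)
    (hB : ∀ j ∈ Finset.range n, ∀ t ∈ Icc (a j) (a (j + 1)), ∑ χ ∈ Gs, ‖Eb χ r (a j) (a (j + 1)) κ u t‖ ^ 2 ≤ BA) :
    NN Gs n a w r κ u ≤ (∑ j ∈ Finset.range n, w j * (a (j + 1) - a j)) * BA := by
  unfold NN
  rw [Finset.sum_mul]
  apply Finset.sum_le_sum
  intro j hj
  rw [mul_assoc]
  apply mul_le_mul_of_nonneg_left _ (hw j)
  rw [Qb_sum]
  have h := intervalIntegral.integral_mono_on (μ := volume) (ha j) ((Ebs_cont Gs r (a j) (a (j + 1)) κ u).intervalIntegrable _ _)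
    (intervalIntegrable_const (c := BA)) (hB j hj)
  rw [intervalIntegral.integral_const, smul_eq_mul] at h
  exact h

lemma NN_B {q : ℕ} [NeZero q] (Gs : Finset (DirichletCharacter ℂ q)) (n : ℕ) (a w : ℕ → ℝ)
    (ha : ∀ j, a j ≤ a (j + 1)) (hw : ∀ j, 0 ≤ w j)
    (hwt : ∀ j t, a j ≤ t → t ≤ a (j + 1) → w j * (1 / 4 + t ^ 2) ≤ 1) (r κ u c η e η1 : ℝ) (hκ : 0 < κ) (hc : 0 ≤ c)
    (hη : 0 ≤ η) (hη1 : 0 < η1)
    (hB : ∀ j ∈ Finset.range n, ∀ t ∈ Icc (a j) (a (j + 1)), ∑ χ ∈ Gs, ‖Eb χ r (a j) (a (j + 1)) κ u t‖ ^ 2 ≤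
      c * ((1 + η) * (∑ χ ∈ Sf q, ‖PP (ac χ) κ u t‖ ^ 2) + e)) :
    NN Gs n a w r κ u ≤ c * ((1 + η) * (∫ t, ∑ χ ∈ Sf q, FM (ac χ) κ u η1 t) +
      (∑ j ∈ Finset.range n, w j * (a (j + 1) - a j)) * e) := by
  obtain ⟨hFi, -⟩ := FM_sum q κ u η1 hκ hη1
  set F : ℝ → ℝ := fun t => ∑ χ ∈ Sf q, FM (ac χ) κ u η1 t with hF
  have hF0 : ∀ t, 0 ≤ F t := fun t => Finset.sum_nonneg fun χ _ => FM_nonneg _ _ _ _ _ hη1
  have h1 : ∀ j ∈ Finset.range n, w j * ∑ χ ∈ Gs, Qb χ r (a j) (a (j + 1)) κ u ≤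
      c * ((1 + η) * (∫ t in (a j)..(a (j + 1)), F t) + w j * (a (j + 1) - a j) * e) := by
    intro j hj
    rw [Qb_sum, ← intervalIntegral.integral_const_mul]
    have hi : IntervalIntegrable (fun t => c * ((1 + η) * F t + w j * e)) volume (a j) (a (j + 1)) :=
      (((hFi.intervalIntegrable).const_mul (1 + η)).add (intervalIntegrable_const (c := w j * e))).const_mul c
    have h2 : ∫ t in (a j)..(a (j + 1)), w j * ∑ χ ∈ Gs, ‖Eb χ r (a j) (a (j + 1)) κ u t‖ ^ 2 ≤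
        ∫ t in (a j)..(a (j + 1)), c * ((1 + η) * F t + w j * e) := by
      apply intervalIntegral.integral_mono_on (ha j)
        (((Ebs_cont Gs r (a j) (a (j + 1)) κ u).const_mul (w j)).intervalIntegrable _ _) hi
      intro t ht
      have h3 := mul_le_mul_of_nonneg_left (hB j hj t ht) (hw j)
      have h4 : w j * ∑ χ ∈ Sf q, ‖PP (ac χ) κ u t‖ ^ 2 ≤ F t := by
        rw [Finset.mul_sum, hF]
        apply Finset.sum_le_sum
        intro χ _
        have h5 := mul_le_mul_of_nonneg_left (PP_FM (ac_norm χ) κ u t η1 hκ hη1) (hw j)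
        have h6 := mul_le_mul_of_nonneg_right (hwt j t ht.1 ht.2) (FM_nonneg (ac χ) κ u η1 t hη1)
        linarith
      have h5 := mul_le_mul_of_nonneg_left h4 (by positivity : 0 ≤ c * (1 + η))
      have e1 : w j * (c * ((1 + η) * (∑ χ ∈ Sf q, ‖PP (ac χ) κ u t‖ ^ 2) + e)) =
        c * (1 + η) * (w j * ∑ χ ∈ Sf q, ‖PP (ac χ) κ u t‖ ^ 2) + c * (w j * e) := by ring
      have e2 : c * ((1 + η) * F t + w j * e) = c * (1 + η) * F t + c * (w j * e) := by ring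
      rw [e1] at h3
      rw [e2]
      linarith
    refine h2.trans (le_of_eq ?_)
    rw [intervalIntegral.integral_const_mul]
    congr 1
    rw [intervalIntegral.integral_add ((hFi.intervalIntegrable).const_mul (1 + η)) (intervalIntegrable_const (c := w j * e)),
      intervalIntegral.integral_const_mul, intervalIntegral.integral_const, smul_eq_mul]
    ring
  unfold NN
  refine (Finset.sum_le_sum h1).trans ?_
  rw [← Finset.mul_sum, Finset.sum_add_distrib, ← Finset.mul_sum, ← Finset.sum_mul,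
    intervalIntegral.sum_integral_adjacent_intervals (fun k _ => hFi.intervalIntegrable)]
  apply mul_le_mul_of_nonneg_left _ hc
  have hmono : a 0 ≤ a n := monotone_nat_of_le_succ ha (Nat.zero_le n)
  have h7 : ∫ t in (a 0)..(a n), F t ≤ ∫ t, F t := by
    rw [intervalIntegral.integral_of_le hmono]
    exact setIntegral_le_integral hFi (Eventually.of_forall hF0)
  have h8 := mul_le_mul_of_nonneg_left h7 (by positivity : 0 ≤ 1 + η)
  linarith

/-- the convolution is integrable on bounded intervals -/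
lemma conv_intOn (Φ : ℝ → ℝ) (hΦm : Measurable Φ) (hΦ0 : ∀ v, 0 ≤ Φ v) (M : ℝ) (hΦ : ∀ v, Φ v ≤ M * Real.exp v)
    (β a b : ℝ) (hβ : 0 < β) : IntegrableOn (fun u => ∫ v, Φ v * Real.exp (-(β ^ 2 * (u - v) ^ 2))) (Ioc a b) := by
  have hM0 : 0 ≤ M := by
    have := (hΦ0 0).trans (hΦ 0)
    simpa using this
  have hfin : IsFiniteMeasure (volume.restrict (Ioc a b)) := ⟨by simp⟩
  refine Integrable.of_bound (C := M * (Real.exp (b + 1 / (2 * β ^ 2)) * (Real.sqrt (2 * Real.pi) / β))) ?_ ?_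
  · have hm : StronglyMeasurable (Function.uncurry fun u v : ℝ => Φ v * Real.exp (-(β ^ 2 * (u - v) ^ 2))) := by
      apply Measurable.stronglyMeasurable
      have m2 : Measurable fun p : ℝ × ℝ => Φ p.2 := hΦm.comp measurable_snd
      have m3 : Measurable fun p : ℝ × ℝ => Real.exp (-(β ^ 2 * (p.1 - p.2) ^ 2)) := by fun_prop
      exact m2.mul m3
    exact (hm.integral_prod_right (ν := volume)).aestronglyMeasurable
  · rw [ae_restrict_iff' measurableSet_Ioc]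
    refine Eventually.of_forall fun u hu => ?_
    rw [Real.norm_of_nonneg (integral_nonneg fun v => mul_nonneg (hΦ0 v) (Real.exp_pos _).le)]
    have hge := gauss_exp β u hβ
    have h1 : ∫ v, Φ v * Real.exp (-(β ^ 2 * (u - v) ^ 2)) ≤ ∫ v, M * Real.exp (v - β ^ 2 * (u - v) ^ 2 / 2) := by
      apply integral_mono_of_nonneg (Eventually.of_forall fun v => mul_nonneg (hΦ0 v) (Real.exp_pos _).le) (hge.1.const_mul M)
      refine Eventually.of_forall fun v => ?_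
      have h1 : Real.exp (-(β ^ 2 * (u - v) ^ 2)) ≤ Real.exp (-(β ^ 2 * (u - v) ^ 2 / 2)) := by
        apply Real.exp_le_exp.2
        have : 0 ≤ β ^ 2 * (u - v) ^ 2 := by positivity
        linarith
      calc Φ v * Real.exp (-(β ^ 2 * (u - v) ^ 2)) ≤ (M * Real.exp v) * Real.exp (-(β ^ 2 * (u - v) ^ 2 / 2)) :=
            mul_le_mul (hΦ v) h1 (Real.exp_pos _).le (by positivity)
        _ = _ := by rw [mul_assoc, ← Real.exp_add]; congr 2
    rw [integral_const_mul, hge.2] at h1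
    refine h1.trans (mul_le_mul_of_nonneg_left ?_ hM0)
    apply mul_le_mul_of_nonneg_right _ (by positivity)
    exact Real.exp_le_exp.2 (by linarith [hu.2])

end Pool.Agent.L5helper10.QV
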