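import Pool.Agent.L5helper10.QV.As2

/-! Scaling, and the integrals over the two ranges. -/

set_option autoImplicit false

open Filter Topology Set MeasureTheory
open Pool.Agent.L5helper10.TV
open ArithmeticFunction (vonMangoldt vonMangoldt_nonneg vonMangoldt_le_log)

namespace Pool.Agent.L5helper10.QV

/-- the scaled set -/
def SL (S : Set ℝ) (L : ℝ) : Set ℝ := (fun x => x * L⁻¹) ⁻¹' S

lemma SL_meas (S : Set ℝ) (hS : MeasurableSet S) (L : ℝ) : MeasurableSet (SL S L) :=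
  (measurable_id.mul_const _) hS

lemma SL_vol (S : Set ℝ) (L : ℝ) (hL : 0 < L) : (volume (SL S L)).toReal = L * (volume S).toReal := by
  unfold SL
  rw [Real.volume_preimage_mul_right (by positivity : L⁻¹ ≠ 0), inv_inv, abs_of_pos hL, ENNReal.toReal_mul,
    ENNReal.toReal_ofReal hL.le]

lemma SL_sub (S : Set ℝ) (L ℓ : ℝ) (hL : 0 < L) (h : S ⊆ Icc 0 ℓ) : SL S L ⊆ Icc 0 (ℓ * L) := by
  intro x hx
  have h1 := h hx
  have h2 : 0 ≤ x * L⁻¹ := h1.1
  have h3 : x * L⁻¹ ≤ ℓ := h1.2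
  constructor
  · by_contra h4
    have := mul_neg_of_neg_of_pos (not_le.1 h4) (inv_pos.2 hL)
    linarith
  · rwa [← div_eq_mul_inv, div_le_iff₀ hL] at h3

lemma SL_GG (S : Set ℝ) (L u : ℝ) (hL : 0 < L) : GG (SL S L) u = L * GG S (u / L) := by
  have h : {v : ℝ | v ∈ SL S L ∧ v - u ∈ SL S L} = SL {v : ℝ | v ∈ S ∧ v - u / L ∈ S} L := by
    ext v
    unfold SL
    simp only [Set.mem_ofPred_eq, Set.mem_preimage]
    rw [sub_mul, div_eq_mul_inv]
  unfold GG
  rw [h, SL_vol _ L hL]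

lemma sqrt_pi_pos : 0 < Real.sqrt Real.pi := Real.sqrt_pos.2 Real.pi_pos

/-- the lower range -/
lemma regA (S : Set ℝ) (hS : MeasurableSet S) (hSf : volume S < ⊤) (N : ℝ → ℝ) (hN : Continuous N) (κ c1 c2 c3 c L : ℝ)
    (hκ : 0 < κ) (h1 : 0 ≤ c1) (h2 : 0 ≤ c2) (h3 : 0 ≤ c3) (hcL : c ≤ L) (hL : 0 ≤ L)
    (hb : ∀ u ∈ Ioc 0 c, N u ≤ c1 * Real.exp (-(κ ^ 2 * u ^ 2)) + c2 * u + c3) :
    ∫ u in Ioc 0 c, GG S u * N u ≤ c1 * ((volume S).toReal * (Real.sqrt Real.pi / (2 * κ))) +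
      c2 * (∫ u in Ioc 0 L, GG S u * u) + c3 * ((volume S).toReal * L) := by
  set s := (volume S).toReal with hs
  have hs0 : 0 ≤ s := ENNReal.toReal_nonneg
  have i0 : ∀ a b : ℝ, IntegrableOn (fun u => GG S u * N u) (Ioc a b) := fun a b =>
    GG_mul_intOn S hS hSf N a b (hN.continuousOn.integrableOn_Icc.mono_set Ioc_subset_Icc_self)
  have hce : Continuous (fun u : ℝ => Real.exp (-(κ ^ 2 * u ^ 2))) := by fun_prop
  have i1 : ∀ a b : ℝ, IntegrableOn (fun u => GG S u * Real.exp (-(κ ^ 2 * u ^ 2))) (Ioc a b) := fun a b =>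
    GG_mul_intOn S hS hSf _ a b (hce.continuousOn.integrableOn_Icc.mono_set Ioc_subset_Icc_self)
  have i2 : ∀ a b : ℝ, IntegrableOn (fun u => GG S u * u) (Ioc a b) := fun a b =>
    GG_mul_intOn S hS hSf _ a b (continuous_id.continuousOn.integrableOn_Icc.mono_set Ioc_subset_Icc_self)
  have i3 : ∀ a b : ℝ, IntegrableOn (fun u => GG S u * (1 : ℝ)) (Ioc a b) := fun a b =>
    GG_mul_intOn S hS hSf _ a b (continuous_const.continuousOn.integrableOn_Icc.mono_set Ioc_subset_Icc_self)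
  have hm : ∫ u in Ioc 0 c, GG S u * N u ≤ ∫ u in Ioc 0 c, (c1 * (GG S u * Real.exp (-(κ ^ 2 * u ^ 2))) +
      c2 * (GG S u * u) + c3 * (GG S u * 1)) := by
    apply setIntegral_mono_on (i0 0 c) ((((i1 0 c).const_mul c1).add ((i2 0 c).const_mul c2)).add ((i3 0 c).const_mul c3))
      measurableSet_Ioc
    intro u hu
    have := mul_le_mul_of_nonneg_left (hb u hu) (GG_nn S u)
    refine this.trans (le_of_eq ?_)
    show GG S u * (c1 * Real.exp (-(κ ^ 2 * u ^ 2)) + c2 * u + c3) = c1 * (GG S u * Real.exp (-(κ ^ 2 * u ^ 2))) +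
      c2 * (GG S u * u) + c3 * (GG S u * 1)
    ring
  refine hm.trans ?_
  have i12 : IntegrableOn (fun u => c1 * (GG S u * Real.exp (-(κ ^ 2 * u ^ 2))) + c2 * (GG S u * u)) (Ioc 0 c) :=
    ((i1 0 c).const_mul c1).add ((i2 0 c).const_mul c2)
  rw [integral_add i12 ((i3 0 c).const_mul c3),
    integral_add ((i1 0 c).const_mul c1) ((i2 0 c).const_mul c2), integral_const_mul, integral_const_mul, integral_const_mul]
  have e1 : ∫ u in Ioc 0 c, GG S u * Real.exp (-(κ ^ 2 * u ^ 2)) ≤ s * (Real.sqrt Real.pi / (2 * κ)) := by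
    have hg : IntegrableOn (fun u : ℝ => Real.exp (-(κ ^ 2) * u ^ 2)) (Ioi 0) :=
      (integrable_exp_neg_mul_sq (by positivity : 0 < κ ^ 2)).integrableOn
    have hg' : IntegrableOn (fun u : ℝ => s * Real.exp (-(κ ^ 2) * u ^ 2)) (Ioc 0 c) :=
      (hg.mono_set Ioc_subset_Ioi_self).const_mul s
    have a1 : ∫ u in Ioc 0 c, GG S u * Real.exp (-(κ ^ 2 * u ^ 2)) ≤ ∫ u in Ioc 0 c, s * Real.exp (-(κ ^ 2) * u ^ 2) := by
      apply setIntegral_mono_on (i1 0 c) hg' measurableSet_Ioc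
      intro u _
      have := GG_mul_le S hSf (Real.exp (-(κ ^ 2 * u ^ 2))) u (Real.exp_pos _).le
      rw [neg_mul]
      exact this
    refine a1.trans ?_
    rw [integral_const_mul]
    apply mul_le_mul_of_nonneg_left _ hs0
    have a2 := setIntegral_mono_set hg (Eventually.of_forall fun u => (Real.exp_pos _).le)
      (show Ioc (0 : ℝ) c ⊆ Ioi 0 from fun x hx => hx.1).eventuallyLE
    refine a2.trans (le_of_eq ?_)
    rw [integral_gaussian_Ioi, Real.sqrt_div Real.pi_pos.le, Real.sqrt_sq hκ.le]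
    field_simp
  have e2 : ∫ u in Ioc 0 c, GG S u * u ≤ ∫ u in Ioc 0 L, GG S u * u := by
    apply setIntegral_mono_set (i2 0 L)
    · rw [EventuallyLE, ae_restrict_iff' measurableSet_Ioc]
      exact Eventually.of_forall fun u hu => mul_nonneg (GG_nn S u) hu.1.le
    · exact (Ioc_subset_Ioc_right hcL).eventuallyLE
  have e3 : ∫ u in Ioc 0 c, GG S u * 1 ≤ s * L := by
    have a1 : ∫ u in Ioc 0 c, GG S u * 1 ≤ ∫ u in Ioc 0 L, s := by
      have a2 : ∫ u in Ioc 0 c, GG S u * 1 ≤ ∫ u in Ioc 0 L, GG S u * 1 := by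
        apply setIntegral_mono_set (i3 0 L)
        · exact Eventually.of_forall fun u => mul_nonneg (GG_nn S u) zero_le_one
        · exact (Ioc_subset_Ioc_right hcL).eventuallyLE
      refine a2.trans (setIntegral_mono_on (i3 0 L) (integrableOn_const (by simp) (by simp)) measurableSet_Ioc ?_)
      intro u _
      rw [mul_one]
      exact GG_bdd S hSf u
    refine a1.trans (le_of_eq ?_)
    rw [setIntegral_const, Real.volume_real_Ioc_of_le hL, smul_eq_mul]
    ring
  have f1 := mul_le_mul_of_nonneg_left e1 h1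
  have f2 := mul_le_mul_of_nonneg_left e2 h2
  have f3 := mul_le_mul_of_nonneg_left e3 h3
  linarith

/-- the upper range -/
lemma regB (S : Set ℝ) (hS : MeasurableSet S) (hSf : volume S < ⊤) (N K1 K2 : ℝ → ℝ) (hN : Continuous N) (c1 c2 c3 a b : ℝ)
    (hab : a ≤ b) (hK1 : IntegrableOn K1 (Ioc a b)) (hK2 : IntegrableOn K2 (Ioc a b)) (h3 : 0 ≤ c3)
    (hb : ∀ u ∈ Ioc a b, N u ≤ c1 * K1 u + c2 * K2 u + c3) :
    ∫ u in Ioc a b, GG S u * N u ≤ c1 * (∫ u in Ioc a b, GG S u * K1 u) + c2 * (∫ u in Ioc a b, GG S u * K2 u) +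
      c3 * ((volume S).toReal * (b - a)) := by
  set s := (volume S).toReal with hs
  have hs0 : 0 ≤ s := ENNReal.toReal_nonneg
  have i0 : IntegrableOn (fun u => GG S u * N u) (Ioc a b) :=
    GG_mul_intOn S hS hSf N a b (hN.continuousOn.integrableOn_Icc.mono_set Ioc_subset_Icc_self)
  have i1 : IntegrableOn (fun u => GG S u * K1 u) (Ioc a b) := GG_mul_intOn S hS hSf K1 a b hK1
  have i2 : IntegrableOn (fun u => GG S u * K2 u) (Ioc a b) := GG_mul_intOn S hS hSf K2 a b hK2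
  have i3 : IntegrableOn (fun u => GG S u * (1 : ℝ)) (Ioc a b) :=
    GG_mul_intOn S hS hSf _ a b (continuous_const.continuousOn.integrableOn_Icc.mono_set Ioc_subset_Icc_self)
  have hm : ∫ u in Ioc a b, GG S u * N u ≤ ∫ u in Ioc a b, (c1 * (GG S u * K1 u) +
      c2 * (GG S u * K2 u) + c3 * (GG S u * 1)) := by
    apply setIntegral_mono_on i0 (((i1.const_mul c1).add (i2.const_mul c2)).add (i3.const_mul c3)) measurableSet_Ioc
    intro u hu
    have := mul_le_mul_of_nonneg_left (hb u hu) (GG_nn S u)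
    refine this.trans (le_of_eq ?_)
    show GG S u * (c1 * K1 u + c2 * K2 u + c3) = c1 * (GG S u * K1 u) + c2 * (GG S u * K2 u) + c3 * (GG S u * 1)
    ring
  refine hm.trans ?_
  have i12 : IntegrableOn (fun u => c1 * (GG S u * K1 u) + c2 * (GG S u * K2 u)) (Ioc a b) :=
    (i1.const_mul c1).add (i2.const_mul c2)
  rw [integral_add i12 (i3.const_mul c3),
    integral_add (i1.const_mul c1) (i2.const_mul c2), integral_const_mul, integral_const_mul, integral_const_mul]
  have e3 : ∫ u in Ioc a b, GG S u * 1 ≤ s * (b - a) := by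
    have a1 : ∫ u in Ioc a b, GG S u * 1 ≤ ∫ u in Ioc a b, s := by
      refine setIntegral_mono_on i3 (integrableOn_const (by simp) (by simp)) measurableSet_Ioc ?_
      intro u _
      rw [mul_one]
      exact GG_bdd S hSf u
    refine a1.trans (le_of_eq ?_)
    rw [setIntegral_const, Real.volume_real_Ioc_of_le hab, smul_eq_mul]
    ring
  have f3 := mul_le_mul_of_nonneg_left e3 h3
  linarith

lemma SL_mom (S : Set ℝ) (L : ℝ) (hL : 0 < L) : ∫ u in Ioc 0 L, GG (SL S L) u * u = L ^ 3 * ∫ x in Ioc 0 1, GG S x * x := by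
  rw [← intervalIntegral.integral_of_le hL.le, ← intervalIntegral.integral_of_le zero_le_one]
  have h1 := intervalIntegral.integral_comp_div (a := 0) (b := L) (fun x => GG S x * x) hL.ne'
  rw [zero_div, div_self hL.ne', smul_eq_mul] at h1
  have h2 : ∫ u in (0 : ℝ)..L, GG (SL S L) u * u = ∫ u in (0 : ℝ)..L, L ^ 2 * (GG S (u / L) * (u / L)) := by
    apply intervalIntegral.integral_congr
    intro u _
    simp only
    rw [SL_GG S L u hL]
    field_simp
  rw [h2, intervalIntegral.integral_const_mul, h1]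
  ring

end Pool.Agent.L5helper10.QV
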