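import Pool.Agent.L5helper10.QV.As3

/-! The integral of the variance. -/

set_option autoImplicit false

open Filter Topology Set MeasureTheory
open Pool.Agent.L5helper10.TV
open ArithmeticFunction (vonMangoldt vonMangoldt_nonneg vonMangoldt_le_log)

namespace Pool.Agent.L5helper10.QV

lemma psi_meas (Q A : ℕ) : Measurable (fun X : ℝ => psi X Q A) := by
  have h1 : Measurable (fun m : ℕ => ∑ n ∈ (Finset.Icc 1 m).filter (fun n => n ≡ A [MOD Q]), vonMangoldt n) :=
    measurable_from_nat
  exact h1.comp Nat.measurable_floor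

lemma GV_meas (Q : ℕ) : Measurable (fun X : ℝ => GV X Q) := by
  unfold GV
  apply Finset.measurable_fun_sum
  intro A _
  exact ((psi_meas Q A).sub (by fun_prop)).pow_const 2

lemma psi_bd (X : ℝ) (hX : 0 ≤ X) (Q A : ℕ) : 0 ≤ psi X Q A ∧ psi X Q A ≤ Kc * X := by
  constructor
  · exact Finset.sum_nonneg fun _ _ => vonMangoldt_nonneg
  · refine le_trans ?_ (Chebyshev.psi_le_const_mul_self hX)
    unfold psi Chebyshev.psi
    apply Finset.sum_le_sum_of_subset_of_nonneg
    · intro n hn
      rw [Finset.mem_filter, Finset.mem_Icc] at hn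
      rw [Finset.mem_Ioc]
      exact ⟨by omega, hn.1.2⟩
    · exact fun _ _ _ => vonMangoldt_nonneg

lemma GV_bd (X : ℝ) (hX : 0 ≤ X) (Q : ℕ) : GV X Q ≤ Q * ((Kc + 1) * X) ^ 2 := by
  unfold GV
  have hK := Kc_pos
  have h1 : ∀ A ∈ (Finset.range Q).filter (fun A => A.Coprime Q), (psi X Q A - X / Nat.totient Q) ^ 2 ≤ ((Kc + 1) * X) ^ 2 := by
    intro A hA
    obtain ⟨h2, h3⟩ := psi_bd X hX Q A
    have hQ : 0 < Q := by
      rw [Finset.mem_filter, Finset.mem_range] at hA
      omega
    have h4 : (1 : ℝ) ≤ Nat.totient Q := by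
      exact_mod_cast Nat.totient_pos.2 hQ
    have h5 : X / Nat.totient Q ≤ X := div_le_self hX h4
    have h6 : 0 ≤ X / Nat.totient Q := by positivity
    apply sq_le_sq'
    · have : 0 ≤ Kc * X := by positivity
      linarith
    · linarith
  refine (Finset.sum_le_sum h1).trans ?_
  rw [Finset.sum_const, nsmul_eq_mul]
  apply mul_le_mul_of_nonneg_right _ (sq_nonneg _)
  have := Finset.card_filter_le (Finset.range Q) (fun A => A.Coprime Q)
  rw [Finset.card_range] at this
  exact_mod_cast this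

/-- the normalised variance -/
noncomputable def Rq (q : ℕ) (α : ℝ) : ℝ := GV ((q : ℝ) ^ α) q / ((q : ℝ) ^ α * Real.log q)

lemma Rq_eq (q : ℕ) (hq : 0 < q) (α : ℝ) : Rq q α = GV (Real.exp (α * Real.log q)) q * Real.exp (-(α * Real.log q)) / Real.log q := by
  unfold Rq
  have hq0 : (0 : ℝ) < q := by exact_mod_cast hq
  rw [Real.rpow_def_of_pos hq0, mul_comm (Real.log q) α, Real.exp_neg]
  have : Real.exp (α * Real.log q) ≠ 0 := (Real.exp_pos _).ne'
  rw [div_mul_eq_div_div, ← div_eq_mul_inv]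

lemma Rq_nonneg (q : ℕ) (α : ℝ) : 0 ≤ Rq q α := by
  unfold Rq
  have h1 := GV_nonneg ((q : ℝ) ^ α) q
  have h2 : 0 ≤ Real.log q := Real.log_natCast_nonneg q
  positivity

lemma Rq_meas (q : ℕ) (hq : 0 < q) : Measurable (Rq q) := by
  have : Rq q = fun α => GV (Real.exp (α * Real.log q)) q * Real.exp (-(α * Real.log q)) / Real.log q := by
    funext α; exact Rq_eq q hq α
  rw [this]
  have h1 : Measurable (fun α : ℝ => GV (Real.exp (α * Real.log q)) q) := (GV_meas q).comp (by fun_prop)
  exact (h1.mul (by fun_prop)).div_const _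

/-- the weighted function on the logarithmic scale -/
lemma Gv_intOn (q : ℕ) (ω : ℝ → ℝ) (hω : Measurable ω) (hω0 : ∀ x, 0 ≤ ω x) (B : ℝ) (hωB : ∀ x, ω x ≤ B) (a b : ℝ) :
    IntegrableOn (fun α => ω α * (GV (Real.exp (α * Real.log q)) q * Real.exp (-(α * Real.log q)))) (Ioc a b) := by
  have hfin : IsFiniteMeasure (volume.restrict (Ioc a b)) := ⟨by simp⟩
  have hL : 0 ≤ Real.log q := Real.log_natCast_nonneg q
  have hB0 : 0 ≤ B := (hω0 0).trans (hωB 0)
  refine Integrable.of_bound (C := B * (q * (Kc + 1) ^ 2 * Real.exp (b * Real.log q))) ?_ ?_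
  · have h1 : Measurable (fun α : ℝ => GV (Real.exp (α * Real.log q)) q) := (GV_meas q).comp (by fun_prop)
    exact (hω.mul (h1.mul (by fun_prop))).aestronglyMeasurable
  · rw [ae_restrict_iff' measurableSet_Ioc]
    refine Eventually.of_forall fun α hα => ?_
    have h1 := GV_nonneg (Real.exp (α * Real.log q)) q
    have h2 := GV_bd (Real.exp (α * Real.log q)) (Real.exp_pos _).le q
    rw [Real.norm_of_nonneg (mul_nonneg (hω0 α) (mul_nonneg h1 (Real.exp_pos _).le))]
    apply mul_le_mul (hωB α) _ (mul_nonneg h1 (Real.exp_pos _).le) hB0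
    calc GV (Real.exp (α * Real.log q)) q * Real.exp (-(α * Real.log q)) ≤
        (q * ((Kc + 1) * Real.exp (α * Real.log q)) ^ 2) * Real.exp (-(α * Real.log q)) :=
          mul_le_mul_of_nonneg_right h2 (Real.exp_pos _).le
      _ = q * (Kc + 1) ^ 2 * Real.exp (α * Real.log q) * (Real.exp (α * Real.log q) * Real.exp (-(α * Real.log q))) := by ring
      _ = q * (Kc + 1) ^ 2 * Real.exp (α * Real.log q) := by rw [← Real.exp_add, add_neg_cancel, Real.exp_zero, mul_one]
      _ ≤ q * (Kc + 1) ^ 2 * Real.exp (b * Real.log q) := by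
          apply mul_le_mul_of_nonneg_left _ (by positivity)
          exact Real.exp_le_exp.2 (mul_le_mul_of_nonneg_right hα.2 hL)

/-- the integral of the mean square against the weight -/
theorem I0_bd (q : ℕ) [NeZero q] (hq : 2 ≤ q) (hL1 : 1 ≤ Real.log q) (ω : ℝ → ℝ) (hω : Measurable ω) (hω0 : ∀ x, 0 ≤ ω x)
    (B ℓ δ : ℝ) (hωB : ∀ x, ω x ≤ B) (hωℓ : ∀ x, ℓ < x → ω x = 0) (hℓ : 1 ≤ ℓ) (hδ : 0 < δ) :
    ∫ v in Icc ((1 - δ) * Real.log q - δ * Real.log q) (ℓ * Real.log q + δ * Real.log q),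
      (Real.log q * ω (v / Real.log q)) * Ph q v ≤
      q.totient * Real.log q ^ 3 * ((∫ α in Ioc 1 ℓ, ω α * Rq q α) + 2 * δ * Kc * B) := by
  set L := Real.log q with hL
  have hL0 : 0 < L := by linarith
  have hB0 : 0 ≤ B := (hω0 0).trans (hωB 0)
  have hKc := Kc_pos
  set φ : ℝ := (q.totient : ℝ) with hφ
  have hφ0 : 0 ≤ φ := Nat.cast_nonneg _
  set J : Set ℝ := Icc ((1 - δ) * L - δ * L) (ℓ * L + δ * L) with hJ
  set J1 : Set ℝ := Icc ((1 - δ) * L - δ * L) L with hJ1
  set J2 : Set ℝ := Ioc L (ℓ * L) with hJ2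
  set c1 : ℝ := L * B * (φ * (Kc * L)) with hc1
  set H : ℝ → ℝ := fun v => ω (v / L) * (GV (Real.exp (v / L * L)) q * Real.exp (-(v / L * L))) with hH
  have hH0 : ∀ v, 0 ≤ H v := fun v => mul_nonneg (hω0 _) (mul_nonneg (GV_nonneg _ _) (Real.exp_pos _).le)
  have hpt : ∀ v ∈ J, (L * ω (v / L)) * Ph q v ≤ J1.indicator (fun _ => c1) v + J2.indicator (fun v => L * φ * H v) v := by
    intro v hv
    have hP0 := Ph_nonneg q v
    have hc10 : 0 ≤ c1 := by positivity
    have hi1 : 0 ≤ J1.indicator (fun _ => c1) v := Set.indicator_nonneg (fun _ _ => hc10) v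
    have hi2 : 0 ≤ J2.indicator (fun v => L * φ * H v) v :=
      Set.indicator_nonneg (fun v _ => mul_nonneg (by positivity) (hH0 v)) v
    rcases le_or_gt v L with h1 | h1
    · have hm : v ∈ J1 := ⟨hv.1, h1⟩
      rw [Set.indicator_of_mem hm]
      have h2 := Ph_small q v h1
      have h3 : (L * ω (v / L)) * Ph q v ≤ (L * B) * (φ * (Kc * L)) :=
        mul_le_mul (mul_le_mul_of_nonneg_left (hωB _) hL0.le) h2 hP0 (by positivity)
      linarith
    · rcases le_or_gt v (ℓ * L) with h2 | h2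
      · have hm : v ∈ J2 := ⟨h1, h2⟩
        rw [Set.indicator_of_mem hm]
        have h3 := Ph_GV q hq v
        have e : v / L * L = v := div_mul_cancel₀ v hL0.ne'
        have h4 : (L * ω (v / L)) * Ph q v ≤ (L * ω (v / L)) * (φ * (GV (Real.exp v) q * Real.exp (-v))) :=
          mul_le_mul_of_nonneg_left h3 (mul_nonneg hL0.le (hω0 _))
        have h5 : L * φ * H v = (L * ω (v / L)) * (φ * (GV (Real.exp v) q * Real.exp (-v))) := by
          simp only [hH]; rw [e]; ring
        rw [h5]
        linarith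
      · have h3 : ω (v / L) = 0 := hωℓ _ (by rw [lt_div_iff₀ hL0]; exact h2)
        rw [h3, mul_zero, zero_mul]
        linarith
  have hHi : IntegrableOn H (Ioc L (ℓ * L)) := by
    have h1 := Gv_intOn q ω hω hω0 B hωB 1 ℓ
    rw [← hL] at h1
    have h2 : IntervalIntegrable (fun α => ω α * (GV (Real.exp (α * L)) q * Real.exp (-(α * L)))) volume 1 ℓ := by
      rw [intervalIntegrable_iff_integrableOn_Ioc_of_le hℓ]; exact h1
    have h3 := h2.comp_mul_right (c := L⁻¹)
    rw [one_div, inv_inv, div_inv_eq_mul] at h3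
    have h4 : L ≤ ℓ * L := le_mul_of_one_le_left hL0.le hℓ
    rw [intervalIntegrable_iff_integrableOn_Ioc_of_le h4] at h3
    exact h3
  have hind1 : IntegrableOn (J1.indicator (fun _ => c1)) J := by
    apply IntegrableOn.indicator _ measurableSet_Icc
    exact integrableOn_const (by simp [hJ]) (by simp)
  have hind2 : IntegrableOn (J2.indicator (fun v => L * φ * H v)) J := by
    have h1 : Integrable (J2.indicator (fun v => L * φ * H v)) := by
      rw [integrable_indicator_iff measurableSet_Ioc]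
      exact hHi.const_mul (L * φ)
    exact h1.integrableOn
  have hLi : IntegrableOn (fun v => (L * ω (v / L)) * Ph q v) J := by
    have hfin : IsFiniteMeasure (volume.restrict J) := ⟨by simp [hJ]⟩
    refine Integrable.of_bound (C := (L * B) * (φ * Kc ^ 2 * Real.exp (ℓ * L + δ * L))) ?_ ?_
    · have h1 : Measurable (fun v : ℝ => ω (v / L)) := hω.comp (by fun_prop)
      exact ((h1.const_mul L).mul (Ph_meas q)).aestronglyMeasurable
    · rw [ae_restrict_iff' measurableSet_Icc]
      refine Eventually.of_forall fun v hv => ?_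
      rw [Real.norm_of_nonneg (mul_nonneg (mul_nonneg hL0.le (hω0 _)) (Ph_nonneg q v))]
      apply mul_le_mul (mul_le_mul_of_nonneg_left (hωB _) hL0.le) _ (Ph_nonneg q v) (by positivity)
      exact (Ph_le q v).trans (mul_le_mul_of_nonneg_left (Real.exp_le_exp.2 hv.2) (by positivity))
  have h1 := setIntegral_mono_on hLi (hind1.add hind2) measurableSet_Icc hpt
  refine h1.trans ?_
  have h2 : ∫ v in J, (J1.indicator (fun _ => c1) + J2.indicator (fun v => L * φ * H v)) v =
      (∫ v in J, J1.indicator (fun _ => c1) v) + ∫ v in J, J2.indicator (fun v => L * φ * H v) v :=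
    integral_add hind1 hind2
  rw [h2]
  have hJ1J : J ∩ J1 = J1 := by
    apply Set.inter_eq_self_of_subset_right
    intro v hv
    refine ⟨hv.1, hv.2.trans ?_⟩
    have : L ≤ ℓ * L := le_mul_of_one_le_left hL0.le hℓ
    have : 0 ≤ δ * L := by positivity
    linarith
  have hJ2J : J ∩ J2 = J2 := by
    apply Set.inter_eq_self_of_subset_right
    intro v hv
    have h3 : 0 ≤ δ * L := by positivity
    exact ⟨by linarith [hv.1], by linarith [hv.2]⟩
  have e1 : ∫ v in J, J1.indicator (fun _ => c1) v = 2 * δ * L * c1 := by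
    rw [setIntegral_indicator measurableSet_Icc, hJ1J, setIntegral_const, smul_eq_mul]
    have h3 : 0 ≤ δ * L := by positivity
    rw [Real.volume_real_Icc_of_le (by linarith)]
    ring
  have e2 : ∫ v in J, J2.indicator (fun v => L * φ * H v) v = L ^ 3 * φ * ∫ α in Ioc 1 ℓ, ω α * Rq q α := by
    rw [setIntegral_indicator measurableSet_Ioc, hJ2J, integral_const_mul]
    have h4 : L ≤ ℓ * L := le_mul_of_one_le_left hL0.le hℓ
    rw [← intervalIntegral.integral_of_le h4, ← intervalIntegral.integral_of_le hℓ]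
    have h5 := intervalIntegral.integral_comp_div (a := L) (b := ℓ * L)
      (fun α => ω α * (GV (Real.exp (α * L)) q * Real.exp (-(α * L)))) hL0.ne'
    rw [div_self hL0.ne', mul_div_cancel_right₀ ℓ hL0.ne', smul_eq_mul] at h5
    have h6 : ∫ v in L..(ℓ * L), H v = L * ∫ α in (1 : ℝ)..ℓ, ω α * (GV (Real.exp (α * L)) q * Real.exp (-(α * L))) := h5
    have h7 : ∫ α in (1 : ℝ)..ℓ, ω α * (GV (Real.exp (α * L)) q * Real.exp (-(α * L))) = L * ∫ α in (1 : ℝ)..ℓ, ω α * Rq q α := by
      rw [← intervalIntegral.integral_const_mul]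
      apply intervalIntegral.integral_congr
      intro α _
      simp only
      rw [Rq_eq q (by omega) α, ← hL]
      field_simp
    rw [h6, h7]
    ring
  rw [e1, e2, hc1]
  apply le_of_eq
  ring

end Pool.Agent.L5helper10.QV
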