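import Pool.Agent.L5helper10.QV.As4

/-! The two sides of the main inequality at a fixed modulus. -/

set_option autoImplicit false

open Filter Topology Set MeasureTheory
open Pool.Agent.L5helper10.TV

namespace Pool.Agent.L5helper10.QV

lemma sqrt_two_pi_eq : Real.sqrt (2 * Real.pi) = Real.sqrt 2 * Real.sqrt Real.pi := Real.sqrt_mul (by norm_num) _

lemma pi_eq : Real.pi = Real.sqrt Real.pi * Real.sqrt Real.pi := (Real.mul_self_sqrt Real.pi_pos.le).symm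

/-- the left side -/
lemma lhs_low (n : ℕ) (a w T C : ℕ → ℝ) (ha : ∀ j, a j ≤ a (j + 1)) (hw : ∀ j, 0 ≤ w j) (hw4 : ∀ j, w j ≤ 4)
    (κ φ L e2 η r εc : ℝ) (hκ : 0 < κ) (hφ : 0 ≤ φ) (hL : 0 ≤ L) (hr : 0 ≤ r) (hεc : 0 ≤ εc)
    (hT : ∀ j ∈ Finset.range n, κ / Real.sqrt (2 * Real.pi) * ((a (j + 1) - a j) * (φ * L * (1 - e2 - η))) ≤ T j)
    (hC : ∀ j ∈ Finset.range n, C j ≤ φ * L * ((a (j + 1) - a j + 4 * r) / (2 * Real.pi) + εc)) :
    κ * φ * L * ((∑ j ∈ Finset.range n, w j * (a (j + 1) - a j)) / (2 * Real.sqrt Real.pi) -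
      ((∑ j ∈ Finset.range n, w j * (a (j + 1) - a j)) * (e2 + η) / Real.sqrt Real.pi +
      4 * n * (Real.sqrt Real.pi * (2 * r / Real.pi + εc)))) ≤
      ∑ j ∈ Finset.range n, w j * (Real.sqrt 2 * T j - Real.sqrt Real.pi * κ * C j) := by
  have hsp := sqrt_pi_pos
  have hs2 : 0 < Real.sqrt 2 := Real.sqrt_pos.2 two_pos
  set σ := Real.sqrt Real.pi with hσ
  have hπ : Real.pi = σ * σ := pi_eq
  have h1 : ∀ j ∈ Finset.range n, κ * φ * L * (w j * (a (j + 1) - a j) / (2 * σ) -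
      (w j * (a (j + 1) - a j) * (e2 + η) / σ + 4 * (σ * (2 * r / Real.pi + εc)))) ≤
      w j * (Real.sqrt 2 * T j - σ * κ * C j) := by
    intro j hj
    have h2 := mul_le_mul_of_nonneg_left (hT j hj) hs2.le
    have h3 := mul_le_mul_of_nonneg_left (hC j hj) (by positivity : 0 ≤ σ * κ)
    set h := a (j + 1) - a j with hh
    have e1 : Real.sqrt 2 * (κ / Real.sqrt (2 * Real.pi) * (h * (φ * L * (1 - e2 - η)))) =
        κ * φ * L * (h * (1 - e2 - η) / σ) := by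
      rw [sqrt_two_pi_eq, ← hσ]
      field_simp
    have e2' : σ * κ * (φ * L * ((h + 4 * r) / (2 * Real.pi) + εc)) =
        κ * φ * L * (h / (2 * σ) + σ * (2 * r / Real.pi + εc)) := by
      rw [hπ]
      field_simp
      ring
    rw [e1] at h2
    rw [e2'] at h3
    have h4 : κ * φ * L * (h / (2 * σ) - h * (e2 + η) / σ - σ * (2 * r / Real.pi + εc)) ≤ Real.sqrt 2 * T j - σ * κ * C j := by
      have e : κ * φ * L * (h * (1 - e2 - η) / σ) - κ * φ * L * (h / (2 * σ) + σ * (2 * r / Real.pi + εc)) =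
        κ * φ * L * (h / (2 * σ) - h * (e2 + η) / σ - σ * (2 * r / Real.pi + εc)) := by
        field_simp
        ring
      linarith
    have h5 := mul_le_mul_of_nonneg_left h4 (hw j)
    have h6 : w j * (σ * (2 * r / Real.pi + εc)) ≤ 4 * (σ * (2 * r / Real.pi + εc)) :=
      mul_le_mul_of_nonneg_right (hw4 j) (by positivity)
    have h7 := mul_le_mul_of_nonneg_left h6 (by positivity : 0 ≤ κ * φ * L)
    have e3 : w j * (κ * φ * L * (h / (2 * σ) - h * (e2 + η) / σ - σ * (2 * r / Real.pi + εc))) =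
      κ * φ * L * (w j * h / (2 * σ) - w j * h * (e2 + η) / σ) - κ * φ * L * (w j * (σ * (2 * r / Real.pi + εc))) := by ring
    have e4 : κ * φ * L * (w j * h / (2 * σ) - (w j * h * (e2 + η) / σ + 4 * (σ * (2 * r / Real.pi + εc)))) =
      κ * φ * L * (w j * h / (2 * σ) - w j * h * (e2 + η) / σ) - κ * φ * L * (4 * (σ * (2 * r / Real.pi + εc))) := by ring
    rw [e3] at h5
    rw [e4]
    linarith
  refine le_trans (le_of_eq ?_) (Finset.sum_le_sum h1)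
  rw [← Finset.mul_sum, Finset.sum_sub_distrib, Finset.sum_add_distrib, ← Finset.sum_div, ← Finset.sum_div, ← Finset.sum_mul,
    Finset.sum_const, Finset.card_range, nsmul_eq_mul]
  ring

/-- the integral of the convolution -/
lemma J_bd (q : ℕ) [NeZero q] (L : ℝ) (hL0 : 0 < L) (S : Set ℝ) (hS : MeasurableSet S)
    (ω : ℝ → ℝ) (hω : Measurable ω) (hω0 : ∀ x, 0 ≤ ω x) (B ℓ δ : ℝ) (hωB : ∀ x, ω x ≤ B) (hℓ : 1 ≤ ℓ) (hδ : 0 < δ)
    (hδ1 : δ ≤ 1 / 2) (hsh : ∀ α β, 0 ≤ α → |α - β| ≤ δ → GG S α ≤ ω β) (β : ℝ) (hβ : 0 < β) :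
    ∫ u in Ioc ((1 - δ) * L) (ℓ * L), GG (SL S L) u * (∫ v, Ph q v * Real.exp (-(β ^ 2 * (u - v) ^ 2))) ≤
      (Real.sqrt Real.pi / β) * (∫ v in Icc ((1 - δ) * L - δ * L) (ℓ * L + δ * L), (L * ω (v / L)) * Ph q v) +
      (ℓ * L - (1 - δ) * L) * ((L * B) * (q.totient * Kc ^ 2) * Real.exp (-(β ^ 2 * (δ * L) ^ 2 / 2)) *
        (Real.exp (ℓ * L + 1 / (2 * β ^ 2)) * (Real.sqrt (2 * Real.pi) / β))) := by
  have hGB : ∀ α, GG S α ≤ B := by
    intro α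
    have h1 : GG S α = GG S |α| := by
      rcases le_or_gt 0 α with h | h
      · rw [abs_of_nonneg h]
      · rw [abs_of_neg h, GG_neg]
    rw [h1]
    exact (hsh |α| |α| (abs_nonneg α) (by rw [sub_self, abs_zero]; exact hδ.le)).trans (hωB _)
  apply conv_bd (Ph q) (GG (SL S L)) (fun v => L * ω (v / L)) (Ph_meas q) (Ph_nonneg q) (q.totient * Kc ^ 2) (Ph_le q)
    (GG_nn _) (L * B) _ ((hω.comp (by fun_prop)).const_mul L) (fun v => mul_nonneg hL0.le (hω0 _))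
    (fun v => mul_le_mul_of_nonneg_left (hωB _) hL0.le) ((1 - δ) * L) (ℓ * L) (δ * L) _ _ (by positivity) β hβ
  · intro u
    rw [SL_GG S L u hL0]
    exact mul_le_mul_of_nonneg_left (hGB _) hL0.le
  · nlinarith
  · intro u v hu huv
    rw [SL_GG S L u hL0]
    apply mul_le_mul_of_nonneg_left _ hL0.le
    apply hsh
    · have h1 : 0 ≤ (1 - δ) * L := mul_nonneg (by linarith) hL0.le
      exact div_nonneg (h1.trans hu.1) hL0.le
    · rw [← sub_div, abs_div, abs_of_pos hL0, div_le_iff₀ hL0]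
      exact huv

/-- with the parameters -/
lemma J_two (q : ℕ) [NeZero q] (L : ℝ) (hL1 : 1 ≤ L) (S : Set ℝ) (hS : MeasurableSet S)
    (ω : ℝ → ℝ) (hω : Measurable ω) (hω0 : ∀ x, 0 ≤ ω x) (B ℓ δ : ℝ) (hωB : ∀ x, ω x ≤ B) (hℓ : 1 ≤ ℓ) (hδ : 0 < δ)
    (hδ1 : δ ≤ 1 / 2) (hsh : ∀ α β, 0 ≤ α → |α - β| ≤ δ → GG S α ≤ ω β) (κ0 : ℝ) (hκ0 : 2 ≤ κ0)
    (hκδ : 4 * ℓ + 8 ≤ κ0 ^ 2 * δ ^ 2) :
    (∫ u in Ioc ((1 - δ) * L) (ℓ * L), GG (SL S L) u * (∫ v, Ph q v * Real.exp (-((κ0 / Real.sqrt L) ^ 2 * (u - v) ^ 2))) ≤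
      (Real.sqrt Real.pi / (κ0 / Real.sqrt L)) * (∫ v in Icc ((1 - δ) * L - δ * L) (ℓ * L + δ * L), (L * ω (v / L)) * Ph q v) +
      q.totient * (5 * ℓ * B * Kc ^ 2 * L ^ 2 * Real.exp (-(1 * L))) / (κ0 / Real.sqrt L)) ∧
    (∫ u in Ioc ((1 - δ) * L) (ℓ * L), GG (SL S L) u * (∫ v, Ph q v * Real.exp (-((κ0 / Real.sqrt L) ^ 2 * (u - v) ^ 2 / 2))) ≤
      (2 * Real.sqrt Real.pi / (κ0 / Real.sqrt L)) * (∫ v in Icc ((1 - δ) * L - δ * L) (ℓ * L + δ * L), (L * ω (v / L)) * Ph q v) +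
      q.totient * (5 * ℓ * B * Kc ^ 2 * L ^ 2 * Real.exp (-(1 * L))) / (κ0 / Real.sqrt L)) := by
  have hL0 : 0 < L := by linarith
  have hB0 : 0 ≤ B := (hω0 0).trans (hωB 0)
  have hKc := Kc_pos
  obtain ⟨k1, k2, k3, k4, k5⟩ := kap (L := L) (κ0 := κ0) (by linarith) hL1
  set κ := κ0 / Real.sqrt L with hκ
  set I := ∫ v in Icc ((1 - δ) * L - δ * L) (ℓ * L + δ * L), (L * ω (v / L)) * Ph q v with hI
  have hI0 : 0 ≤ I := integral_nonneg fun v => mul_nonneg (mul_nonneg hL0.le (hω0 _)) (Ph_nonneg q v)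
  set φ : ℝ := (q.totient : ℝ) with hφ
  have hφ0 : 0 ≤ φ := Nat.cast_nonneg _
  have hs2 : 0 < Real.sqrt 2 := Real.sqrt_pos.2 two_pos
  have hs2' : Real.sqrt 2 * Real.sqrt 2 = 2 := Real.mul_self_sqrt (by norm_num)
  have hs2le : Real.sqrt 2 ≤ 3 / 2 := by
    rw [Real.sqrt_le_left (by norm_num)]; norm_num
  have hsp := sqrt_pi_pos
  have hk0 : 0 < κ0 ^ 2 := by positivity
  have hk0' : 1 / κ0 ^ 2 ≤ 1 / 4 := one_div_le_one_div_of_le (by norm_num) (by nlinarith)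
  have hgap : (ℓ * L - (1 - δ) * L) ≤ ℓ * L := by nlinarith
  have hgap0 : 0 ≤ ℓ * L - (1 - δ) * L := by nlinarith
  -- the error of the convolution
  have herr : ∀ β c : ℝ, 0 < β → β ^ 2 * L ≤ κ0 ^ 2 → κ0 ^ 2 ≤ 2 * (β ^ 2 * L) → Real.sqrt (2 * Real.pi) / β ≤ 5 / κ →
      (ℓ * L - (1 - δ) * L) * ((L * B) * (φ * Kc ^ 2) * Real.exp (-(β ^ 2 * (δ * L) ^ 2 / 2)) *
        (Real.exp (ℓ * L + 1 / (2 * β ^ 2)) * (Real.sqrt (2 * Real.pi) / β))) ≤
      φ * (5 * ℓ * B * Kc ^ 2 * L ^ 2 * Real.exp (-(1 * L))) / κ := by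
    intro β _ hβ hb1 hb2 hb3
    have hb2' : κ0 ^ 2 / (2 * L) ≤ β ^ 2 := by
      rw [div_le_iff₀ (by positivity)]; linarith
    have a1 : 1 / (2 * β ^ 2) ≤ L / κ0 ^ 2 := by
      rw [div_le_div_iff₀ (by positivity) hk0]
      nlinarith
    have a2 : L / κ0 ^ 2 ≤ L * (1 / 4) := by
      calc L / κ0 ^ 2 = L * (1 / κ0 ^ 2) := by ring
        _ ≤ _ := mul_le_mul_of_nonneg_left hk0' hL0.le
    have a3 : (ℓ + 2) * L ≤ β ^ 2 * (δ * L) ^ 2 / 2 := by
      have b1 : κ0 ^ 2 / 2 * (δ ^ 2 * L) ≤ (β ^ 2 * L) * (δ ^ 2 * L) :=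
        mul_le_mul_of_nonneg_right (by linarith) (by positivity)
      have b2 : (4 * ℓ + 8) * L ≤ κ0 ^ 2 * δ ^ 2 * L := mul_le_mul_of_nonneg_right hκδ hL0.le
      nlinarith
    have a4 : Real.exp (-(β ^ 2 * (δ * L) ^ 2 / 2)) * Real.exp (ℓ * L + 1 / (2 * β ^ 2)) ≤ Real.exp (-(1 * L)) := by
      rw [← Real.exp_add]
      apply Real.exp_le_exp.2
      nlinarith
    have hE0 : 0 < Real.exp (-(1 * L)) := Real.exp_pos _
    calc (ℓ * L - (1 - δ) * L) * ((L * B) * (φ * Kc ^ 2) * Real.exp (-(β ^ 2 * (δ * L) ^ 2 / 2)) *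
        (Real.exp (ℓ * L + 1 / (2 * β ^ 2)) * (Real.sqrt (2 * Real.pi) / β))) =
        (ℓ * L - (1 - δ) * L) * ((L * B) * (φ * Kc ^ 2) * ((Real.exp (-(β ^ 2 * (δ * L) ^ 2 / 2)) *
        Real.exp (ℓ * L + 1 / (2 * β ^ 2))) * (Real.sqrt (2 * Real.pi) / β))) := by ring
      _ ≤ (ℓ * L) * ((L * B) * (φ * Kc ^ 2) * (Real.exp (-(1 * L)) * (5 / κ))) := by
          apply mul_le_mul hgap _ (by positivity) (by positivity)
          apply mul_le_mul_of_nonneg_left _ (by positivity)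
          exact mul_le_mul a4 hb3 (by positivity) hE0.le
      _ = _ := by ring
  constructor
  · have h1 := J_bd q L hL0 S hS ω hω hω0 B ℓ δ hωB hℓ hδ hδ1 hsh κ k1
    have h2 := herr κ 0 k1 (by rw [k3]) (by rw [k3]; linarith) (by
      apply div_le_div_of_nonneg_right _ k1.le
      have := sqrt_two_pi_le
      linarith)
    rw [← hI] at h1
    linarith
  · have hβ : 0 < κ / Real.sqrt 2 := by positivity
    have hβ2 : (κ / Real.sqrt 2) ^ 2 = κ ^ 2 / 2 := by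
      rw [div_pow, pow_two (Real.sqrt 2), hs2']
    have h1 := J_bd q L hL0 S hS ω hω hω0 B ℓ δ hωB hℓ hδ hδ1 hsh (κ / Real.sqrt 2) hβ
    have h2 := herr (κ / Real.sqrt 2) 0 hβ (by rw [hβ2]; nlinarith) (by rw [hβ2]; nlinarith) (by
      have e : Real.sqrt (2 * Real.pi) / (κ / Real.sqrt 2) = Real.sqrt (2 * Real.pi) * Real.sqrt 2 / κ := by field_simp
      rw [e]
      apply div_le_div_of_nonneg_right _ k1.le
      have h3 := mul_le_mul sqrt_two_pi_le hs2le hs2.le (by norm_num : (0 : ℝ) ≤ 3)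
      linarith)
    rw [← hI] at h1
    have e1 : ∀ u : ℝ, (∫ v, Ph q v * Real.exp (-(κ ^ 2 * (u - v) ^ 2 / 2))) =
        ∫ v, Ph q v * Real.exp (-((κ / Real.sqrt 2) ^ 2 * (u - v) ^ 2)) := by
      intro u
      rw [hβ2]
      apply integral_congr_ae
      refine Eventually.of_forall fun v => ?_
      simp only
      congr 2
      ring
    simp only [e1]
    have h3 : Real.sqrt Real.pi / (κ / Real.sqrt 2) ≤ 2 * Real.sqrt Real.pi / κ := by
      have e : Real.sqrt Real.pi / (κ / Real.sqrt 2) = Real.sqrt Real.pi * Real.sqrt 2 / κ := by field_simp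
      rw [e]
      apply div_le_div_of_nonneg_right _ k1.le
      nlinarith
    have h4 := mul_le_mul_of_nonneg_right h3 hI0
    linarith

end Pool.Agent.L5helper10.QV
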