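import Pool.Agent.L5helper10.QV.As5

/-! The right side of the main inequality at a fixed modulus. -/

set_option autoImplicit false

open Filter Topology Set MeasureTheory
open Pool.Agent.L5helper10.TV

namespace Pool.Agent.L5helper10.QV

/-- the right side -/
theorem rhs_up {q : ℕ} [NeZero q] (hq : 2 ≤ q) (hL1 : 1 ≤ Real.log q) (Gs : Finset (DirichletCharacter ℂ q))
    (n : ℕ) (a w : ℕ → ℝ) (ha : ∀ j, a j ≤ a (j + 1)) (hw : ∀ j, 0 ≤ w j)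
    (hwt : ∀ j t, a j ≤ t → t ≤ a (j + 1) → w j * (1 / 4 + t ^ 2) ≤ 1)
    (S : Set ℝ) (hS : MeasurableSet S) (ω : ℝ → ℝ) (hω : Measurable ω) (hω0 : ∀ x, 0 ≤ ω x) (B ℓ δ : ℝ)
    (hωB : ∀ x, ω x ≤ B) (hωℓ : ∀ x, ℓ < x → ω x = 0) (hSℓ : S ⊆ Icc 0 ℓ)
    (hℓ : 1 ≤ ℓ) (hδ : 0 < δ) (hδ1 : δ ≤ 1 / 2) (hsh : ∀ α β, 0 ≤ α → |α - β| ≤ δ → GG S α ≤ ω β) (κ0 : ℝ) (hκ0 : 2 ≤ κ0)
    (hκδ : 4 * ℓ + 8 ≤ κ0 ^ 2 * δ ^ 2) (r η η1 : ℝ) (hη : 0 ≤ η) (hη1 : 0 < η1)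
    (hA : ∀ u, 0 ≤ u → u ≤ (1 - δ) * Real.log q → ∀ j ∈ Finset.range n, ∀ t ∈ Icc (a j) (a (j + 1)),
      ∑ χ ∈ Gs, ‖Eb χ r (a j) (a (j + 1)) (κ0 / Real.sqrt (Real.log q)) u t‖ ^ 2 ≤
        (κ0 / Real.sqrt (Real.log q)) ^ 2 / (2 * Real.pi) * (q.totient * ((1 + η) *
          (Real.log q ^ 2 * Real.exp (-((κ0 / Real.sqrt (Real.log q)) ^ 2 * u ^ 2)) +
            Real.sqrt Real.pi * u / (κ0 / Real.sqrt (Real.log q))) + η * Real.log q ^ (3 / 2 : ℝ))))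
    (hB : ∀ u, (1 - δ) * Real.log q ≤ u → u ≤ ℓ * Real.log q → ∀ j ∈ Finset.range n, ∀ t ∈ Icc (a j) (a (j + 1)),
      ∑ χ ∈ Gs, ‖Eb χ r (a j) (a (j + 1)) (κ0 / Real.sqrt (Real.log q)) u t‖ ^ 2 ≤
        (κ0 / Real.sqrt (Real.log q)) ^ 2 / (2 * Real.pi) * ((1 + η) *
          (∑ χ ∈ Sf q, ‖PP (ac χ) (κ0 / Real.sqrt (Real.log q)) u t‖ ^ 2) + q.totient * (η * Real.log q ^ (3 / 2 : ℝ)))) :
    2 * ∫ u in Ioc 0 (ℓ * Real.log q), GG (SL S (Real.log q)) u * NN Gs n a w r (κ0 / Real.sqrt (Real.log q)) u ≤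
      (κ0 / Real.sqrt (Real.log q)) * q.totient * Real.log q ^ 3 * (
        (∑ j ∈ Finset.range n, w j * (a (j + 1) - a j)) / Real.sqrt Real.pi * ((1 + η) * ((volume S).toReal / 2 +
          ∫ x in Ioc 0 1, GG S x * x)) +
        κ0 * (∑ j ∈ Finset.range n, w j * (a (j + 1) - a j)) * η * (volume S).toReal * (1 + ℓ) / Real.pi +
        2 * Real.sqrt Real.pi * ((1 + η) * ((1 + η1) + (1 + 1 / η1) * (8 * (κ0 / Real.sqrt (Real.log q)) ^ 2))) *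
          ((∫ α in Ioc 1 ℓ, ω α * Rq q α) + 2 * δ * Kc * B)) +
      (κ0 / Real.sqrt (Real.log q)) * q.totient * (2 * (1 + η) * ((1 + η1) + (1 + 1 / η1) *
        (4 * (κ0 / Real.sqrt (Real.log q)) ^ 2)) *
        (5 * ℓ * B * Kc ^ 2 * Real.log q ^ 2 * Real.exp (-(1 * Real.log q)))) := by
  set L := Real.log q with hL
  have hL0 : 0 < L := by linarith
  obtain ⟨k1, k2, k3, k4, k5⟩ := kap (L := L) (κ0 := κ0) (by linarith) hL1
  have hκL : κ0 / Real.sqrt L * L ^ (3 / 2 : ℝ) = κ0 * L := by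
    have hV0 : 0 < Real.sqrt L := Real.sqrt_pos.2 hL0
    have e : L ^ (3 / 2 : ℝ) = L * Real.sqrt L := by
      rw [Real.sqrt_eq_rpow]
      nth_rewrite 2 [← Real.rpow_one L]
      rw [← Real.rpow_add hL0]; norm_num
    rw [e]
    field_simp
  set κ := κ0 / Real.sqrt L with hκ
  set φ : ℝ := (q.totient : ℝ) with hφ
  have hφ0 : 0 ≤ φ := Nat.cast_nonneg _
  have hσ0 := sqrt_pi_pos
  set σ := Real.sqrt Real.pi with hσ
  have hπ : Real.pi = σ * σ := pi_eq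
  have hB0 : 0 ≤ B := (hω0 0).trans (hωB 0)
  have hKc := Kc_pos
  set W : ℝ := ∑ j ∈ Finset.range n, w j * (a (j + 1) - a j) with hW
  have hW0 : 0 ≤ W := Finset.sum_nonneg fun j _ => mul_nonneg (hw j) (by linarith [ha j])
  set c : ℝ := κ ^ 2 / (2 * Real.pi) with hc
  have hc0 : 0 ≤ c := by positivity
  set Sc := SL S L with hSc
  have hScm : MeasurableSet Sc := SL_meas S hS L
  have hScs : Sc ⊆ Icc 0 (ℓ * L) := SL_sub S L ℓ hL0 hSℓ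
  have hScf : volume Sc < ⊤ := (measure_mono hScs).trans_lt (by simp)
  set v1 : ℝ := (volume S).toReal with hv1
  have hv10 : 0 ≤ v1 := ENNReal.toReal_nonneg
  have hvol : (volume Sc).toReal = L * v1 := SL_vol S L hL0
  set E : ℝ := 5 * ℓ * B * Kc ^ 2 * L ^ 2 * Real.exp (-(1 * L)) with hE
  have hE0 : 0 ≤ E := by positivity
  set L32 : ℝ := L ^ (3 / 2 : ℝ) with hL32
  have hL320 : 0 ≤ L32 := by positivity
  have hNc : Continuous (NN Gs n a w r κ) := NN_cont Gs n a w r κ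
  have hlow : 0 ≤ (1 - δ) * L := mul_nonneg (by linarith) hL0.le
  have hlowL : (1 - δ) * L ≤ L := by nlinarith
  have hLℓ : L ≤ ℓ * L := le_mul_of_one_le_left hL0.le hℓ
  -- the lower range
  have hI1 : ∫ u in Ioc 0 ((1 - δ) * L), GG Sc u * NN Gs n a w r κ u ≤
      (W * (c * (φ * ((1 + η) * L ^ 2)))) * (L * v1 * (σ / (2 * κ))) +
      (W * (c * (φ * ((1 + η) * (σ / κ))))) * (L ^ 3 * ∫ x in Ioc 0 1, GG S x * x) +
      (W * (c * (φ * (η * L32)))) * (L * v1 * L) := by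
    have h1 := regA Sc hScm hScf (NN Gs n a w r κ) hNc κ (W * (c * (φ * ((1 + η) * L ^ 2))))
      (W * (c * (φ * ((1 + η) * (σ / κ))))) (W * (c * (φ * (η * L32)))) ((1 - δ) * L) L k1 (by positivity) (by positivity)
      (by positivity) hlowL hL0.le (by
        intro u hu
        have h2 := NN_A Gs n a w ha hw r κ u _ (hA u hu.1.le hu.2)
        refine h2.trans (le_of_eq ?_)
        rw [← hW]
        ring)
    rw [hvol, SL_mom S L hL0] at h1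
    exact h1
  -- the upper range
  set K1 : ℝ → ℝ := fun u => ∫ v, Ph q v * Real.exp (-(κ ^ 2 * (u - v) ^ 2)) with hK1
  set K2 : ℝ → ℝ := fun u => ∫ v, Ph q v * Real.exp (-(κ ^ 2 * (u - v) ^ 2 / 2)) with hK2
  have hK1i : ∀ x y, IntegrableOn K1 (Ioc x y) := fun x y =>
    conv_intOn (Ph q) (Ph_meas q) (Ph_nonneg q) _ (Ph_le q) κ x y k1
  have hs2 : 0 < Real.sqrt 2 := Real.sqrt_pos.2 two_pos
  have hK2i : ∀ x y, IntegrableOn K2 (Ioc x y) := by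
    intro x y
    have h1 := conv_intOn (Ph q) (Ph_meas q) (Ph_nonneg q) _ (Ph_le q) (κ / Real.sqrt 2) x y (by positivity)
    have e1 : K2 = fun u => ∫ v, Ph q v * Real.exp (-((κ / Real.sqrt 2) ^ 2 * (u - v) ^ 2)) := by
      funext u
      simp only [hK2]
      apply integral_congr_ae
      refine Eventually.of_forall fun v => ?_
      simp only
      congr 2
      rw [div_pow κ (Real.sqrt 2) 2, pow_two (Real.sqrt 2), Real.mul_self_sqrt (by norm_num)]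
      ring
    rw [e1]
    exact h1
  set c1 : ℝ := c * ((1 + η) * (2 * Real.pi * (1 + η1))) with hc1
  set c2 : ℝ := c * ((1 + η) * (2 * Real.pi * ((1 + 1 / η1) * (4 * κ ^ 2)))) with hc2
  have hc10 : 0 ≤ c1 := by positivity
  have hc20 : 0 ≤ c2 := by positivity
  have hI2 : ∫ u in Ioc ((1 - δ) * L) (ℓ * L), GG Sc u * NN Gs n a w r κ u ≤
      c1 * (∫ u in Ioc ((1 - δ) * L) (ℓ * L), GG Sc u * K1 u) + c2 * (∫ u in Ioc ((1 - δ) * L) (ℓ * L), GG Sc u * K2 u) +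
      (c * (W * (φ * (η * L32)))) * (L * v1 * (ℓ * L - (1 - δ) * L)) := by
    have h1 := regB Sc hScm hScf (NN Gs n a w r κ) K1 K2 hNc c1 c2 (c * (W * (φ * (η * L32)))) ((1 - δ) * L) (ℓ * L)
      (hlowL.trans hLℓ) (hK1i _ _) (hK2i _ _) (by positivity) (by
        intro u hu
        have h2 := NN_B Gs n a w ha hw hwt r κ u c η (φ * (η * L32)) η1 k1 hc0 hη hη1 (hB u hu.1.le hu.2)
        refine h2.trans ?_
        obtain ⟨-, h3⟩ := FM_sum q κ u η1 k1 hη1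
        rw [← hW]
        have h4 := mul_le_mul_of_nonneg_left h3 (by positivity : 0 ≤ c * (1 + η))
        have e1 : c * ((1 + η) * (∫ t, ∑ χ ∈ Sf q, FM (ac χ) κ u η1 t) + W * (φ * (η * L32))) =
          c * (1 + η) * (∫ t, ∑ χ ∈ Sf q, FM (ac χ) κ u η1 t) + c * (W * (φ * (η * L32))) := by ring
        rw [e1]
        refine (add_le_add h4 le_rfl).trans (le_of_eq ?_)
        simp only [hK1, hK2, hc1, hc2]
        ring)
    rw [hvol] at h1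
    exact h1
  obtain ⟨j1, j2⟩ := J_two q L hL1 S hS ω hω hω0 B ℓ δ hωB hℓ hδ hδ1 hsh κ0 hκ0 hκδ
  have hI0 := I0_bd q hq (by rw [← hL]; exact hL1) ω hω hω0 B ℓ δ hωB hωℓ hℓ hδ
  rw [← hL] at hI0
  set I := ∫ v in Icc ((1 - δ) * L - δ * L) (ℓ * L + δ * L), (L * ω (v / L)) * Ph q v with hI
  set XX : ℝ := (∫ α in Ioc 1 ℓ, ω α * Rq q α) + 2 * δ * Kc * B with hXX
  rw [← hκ, ← hE] at j1 j2
  have j1' : ∫ u in Ioc ((1 - δ) * L) (ℓ * L), GG Sc u * K1 u ≤ σ / κ * I + φ * E / κ := j1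
  have j2' : ∫ u in Ioc ((1 - δ) * L) (ℓ * L), GG Sc u * K2 u ≤ 2 * σ / κ * I + φ * E / κ := j2
  have m1 := mul_le_mul_of_nonneg_left j1' hc10
  have m2 := mul_le_mul_of_nonneg_left j2' hc20
  -- the union
  have hunion : ∫ u in Ioc 0 (ℓ * L), GG Sc u * NN Gs n a w r κ u =
      (∫ u in Ioc 0 ((1 - δ) * L), GG Sc u * NN Gs n a w r κ u) + ∫ u in Ioc ((1 - δ) * L) (ℓ * L), GG Sc u * NN Gs n a w r κ u := by
    have hi : ∀ x y : ℝ, IntegrableOn (fun u => GG Sc u * NN Gs n a w r κ u) (Ioc x y) := fun x y =>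
      GG_mul_intOn Sc hScm hScf _ x y (hNc.continuousOn.integrableOn_Icc.mono_set Ioc_subset_Icc_self)
    rw [← setIntegral_union (Ioc_disjoint_Ioc_of_le le_rfl) measurableSet_Ioc (hi _ _) (hi _ _),
      Ioc_union_Ioc_eq_Ioc hlow (hlowL.trans hLℓ)]
  rw [hunion]
  set T1 : ℝ := ∫ x in Ioc 0 1, GG S x * x with hT1
  -- the algebra
  have hκne : κ ≠ 0 := k1.ne'
  have hσne : σ ≠ 0 := hσ0.ne'
  have s1 : 2 * ((W * (c * (φ * ((1 + η) * L ^ 2)))) * (L * v1 * (σ / (2 * κ))) +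
      (W * (c * (φ * ((1 + η) * (σ / κ))))) * (L ^ 3 * T1)) =
      κ * φ * L ^ 3 * (W / σ * ((1 + η) * (v1 / 2 + T1))) := by
    rw [hc, hπ]
    field_simp
  have hκκ : κ ^ 2 * L32 = κ * (κ0 * L) := by rw [← hκL]; ring
  have s2 : 2 * ((W * (c * (φ * (η * L32)))) * (L * v1 * L) + (c * (W * (φ * (η * L32)))) * (L * v1 * (ℓ * L - (1 - δ) * L))) ≤
      κ * φ * L ^ 3 * (κ0 * W * η * v1 * (1 + ℓ) / Real.pi) := by
    have e1 : κ * φ * L ^ 3 * (κ0 * W * η * v1 * (1 + ℓ) / Real.pi) =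
        2 * ((W * (c * (φ * (η * L32)))) * (L * v1 * L) + (c * (W * (φ * (η * L32)))) * (L * v1 * (ℓ * L))) := by
      have e2 : 2 * ((W * (c * (φ * (η * L32)))) * (L * v1 * L) + (c * (W * (φ * (η * L32)))) * (L * v1 * (ℓ * L))) =
        (κ ^ 2 * L32) * (φ * L ^ 2 * W * η * v1 * (1 + ℓ) / Real.pi) := by
        rw [hc]
        field_simp
      rw [e2, hκκ]
      ring
    rw [e1]
    have e3 : 0 ≤ (c * (W * (φ * (η * L32)))) * (L * v1 * ((1 - δ) * L)) := by positivity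
    have e4 : (c * (W * (φ * (η * L32)))) * (L * v1 * (ℓ * L - (1 - δ) * L)) =
      (c * (W * (φ * (η * L32)))) * (L * v1 * (ℓ * L)) - (c * (W * (φ * (η * L32)))) * (L * v1 * ((1 - δ) * L)) := by ring
    rw [e4]
    linarith
  have s3 : 2 * (c1 * (σ / κ * I + φ * E / κ) + c2 * (2 * σ / κ * I + φ * E / κ)) =
      κ * (2 * σ * ((1 + η) * ((1 + η1) + (1 + 1 / η1) * (8 * κ ^ 2)))) * I +
      κ * φ * (2 * (1 + η) * ((1 + η1) + (1 + 1 / η1) * (4 * κ ^ 2)) * E) := by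
    rw [hc1, hc2, hc]
    field_simp
    ring
  have s4 : κ * (2 * σ * ((1 + η) * ((1 + η1) + (1 + 1 / η1) * (8 * κ ^ 2)))) * I ≤
      κ * (2 * σ * ((1 + η) * ((1 + η1) + (1 + 1 / η1) * (8 * κ ^ 2)))) * (φ * L ^ 3 * XX) :=
    mul_le_mul_of_nonneg_left hI0 (by positivity)
  have s5 : κ * (2 * σ * ((1 + η) * ((1 + η1) + (1 + 1 / η1) * (8 * κ ^ 2)))) * (φ * L ^ 3 * XX) =
      κ * φ * L ^ 3 * (2 * σ * ((1 + η) * ((1 + η1) + (1 + 1 / η1) * (8 * κ ^ 2))) * XX) := by ring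
  have s6 : κ * φ * L ^ 3 * (W / σ * ((1 + η) * (v1 / 2 + T1)) + κ0 * W * η * v1 * (1 + ℓ) / Real.pi +
      2 * σ * ((1 + η) * ((1 + η1) + (1 + 1 / η1) * (8 * κ ^ 2))) * XX) =
      κ * φ * L ^ 3 * (W / σ * ((1 + η) * (v1 / 2 + T1))) + κ * φ * L ^ 3 * (κ0 * W * η * v1 * (1 + ℓ) / Real.pi) +
      κ * φ * L ^ 3 * (2 * σ * ((1 + η) * ((1 + η1) + (1 + 1 / η1) * (8 * κ ^ 2))) * XX) := by ring
  rw [s6, ← s1, ← s5]
  linarith

end Pool.Agent.L5helper10.QV
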