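import Pool.Agent.L5helper10.QV.Cnt

/-! The Gaussian sum over the zeros of a block, for the good characters. -/

set_option autoImplicit false

open Filter Topology Set MeasureTheory Complex ComplexConjugate Asymptotics
open H370 (mult)

namespace Pool.Agent.L5helper10.QV

/-- polynomials against exponentials -/
lemma pe (K c : ℝ) (hc : 0 < c) (n : ℕ) (η : ℝ) (hη : 0 < η) : ∀ᶠ L : ℝ in atTop, K * L ^ n * Real.exp (-(c * L)) ≤ η := by
  have h1 := (isLittleO_pow_exp_pos_mul_atTop (k := n) hc).bound (show 0 < η / (|K| + 1) by positivity)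
  filter_upwards [h1, eventually_ge_atTop 0] with L h2 h3
  rw [Real.norm_of_nonneg (by positivity), Real.norm_of_nonneg (Real.exp_pos _).le] at h2
  have hK : K ≤ |K| + 1 := by linarith [le_abs_self K]
  have h4 : K * L ^ n ≤ (|K| + 1) * (η / (|K| + 1) * Real.exp (c * L)) :=
    (mul_le_mul_of_nonneg_right hK (by positivity)).trans (mul_le_mul_of_nonneg_left h2 (by positivity))
  have h5 : (|K| + 1) * (η / (|K| + 1) * Real.exp (c * L)) = η * Real.exp (c * L) := by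
    field_simp
  rw [h5] at h4
  have h6 := mul_le_mul_of_nonneg_right h4 (Real.exp_pos (-(c * L))).le
  rw [mul_assoc η, ← Real.exp_add, add_neg_cancel, Real.exp_zero, mul_one] at h6
  exact h6

lemma rp_ge (K s : ℝ) (hs : 0 < s) : ∀ᶠ L : ℝ in atTop, K ≤ L ^ s := (tendsto_rpow_atTop hs).eventually_ge_atTop K

/-- the Gaussian sum over the block -/
noncomputable def Eb {q : ℕ} [NeZero q] (χ : DirichletCharacter ℂ q) (r x y κ u t : ℝ) : ℂ :=
  EE (Pz (Lc χ) (Real.sqrt (Real.log q)) (x - r) (y + r)) (fun z => (mult (Lc χ) z : ℂ)) κ u t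

lemma cond_le {q : ℕ} [NeZero q] (χ : DirichletCharacter ℂ q) : Real.log χ.conductor ≤ Real.log q := by
  apply Real.log_le_log
  · exact_mod_cast Nat.pos_of_ne_zero χ.conductor_ne_zero
  · exact_mod_cast Nat.le_of_dvd (Nat.pos_of_ne_zero (NeZero.ne q)) χ.conductor_dvd_level

lemma cond_nn {q : ℕ} [NeZero q] (χ : DirichletCharacter ℂ q) : 0 ≤ Real.log χ.conductor := Real.log_natCast_nonneg _

lemma gc_Lc {A : ℝ} (hA : ∀ (d : ℕ) [NeZero d] (χ : DirichletCharacter ℂ d), 1 < d → χ.IsPrimitive →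
    GC A (1 + Real.log d) (Real.log d) (DirichletCharacter.completedLFunction χ) (ac χ) (Gf χ)) {q : ℕ} [NeZero q]
    (χ : DirichletCharacter ℂ q) (h : χ ≠ 1) :
    GC A (1 + Real.log χ.conductor) (Real.log χ.conductor) (Lc χ) (ac χ.primitiveCharacter) (Gf χ.primitiveCharacter) :=
  hA χ.conductor χ.primitiveCharacter (cond_gt h) (DirichletCharacter.primitiveCharacter_isPrimitive χ)

lemma MN_prim {q : ℕ} [NeZero q] (χ : DirichletCharacter ℂ q) (ld κ u t : ℝ) (hκ : 0 < κ) (hq : 1 ≤ Real.log q) :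
    ‖MN ld (ac χ.primitiveCharacter) κ u t - MN ld (ac χ) κ u t‖ ≤ 8 * κ * Real.log q ^ (2 / 3 : ℝ) := by
  unfold MN
  rw [← mul_sub, norm_mul, Complex.norm_real, Real.norm_of_nonneg (by positivity)]
  have h1 := PP_prim χ κ u t hκ hq
  have h2 := PP_prim χ κ (-u) t hκ hq
  have e : (ld * (cexp (I * t * u) * Real.exp (-(κ ^ 2 * u ^ 2 / 2))) -
      PP (ac χ.primitiveCharacter) κ u t - conj (PP (ac χ.primitiveCharacter) κ (-u) t)) -
      (ld * (cexp (I * t * u) * Real.exp (-(κ ^ 2 * u ^ 2 / 2))) - PP (ac χ) κ u t - conj (PP (ac χ) κ (-u) t)) =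
      -(PP (ac χ.primitiveCharacter) κ u t - PP (ac χ) κ u t) -
      conj (PP (ac χ.primitiveCharacter) κ (-u) t - PP (ac χ) κ (-u) t) := by
    rw [map_sub]; ring
  rw [e]
  have h3 : ‖-(PP (ac χ.primitiveCharacter) κ u t - PP (ac χ) κ u t) -
      conj (PP (ac χ.primitiveCharacter) κ (-u) t - PP (ac χ) κ (-u) t)‖ ≤ 16 * Real.log q ^ (2 / 3 : ℝ) := by
    refine (norm_sub_le _ _).trans ?_
    rw [norm_neg, RCLike.norm_conj]
    linarith
  have h4 : 2 ≤ Real.sqrt (2 * Real.pi) := by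
    rw [show (2 : ℝ) = Real.sqrt 4 by rw [show (4 : ℝ) = 2 ^ 2 by norm_num, Real.sqrt_sq (by norm_num)]]
    apply Real.sqrt_le_sqrt
    rw [show Real.sqrt 4 = 2 by rw [show (4 : ℝ) = 2 ^ 2 by norm_num, Real.sqrt_sq (by norm_num)]]
    linarith [Real.pi_gt_three]
  have h5 : κ / Real.sqrt (2 * Real.pi) ≤ κ / 2 := div_le_div_of_nonneg_left hκ.le (by norm_num) h4
  have h6 : 0 ≤ Real.log q ^ (2 / 3 : ℝ) := by positivity
  calc _ ≤ κ / 2 * (16 * Real.log q ^ (2 / 3 : ℝ)) := mul_le_mul h5 h3 (norm_nonneg _) (by positivity)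
    _ = _ := by ring

open Classical in
/-- the explicit formula for a block, uniformly -/
theorem blk_err (ℓ D r κ0 : ℝ) (hℓ : 0 ≤ ℓ) (hr : 0 < r) (hκ0 : 0 < κ0) :
    ∃ ε0 : ℝ, 0 < ε0 ∧ ∀ ε2 : ℝ, 0 ≤ ε2 → ε2 ≤ ε0 → ∀ᶠ q : ℕ in atTop, ∀ [NeZero q],
      ∀ χ ∈ Gd q ε2 (Real.sqrt (Real.log q)), ∀ x y u t : ℝ, -D ≤ x → y ≤ D → x ≤ t → t ≤ y → |u| ≤ ℓ * Real.log q →
      ‖Eb χ r x y (κ0 / Real.sqrt (Real.log q)) u t -
        MN (Real.log χ.conductor) (ac χ) (κ0 / Real.sqrt (Real.log q)) u t‖ ≤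
        12 * (κ0 / Real.sqrt (Real.log q)) * Real.log q ^ (2 / 3 : ℝ) := by
  obtain ⟨A, hA1, hGC⟩ := gc_dir
  obtain ⟨C, hC, hex⟩ := explicit
  set c : ℝ := r ^ 2 / (4 * κ0 ^ 2) with hc
  have hc0 : 0 < c := by positivity
  refine ⟨min 1 (c / (ℓ + 1 / (2 * κ0 ^ 2))), by positivity, ?_⟩
  intro ε2 h20 h2
  have h21 : ε2 ≤ 1 := h2.trans (min_le_left _ _)
  have h22 : ε2 * (ℓ + 1 / (2 * κ0 ^ 2)) ≤ c := by
    have h3 := h2.trans (min_le_right _ _)
    rwa [le_div_iff₀ (by positivity)] at h3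
  have hlog : Tendsto (fun q : ℕ => Real.log q) atTop atTop := Real.tendsto_log_atTop.comp tendsto_natCast_atTop_atTop
  have ev : ∀ᶠ L : ℝ in atTop, 1 ≤ L ∧ 4 * D ^ 2 ≤ L ∧ κ0 ^ 2 ≤ L ∧ 960 * A * L ^ 2 * Real.exp (-(c * L)) ≤ κ0 ∧
      9 * C * A ^ 2 * L ^ 3 * Real.exp (-(1 * L)) ≤ κ0 ∧ 2 * A * (3 + |D|) ≤ L ^ (2 / 3 : ℝ) ∧
      16 * κ0 ^ 2 * (3 / 2 * ℓ + 9 / (8 * κ0 ^ 2) + 1) ≤ L := by
    filter_upwards [eventually_ge_atTop 1, eventually_ge_atTop (4 * D ^ 2), eventually_ge_atTop (κ0 ^ 2),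
      pe (960 * A) c hc0 2 κ0 hκ0, pe (9 * C * A ^ 2) 1 one_pos 3 κ0 hκ0, rp_ge (2 * A * (3 + |D|)) (2 / 3) (by norm_num),
      eventually_ge_atTop (16 * κ0 ^ 2 * (3 / 2 * ℓ + 9 / (8 * κ0 ^ 2) + 1))] with L h1 h2 h3 h4 h5 h6 h7
    exact ⟨h1, h2, h3, h4, h5, h6, h7⟩
  filter_upwards [hlog.eventually ev] with q hev
  intro _ χ hχ x y u t hx hy hxt hty hu
  set L := Real.log q with hL
  obtain ⟨e1, e2, e3, e4, e5, e6, e7⟩ := hev
  have hL0 : 0 < L := by linarith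
  unfold Gd at hχ
  rw [Finset.mem_filter] at hχ
  obtain ⟨-, hne, hcd, hz⟩ := hχ
  have hf := gc_Lc hGC χ hne
  set V := Real.sqrt L with hV
  have hV1 : 1 ≤ V := by rw [hV, Real.one_le_sqrt]; exact e1
  have hVV : V ^ 2 = L := Real.sq_sqrt hL0.le
  have hVL : V ≤ L := by
    have h3 : V * 1 ≤ V * V := mul_le_mul_of_nonneg_left hV1 (by linarith)
    rw [← pow_two, hVV, mul_one] at h3
    exact h3
  have hV0 : 0 < V := by linarith
  set κ := κ0 / V with hκd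
  have hκ : 0 < κ := by positivity
  have hκ2 : κ ^ 2 = κ0 ^ 2 / L := by rw [hκd, div_pow, hVV]
  have hκ1 : κ ≤ 1 := by
    have h3 : κ ^ 2 ≤ 1 := by rw [hκ2, div_le_one hL0]; exact e3
    exact (sq_le_one_iff₀ hκ.le).1 h3
  set d := Real.log χ.conductor with hd
  have hd0 : 0 ≤ d := cond_nn χ
  have hdL : d ≤ L := cond_le χ
  have hD0 : 0 ≤ D := by linarith
  have htD : |t| ≤ D := by rw [abs_le]; constructor <;> linarith
  have hDV : 2 * D ≤ V := by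
    have h3 : (2 * D) ^ 2 ≤ V ^ 2 := by rw [hVV]; linarith
    exact le_of_sq_le_sq h3 hV0.le
  have htV : |t| ≤ V := by linarith
  -- the three errors
  have t1 := far_bd hf V ε2 r (ℓ * L) κ x y u t hV1 hκ hr.le hz hu hxt hty
  have t2 := hex hf κ u t V hκ hκ1 htV hV1
  have t3 := MN_prim χ d κ u t hκ (by rw [← hL]; exact e1)
  rw [← hL] at t3
  have hA0 : 0 ≤ A := by linarith
  have hk2 : 0 < κ0 ^ 2 := by positivity
  have b1 : 320 * A * V * (1 + d + V ^ 2) * Real.exp (ℓ * L * ε2 + (ε2 ^ 2 - r ^ 2) / (2 * κ ^ 2)) ≤ κ0 := by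
    refine le_trans ?_ e4
    have h3 : ℓ * L * ε2 + (ε2 ^ 2 - r ^ 2) / (2 * κ ^ 2) ≤ -(c * L) := by
      rw [hκ2]
      have h4 : (ε2 ^ 2 - r ^ 2) / (2 * (κ0 ^ 2 / L)) = L * (ε2 ^ 2 * (1 / (2 * κ0 ^ 2))) - 2 * c * L := by
        rw [hc]; field_simp; ring
      rw [h4]
      have h5 : ε2 ^ 2 * (1 / (2 * κ0 ^ 2)) ≤ ε2 * (1 / (2 * κ0 ^ 2)) := by
        apply mul_le_mul_of_nonneg_right _ (by positivity)
        rw [pow_two]
        exact mul_le_of_le_one_left h20 h21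
      have h6 : L * (ε2 * ℓ + ε2 ^ 2 * (1 / (2 * κ0 ^ 2))) ≤ L * c := by
        apply mul_le_mul_of_nonneg_left _ hL0.le
        linarith
      have h7 : ℓ * L * ε2 + (L * (ε2 ^ 2 * (1 / (2 * κ0 ^ 2))) - 2 * c * L) =
        L * (ε2 * ℓ + ε2 ^ 2 * (1 / (2 * κ0 ^ 2))) - 2 * (c * L) := by ring
      rw [h7]
      linarith
    have h4 := Real.exp_le_exp.2 h3
    have h5 : V * (1 + d + V ^ 2) ≤ L * (3 * L) := by
      apply mul_le_mul hVL _ (by positivity) hL0.le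
      rw [hVV]; linarith
    calc 320 * A * V * (1 + d + V ^ 2) * Real.exp (ℓ * L * ε2 + (ε2 ^ 2 - r ^ 2) / (2 * κ ^ 2)) =
        320 * A * (V * (1 + d + V ^ 2)) * Real.exp (ℓ * L * ε2 + (ε2 ^ 2 - r ^ 2) / (2 * κ ^ 2)) := by ring
      _ ≤ 320 * A * (L * (3 * L)) * Real.exp (-(c * L)) := by
          apply mul_le_mul _ h4 (Real.exp_pos _).le (by positivity)
          exact mul_le_mul_of_nonneg_left h5 (by positivity)
      _ = _ := by ring
  have b2 : C * (A ^ 2 * (1 + d + V ^ 2) ^ 2 * V) * ER κ u t V ≤ κ0 := by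
    refine le_trans ?_ e5
    have h3 : ER κ u t V ≤ Real.exp (-(1 * L)) := by
      unfold ER
      apply Real.exp_le_exp.2
      have h4 : (V / 2) ^ 2 ≤ (V - |t|) ^ 2 := pow_le_pow_left₀ (by positivity) (by linarith) 2
      have h5 : L / 4 / (4 * κ ^ 2) ≤ (V - |t|) ^ 2 / (4 * κ ^ 2) := by
        apply div_le_div_of_nonneg_right _ (by positivity)
        rw [div_pow, hVV] at h4
        linarith
      have h6 : L / 4 / (4 * κ ^ 2) = L * (L / (16 * κ0 ^ 2)) := by rw [hκ2]; field_simp; norm_num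
      have h7 : 9 / (8 * κ ^ 2) = 9 / (8 * κ0 ^ 2) * L := by rw [hκ2]; field_simp
      have h8 : 3 / 2 * ℓ + 9 / (8 * κ0 ^ 2) + 1 ≤ L / (16 * κ0 ^ 2) := by
        rw [le_div_iff₀ (by positivity)]
        linarith
      have h9 := mul_le_mul_of_nonneg_left h8 hL0.le
      rw [h6] at h5
      rw [h7]
      linarith
    have h4 : (1 + d + V ^ 2) ^ 2 * V ≤ (3 * L) ^ 2 * L := by
      apply mul_le_mul _ hVL hV0.le (by positivity)
      apply pow_le_pow_left₀ (by positivity)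
      rw [hVV]; linarith
    calc C * (A ^ 2 * (1 + d + V ^ 2) ^ 2 * V) * ER κ u t V = C * A ^ 2 * ((1 + d + V ^ 2) ^ 2 * V) * ER κ u t V := by ring
      _ ≤ C * A ^ 2 * ((3 * L) ^ 2 * L) * Real.exp (-(1 * L)) := by
          apply mul_le_mul _ h3 (ER_pos _ _ _ _).le (by positivity)
          exact mul_le_mul_of_nonneg_left h4 (by positivity)
      _ = _ := by ring
  have b3 : κ0 ≤ κ * L ^ (2 / 3 : ℝ) := by
    have h3 : V ≤ L ^ (2 / 3 : ℝ) := by
      rw [hV, Real.sqrt_eq_rpow]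
      exact Real.rpow_le_rpow_of_exponent_le e1 (by norm_num)
    calc κ0 = κ * V := by rw [hκd]; field_simp
      _ ≤ κ * L ^ (2 / 3 : ℝ) := mul_le_mul_of_nonneg_left h3 hκ.le
  have b4 : 2 * A * κ * (3 + |t|) ≤ κ * L ^ (2 / 3 : ℝ) := by
    have h3 : 2 * A * (3 + |t|) ≤ L ^ (2 / 3 : ℝ) := by
      refine le_trans ?_ e6
      apply mul_le_mul_of_nonneg_left _ (by positivity)
      linarith [le_abs_self D]
    calc 2 * A * κ * (3 + |t|) = κ * (2 * A * (3 + |t|)) := by ring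
      _ ≤ _ := mul_le_mul_of_nonneg_left h3 hκ.le
  have hsum : Eb χ r x y κ u t - MN d (ac χ) κ u t =
      (EE (Pz (Lc χ) V (x - r) (y + r)) (fun z => (mult (Lc χ) z : ℂ)) κ u t -
        EE (Zf (Lc χ) V) (fun z => (mult (Lc χ) z : ℂ)) κ u t) +
      (EE (Zf (Lc χ) V) (fun z => (mult (Lc χ) z : ℂ)) κ u t - MN d (ac χ.primitiveCharacter) κ u t) +
      (MN d (ac χ.primitiveCharacter) κ u t - MN d (ac χ) κ u t) := by
    unfold Eb; ring
  rw [hsum]
  refine (norm_add_le _ _).trans ?_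
  refine (add_le_add (norm_add_le _ _) le_rfl).trans ?_
  linarith

end Pool.Agent.L5helper10.QV
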