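import Pool.Agent.L5helper10.QV.Bk1

/-! Mean squares over the good characters. -/

set_option autoImplicit false

open Filter Topology Set MeasureTheory Complex ComplexConjugate Asymptotics
open H370 (mult)
open ArithmeticFunction (vonMangoldt vonMangoldt_nonneg vonMangoldt_le_log)

namespace Pool.Agent.L5helper10.QV

/-- the uniform explicit formula for blocks -/
def BE (ℓ D r κ0 ε2 : ℝ) : Prop := ∀ᶠ q : ℕ in atTop, ∀ [NeZero q],
      ∀ χ ∈ Gd q ε2 (Real.sqrt (Real.log q)), ∀ x y u t : ℝ, -D ≤ x → y ≤ D → x ≤ t → t ≤ y → |u| ≤ ℓ * Real.log q →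
      ‖Eb χ r x y (κ0 / Real.sqrt (Real.log q)) u t -
        MN (Real.log χ.conductor) (ac χ) (κ0 / Real.sqrt (Real.log q)) u t‖ ≤
        12 * (κ0 / Real.sqrt (Real.log q)) * Real.log q ^ (2 / 3 : ℝ)

lemma PP_neg_sum {q : ℕ} [NeZero q] (κ u t : ℝ) (hκ : 0 < κ) (hk : 4 ≤ κ ^ 2 * Real.log q) (hu : 0 ≤ u) :
    ∑ χ : DirichletCharacter ℂ q, ‖PP (ac χ) κ (-u) t‖ ^ 2 ≤
      q.totient * (2 * (2 / κ ^ 2 + 10 / κ) + 2 * S0 ^ 2) := by
  have h1 : ∑ n ∈ Finset.Ioc 0 q, vonMangoldt n ^ 2 / n * Real.exp (-(κ ^ 2 * (-u - Real.log n) ^ 2)) ≤ 2 / κ ^ 2 + 10 / κ := by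
    have h2 := diag_bd q κ 0 hκ le_rfl
    simp only [mul_zero, zero_div, zero_add, add_zero] at h2
    refine le_trans (Finset.sum_le_sum fun n _ => ?_) h2
    apply mul_le_mul_of_nonneg_left _ (by positivity)
    apply Real.exp_le_exp.2
    have h3 : 0 ≤ Real.log n := Real.log_natCast_nonneg n
    have h4 : (0 - Real.log n) ^ 2 ≤ (-u - Real.log n) ^ 2 := by
      have e1 : (0 - Real.log n) ^ 2 = Real.log n ^ 2 := by ring
      have e2 : (-u - Real.log n) ^ 2 = (u + Real.log n) ^ 2 := by ring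
      rw [e1, e2]
      exact pow_le_pow_left₀ h3 (by linarith) 2
    have h5 := mul_le_mul_of_nonneg_left h4 (sq_nonneg κ)
    linarith
  have h2 := RA (q := q) κ 1 (-u) t 1 (2 / κ ^ 2 + 10 / κ) one_pos le_rfl (by linarith) (by linarith) one_pos h1
  refine h2.trans (le_of_eq ?_)
  norm_num

lemma PP_pos_sum {q : ℕ} [NeZero q] (κ δ u t η : ℝ) (hκ : 0 < κ) (hδ : 0 < δ) (hδ1 : δ ≤ 1)
    (hk : 4 ≤ κ ^ 2 * δ ^ 2 * Real.log q) (hu : 0 ≤ u) (hu2 : u ≤ (1 - δ) * Real.log q) (hη : 0 < η) :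
    ∑ χ : DirichletCharacter ℂ q, ‖PP (ac χ) κ u t‖ ^ 2 ≤
      q.totient * ((1 + η) * (Real.sqrt Real.pi * u / κ + 2 / κ ^ 2 + 10 * u + 10 / κ) + (1 + 1 / η) * S0 ^ 2) :=
  RA κ δ u t η _ hδ hδ1 hk hu2 hη (diag_bd q κ u hκ hu)

/-- the two large terms -/
noncomputable def XY (ld : ℝ) (a : ℕ → ℂ) (κ u t : ℝ) : ℂ :=
  ld * (cexp (I * t * u) * Real.exp (-(κ ^ 2 * u ^ 2 / 2))) - PP a κ u t

lemma X_norm (ld κ u t : ℝ) (h : 0 ≤ ld) : ‖(ld : ℂ) * (cexp (I * t * u) * Real.exp (-(κ ^ 2 * u ^ 2 / 2)))‖ =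
    ld * Real.exp (-(κ ^ 2 * u ^ 2 / 2)) := by
  rw [norm_mul, norm_mul, Complex.norm_real, Real.norm_of_nonneg h, Complex.norm_real, Real.norm_of_nonneg (Real.exp_pos _).le,
    show I * (t : ℂ) * u = ((t * u : ℝ) : ℂ) * I by push_cast; ring, Complex.norm_exp_ofReal_mul_I, one_mul]

lemma ev43 (K η : ℝ) (hη : 0 < η) : ∀ᶠ L : ℝ in atTop, K * L ^ (4 / 3 : ℝ) ≤ η * L ^ (3 / 2 : ℝ) := by
  filter_upwards [rp_ge (K / η) (1 / 6) (by norm_num), eventually_gt_atTop 0] with L h1 h2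
  have e : L ^ (3 / 2 : ℝ) = L ^ (1 / 6 : ℝ) * L ^ (4 / 3 : ℝ) := by rw [← Real.rpow_add h2]; norm_num
  rw [e, ← mul_assoc]
  apply mul_le_mul_of_nonneg_right _ (by positivity)
  rw [div_le_iff₀ hη] at h1
  linarith

lemma log_tend : Tendsto (fun q : ℕ => Real.log q) atTop atTop := Real.tendsto_log_atTop.comp tendsto_natCast_atTop_atTop

/-- facts on the parameters -/
lemma kap {L κ0 : ℝ} (h1 : 1 ≤ κ0) (hL : 1 ≤ L) :
    0 < κ0 / Real.sqrt L ∧ (κ0 / Real.sqrt L) ^ 2 = κ0 ^ 2 / L ∧ (κ0 / Real.sqrt L) ^ 2 * L = κ0 ^ 2 ∧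
    1 / (κ0 / Real.sqrt L) ^ 2 ≤ L ∧ 1 / (κ0 / Real.sqrt L) ≤ L := by
  have hL0 : 0 < L := by linarith
  have hV1 : 1 ≤ Real.sqrt L := by rw [Real.one_le_sqrt]; exact hL
  have hVV : Real.sqrt L ^ 2 = L := Real.sq_sqrt hL0.le
  have hV0 : 0 < Real.sqrt L := by linarith
  have hk2 : (κ0 / Real.sqrt L) ^ 2 = κ0 ^ 2 / L := by rw [div_pow, hVV]
  have hVL : Real.sqrt L ≤ L := by
    have h3 : Real.sqrt L * 1 ≤ Real.sqrt L * Real.sqrt L := mul_le_mul_of_nonneg_left hV1 (by linarith)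
    rw [← pow_two, hVV, mul_one] at h3
    exact h3
  have hk1 : 1 ≤ κ0 ^ 2 := one_le_pow₀ h1
  refine ⟨by positivity, hk2, by rw [hk2]; field_simp, ?_, ?_⟩
  · rw [hk2, one_div_div, div_le_iff₀ (by positivity)]
    have := mul_le_mul_of_nonneg_left hk1 hL0.le
    linarith
  · rw [one_div_div, div_le_iff₀ (by positivity)]
    have := mul_le_mul hVL h1 zero_le_one hL0.le
    linarith

open Classical in
theorem G_sum {ℓ D r κ0 ε2 : ℝ} (h : BE ℓ D r κ0 ε2) (hκ0 : 2 ≤ κ0) (η : ℝ) (hη : 0 < η) (hη1 : η ≤ 1) :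
    ∀ᶠ q : ℕ in atTop, ∀ [NeZero q], ∀ x y u t : ℝ, -D ≤ x → y ≤ D → x ≤ t → t ≤ y → 0 ≤ u → u ≤ ℓ * Real.log q →
      ∑ χ ∈ Gd q ε2 (Real.sqrt (Real.log q)), ‖Eb χ r x y (κ0 / Real.sqrt (Real.log q)) u t‖ ^ 2 ≤
        (κ0 / Real.sqrt (Real.log q)) ^ 2 / (2 * Real.pi) * ((1 + η) *
          (∑ χ ∈ Gd q ε2 (Real.sqrt (Real.log q)), ‖XY (Real.log χ.conductor) (ac χ) (κ0 / Real.sqrt (Real.log q)) u t‖ ^ 2) +
          q.totient * (η * Real.log q ^ (3 / 2 : ℝ))) := by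
  set η1 : ℝ := η / 3 with hη1d
  have hη10 : 0 < η1 := by positivity
  set K : ℝ := (1 + η1) * (1 + 1 / η1) * (44 + 2 * S0 ^ 2) + (1 + 1 / η1) * (288 * Real.pi) with hK
  have hS0 := S0_nonneg
  filter_upwards [h, log_tend.eventually (eventually_ge_atTop 1), log_tend.eventually (ev43 K η hη)] with q h1 h2 h3
  intro _ x y u t hx hy hxt hty hu hul
  have h1' := fun χ hχ => h1 χ hχ x y u t hx hy hxt hty (by rw [abs_of_nonneg hu]; exact hul)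
  set L := Real.log q with hL
  obtain ⟨k1, k2, k3, k4, k5⟩ := kap (L := L) (κ0 := κ0) (by linarith) h2
  set κ := κ0 / Real.sqrt L with hκ
  set Gs := Gd q ε2 (Real.sqrt L) with hGs
  have hL0 : 0 < L := by linarith
  have hsp : 0 < Real.sqrt (2 * Real.pi) := Real.sqrt_pos.2 (by positivity)
  have hP : (κ / Real.sqrt (2 * Real.pi)) ^ 2 = κ ^ 2 / (2 * Real.pi) := by
    rw [div_pow, Real.sq_sqrt (by positivity)]
  have hpt : ∀ χ ∈ Gs, ‖Eb χ r x y κ u t‖ ^ 2 ≤ κ ^ 2 / (2 * Real.pi) * ((1 + η1) ^ 2 *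
      ‖XY (Real.log χ.conductor) (ac χ) κ u t‖ ^ 2 + (1 + η1) * (1 + 1 / η1) * ‖PP (ac χ) κ (-u) t‖ ^ 2 +
      (1 + 1 / η1) * (288 * Real.pi) * L ^ (4 / 3 : ℝ)) := by
    intro χ hχ
    have a1 := h1' χ hχ
    have a2 := TV.norm_add_sq_young (MN (Real.log χ.conductor) (ac χ) κ u t)
      (Eb χ r x y κ u t - MN (Real.log χ.conductor) (ac χ) κ u t) η1 hη10
    rw [add_sub_cancel] at a2
    have a3 : MN (Real.log χ.conductor) (ac χ) κ u t = ((κ / Real.sqrt (2 * Real.pi) : ℝ) : ℂ) *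
        (XY (Real.log χ.conductor) (ac χ) κ u t + -conj (PP (ac χ) κ (-u) t)) := by
      unfold MN XY; ring
    have a4 := TV.norm_add_sq_young (XY (Real.log χ.conductor) (ac χ) κ u t) (-conj (PP (ac χ) κ (-u) t)) η1 hη10
    rw [norm_neg, RCLike.norm_conj] at a4
    have a5 : ‖MN (Real.log χ.conductor) (ac χ) κ u t‖ ^ 2 = κ ^ 2 / (2 * Real.pi) *
        ‖XY (Real.log χ.conductor) (ac χ) κ u t + -conj (PP (ac χ) κ (-u) t)‖ ^ 2 := by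
      rw [a3, norm_mul, Complex.norm_real, Real.norm_of_nonneg (by positivity), mul_pow, hP]
    have a6 : ‖Eb χ r x y κ u t - MN (Real.log χ.conductor) (ac χ) κ u t‖ ^ 2 ≤
        κ ^ 2 / (2 * Real.pi) * ((288 * Real.pi) * L ^ (4 / 3 : ℝ)) := by
      refine (pow_le_pow_left₀ (norm_nonneg _) a1 2).trans (le_of_eq ?_)
      rw [mul_pow, mul_pow, ← Real.rpow_natCast (L ^ (2 / 3 : ℝ)) 2, ← Real.rpow_mul hL0.le]
      norm_num
      field_simp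
      norm_num
    have hp0 : 0 ≤ κ ^ 2 / (2 * Real.pi) := by positivity
    have a7 := mul_le_mul_of_nonneg_left a4 (mul_nonneg (by positivity : 0 ≤ 1 + η1) hp0)
    have a8 := mul_le_mul_of_nonneg_left a6 (by positivity : 0 ≤ 1 + 1 / η1)
    rw [a5] at a2
    calc ‖Eb χ r x y κ u t‖ ^ 2 ≤ (1 + η1) * (κ ^ 2 / (2 * Real.pi) *
        ‖XY (Real.log χ.conductor) (ac χ) κ u t + -conj (PP (ac χ) κ (-u) t)‖ ^ 2) +
        (1 + 1 / η1) * ‖Eb χ r x y κ u t - MN (Real.log χ.conductor) (ac χ) κ u t‖ ^ 2 := a2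
      _ ≤ (1 + η1) * (κ ^ 2 / (2 * Real.pi)) * ((1 + η1) * ‖XY (Real.log χ.conductor) (ac χ) κ u t‖ ^ 2 +
          (1 + 1 / η1) * ‖PP (ac χ) κ (-u) t‖ ^ 2) + (1 + 1 / η1) * (κ ^ 2 / (2 * Real.pi) * ((288 * Real.pi) * L ^ (4 / 3 : ℝ))) := by
          linarith
      _ = _ := by ring
  refine (Finset.sum_le_sum hpt).trans ?_
  rw [← Finset.mul_sum]
  apply mul_le_mul_of_nonneg_left _ (by positivity)
  rw [Finset.sum_add_distrib, Finset.sum_add_distrib, ← Finset.mul_sum, ← Finset.mul_sum, Finset.sum_const, nsmul_eq_mul]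
  have c1 : (1 + η1) ^ 2 ≤ 1 + η := by
    have : η1 ^ 2 ≤ η1 := by
      rw [pow_two]
      apply mul_le_of_le_one_left hη10.le
      rw [hη1d]; linarith
    have e : (1 + η1) ^ 2 = 1 + 2 * η1 + η1 ^ 2 := by ring
    rw [e]
    linarith
  have c2 : (1 + η1) ^ 2 * ∑ χ ∈ Gs, ‖XY (Real.log χ.conductor) (ac χ) κ u t‖ ^ 2 ≤
      (1 + η) * ∑ χ ∈ Gs, ‖XY (Real.log χ.conductor) (ac χ) κ u t‖ ^ 2 :=
    mul_le_mul_of_nonneg_right c1 (Finset.sum_nonneg fun _ _ => sq_nonneg _)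
  have hφ0 : (0 : ℝ) ≤ q.totient := Nat.cast_nonneg _
  have c3 : ∑ χ ∈ Gs, ‖PP (ac χ) κ (-u) t‖ ^ 2 ≤ q.totient * ((44 + 2 * S0 ^ 2) * L) := by
    have d1 := PP_neg_sum (q := q) κ u t k1 (by rw [← hL, k3]; nlinarith) hu
    have d2 : ∑ χ ∈ Gs, ‖PP (ac χ) κ (-u) t‖ ^ 2 ≤ ∑ χ : DirichletCharacter ℂ q, ‖PP (ac χ) κ (-u) t‖ ^ 2 :=
      Finset.sum_le_sum_of_subset_of_nonneg (Finset.subset_univ _) fun _ _ _ => sq_nonneg _
    refine d2.trans (d1.trans (mul_le_mul_of_nonneg_left ?_ hφ0))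
    have d3 : 2 / κ ^ 2 ≤ 2 * L := by
      have : 2 / κ ^ 2 = 2 * (1 / κ ^ 2) := by ring
      rw [this]; linarith
    have d4 : 10 / κ ≤ 10 * L := by
      have : 10 / κ = 10 * (1 / κ) := by ring
      rw [this]; linarith
    have d5 : S0 ^ 2 ≤ S0 ^ 2 * L := le_mul_of_one_le_right (sq_nonneg _) h2
    linarith
  have c4 : (Gs.card : ℝ) ≤ q.totient := by
    have := Finset.card_le_card (Finset.subset_univ Gs)
    rw [card_char] at this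
    exact_mod_cast this
  have hL43 : 0 ≤ L ^ (4 / 3 : ℝ) := by positivity
  have c5 : L ≤ L ^ (4 / 3 : ℝ) := by
    nth_rewrite 1 [← Real.rpow_one L]
    exact Real.rpow_le_rpow_of_exponent_le h2 (by norm_num)
  have c6 : (1 + η1) * (1 + 1 / η1) * ∑ χ ∈ Gs, ‖PP (ac χ) κ (-u) t‖ ^ 2 ≤
      q.totient * ((1 + η1) * (1 + 1 / η1) * (44 + 2 * S0 ^ 2) * L ^ (4 / 3 : ℝ)) := by
    have d1 := mul_le_mul_of_nonneg_left c3 (by positivity : 0 ≤ (1 + η1) * (1 + 1 / η1))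
    refine d1.trans ?_
    have d2 : (44 + 2 * S0 ^ 2) * L ≤ (44 + 2 * S0 ^ 2) * L ^ (4 / 3 : ℝ) := mul_le_mul_of_nonneg_left c5 (by positivity)
    calc (1 + η1) * (1 + 1 / η1) * (q.totient * ((44 + 2 * S0 ^ 2) * L)) =
        q.totient * ((1 + η1) * (1 + 1 / η1)) * ((44 + 2 * S0 ^ 2) * L) := by ring
      _ ≤ q.totient * ((1 + η1) * (1 + 1 / η1)) * ((44 + 2 * S0 ^ 2) * L ^ (4 / 3 : ℝ)) :=
          mul_le_mul_of_nonneg_left d2 (by positivity)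
      _ = _ := by ring
  have c7 : (Gs.card : ℝ) * ((1 + 1 / η1) * (288 * Real.pi) * L ^ (4 / 3 : ℝ)) ≤
      q.totient * ((1 + 1 / η1) * (288 * Real.pi) * L ^ (4 / 3 : ℝ)) := mul_le_mul_of_nonneg_right c4 (by positivity)
  have c8 := mul_le_mul_of_nonneg_left h3 hφ0
  have c9 : (q.totient : ℝ) * (K * L ^ (4 / 3 : ℝ)) = q.totient * ((1 + η1) * (1 + 1 / η1) * (44 + 2 * S0 ^ 2) * L ^ (4 / 3 : ℝ)) +
      q.totient * ((1 + 1 / η1) * (288 * Real.pi) * L ^ (4 / 3 : ℝ)) := by rw [hK]; ring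
  linarith

end Pool.Agent.L5helper10.QV
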