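import Pool.Agent.L5helper10.QV.Bk2

/-! The two ranges of the frequency. -/

set_option autoImplicit false

open Filter Topology Set MeasureTheory Complex ComplexConjugate Asymptotics
open H370 (mult)
open ArithmeticFunction (vonMangoldt vonMangoldt_nonneg vonMangoldt_le_log)

namespace Pool.Agent.L5helper10.QV

lemma XY_two (ld : ℝ) (a : ℕ → ℂ) (κ u t η L : ℝ) (h0 : 0 ≤ ld) (h1 : ld ≤ L) (hη : 0 < η) :
    ‖XY ld a κ u t‖ ^ 2 ≤ (1 + η) * (L ^ 2 * Real.exp (-(κ ^ 2 * u ^ 2))) + (1 + 1 / η) * ‖PP a κ u t‖ ^ 2 ∧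
    ‖XY ld a κ u t‖ ^ 2 ≤ (1 + η) * ‖PP a κ u t‖ ^ 2 + (1 + 1 / η) * (L ^ 2 * Real.exp (-(κ ^ 2 * u ^ 2))) := by
  set Xc : ℂ := (ld : ℂ) * (cexp (I * t * u) * Real.exp (-(κ ^ 2 * u ^ 2 / 2))) with hXc
  have hX : ‖Xc‖ ^ 2 ≤ L ^ 2 * Real.exp (-(κ ^ 2 * u ^ 2)) := by
    rw [hXc, X_norm ld κ u t h0, mul_pow, ← Real.exp_nat_mul]
    have e : ((2 : ℕ) : ℝ) * -(κ ^ 2 * u ^ 2 / 2) = -(κ ^ 2 * u ^ 2) := by push_cast; ring
    rw [e]
    exact mul_le_mul_of_nonneg_right (pow_le_pow_left₀ h0 h1 2) (Real.exp_pos _).le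
  have e : XY ld a κ u t = Xc + -PP a κ u t := by unfold XY; rw [← hXc]; ring
  have e' : XY ld a κ u t = -PP a κ u t + Xc := by rw [e]; ring
  constructor
  · have := TV.norm_add_sq_young Xc (-PP a κ u t) η hη
    rw [← e, norm_neg] at this
    have h2 := mul_le_mul_of_nonneg_left hX (by positivity : 0 ≤ 1 + η)
    linarith
  · have := TV.norm_add_sq_young (-PP a κ u t) Xc η hη
    rw [← e', norm_neg] at this
    have h2 := mul_le_mul_of_nonneg_left hX (by positivity : 0 ≤ 1 + 1 / η)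
    linarith

lemma sub_char {q : ℕ} [NeZero q] (ε2 V : ℝ) : ((Gd q ε2 V).card : ℝ) ≤ q.totient := by
  have := Finset.card_le_card (Finset.subset_univ (Gd q ε2 V))
  rw [card_char] at this
  exact_mod_cast this

lemma sqrt_pi_le : Real.sqrt Real.pi ≤ 2 := by
  rw [show (2 : ℝ) = Real.sqrt 4 by rw [show (4 : ℝ) = 2 ^ 2 by norm_num, Real.sqrt_sq (by norm_num)]]
  exact Real.sqrt_le_sqrt (by linarith [Real.pi_lt_four])

open Classical in
theorem lem_A {ℓ D r κ0 ε2 : ℝ} (h : BE ℓ D r κ0 ε2) (hκ0 : 2 ≤ κ0) (hℓ : 1 ≤ ℓ) (δ : ℝ) (hδ : 0 < δ) (hδ1 : δ ≤ 1)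
    (hκδ : 4 ≤ κ0 ^ 2 * δ ^ 2) (η : ℝ) (hη : 0 < η) (hη1 : η ≤ 1) :
    ∀ᶠ q : ℕ in atTop, ∀ [NeZero q], ∀ x y u t : ℝ, -D ≤ x → y ≤ D → x ≤ t → t ≤ y → 0 ≤ u → u ≤ (1 - δ) * Real.log q →
      ∑ χ ∈ Gd q ε2 (Real.sqrt (Real.log q)), ‖Eb χ r x y (κ0 / Real.sqrt (Real.log q)) u t‖ ^ 2 ≤
        (κ0 / Real.sqrt (Real.log q)) ^ 2 / (2 * Real.pi) * (q.totient * ((1 + η) *
          (Real.log q ^ 2 * Real.exp (-((κ0 / Real.sqrt (Real.log q)) ^ 2 * u ^ 2)) +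
            Real.sqrt Real.pi * u / (κ0 / Real.sqrt (Real.log q))) + η * Real.log q ^ (3 / 2 : ℝ))) := by
  set η1 : ℝ := η / 8 with hη1d
  have hη10 : 0 < η1 := by positivity
  have hη11 : η1 ≤ 1 := by rw [hη1d]; linarith
  have hS0 := S0_nonneg
  set C1 : ℝ := (1 + η1) * 22 + (1 + 1 / η1) * S0 ^ 2 with hC1
  set C2 : ℝ := (1 + 1 / η1) * (4 + C1) + (1 + η1) * C1 + (1 + 1 / η1) with hC2
  have hC10 : 0 ≤ C1 := by positivity
  have hsq : ∀ᶠ L : ℝ in atTop, 1 * Real.sqrt L ^ 4 * Real.exp (-(κ0 ^ 2 * Real.sqrt L)) ≤ 1 :=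
    Real.tendsto_sqrt_atTop.eventually (pe 1 (κ0 ^ 2) (by positivity) 4 1 one_pos)
  filter_upwards [G_sum h hκ0 η1 hη10 hη11, log_tend.eventually (eventually_ge_atTop 1),
    log_tend.eventually (ev43 ((1 + η1) * C2) (η / 2) (by positivity)), log_tend.eventually hsq] with q h1 h2 h3 h4
  intro _ x y u t hx hy hxt hty hu hul
  set L := Real.log q with hL
  have hL0 : 0 < L := by linarith
  have huL : u ≤ L := by nlinarith
  have h1' := h1 x y u t hx hy hxt hty hu (by nlinarith)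
  obtain ⟨k1, k2, k3, k4, k5⟩ := kap (L := L) (κ0 := κ0) (by linarith) h2
  set κ := κ0 / Real.sqrt L with hκ
  set Gs := Gd q ε2 (Real.sqrt L) with hGs
  refine h1'.trans (mul_le_mul_of_nonneg_left ?_ (by positivity))
  have hφ0 : (0 : ℝ) ≤ q.totient := Nat.cast_nonneg _
  set Y : ℝ := Real.sqrt Real.pi * u / κ with hY
  have hY0 : 0 ≤ Y := by positivity
  set Xs : ℝ := L ^ 2 * Real.exp (-(κ ^ 2 * u ^ 2)) with hXs
  have hXs0 : 0 ≤ Xs := by positivity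
  have hVV : Real.sqrt L ^ 2 = L := Real.sq_sqrt hL0.le
  -- the mean square of the sum over primes
  have hPP : ∑ χ ∈ Gs, ‖PP (ac χ) κ u t‖ ^ 2 ≤ q.totient * ((1 + η1) * Y + C1 * L) := by
    have d1 := PP_pos_sum (q := q) κ δ u t η1 k1 hδ hδ1 (by
      rw [← hL]
      calc (4 : ℝ) ≤ κ0 ^ 2 * δ ^ 2 := hκδ
        _ = κ ^ 2 * L * δ ^ 2 := by rw [k3]
        _ = _ := by ring) hu (by rw [← hL]; exact hul) hη10
    have d2 : ∑ χ ∈ Gs, ‖PP (ac χ) κ u t‖ ^ 2 ≤ ∑ χ : DirichletCharacter ℂ q, ‖PP (ac χ) κ u t‖ ^ 2 :=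
      Finset.sum_le_sum_of_subset_of_nonneg (Finset.subset_univ _) fun _ _ _ => sq_nonneg _
    refine d2.trans (d1.trans (mul_le_mul_of_nonneg_left ?_ hφ0))
    rw [← hY]
    have d3 : 2 / κ ^ 2 ≤ 2 * L := by
      have : 2 / κ ^ 2 = 2 * (1 / κ ^ 2) := by ring
      rw [this]; linarith
    have d4 : 10 / κ ≤ 10 * L := by
      have : 10 / κ = 10 * (1 / κ) := by ring
      rw [this]; linarith
    have d5 : S0 ^ 2 ≤ S0 ^ 2 * L := le_mul_of_one_le_right (sq_nonneg _) h2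
    have d6 : (1 + η1) * (Y + 2 / κ ^ 2 + 10 * u + 10 / κ) ≤ (1 + η1) * (Y + 22 * L) :=
      mul_le_mul_of_nonneg_left (by linarith) (by positivity)
    have d7 : (1 + 1 / η1) * S0 ^ 2 ≤ (1 + 1 / η1) * (S0 ^ 2 * L) := mul_le_mul_of_nonneg_left d5 (by positivity)
    rw [hC1]
    linarith
  have hcard := sub_char (q := q) ε2 (Real.sqrt L)
  rw [← hGs] at hcard
  have hc1 : ∀ c : ℝ, 0 ≤ c → (Gs.card : ℝ) * c ≤ q.totient * c := fun c hc => mul_le_mul_of_nonneg_right hcard hc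
  have p1 : L ≤ L ^ (4 / 3 : ℝ) := by
    nth_rewrite 1 [← Real.rpow_one L]
    exact Real.rpow_le_rpow_of_exponent_le h2 (by norm_num)
  have p2 : L ^ (5 / 4 : ℝ) ≤ L ^ (4 / 3 : ℝ) := Real.rpow_le_rpow_of_exponent_le h2 (by norm_num)
  have p3 : 1 ≤ L ^ (4 / 3 : ℝ) := Real.one_le_rpow h2 (by norm_num)
  have hXY : ∑ χ ∈ Gs, ‖XY (Real.log χ.conductor) (ac χ) κ u t‖ ^ 2 ≤
      q.totient * ((1 + η1) ^ 2 * (Xs + Y) + C2 * L ^ (4 / 3 : ℝ)) := by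
    rcases le_or_gt u (L ^ (3 / 4 : ℝ)) with hcase | hcase
    · have hYs : Y ≤ 2 * L ^ (5 / 4 : ℝ) := by
        have e1 : Y = Real.sqrt Real.pi * (u * (1 / κ)) := by rw [hY]; ring
        rw [e1]
        apply mul_le_mul sqrt_pi_le _ (by positivity) (by norm_num)
        have e2 : 1 / κ ≤ Real.sqrt L := by
          rw [hκ, one_div_div, div_le_iff₀ (by positivity)]
          have := Real.sqrt_nonneg L
          nlinarith
        have e3 : L ^ (5 / 4 : ℝ) = L ^ (3 / 4 : ℝ) * Real.sqrt L := by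
          rw [Real.sqrt_eq_rpow, ← Real.rpow_add hL0]; norm_num
        rw [e3]
        exact mul_le_mul hcase e2 (by positivity) (by positivity)
      have hs : ∀ χ ∈ Gs, ‖XY (Real.log χ.conductor) (ac χ) κ u t‖ ^ 2 ≤ (1 + η1) * Xs + (1 + 1 / η1) * ‖PP (ac χ) κ u t‖ ^ 2 :=
        fun χ _ => (XY_two _ (ac χ) κ u t η1 L (cond_nn χ) (cond_le χ) hη10).1
      refine (Finset.sum_le_sum hs).trans ?_
      rw [Finset.sum_add_distrib, Finset.sum_const, nsmul_eq_mul, ← Finset.mul_sum]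
      have q1 := hc1 ((1 + η1) * Xs) (by positivity)
      have q2 := mul_le_mul_of_nonneg_left hPP (by positivity : 0 ≤ 1 + 1 / η1)
      have q3 : (1 + η1) * Y + C1 * L ≤ (4 + C1) * L ^ (4 / 3 : ℝ) := by
        have r1 : (1 + η1) * Y ≤ 2 * (2 * L ^ (5 / 4 : ℝ)) := mul_le_mul (by linarith) hYs hY0 (by norm_num)
        have r2 := mul_le_mul_of_nonneg_left p1 hC10
        linarith
      have q4 : (1 + 1 / η1) * (q.totient * ((1 + η1) * Y + C1 * L)) ≤ q.totient * ((1 + 1 / η1) * (4 + C1) * L ^ (4 / 3 : ℝ)) := by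
        calc (1 + 1 / η1) * (q.totient * ((1 + η1) * Y + C1 * L)) = q.totient * (1 + 1 / η1) * ((1 + η1) * Y + C1 * L) := by ring
          _ ≤ q.totient * (1 + 1 / η1) * ((4 + C1) * L ^ (4 / 3 : ℝ)) := mul_le_mul_of_nonneg_left q3 (by positivity)
          _ = _ := by ring
      have q5 : (q.totient : ℝ) * ((1 + η1) * Xs) + q.totient * ((1 + 1 / η1) * (4 + C1) * L ^ (4 / 3 : ℝ)) ≤
          q.totient * ((1 + η1) ^ 2 * (Xs + Y) + C2 * L ^ (4 / 3 : ℝ)) := by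
        rw [← mul_add]
        apply mul_le_mul_of_nonneg_left _ hφ0
        have r1 : (1 + η1) * Xs ≤ (1 + η1) ^ 2 * (Xs + Y) := by
          have : 1 + η1 ≤ (1 + η1) ^ 2 := by nlinarith
          exact mul_le_mul this (by linarith) hXs0 (by positivity)
        have r2 : (1 + 1 / η1) * (4 + C1) * L ^ (4 / 3 : ℝ) ≤ C2 * L ^ (4 / 3 : ℝ) := by
          apply mul_le_mul_of_nonneg_right _ (by positivity)
          rw [hC2]
          have : 0 ≤ (1 + η1) * C1 + (1 + 1 / η1) := by positivity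
          linarith
        linarith
      linarith
    · have hXs1 : Xs ≤ 1 := by
        refine le_trans ?_ h4
        rw [hXs, one_mul]
        have e1 : Real.sqrt L ^ 4 = L ^ 2 := by
          rw [show Real.sqrt L ^ 4 = (Real.sqrt L ^ 2) ^ 2 by ring, hVV]
        rw [e1]
        apply mul_le_mul_of_nonneg_left _ (sq_nonneg L)
        apply Real.exp_le_exp.2
        have e2 : (L ^ (3 / 4 : ℝ)) ^ 2 = L * Real.sqrt L := by
          rw [← Real.rpow_natCast (L ^ (3 / 4 : ℝ)) 2, ← Real.rpow_mul hL0.le, Real.sqrt_eq_rpow]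
          nth_rewrite 2 [← Real.rpow_one L]
          rw [← Real.rpow_add hL0]
          norm_num
        have e3 : L * Real.sqrt L ≤ u ^ 2 := by
          rw [← e2]
          exact pow_le_pow_left₀ (by positivity) hcase.le 2
        have e4 : κ0 ^ 2 * Real.sqrt L ≤ κ ^ 2 * u ^ 2 := by
          calc κ0 ^ 2 * Real.sqrt L = κ ^ 2 * (L * Real.sqrt L) := by rw [← k3]; ring
            _ ≤ κ ^ 2 * u ^ 2 := mul_le_mul_of_nonneg_left e3 (sq_nonneg _)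
        linarith
      have hs : ∀ χ ∈ Gs, ‖XY (Real.log χ.conductor) (ac χ) κ u t‖ ^ 2 ≤ (1 + η1) * ‖PP (ac χ) κ u t‖ ^ 2 + (1 + 1 / η1) * Xs :=
        fun χ _ => (XY_two _ (ac χ) κ u t η1 L (cond_nn χ) (cond_le χ) hη10).2
      refine (Finset.sum_le_sum hs).trans ?_
      rw [Finset.sum_add_distrib, ← Finset.mul_sum, Finset.sum_const, nsmul_eq_mul]
      have q1 := hc1 ((1 + 1 / η1) * Xs) (by positivity)
      have q2 := mul_le_mul_of_nonneg_left hPP (by positivity : 0 ≤ 1 + η1)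
      have q5 : (1 + η1) * (q.totient * ((1 + η1) * Y + C1 * L)) + (q.totient : ℝ) * ((1 + 1 / η1) * Xs) ≤
          q.totient * ((1 + η1) ^ 2 * (Xs + Y) + C2 * L ^ (4 / 3 : ℝ)) := by
        have e : (1 + η1) * (q.totient * ((1 + η1) * Y + C1 * L)) + (q.totient : ℝ) * ((1 + 1 / η1) * Xs) =
          q.totient * ((1 + η1) ^ 2 * Y + (1 + η1) * C1 * L + (1 + 1 / η1) * Xs) := by ring
        rw [e]
        apply mul_le_mul_of_nonneg_left _ hφ0
        have r1 : (1 + η1) ^ 2 * Y ≤ (1 + η1) ^ 2 * (Xs + Y) := mul_le_mul_of_nonneg_left (by linarith) (by positivity)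
        have r2 : (1 + η1) * C1 * L ≤ (1 + η1) * C1 * L ^ (4 / 3 : ℝ) := mul_le_mul_of_nonneg_left p1 (by positivity)
        have r3 : (1 + 1 / η1) * Xs ≤ (1 + 1 / η1) * L ^ (4 / 3 : ℝ) := mul_le_mul_of_nonneg_left (by linarith) (by positivity)
        have r4 : 0 ≤ (1 + 1 / η1) * (4 + C1) * L ^ (4 / 3 : ℝ) := by positivity
        rw [hC2]
        linarith
      linarith
  have s1 := mul_le_mul_of_nonneg_left hXY (by positivity : 0 ≤ 1 + η1)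
  have s2 : (1 + η1) * (q.totient * ((1 + η1) ^ 2 * (Xs + Y) + C2 * L ^ (4 / 3 : ℝ))) + q.totient * (η1 * L ^ (3 / 2 : ℝ)) ≤
      q.totient * ((1 + η) * (Xs + Y) + η * L ^ (3 / 2 : ℝ)) := by
    have e : (1 + η1) * (q.totient * ((1 + η1) ^ 2 * (Xs + Y) + C2 * L ^ (4 / 3 : ℝ))) + q.totient * (η1 * L ^ (3 / 2 : ℝ)) =
      q.totient * ((1 + η1) ^ 3 * (Xs + Y) + (1 + η1) * C2 * L ^ (4 / 3 : ℝ) + η1 * L ^ (3 / 2 : ℝ)) := by ring
    rw [e]
    apply mul_le_mul_of_nonneg_left _ hφ0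
    have r1 : (1 + η1) ^ 3 ≤ 1 + η := by
      have a1 : η1 ^ 2 ≤ η1 := by rw [pow_two]; exact mul_le_of_le_one_left hη10.le hη11
      have a2 : η1 ^ 3 ≤ η1 := by
        rw [pow_succ]
        exact (mul_le_of_le_one_right (sq_nonneg _) hη11).trans a1
      have e : (1 + η1) ^ 3 = 1 + 3 * η1 + 3 * η1 ^ 2 + η1 ^ 3 := by ring
      rw [e]
      have : η = 8 * η1 := by rw [hη1d]; ring
      linarith
    have r2 := mul_le_mul_of_nonneg_right r1 (by positivity : 0 ≤ Xs + Y)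
    have r3 : 0 ≤ L ^ (3 / 2 : ℝ) := by positivity
    have r4 : η1 * L ^ (3 / 2 : ℝ) ≤ η / 2 * L ^ (3 / 2 : ℝ) := mul_le_mul_of_nonneg_right (by rw [hη1d]; linarith) r3
    linarith
  linarith

open Classical in
theorem lem_B {ℓ D r κ0 ε2 : ℝ} (h : BE ℓ D r κ0 ε2) (hκ0 : 2 ≤ κ0) (δ : ℝ) (hδ1 : δ ≤ 1 / 2)
    (η : ℝ) (hη : 0 < η) (hη1 : η ≤ 1) :
    ∀ᶠ q : ℕ in atTop, ∀ [NeZero q], ∀ x y u t : ℝ, -D ≤ x → y ≤ D → x ≤ t → t ≤ y → (1 - δ) * Real.log q ≤ u →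
      u ≤ ℓ * Real.log q →
      ∑ χ ∈ Gd q ε2 (Real.sqrt (Real.log q)), ‖Eb χ r x y (κ0 / Real.sqrt (Real.log q)) u t‖ ^ 2 ≤
        (κ0 / Real.sqrt (Real.log q)) ^ 2 / (2 * Real.pi) * ((1 + η) *
          (∑ χ ∈ (Finset.univ : Finset (DirichletCharacter ℂ q)).filter (fun χ => χ ≠ 1),
            ‖PP (ac χ) (κ0 / Real.sqrt (Real.log q)) u t‖ ^ 2) + q.totient * (η * Real.log q ^ (3 / 2 : ℝ))) := by
  set η1 : ℝ := η / 4 with hη1d
  have hη10 : 0 < η1 := by positivity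
  have hη11 : η1 ≤ 1 := by rw [hη1d]; linarith
  filter_upwards [G_sum h hκ0 η1 hη10 hη11, log_tend.eventually (eventually_ge_atTop 1),
    log_tend.eventually (rp_ge ((1 + η1) * (1 + 1 / η1) / (η / 2)) (3 / 2) (by norm_num)),
    log_tend.eventually (pe 1 (κ0 ^ 2 / 4) (by positivity) 2 1 one_pos)] with q h1 h2 h3 h4
  intro _ x y u t hx hy hxt hty hu hul
  set L := Real.log q with hL
  have hL0 : 0 < L := by linarith
  have huL : L / 2 ≤ u := by nlinarith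
  have h1' := h1 x y u t hx hy hxt hty (by linarith) hul
  obtain ⟨k1, k2, k3, k4, k5⟩ := kap (L := L) (κ0 := κ0) (by linarith) h2
  set κ := κ0 / Real.sqrt L with hκ
  set Gs := Gd q ε2 (Real.sqrt L) with hGs
  refine h1'.trans (mul_le_mul_of_nonneg_left ?_ (by positivity))
  have hφ0 : (0 : ℝ) ≤ q.totient := Nat.cast_nonneg _
  set Xs : ℝ := L ^ 2 * Real.exp (-(κ ^ 2 * u ^ 2)) with hXs
  have hXs0 : 0 ≤ Xs := by positivity
  have hXs1 : Xs ≤ 1 := by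
    refine le_trans ?_ h4
    rw [hXs, one_mul]
    apply mul_le_mul_of_nonneg_left _ (sq_nonneg L)
    apply Real.exp_le_exp.2
    have e1 : (L / 2) ^ 2 ≤ u ^ 2 := pow_le_pow_left₀ (by positivity) huL 2
    have e2 : κ0 ^ 2 / 4 * L = κ ^ 2 * (L / 2) ^ 2 := by rw [← k3]; ring
    rw [e2]
    have := mul_le_mul_of_nonneg_left e1 (sq_nonneg κ)
    linarith
  have hs : ∀ χ ∈ Gs, ‖XY (Real.log χ.conductor) (ac χ) κ u t‖ ^ 2 ≤ (1 + η1) * ‖PP (ac χ) κ u t‖ ^ 2 + (1 + 1 / η1) * Xs :=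
    fun χ _ => (XY_two _ (ac χ) κ u t η1 L (cond_nn χ) (cond_le χ) hη10).2
  have hsum := Finset.sum_le_sum hs
  rw [Finset.sum_add_distrib, ← Finset.mul_sum, Finset.sum_const, nsmul_eq_mul] at hsum
  have hcard := sub_char (q := q) ε2 (Real.sqrt L)
  rw [← hGs] at hcard
  have q1 : (Gs.card : ℝ) * ((1 + 1 / η1) * Xs) ≤ q.totient * (1 + 1 / η1) := by
    have : (1 + 1 / η1) * Xs ≤ 1 + 1 / η1 := mul_le_of_le_one_right (by positivity) hXs1
    exact mul_le_mul hcard this (by positivity) hφ0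
  set Sf : Finset (DirichletCharacter ℂ q) := (Finset.univ : Finset (DirichletCharacter ℂ q)).filter (fun χ => χ ≠ 1) with hSf
  have q2 : ∑ χ ∈ Gs, ‖PP (ac χ) κ u t‖ ^ 2 ≤ ∑ χ ∈ Sf, ‖PP (ac χ) κ u t‖ ^ 2 := by
    apply Finset.sum_le_sum_of_subset_of_nonneg _ fun _ _ _ => sq_nonneg _
    intro χ hχ
    rw [hGs] at hχ
    unfold Gd at hχ
    rw [Finset.mem_filter] at hχ
    rw [hSf, Finset.mem_filter]
    exact ⟨Finset.mem_univ _, hχ.2.1⟩
  have hT0 : 0 ≤ ∑ χ ∈ Sf, ‖PP (ac χ) κ u t‖ ^ 2 := Finset.sum_nonneg fun _ _ => sq_nonneg _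
  set T := ∑ χ ∈ Sf, ‖PP (ac χ) κ u t‖ ^ 2 with hT
  have q3 : (1 + η1) * ∑ χ ∈ Gs, ‖XY (Real.log χ.conductor) (ac χ) κ u t‖ ^ 2 ≤
      (1 + η1) * ((1 + η1) * T + q.totient * (1 + 1 / η1)) := by
    apply mul_le_mul_of_nonneg_left _ (by positivity)
    have := mul_le_mul_of_nonneg_left q2 (by positivity : 0 ≤ 1 + η1)
    linarith
  have r1 : (1 + η1) ^ 2 ≤ 1 + η := by
    have a1 : η1 ^ 2 ≤ η1 := by rw [pow_two]; exact mul_le_of_le_one_left hη10.le hη11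
    have e : (1 + η1) ^ 2 = 1 + 2 * η1 + η1 ^ 2 := by ring
    rw [e]
    have : η = 4 * η1 := by rw [hη1d]; ring
    linarith
  have r2 := mul_le_mul_of_nonneg_right r1 hT0
  have r3 : (1 + η1) * (1 + 1 / η1) ≤ η / 2 * L ^ (3 / 2 : ℝ) := by
    rw [div_le_iff₀ (by positivity)] at h3
    linarith
  have r4 := mul_le_mul_of_nonneg_left r3 hφ0
  have r5 : 0 ≤ L ^ (3 / 2 : ℝ) := by positivity
  have r6 : (q.totient : ℝ) * (η1 * L ^ (3 / 2 : ℝ)) ≤ q.totient * (η / 2 * L ^ (3 / 2 : ℝ)) := by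
    apply mul_le_mul_of_nonneg_left _ hφ0
    exact mul_le_mul_of_nonneg_right (by rw [hη1d]; linarith) r5
  have r7 : (q.totient : ℝ) * (η * L ^ (3 / 2 : ℝ)) = q.totient * (η / 2 * L ^ (3 / 2 : ℝ)) + q.totient * (η / 2 * L ^ (3 / 2 : ℝ)) := by ring
  have r8 : (1 + η1) * ((1 + η1) * T + q.totient * (1 + 1 / η1)) = (1 + η1) ^ 2 * T + q.totient * ((1 + η1) * (1 + 1 / η1)) := by ring
  linarith

end Pool.Agent.L5helper10.QV
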