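import Pool.Agent.L5helper10.QV.Bk3

/-! The trace, and the number of zeros of a block, on average over the good characters. -/

set_option autoImplicit false

open Filter Topology Set MeasureTheory Complex ComplexConjugate Asymptotics
open H370 (mult)
open ArithmeticFunction (vonMangoldt vonMangoldt_nonneg vonMangoldt_le_log)

namespace Pool.Agent.L5helper10.QV

lemma PP_abs_sum {q : ℕ} [NeZero q] (κ t lam B : ℝ) (T : Finset (DirichletCharacter ℂ q)) (hlam : 0 < lam)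
    (hT : (T.card : ℝ) ≤ q.totient)
    (hB : ∑ χ : DirichletCharacter ℂ q, ‖PP (ac χ) κ 0 t‖ ^ 2 ≤ B) :
    ∑ χ ∈ T, ‖PP (ac χ) κ 0 t‖ ≤ q.totient * (lam / 2) + B / (2 * lam) := by
  have h1 : ∀ χ ∈ T, ‖PP (ac χ) κ 0 t‖ ≤ lam / 2 + 1 / (2 * lam) * ‖PP (ac χ) κ 0 t‖ ^ 2 := by
    intro χ _
    have h2 := sq_nonneg (‖PP (ac χ) κ 0 t‖ - lam)
    have h3 : lam / 2 + 1 / (2 * lam) * ‖PP (ac χ) κ 0 t‖ ^ 2 - ‖PP (ac χ) κ 0 t‖ =
        (‖PP (ac χ) κ 0 t‖ - lam) ^ 2 / (2 * lam) := by field_simp; ring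
    have h4 : 0 ≤ (‖PP (ac χ) κ 0 t‖ - lam) ^ 2 / (2 * lam) := by positivity
    linarith
  refine (Finset.sum_le_sum h1).trans ?_
  rw [Finset.sum_add_distrib, Finset.sum_const, nsmul_eq_mul, ← Finset.mul_sum]
  have h2 : ∑ χ ∈ T, ‖PP (ac χ) κ 0 t‖ ^ 2 ≤ B :=
    (Finset.sum_le_sum_of_subset_of_nonneg (Finset.subset_univ _) fun _ _ _ => sq_nonneg _).trans hB
  have h3 := mul_le_mul_of_nonneg_right hT (by positivity : 0 ≤ lam / 2)
  have h4 := mul_le_mul_of_nonneg_left h2 (by positivity : 0 ≤ 1 / (2 * lam))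
  have h5 : 1 / (2 * lam) * B = B / (2 * lam) := by ring
  linarith

lemma MN_zero_re (ld : ℝ) (a : ℕ → ℂ) (κ t : ℝ) : (MN ld a κ 0 t).re =
    κ / Real.sqrt (2 * Real.pi) * (ld - 2 * (PP a κ 0 t).re) := by
  unfold MN
  rw [Complex.re_ofReal_mul]
  congr 1
  simp only [Complex.ofReal_zero, mul_zero, Complex.exp_zero, neg_zero, ne_eq, OfNat.ofNat_ne_zero, not_false_eq_true,
    zero_pow, zero_div, Real.exp_zero, Complex.ofReal_one, mul_one, Complex.sub_re, Complex.ofReal_re, Complex.conj_re]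
  ring

lemma re_int_sum {ι : Type*} (T : Finset ι) (g : ι → ℝ → ℂ) (hg : ∀ i, Continuous (g i)) (x y : ℝ) :
    ∑ i ∈ T, (∫ t in x..y, g i t).re = ∫ t in x..y, ∑ i ∈ T, (g i t).re := by
  have hc : ∀ i ∈ T, IntervalIntegrable (fun t => (g i t).re) volume x y := fun i _ =>
    (Complex.continuous_re.comp (hg i)).intervalIntegrable _ _
  rw [intervalIntegral.integral_finsetSum hc]
  apply Finset.sum_congr rfl
  intro i _
  have hii : IntervalIntegrable (g i) volume x y := (hg i).intervalIntegrable x y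
  have := Complex.reCLM.intervalIntegral_comp_comm hii
  simpa using this.symm

lemma Eb_cont {q : ℕ} [NeZero q] (χ : DirichletCharacter ℂ q) (r x y κ u : ℝ) : Continuous (fun t => Eb χ r x y κ u t) :=
  EE_cont_t _ _ _ _

open Classical in
theorem trace_low {ℓ D r κ0 ε2 : ℝ} (h : BE ℓ D r κ0 ε2) (hκ0 : 2 ≤ κ0) (hℓ : 0 ≤ ℓ) (h20 : 0 < ε2) (h2 : ε2 ≤ 1 / 2)
    (η : ℝ) (hη : 0 < η) (hη1 : η ≤ 1) :
    ∀ᶠ q : ℕ in atTop, ∀ [NeZero q], ∀ x y : ℝ, -D ≤ x → y ≤ D → x ≤ y →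
      (κ0 / Real.sqrt (Real.log q)) / Real.sqrt (2 * Real.pi) * ((y - x) * (q.totient * Real.log q * (1 - ε2 - η))) ≤
      ∑ χ ∈ Gd q ε2 (Real.sqrt (Real.log q)), (∫ t in x..y, Eb χ r x y (κ0 / Real.sqrt (Real.log q)) 0 t).re := by
  set η1 : ℝ := η / 4 with hη1d
  have hη10 : 0 < η1 := by positivity
  have hS0 := S0_nonneg
  have hgm := good_many ε2 h20 h2 1 zero_le_one η1 hη10
  simp only [one_mul] at hgm
  filter_upwards [h, hgm, log_tend.eventually (eventually_ge_atTop 1),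
    log_tend.eventually (eventually_ge_atTop ((44 + 2 * S0 ^ 2) / η1 ^ 2)),
    log_tend.eventually (rp_ge (36 / η1) (1 / 3) (by norm_num))] with q h1 h3 h4 h5 h6
  intro _ x y hx hy hxy
  set L := Real.log q with hL
  have hL0 : 0 < L := by linarith
  obtain ⟨k1, k2, k3, k4, k5⟩ := kap (L := L) (κ0 := κ0) (by linarith) h4
  set κ := κ0 / Real.sqrt L with hκ
  set Gs := Gd q ε2 (Real.sqrt L) with hGs
  have hcard1 : (1 - η1) * q.totient ≤ (Gs.card : ℝ) := h3
  have hcard2 := sub_char (q := q) ε2 (Real.sqrt L)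
  rw [← hGs] at hcard2
  have hφ0 : (0 : ℝ) ≤ q.totient := Nat.cast_nonneg _
  set P := κ / Real.sqrt (2 * Real.pi) with hP
  have hsp : 0 < Real.sqrt (2 * Real.pi) := Real.sqrt_pos.2 (by positivity)
  have hP0 : 0 < P := by positivity
  have hpt : ∀ t ∈ Icc x y, P * (q.totient * L * (1 - ε2 - η)) ≤ ∑ χ ∈ Gs, (Eb χ r x y κ 0 t).re := by
    intro t ht
    have a1 : ∀ χ ∈ Gs, P * ((1 - ε2) * L - 2 * ‖PP (ac χ) κ 0 t‖ - η1 * L) ≤ (Eb χ r x y κ 0 t).re := by
      intro χ hχ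
      have b1 := h1 χ hχ x y 0 t hx hy ht.1 ht.2 (by rw [abs_zero]; positivity)
      have b2 : (MN (Real.log χ.conductor) (ac χ) κ 0 t).re - (Eb χ r x y κ 0 t).re ≤
          12 * κ * L ^ (2 / 3 : ℝ) := by
        rw [← Complex.sub_re]
        refine (Complex.re_le_norm _).trans ?_
        rw [norm_sub_rev]
        exact b1
      rw [MN_zero_re, ← hP] at b2
      have b3 : (PP (ac χ) κ 0 t).re ≤ ‖PP (ac χ) κ 0 t‖ := Complex.re_le_norm _
      have b4 : (1 - ε2) * L ≤ Real.log χ.conductor := by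
        rw [hGs] at hχ
        unfold Gd at hχ
        rw [Finset.mem_filter] at hχ
        have hq0 : (0 : ℝ) < q := by exact_mod_cast Nat.pos_of_ne_zero (NeZero.ne q)
        have := Real.log_le_log (by positivity) hχ.2.2.1
        rwa [Real.log_rpow hq0] at this
      have b5 : 12 * κ * L ^ (2 / 3 : ℝ) ≤ P * (η1 * L) := by
        have c1 : κ = P * Real.sqrt (2 * Real.pi) := by rw [hP]; field_simp
        have c2 : L = L ^ (1 / 3 : ℝ) * L ^ (2 / 3 : ℝ) := by
          rw [← Real.rpow_add hL0]; norm_num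
        have c3 : 36 ≤ η1 * L ^ (1 / 3 : ℝ) := by
          rw [div_le_iff₀ hη10] at h6
          linarith
        have c4 : 36 * L ^ (2 / 3 : ℝ) ≤ η1 * L := by
          calc 36 * L ^ (2 / 3 : ℝ) ≤ η1 * L ^ (1 / 3 : ℝ) * L ^ (2 / 3 : ℝ) := mul_le_mul_of_nonneg_right c3 (by positivity)
            _ = η1 * (L ^ (1 / 3 : ℝ) * L ^ (2 / 3 : ℝ)) := by ring
            _ = _ := by rw [← c2]
        have c5 : 12 * κ * L ^ (2 / 3 : ℝ) ≤ P * (36 * L ^ (2 / 3 : ℝ)) := by
          rw [c1]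
          have := sqrt_two_pi_le
          have c6 : P * Real.sqrt (2 * Real.pi) ≤ P * 3 := mul_le_mul_of_nonneg_left this hP0.le
          have c7 := mul_le_mul_of_nonneg_right c6 (by positivity : 0 ≤ 12 * L ^ (2 / 3 : ℝ))
          linarith
        exact c5.trans (mul_le_mul_of_nonneg_left c4 hP0.le)
      have b6 : P * ((1 - ε2) * L - 2 * ‖PP (ac χ) κ 0 t‖) ≤ P * (Real.log χ.conductor - 2 * (PP (ac χ) κ 0 t).re) :=
        mul_le_mul_of_nonneg_left (by linarith) hP0.le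
      have b7 : P * ((1 - ε2) * L - 2 * ‖PP (ac χ) κ 0 t‖ - η1 * L) = P * ((1 - ε2) * L - 2 * ‖PP (ac χ) κ 0 t‖) - P * (η1 * L) := by ring
      rw [b7]
      linarith
    refine le_trans ?_ (Finset.sum_le_sum a1)
    rw [← Finset.mul_sum]
    apply mul_le_mul_of_nonneg_left _ hP0.le
    rw [Finset.sum_sub_distrib, Finset.sum_sub_distrib, Finset.sum_const, Finset.sum_const, ← Finset.mul_sum, nsmul_eq_mul,
      nsmul_eq_mul]
    have d1 : ∑ χ : DirichletCharacter ℂ q, ‖PP (ac χ) κ 0 t‖ ^ 2 ≤ q.totient * ((44 + 2 * S0 ^ 2) * L) := by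
      have e1 := PP_neg_sum (q := q) κ 0 t k1 (by rw [← hL, k3]; nlinarith) le_rfl
      rw [neg_zero] at e1
      refine e1.trans (mul_le_mul_of_nonneg_left ?_ hφ0)
      have d3 : 2 / κ ^ 2 ≤ 2 * L := by
        have : 2 / κ ^ 2 = 2 * (1 / κ ^ 2) := by ring
        rw [this]; linarith
      have d4 : 10 / κ ≤ 10 * L := by
        have : 10 / κ = 10 * (1 / κ) := by ring
        rw [this]; linarith
      have d5 : S0 ^ 2 ≤ S0 ^ 2 * L := le_mul_of_one_le_right (sq_nonneg _) h4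
      linarith
    have d2 := PP_abs_sum κ t (η1 * L) _ Gs (by positivity) hcard2 d1
    have d3 : q.totient * ((44 + 2 * S0 ^ 2) * L) / (2 * (η1 * L)) ≤ q.totient * (η1 * L / 2) := by
      have e1 : q.totient * ((44 + 2 * S0 ^ 2) * L) / (2 * (η1 * L)) = q.totient * ((44 + 2 * S0 ^ 2) / η1 / 2) := by
        field_simp
      rw [e1]
      apply mul_le_mul_of_nonneg_left _ hφ0
      have e2 : (44 + 2 * S0 ^ 2) / η1 ≤ η1 * L := by
        rw [div_le_iff₀ (by positivity)] at h5 ⊢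
        linarith
      linarith
    have d4 : (1 - η1) * q.totient * ((1 - ε2) * L) ≤ (Gs.card : ℝ) * ((1 - ε2) * L) :=
      mul_le_mul_of_nonneg_right hcard1 (mul_nonneg (by linarith) hL0.le)
    have d5 : (Gs.card : ℝ) * (η1 * L) ≤ q.totient * (η1 * L) := mul_le_mul_of_nonneg_right hcard2 (by positivity)
    have d6 : (q.totient : ℝ) * L * (1 - ε2 - η) ≤ (1 - η1) * q.totient * ((1 - ε2) * L) - 3 * (q.totient * (η1 * L)) := by
      have e1 : (1 - η1) * q.totient * ((1 - ε2) * L) - 3 * (q.totient * (η1 * L)) - (q.totient : ℝ) * L * (1 - ε2 - η) =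
        q.totient * L * (η - 4 * η1 + η1 * ε2) := by ring
      have e2 : 0 ≤ (q.totient : ℝ) * L * (η - 4 * η1 + η1 * ε2) := by
        have : η - 4 * η1 = 0 := by rw [hη1d]; ring
        rw [this]
        positivity
      linarith
    linarith
  rw [re_int_sum Gs (fun χ t => Eb χ r x y κ 0 t) (fun χ => Eb_cont χ r x y κ 0)]
  have h7 := intervalIntegral.integral_mono_on (μ := volume) hxy (intervalIntegrable_const)
    ((continuous_finsetSum Gs fun χ _ => Complex.continuous_re.comp (Eb_cont χ r x y κ 0)).intervalIntegrable _ _) hpt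
  rw [intervalIntegral.integral_const, smul_eq_mul] at h7
  refine le_trans (le_of_eq ?_) h7
  ring

end Pool.Agent.L5helper10.QV
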