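import Pool.Agent.L5helper10.QV.Bk4

/-! The number of zeros of a block, on average over the good characters. -/

set_option autoImplicit false

open Filter Topology Set MeasureTheory Complex ComplexConjugate Asymptotics
open H370 (mult)
open ArithmeticFunction (vonMangoldt vonMangoldt_nonneg vonMangoldt_le_log)

namespace Pool.Agent.L5helper10.QV

lemma mass_ex (r ε : ℝ) (hr : 0 < r) (hε : 0 < ε) : ∃ κ : ℝ, 0 < κ ∧ κ ≤ 1 ∧
    (1 - ε) * (Real.sqrt (2 * Real.pi) * κ) ≤ ∫ w in (-r)..r, Real.exp (-(w ^ 2 / (2 * κ ^ 2))) := by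
  have hi : Integrable (fun w : ℝ => Real.exp (-(w ^ 2 / 2))) := by
    have := integrable_exp_neg_mul_sq (show (0 : ℝ) < 1 / 2 by norm_num)
    refine this.congr (Eventually.of_forall fun w => ?_)
    simp only
    congr 1; ring
  have hv : ∫ w : ℝ, Real.exp (-(w ^ 2 / 2)) = Real.sqrt (2 * Real.pi) := by
    have := integral_gaussian (1 / 2)
    rw [show Real.pi / (1 / 2) = 2 * Real.pi by ring] at this
    rw [← this]
    apply integral_congr_ae
    refine Eventually.of_forall fun w => ?_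
    simp only
    congr 1; ring
  have hT : Tendsto (fun R : ℝ => ∫ w in (-R)..R, Real.exp (-(w ^ 2 / 2))) atTop (𝓝 (Real.sqrt (2 * Real.pi))) := by
    rw [← hv]
    exact intervalIntegral_tendsto_integral hi tendsto_neg_atTop_atBot tendsto_id
  have hsp : 0 < Real.sqrt (2 * Real.pi) := Real.sqrt_pos.2 (by positivity)
  have hlt : (1 - ε) * Real.sqrt (2 * Real.pi) < Real.sqrt (2 * Real.pi) := by nlinarith
  obtain ⟨R, hR1, hR2⟩ := ((hT.eventually_const_lt hlt).and (eventually_ge_atTop (max 1 r))).exists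
  have hR0 : 0 < R := lt_of_lt_of_le one_pos ((le_max_left _ _).trans hR2)
  have hrR : r ≤ R := (le_max_right _ _).trans hR2
  refine ⟨r / R, by positivity, (div_le_one hR0).2 hrR, ?_⟩
  have hκ : r / R ≠ 0 := by positivity
  have h1 := intervalIntegral.integral_comp_div (a := -r) (b := r) (fun w => Real.exp (-(w ^ 2 / 2))) hκ
  have e1 : -r / (r / R) = -R := by field_simp
  have e2 : r / (r / R) = R := by field_simp
  rw [e1, e2, smul_eq_mul] at h1
  have e3 : ∫ w in (-r)..r, Real.exp (-(w ^ 2 / (2 * (r / R) ^ 2))) = ∫ w in (-r)..r, Real.exp (-((w / (r / R)) ^ 2 / 2)) := by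
    apply intervalIntegral.integral_congr
    intro w _
    simp only
    congr 2
    rw [div_pow w (r / R) 2, div_div, mul_comm 2]
  rw [e3, h1]
  calc (1 - ε) * (Real.sqrt (2 * Real.pi) * (r / R)) = r / R * ((1 - ε) * Real.sqrt (2 * Real.pi)) := by ring
    _ ≤ _ := mul_le_mul_of_nonneg_left hR1.le (by positivity)

open Classical in
/-- the number of zeros of a block on average over the characters -/
theorem count_sum (D r ε : ℝ) (hD : 0 ≤ D) (hr : 0 < r) (hr1 : r ≤ 1) (hε : 0 < ε) :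
    ∃ ε0 : ℝ, 0 < ε0 ∧ ∀ ε2 : ℝ, 0 ≤ ε2 → ε2 ≤ ε0 → ∀ᶠ q : ℕ in atTop, ∀ [NeZero q], ∀ x y : ℝ, -D ≤ x → y ≤ D → x ≤ y →
      ∑ χ ∈ Gd q ε2 (Real.sqrt (Real.log q)), ((Pz (Lc χ) (Real.sqrt (Real.log q)) (x - r) (y + r)).card : ℝ) ≤
        q.totient * Real.log q * ((y - x + 4 * r) / (2 * Real.pi) + ε) := by
  obtain ⟨A, hA1, hGC⟩ := gc_dir
  obtain ⟨C, hC, hex⟩ := explicit
  have hA0 : 0 < A := by linarith
  have hCg := Cg_pos
  have hS0 := S0_nonneg
  have hsp : 0 < Real.sqrt (2 * Real.pi) := Real.sqrt_pos.2 (by positivity)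
  -- the parameters
  set Wd : ℝ := 2 * D + 4 with hWd
  have hWd0 : 0 < Wd := by positivity
  set e0 : ℝ := min (ε / Wd) 1 with he0
  have he00 : 0 < e0 := by positivity
  have he01 : e0 ≤ 1 := min_le_right _ _
  have he0W : e0 ≤ ε / Wd := min_le_left _ _
  set ε' : ℝ := e0 / 16 with hε'
  have hε'0 : 0 < ε' := by positivity
  have hε'1 : ε' ≤ 1 := by rw [hε']; linarith
  set η : ℝ := e0 / 8 with hη
  have hη0 : 0 < η := by positivity
  obtain ⟨κ, hκ, hκ1, hmass⟩ := mass_ex r ε' hr hε'0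
  set c0 : ℝ := e0 / 4 * (Real.sqrt (2 * Real.pi) * κ) / (4 * Cg * A) with hc0
  have hc00 : 0 < c0 := by positivity
  set M : ℝ := max (2 * (D + 2)) (max 16 (-Real.log c0)) with hM
  have hM1 : 2 * (D + 2) ≤ M := le_max_left _ _
  have hM2 : 16 ≤ M := (le_max_left _ _).trans (le_max_right _ _)
  have hM3 : -Real.log c0 ≤ M := (le_max_right _ _).trans (le_max_right _ _)
  have hMe : Real.exp (-(M ^ 2 / 16)) ≤ c0 := by
    rw [← Real.exp_log hc00]
    apply Real.exp_le_exp.2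
    have : M ≤ M ^ 2 / 16 := by nlinarith
    linarith
  have hMD : 0 < M + (D + 2) := by linarith
  refine ⟨min κ (ε' * κ ^ 2 / (M + (D + 2))), by positivity, ?_⟩
  intro ε2 h20 h2
  have h21 : ε2 ≤ κ := h2.trans (min_le_left _ _)
  have h22 : ε2 * (M + (D + 2)) / κ ^ 2 ≤ ε' := by
    have h3 := h2.trans (min_le_right _ _)
    rw [le_div_iff₀ hMD] at h3
    rw [div_le_iff₀ (by positivity)]
    exact h3
  have hcos : (ε2 * (M + (D + 2)) / κ ^ 2) ^ 2 ≤ 2 * ε' := by
    have h3 : 0 ≤ ε2 * (M + (D + 2)) / κ ^ 2 := by positivity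
    have h4 := pow_le_pow_left₀ h3 h22 2
    nlinarith
  set P : ℝ := κ / Real.sqrt (2 * Real.pi) with hP
  have hP0 : 0 < P := by positivity
  set B1 : ℝ := 2 * (2 / κ ^ 2 + 10 / κ) + 2 * S0 ^ 2 with hB1
  have hB10 : 0 ≤ B1 := by positivity
  set K3 : ℝ := C * A ^ 2 * 9 * Real.exp (9 / (8 * κ ^ 2)) with hK3
  have ev : ∀ᶠ L : ℝ in atTop, 1 ≤ L ∧ 4 * (D + 2) ^ 2 ≤ L ∧ K3 * L ^ 3 * Real.exp (-(1 / (16 * κ ^ 2) * L)) ≤ 1 ∧
      24 / η ≤ L ^ (1 / 3 : ℝ) ∧ (2 * A * κ * (D + 5) + 1) / (P * η) ≤ L ∧ B1 / η ^ 2 ≤ L ∧ 4 ≤ κ ^ 2 * L := by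
    filter_upwards [eventually_ge_atTop 1, eventually_ge_atTop (4 * (D + 2) ^ 2), pe K3 (1 / (16 * κ ^ 2)) (by positivity) 3 1 one_pos,
      rp_ge (24 / η) (1 / 3) (by norm_num), eventually_ge_atTop ((2 * A * κ * (D + 5) + 1) / (P * η)),
      eventually_ge_atTop (B1 / η ^ 2), eventually_ge_atTop (4 / κ ^ 2)] with L g1 g2 g3 g4 g5 g6 g7
    refine ⟨g1, g2, g3, g4, g5, g6, ?_⟩
    rw [div_le_iff₀ (by positivity)] at g7
    linarith
  filter_upwards [log_tend.eventually ev] with q hev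
  intro _ x y hx hy hxy
  set L := Real.log q with hL
  obtain ⟨e1, e2, e3, e4, e5, e6, e7⟩ := hev
  have hL0 : 0 < L := by linarith
  set V := Real.sqrt L with hV
  have hV1 : 1 ≤ V := by rw [hV, Real.one_le_sqrt]; exact e1
  have hVV : V ^ 2 = L := Real.sq_sqrt hL0.le
  have hV0 : 0 < V := by linarith
  have hVL : V ≤ L := by
    have h3 : V * 1 ≤ V * V := mul_le_mul_of_nonneg_left hV1 (by linarith)
    rw [← pow_two, hVV, mul_one] at h3
    exact h3
  set Gs := Gd q ε2 V with hGs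
  have hcard2 := sub_char (q := q) ε2 V
  rw [← hGs] at hcard2
  have hφ0 : (0 : ℝ) ≤ q.totient := Nat.cast_nonneg _
  set w : ℝ := y - x + 4 * r with hw
  have hw0 : 0 ≤ w := by linarith
  have hwW : w ≤ Wd := by rw [hw, hWd]; linarith
  have hDV : 2 * (D + 2) ≤ V := by
    have h3 : (2 * (D + 2)) ^ 2 ≤ V ^ 2 := by rw [hVV]; linarith
    exact le_of_sq_le_sq h3 hV0.le
  -- one character
  have hone : ∀ χ ∈ Gs, (1 - ε') ^ 2 * (Real.sqrt (2 * Real.pi) * κ) * ((Pz (Lc χ) V (x - r) (y + r)).card : ℝ) ≤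
      (∫ t in (x - 2 * r)..(y + 2 * r), EE (Zf (Lc χ) V) (fun z => (mult (Lc χ) z : ℂ)) κ 0 t).re +
      w * (2 * c0) * (Cg * (A * (2 * L))) := by
    intro χ hχ
    rw [hGs] at hχ
    unfold Gd at hχ
    rw [Finset.mem_filter] at hχ
    obtain ⟨-, hne, hcd, hz⟩ := hχ
    have hf := gc_Lc hGC χ hne
    have a1 := count_bd hf V ε2 κ r ε' M D x y hV0.le hκ hκ1 hr hr1 hε'0.le hε'1 hx hy hxy hM1 h20 h21 hcos hmass hz
    have a2 : ((Pz (Lc χ) V (x - r) (y + r)).card : ℝ) ≤ ∑ z ∈ Pz (Lc χ) V (x - r) (y + r), (mult (Lc χ) z : ℝ) := by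
      rw [Finset.card_eq_sum_ones, Nat.cast_sum]
      apply Finset.sum_le_sum
      intro z hz1
      have hz2 : z ∈ Zf (Lc χ) V := by
        unfold Pz at hz1
        exact (Finset.mem_filter.1 hz1).1
      have := mult_pos hf z ((mem_Zf hf V z).1 hz2).1
      exact_mod_cast this
    have a3 := mul_le_mul_of_nonneg_left a2 (by positivity : 0 ≤ (1 - ε') ^ 2 * (Real.sqrt (2 * Real.pi) * κ))
    have a4 : (y - x + 4 * r) * (2 * Real.exp (-(M ^ 2 / 16))) * (Cg * (A * (1 + Real.log χ.conductor))) ≤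
        w * (2 * c0) * (Cg * (A * (2 * L))) := by
      have b1 := cond_le χ
      have b2 := cond_nn χ
      rw [← hL] at b1
      have b3 : 2 * Real.exp (-(M ^ 2 / 16)) ≤ 2 * c0 := by linarith
      have b4 : Cg * (A * (1 + Real.log χ.conductor)) ≤ Cg * (A * (2 * L)) := by
        apply mul_le_mul_of_nonneg_left _ hCg.le
        apply mul_le_mul_of_nonneg_left _ hA0.le
        linarith
      rw [← hw]
      exact mul_le_mul (mul_le_mul_of_nonneg_left b3 hw0) b4 (by positivity) (by positivity)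
    linarith
  -- the integral, on average
  have hpt : ∀ t ∈ Icc (x - 2 * r) (y + 2 * r), ∑ χ ∈ Gs, (EE (Zf (Lc χ) V) (fun z => (mult (Lc χ) z : ℂ)) κ 0 t).re ≤
      P * (q.totient * L * (1 + 4 * η)) := by
    intro t ht
    have htD : |t| ≤ D + 2 := by rw [abs_le]; constructor <;> linarith [ht.1, ht.2]
    have htV : |t| ≤ V := by linarith
    have a1 : ∀ χ ∈ Gs, (EE (Zf (Lc χ) V) (fun z => (mult (Lc χ) z : ℂ)) κ 0 t).re ≤
        P * (L + 2 * ‖PP (ac χ) κ 0 t‖ + 2 * (η * L)) := by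
      intro χ hχ
      rw [hGs] at hχ
      unfold Gd at hχ
      rw [Finset.mem_filter] at hχ
      obtain ⟨-, hne, hcd, hz⟩ := hχ
      have hf := gc_Lc hGC χ hne
      have b1 := hex hf κ 0 t V hκ hκ1 htV hV1
      have b2 := MN_prim χ (Real.log χ.conductor) κ 0 t hκ (by rw [← hL]; exact e1)
      rw [← hL] at b2
      have b3 : (EE (Zf (Lc χ) V) (fun z => (mult (Lc χ) z : ℂ)) κ 0 t).re ≤
          (MN (Real.log χ.conductor) (ac χ) κ 0 t).re +
          ‖EE (Zf (Lc χ) V) (fun z => (mult (Lc χ) z : ℂ)) κ 0 t - MN (Real.log χ.conductor) (ac χ.primitiveCharacter) κ 0 t‖ +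
          ‖MN (Real.log χ.conductor) (ac χ.primitiveCharacter) κ 0 t - MN (Real.log χ.conductor) (ac χ) κ 0 t‖ := by
        have c1 := Complex.re_le_norm (EE (Zf (Lc χ) V) (fun z => (mult (Lc χ) z : ℂ)) κ 0 t - MN (Real.log χ.conductor) (ac χ.primitiveCharacter) κ 0 t)
        have c2 := Complex.re_le_norm (MN (Real.log χ.conductor) (ac χ.primitiveCharacter) κ 0 t - MN (Real.log χ.conductor) (ac χ) κ 0 t)
        rw [Complex.sub_re] at c1 c2
        linarith
      have b4 : 2 * A * κ * (3 + |t|) + C * (A ^ 2 * (1 + Real.log χ.conductor + V ^ 2) ^ 2 * V) * ER κ 0 t V ≤ P * (η * L) := by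
        have c1 : 2 * A * κ * (3 + |t|) ≤ 2 * A * κ * (D + 5) := mul_le_mul_of_nonneg_left (by linarith) (by positivity)
        have c2 : C * (A ^ 2 * (1 + Real.log χ.conductor + V ^ 2) ^ 2 * V) * ER κ 0 t V ≤ 1 := by
          refine le_trans ?_ e3
          have d1 : ER κ 0 t V ≤ Real.exp (9 / (8 * κ ^ 2)) * Real.exp (-(1 / (16 * κ ^ 2) * L)) := by
            unfold ER
            rw [← Real.exp_add]
            apply Real.exp_le_exp.2
            rw [abs_zero, mul_zero, zero_add]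
            have f1 : (V / 2) ^ 2 ≤ (V - |t|) ^ 2 := pow_le_pow_left₀ (by positivity) (by linarith) 2
            have f2 : L / 4 / (4 * κ ^ 2) ≤ (V - |t|) ^ 2 / (4 * κ ^ 2) := by
              apply div_le_div_of_nonneg_right _ (by positivity)
              rw [div_pow, hVV] at f1
              linarith
            have f3 : L / 4 / (4 * κ ^ 2) = 1 / (16 * κ ^ 2) * L := by field_simp; norm_num
            linarith
          have d2 : (1 + Real.log χ.conductor + V ^ 2) ^ 2 * V ≤ (3 * L) ^ 2 * L := by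
            have g1 := cond_le χ
            have g2 := cond_nn χ
            rw [← hL] at g1
            apply mul_le_mul _ hVL hV0.le (by positivity)
            apply pow_le_pow_left₀ (by positivity)
            rw [hVV]; linarith
          calc C * (A ^ 2 * (1 + Real.log χ.conductor + V ^ 2) ^ 2 * V) * ER κ 0 t V =
              C * A ^ 2 * ((1 + Real.log χ.conductor + V ^ 2) ^ 2 * V) * ER κ 0 t V := by ring
            _ ≤ C * A ^ 2 * ((3 * L) ^ 2 * L) * (Real.exp (9 / (8 * κ ^ 2)) * Real.exp (-(1 / (16 * κ ^ 2) * L))) := by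
                apply mul_le_mul _ d1 (ER_pos _ _ _ _).le (by positivity)
                exact mul_le_mul_of_nonneg_left d2 (by positivity)
            _ = _ := by rw [hK3]; ring
        rw [div_le_iff₀ (by positivity)] at e5
        linarith
      have b5 : 8 * κ * L ^ (2 / 3 : ℝ) ≤ P * (η * L) := by
        have c1 : κ = P * Real.sqrt (2 * Real.pi) := by rw [hP]; field_simp
        have c2 : L = L ^ (1 / 3 : ℝ) * L ^ (2 / 3 : ℝ) := by
          rw [← Real.rpow_add hL0]; norm_num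
        have c3 : 24 ≤ η * L ^ (1 / 3 : ℝ) := by
          rw [div_le_iff₀ hη0] at e4
          linarith
        have c4 : 24 * L ^ (2 / 3 : ℝ) ≤ η * L := by
          calc 24 * L ^ (2 / 3 : ℝ) ≤ η * L ^ (1 / 3 : ℝ) * L ^ (2 / 3 : ℝ) := mul_le_mul_of_nonneg_right c3 (by positivity)
            _ = η * (L ^ (1 / 3 : ℝ) * L ^ (2 / 3 : ℝ)) := by ring
            _ = _ := by rw [← c2]
        have c5 : 8 * κ * L ^ (2 / 3 : ℝ) ≤ P * (24 * L ^ (2 / 3 : ℝ)) := by
          rw [c1]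
          have := sqrt_two_pi_le
          have c6 : P * Real.sqrt (2 * Real.pi) ≤ P * 3 := mul_le_mul_of_nonneg_left this hP0.le
          have c7 := mul_le_mul_of_nonneg_right c6 (by positivity : 0 ≤ 8 * L ^ (2 / 3 : ℝ))
          linarith
        exact c5.trans (mul_le_mul_of_nonneg_left c4 hP0.le)
      have b6 : (MN (Real.log χ.conductor) (ac χ) κ 0 t).re ≤ P * (L + 2 * ‖PP (ac χ) κ 0 t‖) := by
        rw [MN_zero_re, ← hP]
        apply mul_le_mul_of_nonneg_left _ hP0.le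
        have g1 := cond_le χ
        rw [← hL] at g1
        have g2 := (abs_le.1 (Complex.abs_re_le_norm (PP (ac χ) κ 0 t))).1
        linarith
      have b7 : P * (L + 2 * ‖PP (ac χ) κ 0 t‖ + 2 * (η * L)) = P * (L + 2 * ‖PP (ac χ) κ 0 t‖) + P * (η * L) + P * (η * L) := by ring
      rw [b7]
      linarith
    refine (Finset.sum_le_sum a1).trans ?_
    rw [← Finset.mul_sum]
    apply mul_le_mul_of_nonneg_left _ hP0.le
    rw [Finset.sum_add_distrib, Finset.sum_add_distrib, Finset.sum_const, Finset.sum_const, ← Finset.mul_sum, nsmul_eq_mul,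
      nsmul_eq_mul]
    have d1 : ∑ χ : DirichletCharacter ℂ q, ‖PP (ac χ) κ 0 t‖ ^ 2 ≤ q.totient * B1 := by
      have f1 := PP_neg_sum (q := q) κ 0 t hκ (by rw [← hL]; exact e7) le_rfl
      rw [neg_zero] at f1
      exact f1
    have d2 := PP_abs_sum κ t (η * L) _ Gs (by positivity) hcard2 d1
    have d3 : q.totient * B1 / (2 * (η * L)) ≤ q.totient * (η * L / 2) := by
      rw [mul_div_assoc]
      apply mul_le_mul_of_nonneg_left _ hφ0
      rw [div_le_iff₀ (by positivity)] at e6 ⊢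
      have f1 : B1 * 1 ≤ L * η ^ 2 * L := mul_le_mul e6 e1 zero_le_one (by positivity)
      linarith
    have d4 : (Gs.card : ℝ) * L ≤ q.totient * L := mul_le_mul_of_nonneg_right hcard2 hL0.le
    have d5 : (Gs.card : ℝ) * (2 * (η * L)) ≤ q.totient * (2 * (η * L)) := mul_le_mul_of_nonneg_right hcard2 (by positivity)
    linarith
  have hint : ∑ χ ∈ Gs, (∫ t in (x - 2 * r)..(y + 2 * r), EE (Zf (Lc χ) V) (fun z => (mult (Lc χ) z : ℂ)) κ 0 t).re ≤
      w * (P * (q.totient * L * (1 + 4 * η))) := by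
    rw [re_int_sum Gs (fun χ t => EE (Zf (Lc χ) V) (fun z => (mult (Lc χ) z : ℂ)) κ 0 t) (fun χ => EE_cont_t _ _ _ _)]
    have h7 := intervalIntegral.integral_mono_on (μ := volume) (by linarith : x - 2 * r ≤ y + 2 * r)
      ((continuous_finsetSum Gs fun χ _ => Complex.continuous_re.comp (EE_cont_t (Zf (Lc χ) V)
        (fun z => (mult (Lc χ) z : ℂ)) κ 0)).intervalIntegrable _ _) (intervalIntegrable_const) hpt
    rw [intervalIntegral.integral_const, smul_eq_mul] at h7
    have e : y + 2 * r - (x - 2 * r) = w := by rw [hw]; ring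
    rw [e] at h7
    exact h7
  have hsum := Finset.sum_le_sum hone
  rw [← Finset.mul_sum, Finset.sum_add_distrib, Finset.sum_const, nsmul_eq_mul] at hsum
  have h8 : (Gs.card : ℝ) * (w * (2 * c0) * (Cg * (A * (2 * L)))) ≤ q.totient * (w * (2 * c0) * (Cg * (A * (2 * L)))) :=
    mul_le_mul_of_nonneg_right hcard2 (by positivity)
  set N : ℝ := ∑ χ ∈ Gs, ((Pz (Lc χ) V (x - r) (y + r)).card : ℝ) with hN
  have hN0 : 0 ≤ N := Finset.sum_nonneg fun _ _ => Nat.cast_nonneg _
  have h9 : (1 - ε') ^ 2 * (Real.sqrt (2 * Real.pi) * κ) * N ≤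
      (Real.sqrt (2 * Real.pi) * κ) * (q.totient * L * (w * ((1 + 4 * η) / (2 * Real.pi) + e0 / 4))) := by
    have f1 : (Real.sqrt (2 * Real.pi) * κ) * (q.totient * L * (w * ((1 + 4 * η) / (2 * Real.pi) + e0 / 4))) =
        w * (P * (q.totient * L * (1 + 4 * η))) + q.totient * (w * (2 * c0) * (Cg * (A * (2 * L)))) := by
      have f2 : Real.sqrt (2 * Real.pi) * κ / (2 * Real.pi) = P := by
        rw [hP, div_eq_div_iff (by positivity) hsp.ne']
        have : Real.sqrt (2 * Real.pi) * Real.sqrt (2 * Real.pi) = 2 * Real.pi := Real.mul_self_sqrt (by positivity)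
        calc Real.sqrt (2 * Real.pi) * κ * Real.sqrt (2 * Real.pi) = κ * (Real.sqrt (2 * Real.pi) * Real.sqrt (2 * Real.pi)) := by ring
          _ = _ := by rw [this]
      have f3 : (2 * c0) * (Cg * (A * (2 * L))) = (Real.sqrt (2 * Real.pi) * κ) * (e0 / 4) * L := by
        rw [hc0]; field_simp; ring
      calc (Real.sqrt (2 * Real.pi) * κ) * (q.totient * L * (w * ((1 + 4 * η) / (2 * Real.pi) + e0 / 4))) =
          w * ((Real.sqrt (2 * Real.pi) * κ / (2 * Real.pi)) * (q.totient * L * (1 + 4 * η))) +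
          q.totient * (w * ((Real.sqrt (2 * Real.pi) * κ) * (e0 / 4) * L)) := by ring
        _ = _ := by rw [f2, ← f3]; ring
    rw [f1]
    linarith
  have h10 : (1 - ε') ^ 2 * N ≤ q.totient * L * (w * ((1 + 4 * η) / (2 * Real.pi) + e0 / 4)) := by
    have hk : 0 < Real.sqrt (2 * Real.pi) * κ := by positivity
    refine le_of_mul_le_mul_left ?_ hk
    linarith
  -- the arithmetic
  have hpi : 3 < Real.pi := Real.pi_gt_three
  have g1 : 1 / (2 * Real.pi) ≤ 1 / 6 := one_div_le_one_div_of_le (by norm_num) (by linarith)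
  have g2 : 0 < 1 / (2 * Real.pi) := by positivity
  have g3 : (1 + 4 * η) / (2 * Real.pi) + e0 / 4 ≤ (1 - ε') ^ 2 * (1 / (2 * Real.pi) + e0) := by
    have i1 : (1 + 4 * η) / (2 * Real.pi) = 1 / (2 * Real.pi) + 4 * η * (1 / (2 * Real.pi)) := by ring
    have i2 : 4 * η * (1 / (2 * Real.pi)) ≤ 4 * η * (1 / 6) := mul_le_mul_of_nonneg_left g1 (by positivity)
    have i3 : 1 - 2 * ε' ≤ (1 - ε') ^ 2 := by nlinarith [sq_nonneg ε']
    have i4 := mul_le_mul_of_nonneg_right i3 (by positivity : 0 ≤ 1 / (2 * Real.pi) + e0)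
    have i5 : ε' * (1 / (2 * Real.pi) + e0) ≤ ε' * 2 := mul_le_mul_of_nonneg_left (by linarith) hε'0.le
    have i6 : (1 - 2 * ε') * (1 / (2 * Real.pi) + e0) = 1 / (2 * Real.pi) + e0 - 2 * (ε' * (1 / (2 * Real.pi) + e0)) := by ring
    have i7 : η = e0 / 8 := hη
    have i8 : ε' = e0 / 16 := hε'
    rw [i1]
    rw [i6] at i4
    linarith
  have hε'2 : 0 < (1 - ε') ^ 2 := by
    have : ε' < 1 := by rw [hε']; linarith
    have : 0 < 1 - ε' := by linarith
    positivity
  have g4 : N ≤ q.totient * L * (w * (1 / (2 * Real.pi) + e0)) := by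
    refine le_of_mul_le_mul_left ?_ hε'2
    refine h10.trans ?_
    have i1 := mul_le_mul_of_nonneg_left g3 hw0
    have i2 := mul_le_mul_of_nonneg_left i1 (by positivity : 0 ≤ q.totient * L)
    linarith
  refine g4.trans ?_
  apply mul_le_mul_of_nonneg_left _ (by positivity)
  have g5 : w * e0 ≤ ε := by
    calc w * e0 ≤ Wd * (ε / Wd) := mul_le_mul hwW he0W he00.le hWd0.le
      _ = ε := by field_simp
  have g6 : w * (1 / (2 * Real.pi) + e0) = w / (2 * Real.pi) + w * e0 := by ring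
  rw [g6]
  linarith

end Pool.Agent.L5helper10.QV
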