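import Pool.Agent.L5helper10.QV.Par

/-! Zeros in a block: the far zeros and the number of zeros. -/

set_option autoImplicit false

open Filter Topology Set MeasureTheory Complex ComplexConjugate
open H370 (mult)

namespace Pool.Agent.L5helper10.QV

variable {A X ld : ℝ} {f : ℂ → ℂ} {a : ℕ → ℂ} {G : ℂ → ℂ}

open Classical in
/-- the zeros with height in an interval -/
noncomputable def Pz (f : ℂ → ℂ) (V x y : ℝ) : Finset ℂ := (Zf f V).filter (fun z => x ≤ z.im ∧ z.im ≤ y)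

lemma EE_cont (P : Finset ℂ) (c : ℂ → ℂ) (κ : ℝ) : Continuous (fun p : ℝ × ℝ => EE P c κ p.1 p.2) := by
  unfold EE kk
  fun_prop

lemma EE_cont_t (P : Finset ℂ) (c : ℂ → ℂ) (κ u : ℝ) : Continuous (fun t : ℝ => EE P c κ u t) := by
  unfold EE kk
  fun_prop

/-- the zeros far from the block -/
lemma far_bd (hf : GC A X ld f a G) (V ε2 r U κ x y u t : ℝ) (hV : 1 ≤ V) (hκ : 0 < κ) (hr : 0 ≤ r)
    (hz : ∀ z : ℂ, f z = 0 → |z.im| ≤ V → |z.re - 1 / 2| ≤ ε2) (hu : |u| ≤ U) (hx : x ≤ t) (hy : t ≤ y) :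
    ‖EE (Pz f V (x - r) (y + r)) (fun z => (mult f z : ℂ)) κ u t - EE (Zf f V) (fun z => (mult f z : ℂ)) κ u t‖ ≤
      320 * A * V * (X + V ^ 2) * Real.exp (U * ε2 + (ε2 ^ 2 - r ^ 2) / (2 * κ ^ 2)) := by
  classical
  rw [norm_sub_rev]
  unfold EE Pz
  rw [← Finset.sum_filter_add_sum_filter_not (Zf f V) (fun z => x - r ≤ z.im ∧ z.im ≤ y + r), add_sub_cancel_left]
  refine (norm_sum_le _ _).trans ?_
  have h1 : ∀ z ∈ (Zf f V).filter (fun z => ¬ (x - r ≤ z.im ∧ z.im ≤ y + r)), ‖(mult f z : ℂ) * kk κ u t z‖ ≤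
      (mult f z : ℝ) * Real.exp (U * ε2 + (ε2 ^ 2 - r ^ 2) / (2 * κ ^ 2)) := by
    intro z hz1
    rw [Finset.mem_filter, mem_Zf hf] at hz1
    rw [norm_mul, Complex.norm_natCast]
    apply mul_le_mul_of_nonneg_left _ (Nat.cast_nonneg _)
    rw [kk_norm]
    apply Real.exp_le_exp.2
    have h2 := hz z hz1.1.1 hz1.1.2
    have h3 : u * (z.re - 1 / 2) ≤ U * ε2 := by
      refine (le_abs_self _).trans ?_
      rw [abs_mul]
      exact mul_le_mul hu h2 (abs_nonneg _) ((abs_nonneg _).trans hu)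
    have h4 : (z.re - 1 / 2) ^ 2 ≤ ε2 ^ 2 := by
      rw [← sq_abs]
      exact pow_le_pow_left₀ (abs_nonneg _) h2 2
    have h5 : r ^ 2 ≤ (z.im - t) ^ 2 := by
      have h6 : r ≤ |z.im - t| := by
        by_contra h7
        apply hz1.2
        have h8 := abs_lt.1 (not_le.1 h7)
        constructor <;> linarith [h8.1, h8.2]
      rw [← sq_abs (z.im - t)]
      exact pow_le_pow_left₀ hr h6 2
    have h6 : ((z.re - 1 / 2) ^ 2 - (z.im - t) ^ 2) / (2 * κ ^ 2) ≤ (ε2 ^ 2 - r ^ 2) / (2 * κ ^ 2) := by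
      apply div_le_div_of_nonneg_right _ (by positivity)
      linarith
    linarith
  refine (Finset.sum_le_sum h1).trans ?_
  rw [← Finset.sum_mul]
  apply mul_le_mul_of_nonneg_right _ (Real.exp_pos _).le
  refine le_trans ?_ (cnt_tot hf V hV)
  exact Finset.sum_le_sum_of_subset_of_nonneg (Finset.filter_subset _ _) fun _ _ _ => Nat.cast_nonneg _

/-- the weight -/
noncomputable def gw (k : ℤ) : ℝ := (1 + (k : ℝ) ^ 2) * Real.exp (-((k : ℝ) ^ 2 / 32))

lemma gw_nonneg (k : ℤ) : 0 ≤ gw k := by unfold gw; positivity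

lemma gw_summable : Summable gw := by
  have h1 : Summable (fun n : ℕ => gw n) := by
    have h2 := (Real.summable_pow_mul_exp_neg_nat_mul 0 (show (0 : ℝ) < 1 by norm_num)).add
      (Real.summable_pow_mul_exp_neg_nat_mul 2 (show (0 : ℝ) < 1 by norm_num))
    refine Summable.of_nonneg_of_le (fun n => gw_nonneg _) (fun n => ?_) (h2.mul_left (Real.exp 8))
    unfold gw
    push_cast
    have h3 : Real.exp (-((n : ℝ) ^ 2 / 32)) ≤ Real.exp 8 * Real.exp (-1 * (n : ℝ)) := by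
      rw [← Real.exp_add]
      apply Real.exp_le_exp.2
      nlinarith [sq_nonneg ((n : ℝ) - 16)]
    calc (1 + (n : ℝ) ^ 2) * Real.exp (-((n : ℝ) ^ 2 / 32)) ≤ (1 + (n : ℝ) ^ 2) * (Real.exp 8 * Real.exp (-1 * (n : ℝ))) :=
          mul_le_mul_of_nonneg_left h3 (by positivity)
      _ = _ := by rw [pow_zero]; ring
  apply Summable.of_nat_of_neg h1
  refine h1.congr fun n => ?_
  unfold gw
  push_cast
  rw [neg_sq]

/-- the absolute constant -/
noncomputable def Cg : ℝ := 1 + 32 * ∑' k : ℤ, gw k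

lemma Cg_pos : 0 < Cg := by
  unfold Cg
  have : 0 ≤ ∑' k : ℤ, gw k := tsum_nonneg gw_nonneg
  linarith

lemma gauss_cnt (hf : GC A X ld f a G) (V : ℝ) (hV : 0 ≤ V) :
    ∑ z ∈ Zf f V, (mult f z : ℝ) * Real.exp (-(z.im ^ 2 / 16)) ≤ Cg * (A * X) := by
  classical
  have hA := hf.hA
  have hX := hf.hX
  set m : ℕ := ⌈V⌉₊ with hm
  have hm1 : V ≤ m := Nat.le_ceil V
  set I : Finset ℤ := Finset.Icc (-(m : ℤ)) m with hI
  have hmaps : ∀ z ∈ Zf f V, ⌊z.im⌋ ∈ I := by
    intro z hz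
    have h2 := abs_le.1 ((mem_Zf hf V z).1 hz).2
    rw [hI, Finset.mem_Icc]
    constructor
    · apply Int.le_floor.2
      push_cast
      linarith
    · apply Int.floor_le_iff.2
      push_cast; linarith
  rw [← Finset.sum_fiberwise_of_maps_to (s := Zf f V) (t := I) (g := fun z => ⌊z.im⌋) hmaps]
  have h4 : ∀ k ∈ I, ∑ z ∈ (Zf f V).filter (fun z => ⌊z.im⌋ = k), (mult f z : ℝ) * Real.exp (-(z.im ^ 2 / 16)) ≤
      32 * (A * X) * gw k := by
    intro k hk
    have h5 := cnt_loc hf (k : ℝ) ((Zf f V).filter (fun z => ⌊z.im⌋ = k)) (fun z hz => by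
      rw [Finset.mem_filter] at hz
      refine ⟨((mem_Zf hf V z).1 hz.1).1, ?_⟩
      rw [← hz.2, abs_le]
      have h3 := Int.floor_le z.im
      have h4 := Int.lt_floor_add_one z.im
      constructor <;> linarith)
    have h6 : ∀ z ∈ (Zf f V).filter (fun z => ⌊z.im⌋ = k), (mult f z : ℝ) * Real.exp (-(z.im ^ 2 / 16)) ≤
        (mult f z : ℝ) * (2 * Real.exp (-((k : ℝ) ^ 2 / 32))) := by
      intro z hz
      rw [Finset.mem_filter] at hz
      apply mul_le_mul_of_nonneg_left _ (Nat.cast_nonneg _)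
      have h3 := Int.floor_le z.im
      have h4 := Int.lt_floor_add_one z.im
      rw [hz.2] at h3 h4
      have h7 : Real.exp (-(z.im ^ 2 / 16)) ≤ Real.exp (1 / 16) * Real.exp (-((k : ℝ) ^ 2 / 32)) := by
        rw [← Real.exp_add]
        apply Real.exp_le_exp.2
        have h8 : (z.im - k) ^ 2 ≤ 1 := by
          have : 0 ≤ z.im - k := by linarith
          nlinarith
        nlinarith [sq_nonneg (z.im + (z.im - k))]
      have h8 : Real.exp (1 / 16 : ℝ) ≤ 2 := by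
        have h9 := Real.exp_bound_div_one_sub_of_interval (x := 1 / 16) (by norm_num) (by norm_num)
        refine h9.trans ?_
        norm_num
      exact h7.trans (mul_le_mul_of_nonneg_right h8 (Real.exp_pos _).le)
    refine (Finset.sum_le_sum h6).trans ?_
    rw [← Finset.sum_mul]
    have h7 : 16 * A * (X + (k : ℝ) ^ 2) ≤ 16 * (A * X) * (1 + (k : ℝ) ^ 2) := by
      have h8 : (k : ℝ) ^ 2 ≤ X * (k : ℝ) ^ 2 := le_mul_of_one_le_left (sq_nonneg _) hX
      have h9 : A * (X + (k : ℝ) ^ 2) ≤ A * (X + X * (k : ℝ) ^ 2) := mul_le_mul_of_nonneg_left (by linarith) (by linarith)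
      nlinarith
    calc (∑ z ∈ (Zf f V).filter (fun z => ⌊z.im⌋ = k), (mult f z : ℝ)) * (2 * Real.exp (-((k : ℝ) ^ 2 / 32))) ≤
        (16 * (A * X) * (1 + (k : ℝ) ^ 2)) * (2 * Real.exp (-((k : ℝ) ^ 2 / 32))) :=
          mul_le_mul_of_nonneg_right (h5.trans h7) (by positivity)
      _ = _ := by unfold gw; ring
  refine (Finset.sum_le_sum h4).trans ?_
  rw [← Finset.mul_sum]
  have h5 : ∑ k ∈ I, gw k ≤ ∑' k : ℤ, gw k := gw_summable.sum_le_tsum I fun k _ => gw_nonneg k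
  have hAX : 0 ≤ A * X := by positivity
  unfold Cg
  have h6 := mul_le_mul_of_nonneg_left h5 (by positivity : 0 ≤ 32 * (A * X))
  nlinarith

lemma kk_re (κ t : ℝ) (z : ℂ) : (kk κ 0 t z).re =
    Real.exp (((z.re - 1 / 2) ^ 2 - (z.im - t) ^ 2) / (2 * κ ^ 2)) * Real.cos ((z.re - 1 / 2) * (z.im - t) / κ ^ 2) := by
  unfold kk
  rw [Complex.ofReal_zero, zero_mul, Complex.exp_zero, one_mul]
  have e : (z - 1 / 2 - I * (t : ℂ)) ^ 2 / (2 * (κ : ℂ) ^ 2) =
      ((((z.re - 1 / 2) ^ 2 - (z.im - t) ^ 2) / (2 * κ ^ 2) : ℝ) : ℂ) +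
      (((z.re - 1 / 2) * (z.im - t) / κ ^ 2 : ℝ) : ℂ) * I := by
    have h1 : z = (z.re : ℂ) + (z.im : ℂ) * I := (Complex.re_add_im z).symm
    rcases eq_or_ne κ 0 with h | h
    · subst h; simp
    have hκ : (κ : ℂ) ≠ 0 := Complex.ofReal_ne_zero.2 h
    rw [h1]
    push_cast
    simp only [Complex.add_re, Complex.ofReal_re, Complex.mul_re, Complex.I_re, mul_zero, Complex.ofReal_im, Complex.I_im,
      mul_one, sub_self, add_zero, Complex.add_im, Complex.mul_im, zero_add]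
    field_simp
    ring_nf
    rw [Complex.I_sq]
    ring
  rw [e, Complex.exp_add, ← Complex.ofReal_exp, Complex.re_ofReal_mul, Complex.exp_ofReal_mul_I_re]

/-- the number of zeros of a block -/
theorem count_bd (hf : GC A X ld f a G) (V ε2 κ r ε M D x y : ℝ) (hV : 0 ≤ V) (hκ : 0 < κ) (hκ1 : κ ≤ 1)
    (hr : 0 < r) (hr1 : r ≤ 1) (hε : 0 ≤ ε) (hε1 : ε ≤ 1) (hx : -D ≤ x) (hy : y ≤ D) (hxy : x ≤ y)
    (hM : 2 * (D + 2) ≤ M) (h20 : 0 ≤ ε2) (h2 : ε2 ≤ κ) (hcos : (ε2 * (M + (D + 2)) / κ ^ 2) ^ 2 ≤ 2 * ε)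
    (hmass : (1 - ε) * (Real.sqrt (2 * Real.pi) * κ) ≤ ∫ w in (-r)..r, Real.exp (-(w ^ 2 / (2 * κ ^ 2))))
    (hz : ∀ z : ℂ, f z = 0 → |z.im| ≤ V → |z.re - 1 / 2| ≤ ε2) :
    (1 - ε) ^ 2 * (Real.sqrt (2 * Real.pi) * κ) * ∑ z ∈ Pz f V (x - r) (y + r), (mult f z : ℝ) ≤
      (∫ t in (x - 2 * r)..(y + 2 * r), EE (Zf f V) (fun z => (mult f z : ℂ)) κ 0 t).re +
      (y - x + 4 * r) * (2 * Real.exp (-(M ^ 2 / 16))) * (Cg * (A * X)) := by
  classical
  have hD0 : 0 ≤ D := by linarith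
  set a' := x - 2 * r with ha'
  set b' := y + 2 * r with hb'
  have hab' : a' ≤ b' := by linarith
  set J : ℂ → ℝ := fun z => ∫ t in a'..b', (kk κ 0 t z).re with hJ
  have hkc : ∀ z : ℂ, Continuous (fun t : ℝ => kk κ 0 t z) := by
    intro z
    unfold kk
    fun_prop
  have hJsum : (∫ t in a'..b', EE (Zf f V) (fun z => (mult f z : ℂ)) κ 0 t).re = ∑ z ∈ Zf f V, (mult f z : ℝ) * J z := by
    unfold EE
    rw [intervalIntegral.integral_finsetSum (fun z _ => (((hkc z).const_mul _).intervalIntegrable _ _)), Complex.re_sum]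
    apply Finset.sum_congr rfl
    intro z _
    rw [intervalIntegral.integral_const_mul]
    have e1 : (∫ t in a'..b', kk κ 0 t z).re = J z := by
      have hii : IntervalIntegrable (fun t : ℝ => kk κ 0 t z) volume a' b' := (hkc z).intervalIntegrable a' b'
      have := Complex.reCLM.intervalIntegral_comp_comm hii
      simpa [hJ] using this.symm
    have e2 : ((mult f z : ℕ) : ℂ) = (((mult f z : ℕ) : ℝ) : ℂ) := by push_cast; rfl
    rw [e2, Complex.re_ofReal_mul, e1]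
  have hexp2 : ∀ σ : ℝ, |σ| ≤ ε2 → σ ^ 2 / (2 * κ ^ 2) ≤ 1 / 2 := by
    intro σ hσ
    rw [div_le_div_iff₀ (by positivity) (by norm_num)]
    have h3 : σ ^ 2 ≤ κ ^ 2 := by
      rw [← sq_abs σ]
      exact pow_le_pow_left₀ (abs_nonneg _) (hσ.trans h2) 2
    linarith
  -- low zeros
  have hlow : ∀ z ∈ Zf f V, |z.im| ≤ M → ∀ t ∈ Icc a' b', (1 - ε) * Real.exp (-((z.im - t) ^ 2 / (2 * κ ^ 2))) ≤ (kk κ 0 t z).re := by
    intro z hz1 hzM t ht
    rw [kk_re]
    have hσ := hz z ((mem_Zf hf V z).1 hz1).1 ((mem_Zf hf V z).1 hz1).2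
    have ht1 : |t| ≤ D + 2 := by
      rw [abs_le]
      constructor <;> linarith [ht.1, ht.2]
    have hd : |z.im - t| ≤ M + (D + 2) := (abs_sub _ _).trans (add_le_add hzM ht1)
    have hc : 1 - ε ≤ Real.cos ((z.re - 1 / 2) * (z.im - t) / κ ^ 2) := by
      refine le_trans ?_ (Real.one_sub_sq_div_two_le_cos)
      have h3 : ((z.re - 1 / 2) * (z.im - t) / κ ^ 2) ^ 2 ≤ (ε2 * (M + (D + 2)) / κ ^ 2) ^ 2 := by
        rw [← sq_abs ((z.re - 1 / 2) * (z.im - t) / κ ^ 2)]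
        apply pow_le_pow_left₀ (abs_nonneg _)
        rw [abs_div, abs_mul, abs_of_pos (by positivity : 0 < κ ^ 2)]
        apply div_le_div_of_nonneg_right _ (by positivity)
        exact mul_le_mul hσ hd (abs_nonneg _) h20
      linarith
    have h4 : Real.exp (-((z.im - t) ^ 2 / (2 * κ ^ 2))) ≤ Real.exp (((z.re - 1 / 2) ^ 2 - (z.im - t) ^ 2) / (2 * κ ^ 2)) := by
      apply Real.exp_le_exp.2
      rw [sub_div]
      have : 0 ≤ (z.re - 1 / 2) ^ 2 / (2 * κ ^ 2) := by positivity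
      linarith
    calc (1 - ε) * Real.exp (-((z.im - t) ^ 2 / (2 * κ ^ 2))) ≤ (1 - ε) * Real.exp (((z.re - 1 / 2) ^ 2 - (z.im - t) ^ 2) / (2 * κ ^ 2)) :=
          mul_le_mul_of_nonneg_left h4 (by linarith)
      _ ≤ Real.cos ((z.re - 1 / 2) * (z.im - t) / κ ^ 2) * Real.exp (((z.re - 1 / 2) ^ 2 - (z.im - t) ^ 2) / (2 * κ ^ 2)) :=
          mul_le_mul_of_nonneg_right hc (Real.exp_pos _).le
      _ = _ := mul_comm _ _
  have hJlow : ∀ z ∈ Zf f V, |z.im| ≤ M → 0 ≤ J z := by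
    intro z hz1 hzM
    apply intervalIntegral.integral_nonneg hab'
    intro t ht
    exact le_trans (mul_nonneg (by linarith) (Real.exp_pos _).le) (hlow z hz1 hzM t ht)
  have hgc : ∀ γ : ℝ, Continuous (fun t : ℝ => Real.exp (-((γ - t) ^ 2 / (2 * κ ^ 2)))) := by
    intro γ; fun_prop
  have hJP : ∀ z ∈ Pz f V (x - r) (y + r), (1 - ε) ^ 2 * (Real.sqrt (2 * Real.pi) * κ) ≤ J z := by
    intro z hz1
    unfold Pz at hz1
    rw [Finset.mem_filter] at hz1
    have hzM : |z.im| ≤ M := by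
      rw [abs_le]
      constructor <;> linarith [hz1.2.1, hz1.2.2]
    have h3 : ∫ t in a'..b', (1 - ε) * Real.exp (-((z.im - t) ^ 2 / (2 * κ ^ 2))) ≤ J z := by
      apply intervalIntegral.integral_mono_on hab' (((hgc z.im).const_mul _).intervalIntegrable _ _)
        ((Complex.continuous_re.comp (hkc z)).intervalIntegrable _ _)
      exact hlow z hz1.1 hzM
    refine le_trans ?_ h3
    rw [intervalIntegral.integral_const_mul, pow_two, mul_assoc]
    apply mul_le_mul_of_nonneg_left _ (by linarith)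
    have h4 : ∫ t in (z.im - r)..(z.im + r), Real.exp (-((z.im - t) ^ 2 / (2 * κ ^ 2))) ≤
        ∫ t in a'..b', Real.exp (-((z.im - t) ^ 2 / (2 * κ ^ 2))) := by
      apply intervalIntegral.integral_mono_interval (by linarith [hz1.2.1]) (by linarith) (by linarith [hz1.2.2])
        (Eventually.of_forall fun t => (Real.exp_pos _).le) ((hgc z.im).intervalIntegrable _ _)
    refine hmass.trans (le_trans (le_of_eq ?_) h4)
    have h5 := intervalIntegral.integral_comp_sub_left (a := z.im - r) (b := z.im + r)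
      (fun w => Real.exp (-(w ^ 2 / (2 * κ ^ 2)))) z.im
    rw [h5]
    congr 1 <;> ring
  have hJfar : ∀ z ∈ Zf f V, M < |z.im| → -((y - x + 4 * r) * (2 * Real.exp (-(M ^ 2 / 16)) * Real.exp (-(z.im ^ 2 / 16)))) ≤ J z := by
    intro z hz1 hzM
    have hσ := hz z ((mem_Zf hf V z).1 hz1).1 ((mem_Zf hf V z).1 hz1).2
    have hb : ∀ t ∈ Icc a' b', -(2 * Real.exp (-(M ^ 2 / 16)) * Real.exp (-(z.im ^ 2 / 16))) ≤ (kk κ 0 t z).re := by
      intro t ht
      have ht1 : |t| ≤ D + 2 := by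
        rw [abs_le]
        constructor <;> linarith [ht.1, ht.2]
      have h3 : -‖kk κ 0 t z‖ ≤ (kk κ 0 t z).re := (abs_le.1 (Complex.abs_re_le_norm _)).1
      refine le_trans (neg_le_neg ?_) h3
      rw [kk_norm, zero_mul, zero_add, sub_div]
      have h4 : z.im ^ 2 / 4 ≤ (z.im - t) ^ 2 := by
        have h5 : |z.im| / 2 ≤ |z.im - t| := by
          have h6 : |z.im| - |t| ≤ |z.im - t| := abs_sub_abs_le_abs_sub _ _
          linarith
        have h7 := pow_le_pow_left₀ (by positivity) h5 2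
        rw [sq_abs, div_pow, sq_abs] at h7
        linarith
      have h5 : z.im ^ 2 / 8 ≤ (z.im - t) ^ 2 / (2 * κ ^ 2) := by
        rw [div_le_div_iff₀ (by norm_num) (by positivity)]
        have h6 : κ ^ 2 ≤ 1 := pow_le_one₀ hκ.le hκ1
        have h7 : z.im ^ 2 * (2 * κ ^ 2) ≤ z.im ^ 2 * 2 := mul_le_mul_of_nonneg_left (by linarith) (sq_nonneg _)
        linarith
      have h6 : M ^ 2 ≤ z.im ^ 2 := by
        rw [← sq_abs z.im]
        exact pow_le_pow_left₀ (by linarith) hzM.le 2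
      have h7 : Real.exp ((z.re - 1 / 2) ^ 2 / (2 * κ ^ 2) - (z.im - t) ^ 2 / (2 * κ ^ 2)) ≤
          Real.exp (1 / 2) * (Real.exp (-(M ^ 2 / 16)) * Real.exp (-(z.im ^ 2 / 16))) := by
        rw [← Real.exp_add, ← Real.exp_add]
        apply Real.exp_le_exp.2
        have := hexp2 _ hσ
        linarith
      have h8 : Real.exp (1 / 2 : ℝ) ≤ 2 := by
        have h9 := Real.exp_bound_div_one_sub_of_interval (x := 1 / 2) (by norm_num) (by norm_num)
        refine h9.trans ?_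
        norm_num
      refine h7.trans ?_
      rw [mul_assoc]
      exact mul_le_mul_of_nonneg_right h8 (by positivity)
    have h3 := intervalIntegral.integral_mono_on (μ := volume) hab' (intervalIntegrable_const)
      ((Complex.continuous_re.comp (hkc z)).intervalIntegrable _ _) hb
    rw [intervalIntegral.integral_const, smul_eq_mul] at h3
    have e : b' - a' = y - x + 4 * r := by rw [ha', hb']; ring
    rw [e] at h3
    have h4 : ∫ t in a'..b', (Complex.re ∘ fun t : ℝ => kk κ 0 t z) t = J z := rfl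
    linarith
  have hall : ∀ z ∈ Zf f V, (if (x - r ≤ z.im ∧ z.im ≤ y + r) then (1 - ε) ^ 2 * (Real.sqrt (2 * Real.pi) * κ) * (mult f z : ℝ) else 0) -
      (y - x + 4 * r) * (2 * Real.exp (-(M ^ 2 / 16))) * ((mult f z : ℝ) * Real.exp (-(z.im ^ 2 / 16))) ≤ (mult f z : ℝ) * J z := by
    intro z hz1
    have hm0 : (0 : ℝ) ≤ (mult f z : ℝ) := Nat.cast_nonneg _
    have hpos : 0 ≤ (y - x + 4 * r) * (2 * Real.exp (-(M ^ 2 / 16))) * ((mult f z : ℝ) * Real.exp (-(z.im ^ 2 / 16))) := by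
      have : 0 ≤ y - x + 4 * r := by linarith
      positivity
    split_ifs with h
    · have h3 := hJP z (by unfold Pz; rw [Finset.mem_filter]; exact ⟨hz1, h⟩)
      have h4 := mul_le_mul_of_nonneg_left h3 hm0
      linarith
    · rcases le_or_gt |z.im| M with h3 | h3
      · have h4 := mul_nonneg hm0 (hJlow z hz1 h3)
        linarith
      · have h4 := mul_le_mul_of_nonneg_left (hJfar z hz1 h3) hm0
        linarith
  have hfin := Finset.sum_le_sum hall
  rw [Finset.sum_sub_distrib, ← Finset.mul_sum, ← Finset.sum_filter, ← Finset.mul_sum] at hfin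
  have hg := gauss_cnt hf V hV
  have h5 : (y - x + 4 * r) * (2 * Real.exp (-(M ^ 2 / 16))) * ∑ z ∈ Zf f V, (mult f z : ℝ) * Real.exp (-(z.im ^ 2 / 16)) ≤
      (y - x + 4 * r) * (2 * Real.exp (-(M ^ 2 / 16))) * (Cg * (A * X)) := by
    apply mul_le_mul_of_nonneg_left hg
    have : 0 ≤ y - x + 4 * r := by linarith
    positivity
  rw [hJsum]
  unfold Pz
  linarith

end Pool.Agent.L5helper10.QV
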