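import Pool.Agent.L5helper10.QV.Main
import Pool.Agent.L5helper10.TV.Fin1

/-! Consequences: Cesàro means, and windows of exponents. -/

set_option autoImplicit false

open Filter Topology Set MeasureTheory
open Pool.Agent.L5helper10.TV

namespace Pool.Agent.L5helper10.QV

lemma Rq_intOn (q : ℕ) (hq : 0 < q) (ω : ℝ → ℝ) (hω : Measurable ω) (hω0 : ∀ x, 0 ≤ ω x) (B : ℝ) (hωB : ∀ x, ω x ≤ B) (a b : ℝ) :
    IntegrableOn (fun α => ω α * Rq q α) (Ioc a b) := by
  have h1 := (Gv_intOn q ω hω hω0 B hωB a b).div_const (Real.log q)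
  refine h1.congr (Eventually.of_forall fun α => ?_)
  simp only
  rw [Rq_eq q hq α]
  ring

/-- Cesàro means -/
theorem cesaro_ev (ℓ ε : ℝ) (hℓ : 1 < ℓ) (hε : 0 < ε) :
    ∀ᶠ q : ℕ in atTop, (ℓ - 1) ^ 2 / 2 - 1 / 6 - ε ≤ ∫ α in (1 : ℝ)..ℓ, (ℓ - α) * Rq q α := by
  set δ : ℝ := min 1 (min (ℓ - 1) (ε / (2 * ℓ))) with hδ
  have hℓ0 : 0 < ℓ := by linarith
  have hδ0 : 0 < δ := lt_min one_pos (lt_min (by linarith) (by positivity))
  have hδ1 : δ ≤ 1 := min_le_left _ _
  have hδ2 : δ ≤ ℓ - 1 := (min_le_right _ _).trans (min_le_left _ _)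
  have hδ3 : δ * (2 * ℓ) ≤ ε := by
    have := (min_le_right 1 (min (ℓ - 1) (ε / (2 * ℓ)))).trans (min_le_right _ _)
    rw [← hδ, le_div_iff₀ (by positivity)] at this
    exact this
  set b : ℝ := ℓ - δ with hb
  have hb1 : 1 ≤ b := by rw [hb]; linarith
  set ω : ℝ → ℝ := fun β => min (max (ℓ - β) 0) (ℓ + 1) with hω
  have hωc : Continuous ω := by simp only [hω]; fun_prop
  have hω0 : ∀ x, 0 ≤ ω x := fun x => le_min (le_max_right _ _) (by linarith)
  have hωB : ∀ x, ω x ≤ ℓ + 1 := fun x => min_le_right _ _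
  have hωℓ : ∀ x, ℓ < x → ω x = 0 := by
    intro x hx
    simp only [hω]
    rw [max_eq_right (by linarith), min_eq_left (by linarith)]
  have hsh : ∀ α β, 0 ≤ α → |α - β| ≤ δ → GG (Icc 0 b) α ≤ ω β := by
    intro α β hα hαβ
    have h1 := abs_le.1 hαβ
    refine (GG_Icc_le b α).trans (le_min (max_le_max (by rw [hb]; linarith [h1.1]) le_rfl) (max_le ?_ (by linarith)))
    rw [hb]; linarith
  have key := qv_main (Icc 0 b) measurableSet_Icc ℓ hℓ.le (Icc_subset_Icc_right (by rw [hb]; linarith)) ω hωc.measurable hω0 (ℓ + 1)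
    hωB hωℓ δ hδ0 hsh ε hε
  filter_upwards [key, eventually_gt_atTop 0] with q hq hq0
  have hvol : (volume (Icc (0 : ℝ) b)).toReal = b := by
    rw [Real.volume_Icc, sub_zero, ENNReal.toReal_ofReal (by linarith)]
  rw [hvol] at hq
  have hT : ∫ x in Ioc 0 1, GG (Icc 0 b) x * x ≤ b / 2 - 1 / 3 := by
    have i1 : IntegrableOn (fun x => GG (Icc 0 b) x * x) (Ioc 0 1) :=
      GG_mul_intOn (Icc 0 b) measurableSet_Icc (by simp) _ 0 1
        (continuous_id.continuousOn.integrableOn_Icc.mono_set Ioc_subset_Icc_self)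
    have hc : Continuous (fun x : ℝ => (b - x) * x) := by fun_prop
    have h1 : ∫ x in Ioc 0 1, GG (Icc 0 b) x * x ≤ ∫ x in Ioc (0 : ℝ) 1, (b - x) * x := by
      apply setIntegral_mono_on i1 (hc.continuousOn.integrableOn_Icc.mono_set Ioc_subset_Icc_self) measurableSet_Ioc
      intro x hx
      apply mul_le_mul_of_nonneg_right _ hx.1.le
      refine (GG_Icc_le b x).trans (max_le le_rfl ?_)
      linarith [hx.2]
    refine h1.trans (le_of_eq ?_)
    rw [← intervalIntegral.integral_of_le zero_le_one]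
    have h2 : ∀ x ∈ uIcc (0 : ℝ) 1, HasDerivAt (fun x : ℝ => b * x ^ 2 / 2 - x ^ 3 / 3) ((b - x) * x) x := by
      intro x _
      have h3 := (((hasDerivAt_id x).pow 2).const_mul b).div_const 2
      have h4 := ((hasDerivAt_id x).pow 3).div_const 3
      refine (h3.sub h4).congr_deriv ?_
      simp
      ring
    rw [intervalIntegral.integral_eq_sub_of_hasDerivAt h2 (hc.intervalIntegrable _ _)]
    ring
  have hX : ∫ α in Ioc 1 ℓ, ω α * Rq q α = ∫ α in (1 : ℝ)..ℓ, (ℓ - α) * Rq q α := by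
    rw [intervalIntegral.integral_of_le hℓ.le]
    apply setIntegral_congr_fun measurableSet_Ioc
    intro α hα
    simp only [hω]
    rw [max_eq_left (by linarith [hα.2]), min_eq_left (by linarith [hα.1])]
  rw [hX] at hq
  have e1 : b ^ 2 = (ℓ - 1) ^ 2 + 2 * b - 1 - δ * (2 * (ℓ - 1) - δ) := by rw [hb]; ring
  have e2 : δ * (2 * (ℓ - 1) - δ) ≤ δ * (2 * ℓ) := mul_le_mul_of_nonneg_left (by linarith) hδ0.le
  linarith

/-- the comb -/
def cmb (m : ℕ) (b c : ℝ) : Set ℝ := ⋃ k ∈ Finset.range m, Icc ((k : ℝ) * c) ((k : ℝ) * c + b)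

lemma cmb_meas (m : ℕ) (b c : ℝ) : MeasurableSet (cmb m b c) :=
  Finset.measurableSet_biUnion _ fun _ _ => measurableSet_Icc

lemma cmb_sub (m : ℕ) (b c : ℝ) (hc : 0 ≤ c) (hbc : b ≤ c) : cmb m b c ⊆ Icc 0 (m * c) := by
  intro x hx
  unfold cmb at hx
  simp only [Set.mem_iUnion, Finset.mem_range] at hx
  obtain ⟨k, hk, h1, h2⟩ := hx
  have h3 : (k : ℝ) + 1 ≤ m := by exact_mod_cast hk
  have h4 : ((k : ℝ) + 1) * c ≤ m * c := mul_le_mul_of_nonneg_right h3 hc
  exact ⟨by have : 0 ≤ (k : ℝ) * c := by positivity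
            linarith, by linarith⟩

lemma cmb_vol (m : ℕ) (b c : ℝ) (hb : 0 ≤ b) (hbc : b < c) : (volume (cmb m b c)).toReal = m * b := by
  unfold cmb
  rw [measure_biUnion_finset]
  · simp only [Real.volume_Icc, add_sub_cancel_left]
    rw [Finset.sum_const, Finset.card_range, nsmul_eq_mul, ENNReal.toReal_mul, ENNReal.toReal_natCast,
      ENNReal.toReal_ofReal hb]
  · intro j _ k _ hjk
    simp only [Function.onFun]
    rw [Set.disjoint_left]
    rintro x ⟨h1, h2⟩ ⟨h3, h4⟩
    rcases lt_or_gt_of_ne hjk with h | h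
    · have h5 : (j : ℝ) + 1 ≤ k := by exact_mod_cast h
      have h6 : ((j : ℝ) + 1) * c ≤ k * c := mul_le_mul_of_nonneg_right h5 (by linarith)
      linarith
    · have h5 : (k : ℝ) + 1 ≤ j := by exact_mod_cast h
      have h6 : ((k : ℝ) + 1) * c ≤ j * c := mul_le_mul_of_nonneg_right h5 (by linarith)
      linarith
  · exact fun _ _ => measurableSet_Icc

lemma cmb_GG (m : ℕ) (b c u : ℝ) : GG (cmb m b c) u ≤
    ∑ j ∈ Finset.range m, ∑ k ∈ Finset.range m, max (b - |u - ((j : ℝ) - k) * c|) 0 := by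
  unfold GG
  have h1 : {v : ℝ | v ∈ cmb m b c ∧ v - u ∈ cmb m b c} ⊆
      ⋃ j ∈ Finset.range m, ⋃ k ∈ Finset.range m,
        Icc (max ((j : ℝ) * c) ((k : ℝ) * c + u)) (min ((j : ℝ) * c + b) ((k : ℝ) * c + b + u)) := by
    rintro v ⟨h1, h2⟩
    unfold cmb at h1 h2
    simp only [Set.mem_iUnion] at h1 h2 ⊢
    obtain ⟨j, hj, h3, h4⟩ := h1
    obtain ⟨k, hk, h5, h6⟩ := h2
    exact ⟨j, hj, k, hk, max_le h3 (by linarith), le_min h4 (by linarith)⟩
  have h2 : volume {v : ℝ | v ∈ cmb m b c ∧ v - u ∈ cmb m b c} ≤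
      ∑ j ∈ Finset.range m, ∑ k ∈ Finset.range m, ENNReal.ofReal (b - |u - ((j : ℝ) - k) * c|) := by
    refine (measure_mono h1).trans ((measure_biUnion_finset_le _ _).trans (Finset.sum_le_sum fun j _ => ?_))
    refine (measure_biUnion_finset_le _ _).trans (Finset.sum_le_sum fun k _ => ?_)
    rw [Real.volume_Icc]
    apply ENNReal.ofReal_le_ofReal
    rcases le_total ((j : ℝ) * c) ((k : ℝ) * c + u) with h | h
    · rw [max_eq_right h, min_eq_left (by linarith), abs_of_nonneg (by linarith)]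
      apply le_of_eq; ring
    · rw [max_eq_left h, min_eq_right (by linarith), abs_of_nonpos (by linarith)]
      apply le_of_eq; ring
  have h3 := ENNReal.toReal_mono (by
    apply (ENNReal.sum_lt_top.2 fun j _ => ENNReal.sum_lt_top.2 fun k _ => ENNReal.ofReal_lt_top).ne) h2
  rw [ENNReal.toReal_sum (fun j _ => (ENNReal.sum_lt_top.2 fun k _ => ENNReal.ofReal_lt_top).ne)] at h3
  refine h3.trans (le_of_eq ?_)
  apply Finset.sum_congr rfl
  intro j _
  rw [ENNReal.toReal_sum (fun k _ => ENNReal.ofReal_ne_top)]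
  apply Finset.sum_congr rfl
  intro k _
  rw [ENNReal.toReal_ofReal']

lemma tri_int (b : ℝ) (hb0 : 0 ≤ b) (hb1 : b ≤ 1) : ∫ x in Ioc (0 : ℝ) 1, max (b - x) 0 * x = b ^ 3 / 6 := by
  have hc : Continuous (fun x : ℝ => max (b - x) 0 * x) := by fun_prop
  rw [← intervalIntegral.integral_of_le zero_le_one,
    ← intervalIntegral.integral_add_adjacent_intervals (hc.intervalIntegrable 0 b) (hc.intervalIntegrable b 1)]
  have h1 : ∫ x in (0 : ℝ)..b, max (b - x) 0 * x = ∫ x in (0 : ℝ)..b, (b - x) * x := by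
    apply intervalIntegral.integral_congr
    intro x hx
    rw [uIcc_of_le hb0] at hx
    simp only
    rw [max_eq_left (by linarith [hx.2])]
  have h2 : ∫ x in b..(1 : ℝ), max (b - x) 0 * x = 0 := by
    have : ∫ x in b..(1 : ℝ), max (b - x) 0 * x = ∫ x in b..(1 : ℝ), (0 : ℝ) := by
      apply intervalIntegral.integral_congr
      intro x hx
      rw [uIcc_of_le hb1] at hx
      simp only
      rw [max_eq_right (by linarith [hx.1]), zero_mul]
    rw [this]
    simp
  have h3 : ∀ x ∈ uIcc (0 : ℝ) b, HasDerivAt (fun x : ℝ => b * x ^ 2 / 2 - x ^ 3 / 3) ((b - x) * x) x := by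
    intro x _
    have h3 := (((hasDerivAt_id x).pow 2).const_mul b).div_const 2
    have h4 := ((hasDerivAt_id x).pow 3).div_const 3
    refine (h3.sub h4).congr_deriv ?_
    simp
    ring
  have hc2 : Continuous (fun x : ℝ => (b - x) * x) := by fun_prop
  rw [h1, h2, intervalIntegral.integral_eq_sub_of_hasDerivAt h3 (hc2.intervalIntegrable _ _)]
  ring

/-- windows around the multiples of an exponent -/
theorem comb_ev (m : ℕ) (a c ε : ℝ) (ha0 : 0 < a) (ha1 : a ≤ 1) (hc : 1 + a ≤ c) (hε : 0 < ε) :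
    ∀ᶠ q : ℕ in atTop, ((m * a) ^ 2 - m * a - m * a ^ 3 / 3) / 2 - ε ≤
      ∑ j ∈ Finset.range m, ∑ k ∈ Finset.range j,
        ∫ α in (((j : ℝ) - k) * c - a)..(((j : ℝ) - k) * c + a), (a - |α - ((j : ℝ) - k) * c|) * Rq q α := by
  rcases Nat.eq_zero_or_pos m with hm | hm
  · subst hm
    filter_upwards with q
    simp
    exact hε.le
  have hm1 : (1 : ℝ) ≤ m := by exact_mod_cast hm
  have hc0 : 0 < c := by linarith
  set δ : ℝ := min (a / 2) (ε / (2 * (m : ℝ) ^ 2)) with hδ
  have hδ0 : 0 < δ := by positivity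
  have hδ1 : δ ≤ a / 2 := min_le_left _ _
  have hδ3 : δ * (2 * (m : ℝ) ^ 2) ≤ ε := by
    have := min_le_right (a / 2) (ε / (2 * (m : ℝ) ^ 2))
    rw [← hδ, le_div_iff₀ (by positivity)] at this
    exact this
  set b : ℝ := a - δ with hb
  have hb0 : 0 < b := by rw [hb]; linarith
  have hba : b ≤ a := by rw [hb]; linarith
  have hb1 : b ≤ 1 := hba.trans ha1
  set ω : ℝ → ℝ := fun β => ∑ j ∈ Finset.range m, ∑ k ∈ Finset.range m, max (a - |β - ((j : ℝ) - k) * c|) 0 with hω
  have hωc : Continuous ω := by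
    simp only [hω]
    apply continuous_finsetSum
    intro j _
    apply continuous_finsetSum
    intro k _
    fun_prop
  have hω0 : ∀ x, 0 ≤ ω x := fun x => Finset.sum_nonneg fun j _ => Finset.sum_nonneg fun k _ => le_max_right _ _
  have hωB : ∀ x, ω x ≤ m * (m * a) := by
    intro x
    have h1 : ∀ j ∈ Finset.range m, ∑ k ∈ Finset.range m, max (a - |x - ((j : ℝ) - k) * c|) 0 ≤ m * a := by
      intro j _
      have h2 : ∀ k ∈ Finset.range m, max (a - |x - ((j : ℝ) - k) * c|) 0 ≤ a := by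
        intro k _
        exact max_le (by linarith [abs_nonneg (x - ((j : ℝ) - k) * c)]) ha0.le
      have h3 := Finset.sum_le_sum h2
      rwa [Finset.sum_const, Finset.card_range, nsmul_eq_mul] at h3
    have h3 := Finset.sum_le_sum h1
    rwa [Finset.sum_const, Finset.card_range, nsmul_eq_mul] at h3
  have hjk : ∀ j ∈ Finset.range m, ∀ k : ℕ, ((j : ℝ) - k) * c ≤ (m - 1) * c := by
    intro j hj k
    rw [Finset.mem_range] at hj
    have h1 : (j : ℝ) + 1 ≤ m := by exact_mod_cast hj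
    have h2 : (0 : ℝ) ≤ k := Nat.cast_nonneg k
    apply mul_le_mul_of_nonneg_right _ hc0.le
    linarith
  have hωℓ : ∀ x, (m * c) < x → ω x = 0 := by
    intro x hx
    apply Finset.sum_eq_zero
    intro j hj
    apply Finset.sum_eq_zero
    intro k _
    have h1 := hjk j hj k
    have h2 : a ≤ |x - ((j : ℝ) - k) * c| := by
      refine le_trans ?_ (le_abs_self _)
      nlinarith
    exact max_eq_right (by linarith)
  have hsh : ∀ α β, 0 ≤ α → |α - β| ≤ δ → GG (cmb m b c) α ≤ ω β := by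
    intro α β _ hαβ
    refine (cmb_GG m b c α).trans (Finset.sum_le_sum fun j _ => Finset.sum_le_sum fun k _ => max_le_max ?_ le_rfl)
    have h1 : |β - ((j : ℝ) - k) * c| ≤ |β - α| + |α - ((j : ℝ) - k) * c| := abs_sub_le _ _ _
    rw [abs_sub_comm β α] at h1
    rw [hb]
    linarith
  have hℓ1 : 1 ≤ (m : ℝ) * c := by nlinarith
  have key := qv_main (cmb m b c) (cmb_meas m b c) (m * c) hℓ1 (cmb_sub m b c hc0.le (by linarith)) ω hωc.measurable hω0
    (m * (m * a)) hωB hωℓ δ hδ0 hsh ε hε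
  filter_upwards [key, eventually_gt_atTop 0] with q hq hq0
  rw [cmb_vol m b c hb0.le (by linarith)] at hq
  have hfin : volume (cmb m b c) < ⊤ := (measure_mono (cmb_sub m b c hc0.le (by linarith))).trans_lt measure_Icc_lt_top
  have hT : ∫ x in Ioc 0 1, GG (cmb m b c) x * x ≤ m * (b ^ 3 / 6) := by
    have i1 : IntegrableOn (fun x => GG (cmb m b c) x * x) (Ioc 0 1) :=
      GG_mul_intOn (cmb m b c) (cmb_meas m b c) hfin _ 0 1
        (continuous_id.continuousOn.integrableOn_Icc.mono_set Ioc_subset_Icc_self)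
    have hcc : Continuous (fun x : ℝ => (m : ℝ) * (max (b - x) 0 * x)) := by fun_prop
    have h1 : ∫ x in Ioc 0 1, GG (cmb m b c) x * x ≤ ∫ x in Ioc (0 : ℝ) 1, (m : ℝ) * (max (b - x) 0 * x) := by
      apply setIntegral_mono_on i1 (hcc.continuousOn.integrableOn_Icc.mono_set Ioc_subset_Icc_self) measurableSet_Ioc
      intro x hx
      rw [← mul_assoc]
      apply mul_le_mul_of_nonneg_right _ hx.1.le
      refine (cmb_GG m b c x).trans ?_
      have h2 : ∀ j ∈ Finset.range m, ∑ k ∈ Finset.range m, max (b - |x - ((j : ℝ) - k) * c|) 0 = max (b - x) 0 := by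
        intro j hj
        rw [Finset.sum_eq_single_of_mem j hj]
        · rw [sub_self, zero_mul, sub_zero, abs_of_pos hx.1]
        · intro k _ hkj
          apply max_eq_right
          have h3 : b ≤ |x - ((j : ℝ) - k) * c| := by
            rcases lt_or_gt_of_ne hkj with h | h
            · have h5 : (k : ℝ) + 1 ≤ j := by exact_mod_cast h
              have h6 : 1 * c ≤ ((j : ℝ) - k) * c := mul_le_mul_of_nonneg_right (by linarith) hc0.le
              refine le_trans ?_ (neg_le_abs _)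
              linarith [hx.2]
            · have h5 : (j : ℝ) + 1 ≤ k := by exact_mod_cast h
              have h6 : 1 * c ≤ ((k : ℝ) - j) * c := mul_le_mul_of_nonneg_right (by linarith) hc0.le
              refine le_trans ?_ (le_abs_self _)
              have h7 : ((j : ℝ) - k) * c = -(((k : ℝ) - j) * c) := by ring
              rw [h7]
              linarith [hx.1]
          linarith
      rw [Finset.sum_congr rfl h2, Finset.sum_const, Finset.card_range, nsmul_eq_mul]
    refine h1.trans (le_of_eq ?_)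
    rw [integral_const_mul, tri_int b hb0.le hb1]
  -- the weighted integral
  have hpi : ∀ x y t : ℝ, IntegrableOn (fun α => max (a - |α - t|) 0 * Rq q α) (Ioc x y) := fun x y t =>
    Rq_intOn q hq0 (fun α => max (a - |α - t|) 0) (by fun_prop) (fun α => le_max_right _ _) a
      (fun α => max_le (by linarith [abs_nonneg (α - t)]) ha0.le) x y
  have hX : ∫ α in Ioc 1 (m * c), ω α * Rq q α = ∑ j ∈ Finset.range m, ∑ k ∈ Finset.range j,
        ∫ α in (((j : ℝ) - k) * c - a)..(((j : ℝ) - k) * c + a), (a - |α - ((j : ℝ) - k) * c|) * Rq q α := by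
    have e1 : ∫ α in Ioc 1 (m * c), ω α * Rq q α = ∑ j ∈ Finset.range m, ∑ k ∈ Finset.range m,
        ∫ α in Ioc 1 (m * c), max (a - |α - ((j : ℝ) - k) * c|) 0 * Rq q α := by
      have e2 : ∀ j ∈ Finset.range m, ∑ k ∈ Finset.range m, ∫ α in Ioc 1 (m * c), max (a - |α - ((j : ℝ) - k) * c|) 0 * Rq q α =
          ∫ α in Ioc 1 (m * c), ∑ k ∈ Finset.range m, max (a - |α - ((j : ℝ) - k) * c|) 0 * Rq q α := fun j _ =>
        (integral_finsetSum _ fun k _ => hpi _ _ _).symm
      rw [Finset.sum_congr rfl e2, ← integral_finsetSum _ (fun j _ => integrable_finsetSum _ fun k _ => hpi _ _ _)]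
      apply setIntegral_congr_fun measurableSet_Ioc
      intro α _
      simp only [hω]
      rw [Finset.sum_mul]
      apply Finset.sum_congr rfl
      intro j _
      rw [Finset.sum_mul]
    rw [e1]
    apply Finset.sum_congr rfl
    intro j hj
    have hjm := Finset.mem_range.1 hj
    have hsub : Finset.range j ⊆ Finset.range m := Finset.range_subset_range.2 hjm.le
    rw [← Finset.sum_subset hsub]
    · apply Finset.sum_congr rfl
      intro k hk
      have hkj := Finset.mem_range.1 hk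
      have h5 : (k : ℝ) + 1 ≤ j := by exact_mod_cast hkj
      have h6 : 1 * c ≤ ((j : ℝ) - k) * c := mul_le_mul_of_nonneg_right (by linarith) hc0.le
      have h7 := hjk j hj k
      set t : ℝ := ((j : ℝ) - k) * c with ht
      have h8 : t + a ≤ m * c := by nlinarith
      rw [intervalIntegral.integral_of_le (by linarith)]
      have h9 : ∫ α in Ioc (t - a) (t + a), (a - |α - t|) * Rq q α = ∫ α in Ioc (t - a) (t + a), max (a - |α - t|) 0 * Rq q α := by
        apply setIntegral_congr_fun measurableSet_Ioc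
        intro α hα
        simp only
        rw [max_eq_left]
        have : |α - t| ≤ a := by rw [abs_le]; constructor <;> linarith [hα.1, hα.2]
        linarith
      rw [h9]
      apply setIntegral_eq_of_subset_of_forall_sdiff_eq_zero measurableSet_Ioc (Ioc_subset_Ioc (by linarith) h8)
      intro α hα
      have h10 : a ≤ |α - t| := by
        by_contra h11
        have h12 := abs_lt.1 (not_le.1 h11)
        exact hα.2 ⟨by linarith [h12.1], by linarith [h12.2]⟩
      rw [max_eq_right (by linarith), zero_mul]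
    · intro k _ hk
      rw [Finset.mem_range, not_lt] at hk
      have h5 : (j : ℝ) ≤ k := by exact_mod_cast hk
      have h6 : ((j : ℝ) - k) * c ≤ 0 := mul_nonpos_of_nonpos_of_nonneg (by linarith) hc0.le
      have h7 : ∫ α in Ioc 1 (m * c), max (a - |α - ((j : ℝ) - k) * c|) 0 * Rq q α = ∫ α in Ioc 1 (m * c), (0 : ℝ) := by
        apply setIntegral_congr_fun measurableSet_Ioc
        intro α hα
        simp only
        rw [max_eq_right, zero_mul]
        have h8 : 1 ≤ |α - ((j : ℝ) - k) * c| := by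
          refine le_trans ?_ (le_abs_self _)
          linarith [hα.1]
        linarith
      rw [h7]
      simp
  rw [hX] at hq
  set R := ∑ j ∈ Finset.range m, ∑ k ∈ Finset.range j,
        ∫ α in (((j : ℝ) - k) * c - a)..(((j : ℝ) - k) * c + a), (a - |α - ((j : ℝ) - k) * c|) * Rq q α with hR
  have g1 : (m * a) ^ 2 - (m * b) ^ 2 ≤ ε := by
    have e : (m * a) ^ 2 - (m * b) ^ 2 = (m : ℝ) ^ 2 * (δ * (a + b)) := by rw [hb]; ring
    rw [e]
    have h1 : δ * (a + b) ≤ δ * 2 := mul_le_mul_of_nonneg_left (by linarith) hδ0.le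
    have h2 := mul_le_mul_of_nonneg_left h1 (sq_nonneg (m : ℝ))
    linarith
  have g2 : m * b ≤ m * a := mul_le_mul_of_nonneg_left hba (by linarith)
  have g3 : (m : ℝ) * (b ^ 3 / 6) ≤ m * (a ^ 3 / 6) := by
    apply mul_le_mul_of_nonneg_left _ (by linarith)
    have := pow_le_pow_left₀ hb0.le hba 3
    linarith
  linarith

/-- one window, uniformly -/
theorem window_ev (a B ε : ℝ) (ha0 : 0 < a) (ha1 : a ≤ 1) (hε : 0 < ε) :
    ∀ᶠ q : ℕ in atTop, ∀ c : ℝ, 1 + a ≤ c → c ≤ B →
      2 * a ^ 2 - a - a ^ 3 / 3 - ε ≤ ∫ α in (c - a)..(c + a), (a - |α - c|) * Rq q α := by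
  set η : ℝ := min (a / 2) (ε / 8) with hη
  have hη0 : 0 < η := by positivity
  have hη1 : η ≤ a / 2 := min_le_left _ _
  have hη2 : η ≤ ε / 8 := min_le_right _ _
  set a' : ℝ := a - η with ha'
  have ha'0 : 0 < a' := by rw [ha']; linarith
  set N : ℕ := ⌊|B| / η⌋₊ with hN
  have h1 : ∀ᶠ q : ℕ in atTop, ∀ k ∈ Finset.range (N + 1), ((2 * a') ^ 2 - 2 * a' - 2 * a' ^ 3 / 3) / 2 - ε / 2 ≤
      ∫ α in ((1 + a + k * η) - a')..((1 + a + k * η) + a'), (a' - |α - (1 + a + k * η)|) * Rq q α := by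
    rw [Filter.eventually_all_finset]
    intro k _
    have hk0 : 0 ≤ (k : ℝ) * η := by positivity
    have h2 := comb_ev 2 a' (1 + a + k * η) (ε / 2) ha'0 (by rw [ha']; linarith) (by rw [ha']; linarith) (by positivity)
    filter_upwards [h2] with q hq
    simpa [Finset.sum_range_succ] using hq
  filter_upwards [h1, eventually_gt_atTop 0] with q hq hq0
  intro c hc hcB
  set k : ℕ := ⌊(c - (1 + a)) / η⌋₊ with hk
  have hnn : 0 ≤ (c - (1 + a)) / η := div_nonneg (by linarith) hη0.le
  have hk1 : (k : ℝ) * η ≤ c - (1 + a) := by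
    have := Nat.floor_le hnn
    rwa [← hk, le_div_iff₀ hη0] at this
  have hk2 : c - (1 + a) < ((k : ℝ) + 1) * η := by
    have := Nat.lt_floor_add_one ((c - (1 + a)) / η)
    rwa [← hk, div_lt_iff₀ hη0] at this
  have hkN : k ∈ Finset.range (N + 1) := by
    rw [Finset.mem_range, Nat.lt_succ_iff]
    apply Nat.floor_le_floor
    apply div_le_div_of_nonneg_right _ hη0.le
    linarith [le_abs_self B]
  have h3 := hq k hkN
  set t : ℝ := 1 + a + k * η with ht
  have htc : |t - c| ≤ η := by rw [abs_le]; constructor <;> linarith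
  have hpi : ∀ x y t s : ℝ, IntegrableOn (fun α => max (s - |α - t|) 0 * Rq q α) (Ioc x y) := fun x y t s =>
    Rq_intOn q hq0 (fun α => max (s - |α - t|) 0) (by fun_prop) (fun α => le_max_right _ _) |s|
      (fun α => max_le (by linarith [abs_nonneg (α - t), le_abs_self s]) (abs_nonneg s)) x y
  have h4 : ∫ α in (t - a')..(t + a'), (a' - |α - t|) * Rq q α ≤ ∫ α in (c - a)..(c + a), (a - |α - c|) * Rq q α := by
    rw [intervalIntegral.integral_of_le (by linarith), intervalIntegral.integral_of_le (by linarith)]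
    have e1 : ∫ α in Ioc (t - a') (t + a'), (a' - |α - t|) * Rq q α = ∫ α in Ioc (t - a') (t + a'), max (a' - |α - t|) 0 * Rq q α := by
      apply setIntegral_congr_fun measurableSet_Ioc
      intro α hα
      simp only
      rw [max_eq_left]
      have : |α - t| ≤ a' := by rw [abs_le]; constructor <;> linarith [hα.1, hα.2]
      linarith
    have e2 : ∫ α in Ioc (c - a) (c + a), (a - |α - c|) * Rq q α = ∫ α in Ioc (c - a) (c + a), max (a - |α - c|) 0 * Rq q α := by
      apply setIntegral_congr_fun measurableSet_Ioc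
      intro α hα
      simp only
      rw [max_eq_left]
      have : |α - c| ≤ a := by rw [abs_le]; constructor <;> linarith [hα.1, hα.2]
      linarith
    rw [e1, e2]
    have h5 := abs_le.1 htc
    have hsub : Ioc (t - a') (t + a') ⊆ Ioc (c - a) (c + a) := by
      apply Ioc_subset_Ioc
      · rw [ha']; linarith [h5.1]
      · rw [ha']; linarith [h5.2]
    have h6 : ∫ α in Ioc (t - a') (t + a'), max (a' - |α - t|) 0 * Rq q α ≤
        ∫ α in Ioc (t - a') (t + a'), max (a - |α - c|) 0 * Rq q α := by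
      apply setIntegral_mono_on (hpi _ _ _ _) (hpi _ _ _ _) measurableSet_Ioc
      intro α _
      apply mul_le_mul_of_nonneg_right _ (Rq_nonneg q α)
      apply max_le_max _ le_rfl
      have h7 : |α - c| ≤ |α - t| + |t - c| := abs_sub_le _ _ _
      rw [ha']
      linarith
    refine h6.trans ?_
    apply setIntegral_mono_set (hpi _ _ _ _)
    · exact Eventually.of_forall fun α => mul_nonneg (le_max_right _ _) (Rq_nonneg q α)
    · exact hsub.eventuallyLE
  refine le_trans ?_ (h3.trans h4)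
  have g1 : 2 * a ^ 2 - 2 * a' ^ 2 ≤ ε / 2 := by
    have e : 2 * a ^ 2 - 2 * a' ^ 2 = 2 * (η * (a + a')) := by rw [ha']; ring
    rw [e]
    have h1 : η * (a + a') ≤ η * 2 := mul_le_mul_of_nonneg_left (by rw [ha']; linarith) hη0.le
    linarith
  have g2 : a' ≤ a := by rw [ha']; linarith
  have g3 : a' ^ 3 ≤ a ^ 3 := pow_le_pow_left₀ ha'0.le g2 3
  have e1 : ((2 * a') ^ 2 - 2 * a' - 2 * a' ^ 3 / 3) / 2 = 2 * a' ^ 2 - a' - a' ^ 3 / 3 := by ring
  rw [e1]
  linarith

end Pool.Agent.L5helper10.QV
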