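import Pool.Agent.L5helper10.QV.Dir
import Pool.Agent.Y766.ZE
import Pool.Agent.H505R2.DivB

/-! Most characters have a large conductor and no zeros off a narrow strip. -/

set_option autoImplicit false

open Complex Filter Topology Set Finset
open scoped ComplexConjugate

namespace Pool.Agent.L5helper10.QV

lemma prod_low (S : Finset ℕ) (hS : ∀ p ∈ S, 2 ≤ p) :
    (1 : ℚ) / (S.card + 1) ≤ ∏ p ∈ S, (1 - (p : ℚ)⁻¹) := by
  induction S using Finset.induction_on_max with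
  | empty => simp
  | insert a s hmax ih =>
    have ha : a ∉ s := fun h => (hmax a h).false
    rw [prod_insert ha, card_insert_of_notMem ha]
    have h1 := ih fun p hp => hS p (Finset.mem_insert_of_mem hp)
    have h2 : 2 ≤ a := hS a (Finset.mem_insert_self _ _)
    have h3 : s.card ≤ a - 2 := by
      have : s ⊆ Finset.Ico 2 a := by
        intro p hp
        rw [Finset.mem_Ico]
        exact ⟨hS p (Finset.mem_insert_of_mem hp), hmax p hp⟩
      have := Finset.card_le_card this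
      rwa [Nat.card_Ico] at this
    have h4 : (s.card : ℚ) + 2 ≤ a := by
      exact_mod_cast (by omega : s.card + 2 ≤ a)
    have hc : (0 : ℚ) ≤ s.card := Nat.cast_nonneg _
    have h5 : (a : ℚ)⁻¹ ≤ 1 / (s.card + 2) := by
      rw [← one_div]
      exact one_div_le_one_div_of_le (by linarith) h4
    have h6 : ((s.card : ℚ) + 1) / (s.card + 2) ≤ 1 - (a : ℚ)⁻¹ := by
      have : ((s.card : ℚ) + 1) / (s.card + 2) = 1 - 1 / (s.card + 2) := by
        field_simp
        ring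
      rw [this]
      linarith
    calc (1 : ℚ) / ((s.card + 1 : ℕ) + 1) =
        ((s.card : ℚ) + 1) / (s.card + 2) * (1 / (s.card + 1)) := by
          push_cast
          field_simp
          ring
      _ ≤ (1 - (a : ℚ)⁻¹) * ∏ p ∈ s, (1 - (p : ℚ)⁻¹) := by
          apply mul_le_mul h6 h1 (by positivity)
          refine le_trans (by positivity) h6

lemma phi_low (q : ℕ) (hq : 1 ≤ q) : (q : ℝ) ≤ (1 + 2 * Real.log q) * Nat.totient q := by
  have h1 := prod_low q.primeFactors (fun p hp => (Nat.prime_of_mem_primeFactors hp).two_le)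
  have h2 := Nat.totient_eq_mul_prod_factors q
  have h3 : (q : ℚ) ≤ (q.primeFactors.card + 1) * Nat.totient q := by
    rw [h2]
    rw [div_le_iff₀ (by positivity)] at h1
    have h0 : (0 : ℚ) ≤ q := Nat.cast_nonneg _
    nlinarith
  have h4 : (q : ℝ) ≤ (q.primeFactors.card + 1) * Nat.totient q := by exact_mod_cast h3
  have h5 : (q.primeFactors.card : ℝ) ≤ 2 * Real.log q := by
    have h8 : 2 ^ q.primeFactors.card ≤ q := by
      calc 2 ^ q.primeFactors.card = ∏ p ∈ q.primeFactors, 2 := by rw [prod_const]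
        _ ≤ ∏ p ∈ q.primeFactors, p :=
          prod_le_prod' fun p hp => (Nat.prime_of_mem_primeFactors hp).two_le
        _ ≤ q := Nat.le_of_dvd (by omega) (Nat.prod_primeFactors_dvd q)
    have q1 : (2 : ℝ) ^ q.primeFactors.card ≤ q := by exact_mod_cast h8
    have q2 := Real.log_le_log (by positivity) q1
    rw [Real.log_pow] at q2
    have q3 : (1 : ℝ) / 2 ≤ Real.log 2 := by linarith [Real.log_two_gt_d9]
    nlinarith [(Nat.cast_nonneg q.primeFactors.card : (0 : ℝ) ≤ (q.primeFactors.card : ℝ))]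
  refine h4.trans ?_
  apply mul_le_mul_of_nonneg_right _ (Nat.cast_nonneg _)
  linarith

/-- divisor bound -/
lemma div_bd (K : ℕ) (hK : 0 < K) : ∃ C : ℝ, 0 < C ∧ ∀ n : ℕ, n ≠ 0 →
    (n.divisors.card : ℝ) ≤ C * (n : ℝ) ^ (1 / (K : ℝ)) := by
  obtain ⟨M, hM⟩ : ∃ M : ℕ, M = (K ^ K * 2) ^ (2 ^ K) := ⟨_, rfl⟩
  have hM0 : 0 < M := by rw [hM]; exact Nat.pow_pos (by positivity)
  refine ⟨(M : ℝ) ^ (1 / (K : ℝ)), Real.rpow_pos_of_pos (by exact_mod_cast hM0) _, fun n hn => ?_⟩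
  have h := Pool.Agent.H505R2.card_divisors_pow_le K hK n hn
  rw [← hM] at h
  have h1 : ((n.divisors.card : ℝ)) ^ K ≤ (M : ℝ) * n := by
    have := (Nat.cast_le (α := ℝ)).2 h
    rwa [Nat.cast_pow, Nat.cast_mul] at this
  have hK0 : (0 : ℝ) < K := by exact_mod_cast hK
  rw [← Real.mul_rpow (Nat.cast_nonneg _) (Nat.cast_nonneg _)]
  have h2 : (n.divisors.card : ℝ) = (((n.divisors.card : ℝ)) ^ K) ^ (1 / (K : ℝ)) := by
    rw [← Real.rpow_natCast, ← Real.rpow_mul (Nat.cast_nonneg _), mul_one_div_cancel hK0.ne', Real.rpow_one]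
  rw [h2]
  exact Real.rpow_le_rpow (pow_nonneg (Nat.cast_nonneg _) _) h1 (one_div_pos.2 hK0).le

lemma card_char (d : ℕ) [NeZero d] : (Finset.univ : Finset (DirichletCharacter ℂ d)).card = d.totient := by
  rw [Finset.card_univ, ← Nat.card_eq_fintype_card]
  exact DirichletCharacter.card_eq_totient_of_hasEnoughRootsOfUnity ℂ d

open Classical in
/-- the number of primitive characters with a zero off the strip -/
theorem prim_density (ε2 : ℝ) (h0 : 0 < ε2) (h1 : ε2 ≤ 1 / 2) (ε : ℝ) (hε : 0 < ε) : ∃ (C : ℝ) (A : ℕ), 0 < C ∧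
    ∀ (d : ℕ) [NeZero d] (T : ℝ), 0 ≤ T →
    (((Finset.univ : Finset (DirichletCharacter ℂ d)).filter (fun θ => 1 < d ∧ θ.IsPrimitive ∧
      ∃ ρ : ℂ, DirichletCharacter.LFunction θ ρ = 0 ∧ 1 / 2 + ε2 ≤ ρ.re ∧ |ρ.im| ≤ T)).card : ℝ) ≤
      C * (1 + T) ^ A * (d : ℝ) ^ (1 - ε2 + ε) := by
  obtain ⟨C, A, hC, hz⟩ := Pool.Agent.Y766.zd_coset 0 hε
  -- `φ(d) ≥ d^(2/3)` for large `d`
  have hlarge : ∃ d0 : ℕ, ∀ d : ℕ, d0 ≤ d → (d : ℝ) ^ (2 / 3 : ℝ) ≤ d.totient := by
    have h2 : ∀ᶠ x : ℝ in atTop, (1 + 2 * Real.log x) ≤ x ^ (1 / 3 : ℝ) := by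
      have h3 := (isLittleO_log_rpow_atTop (show (0 : ℝ) < 1 / 3 by norm_num)).bound (show (0 : ℝ) < 1 / 4 by norm_num)
      have h4 : Tendsto (fun x : ℝ => x ^ (1 / 3 : ℝ)) atTop atTop := tendsto_rpow_atTop (by norm_num)
      filter_upwards [h3, h4.eventually_ge_atTop 2, eventually_ge_atTop 1] with x h5 h6 h7
      rw [Real.norm_of_nonneg (Real.log_nonneg h7), Real.norm_of_nonneg (by positivity)] at h5
      linarith
    obtain ⟨x0, hx0⟩ := (h2.and (eventually_ge_atTop 1)).exists_forall_of_atTop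
    refine ⟨⌈x0⌉₊, fun d hd => ?_⟩
    have hdx : x0 ≤ d := (Nat.le_ceil x0).trans (by exact_mod_cast hd)
    obtain ⟨h5, h6⟩ := hx0 d hdx
    have hd1 : 1 ≤ d := by exact_mod_cast h6
    have h7 := phi_low d hd1
    have h8 : (d : ℝ) ≤ (d : ℝ) ^ (1 / 3 : ℝ) * d.totient := h7.trans (mul_le_mul_of_nonneg_right h5 (Nat.cast_nonneg _))
    have h9 : (d : ℝ) = (d : ℝ) ^ (1 / 3 : ℝ) * (d : ℝ) ^ (2 / 3 : ℝ) := by
      rw [← Real.rpow_add (by linarith)]
      norm_num
    have h10 : 0 < (d : ℝ) ^ (1 / 3 : ℝ) := Real.rpow_pos_of_pos (by linarith) _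
    have h11 : (d : ℝ) ^ (1 / 3 : ℝ) * (d : ℝ) ^ (2 / 3 : ℝ) ≤ (d : ℝ) ^ (1 / 3 : ℝ) * d.totient := by rw [← h9]; exact h8
    exact le_of_mul_le_mul_left h11 h10
  obtain ⟨d0, hd0⟩ := hlarge
  refine ⟨C + d0, A, by positivity, fun d _ T hT => ?_⟩
  have hdpos : 1 ≤ d := NeZero.one_le
  have hd1 : (1 : ℝ) ≤ d := by exact_mod_cast hdpos
  have hexp0 : 0 ≤ 1 - ε2 + ε := by linarith
  have hpow1 : 1 ≤ (d : ℝ) ^ (1 - ε2 + ε) := Real.one_le_rpow hd1 hexp0
  have hT1 : 1 ≤ (1 + T) ^ A := one_le_pow₀ (by linarith)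
  set S := (Finset.univ : Finset (DirichletCharacter ℂ d)).filter (fun θ => 1 < d ∧ θ.IsPrimitive ∧
      ∃ ρ : ℂ, DirichletCharacter.LFunction θ ρ = 0 ∧ 1 / 2 + ε2 ≤ ρ.re ∧ |ρ.im| ≤ T) with hS
  have hcard : (S.card : ℝ) ≤ d.totient := by
    rw [← card_char d]
    exact_mod_cast Finset.card_filter_le _ _
  rcases lt_or_ge d d0 with hlt | hge
  · have h2 : (S.card : ℝ) ≤ d0 := by
      refine hcard.trans ?_
      exact_mod_cast (Nat.totient_le d).trans hlt.le
    have h3 : (d0 : ℝ) * 1 ≤ (C + d0) * ((1 + T) ^ A * (d : ℝ) ^ (1 - ε2 + ε)) := by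
      apply mul_le_mul (by linarith) _ zero_le_one (by positivity)
      nlinarith
    calc (S.card : ℝ) ≤ d0 := h2
      _ ≤ _ := by linarith
  · rcases le_or_gt d 1 with hd | hd
    · have : S = ∅ := by
        rw [hS, Finset.filter_eq_empty_iff]
        intro θ _ h
        omega
      rw [this]
      simp only [Finset.card_empty, Nat.cast_zero]
      positivity
    have hcp : Pool.Agent.Y766.CosetProg 0 (Finset.univ : Finset (DirichletCharacter ℂ d)) := by
      refine ⟨⊤, fun i => i.elim0, fun i => i.elim0, fun θ => ?_, ?_⟩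
      · simp
      · simp only [Finset.univ_eq_empty, Finset.prod_empty, mul_one]
        rw [Finset.card_univ, ← Nat.card_eq_fintype_card, Subgroup.card_top]
    have hφ : ((Finset.univ : Finset (DirichletCharacter ℂ d)).card : ℝ) = d.totient := by rw [card_char]
    have h23 := hd0 d hge
    have h12 : (d : ℝ) ^ (1 / 2 : ℝ) ≤ d.totient := by
      refine le_trans ?_ h23
      exact Real.rpow_le_rpow_of_exponent_le hd1 (by norm_num)
    have h := hz d d hd dvd_rfl Finset.univ hcp (by rw [hφ]; exact h23) (by rw [hφ]; exact h12) 1 (1 / 2 + ε2) T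
      (by linarith) (by linarith) hT
    rw [hφ] at h
    have hSle : S.card ≤ ((Finset.univ : Finset (DirichletCharacter ℂ d)).filter (fun θ =>
      ((1 : DirichletCharacter ℂ d) * DirichletCharacter.changeLevel (dvd_refl d) θ).IsPrimitive ∧
      ∃ ρ : ℂ, ((1 : DirichletCharacter ℂ d) * DirichletCharacter.changeLevel (dvd_refl d) θ).LFunction ρ = 0 ∧
        1 / 2 + ε2 ≤ ρ.re ∧ |ρ.im| ≤ T)).card := by
      apply Finset.card_le_card
      intro θ hθ
      rw [hS, Finset.mem_filter] at hθ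
      rw [Finset.mem_filter]
      refine ⟨Finset.mem_univ _, ?_⟩
      rw [one_mul, DirichletCharacter.changeLevel_self]
      exact ⟨hθ.2.2.1, hθ.2.2.2⟩
    have h3 : (S.card : ℝ) ≤ C * (1 + T) ^ A * (d : ℝ) ^ ε * (d.totient : ℝ) ^ (3 / 2 - (1 / 2 + ε2)) :=
      le_trans (by exact_mod_cast hSle) h
    refine h3.trans ?_
    have h4 : (d.totient : ℝ) ^ (3 / 2 - (1 / 2 + ε2)) ≤ (d : ℝ) ^ (1 - ε2) := by
      rw [show (3 : ℝ) / 2 - (1 / 2 + ε2) = 1 - ε2 by ring]
      apply Real.rpow_le_rpow (Nat.cast_nonneg _) _ (by linarith)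
      exact_mod_cast Nat.totient_le d
    have h5 : (d : ℝ) ^ ε * (d : ℝ) ^ (1 - ε2) = (d : ℝ) ^ (1 - ε2 + ε) := by
      rw [← Real.rpow_add (by linarith)]
      congr 1; ring
    calc C * (1 + T) ^ A * (d : ℝ) ^ ε * (d.totient : ℝ) ^ (3 / 2 - (1 / 2 + ε2)) ≤
        C * (1 + T) ^ A * (d : ℝ) ^ ε * (d : ℝ) ^ (1 - ε2) := mul_le_mul_of_nonneg_left h4 (by positivity)
      _ = C * (1 + T) ^ A * (d : ℝ) ^ (1 - ε2 + ε) := by rw [← h5]; ring
      _ ≤ (C + d0) * (1 + T) ^ A * (d : ℝ) ^ (1 - ε2 + ε) := by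
        apply mul_le_mul_of_nonneg_right _ (by positivity)
        apply mul_le_mul_of_nonneg_right _ (by positivity)
        have : (0 : ℝ) ≤ d0 := Nat.cast_nonneg _
        linarith

end Pool.Agent.L5helper10.QV
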