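import Pool.Agent.L5helper10.QV.Den

/-! Most characters modulo `q` are good. -/

set_option autoImplicit false

open Complex Filter Topology Set Finset
open scoped ComplexConjugate

namespace Pool.Agent.L5helper10.QV

instance ncond {q : ℕ} [NeZero q] (χ : DirichletCharacter ℂ q) : NeZero χ.conductor := ⟨χ.conductor_ne_zero⟩

/-- the completed L-function of the primitive character inducing `χ` -/
noncomputable def Lc {q : ℕ} [NeZero q] (χ : DirichletCharacter ℂ q) : ℂ → ℂ :=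
  DirichletCharacter.completedLFunction χ.primitiveCharacter

open Classical in
/-- the good characters -/
noncomputable def Gd (q : ℕ) [NeZero q] (ε2 V : ℝ) : Finset (DirichletCharacter ℂ q) :=
  Finset.univ.filter (fun χ => χ ≠ 1 ∧ (q : ℝ) ^ (1 - ε2) ≤ χ.conductor ∧
    ∀ z : ℂ, Lc χ z = 0 → |z.im| ≤ V → |z.re - 1 / 2| ≤ ε2)

lemma cond_gt {q : ℕ} [NeZero q] {χ : DirichletCharacter ℂ q} (h : χ ≠ 1) : 1 < χ.conductor := by
  have h1 : χ.conductor ≠ 1 := fun h2 => h (DirichletCharacter.eq_one_iff_conductor_eq_one.2 h2)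
  have h2 : χ.conductor ≠ 0 := χ.conductor_ne_zero
  omega

open Classical in
/-- sum over the conductors -/
lemma card_fiber {q : ℕ} [NeZero q] (S : Finset (DirichletCharacter ℂ q)) (N : ℕ → ℝ)
    (h : ∀ d ∈ q.divisors, ((S.filter (fun χ => χ.conductor = d)).card : ℝ) ≤ N d) :
    (S.card : ℝ) ≤ ∑ d ∈ q.divisors, N d := by
  have h1 := Finset.card_eq_sum_card_fiberwise (s := S) (t := q.divisors) (f := fun χ => χ.conductor) (fun χ _ => by
    simp only [Finset.mem_coe, Nat.mem_divisors]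
    exact ⟨χ.conductor_dvd_level, NeZero.ne q⟩)
  rw [h1]
  push_cast
  exact Finset.sum_le_sum h

open Classical in
lemma small_cond (q : ℕ) [NeZero q] (y : ℝ) (hy : 0 ≤ y) :
    (((Finset.univ : Finset (DirichletCharacter ℂ q)).filter (fun χ => (χ.conductor : ℝ) < y)).card : ℝ) ≤
      q.divisors.card * y := by
  refine (card_fiber _ (fun _ => y) (fun d hd => ?_)).trans ?_
  · have hdq : d ∣ q := Nat.dvd_of_mem_divisors hd
    have hd0 : d ≠ 0 := fun h => by subst h; exact NeZero.ne q (Nat.eq_zero_of_zero_dvd hdq)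
    have : NeZero d := ⟨hd0⟩
    rcases lt_or_ge (d : ℝ) y with hlt | hge
    · have hsub : ((Finset.univ : Finset (DirichletCharacter ℂ q)).filter (fun χ => (χ.conductor : ℝ) < y)).filter
          (fun χ => χ.conductor = d) ⊆ (Finset.univ : Finset (DirichletCharacter ℂ d)).image
            (DirichletCharacter.changeLevel hdq) := by
        intro χ hχ
        rw [Finset.mem_filter] at hχ
        obtain ⟨_, h⟩ := hχ
        subst h
        rw [Finset.mem_image]
        exact ⟨χ.primitiveCharacter, Finset.mem_univ _, χ.changeLevel_primitiveCharacter⟩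
      have h1 := (Finset.card_le_card hsub).trans Finset.card_image_le
      rw [card_char] at h1
      have h2 : d.totient ≤ d := Nat.totient_le d
      have h3 : ((((Finset.univ : Finset (DirichletCharacter ℂ q)).filter (fun χ => (χ.conductor : ℝ) < y)).filter
          (fun χ => χ.conductor = d)).card : ℝ) ≤ d := by exact_mod_cast h1.trans h2
      linarith
    · have : ((Finset.univ : Finset (DirichletCharacter ℂ q)).filter (fun χ => (χ.conductor : ℝ) < y)).filter
          (fun χ => χ.conductor = d) = ∅ := by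
        rw [Finset.filter_eq_empty_iff]
        intro χ hχ h
        rw [Finset.mem_filter] at hχ
        rw [h] at hχ
        linarith [hχ.2]
      rw [this]
      simpa using hy
  · rw [Finset.sum_const, nsmul_eq_mul]

open Classical in
lemma bad_zeros (ε2 : ℝ) (h0 : 0 < ε2) (h1 : ε2 ≤ 1 / 2) (ε : ℝ) (hε : 0 < ε) : ∃ (C : ℝ) (A : ℕ), 0 < C ∧
    ∀ (q : ℕ) [NeZero q] (T : ℝ), 0 ≤ T →
    (((Finset.univ : Finset (DirichletCharacter ℂ q)).filter (fun χ => χ ≠ 1 ∧
      ¬ ∀ z : ℂ, Lc χ z = 0 → |z.im| ≤ T → |z.re - 1 / 2| ≤ ε2)).card : ℝ) ≤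
      q.divisors.card * (C * (1 + T) ^ A * (q : ℝ) ^ (1 - ε2 + ε)) := by
  obtain ⟨C, A, hC, hz⟩ := prim_density ε2 h0 h1 ε hε
  obtain ⟨A0, hA0, hgc⟩ := gc_dir
  refine ⟨C, A, hC, fun q _ T hT => ?_⟩
  refine (card_fiber _ (fun _ => C * (1 + T) ^ A * (q : ℝ) ^ (1 - ε2 + ε)) (fun d hd => ?_)).trans ?_
  · have hdq : d ∣ q := Nat.dvd_of_mem_divisors hd
    have hd0 : d ≠ 0 := fun h => by subst h; exact NeZero.ne q (Nat.eq_zero_of_zero_dvd hdq)
    have : NeZero d := ⟨hd0⟩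
    have hsub : ((Finset.univ : Finset (DirichletCharacter ℂ q)).filter (fun χ => χ ≠ 1 ∧
      ¬ ∀ z : ℂ, Lc χ z = 0 → |z.im| ≤ T → |z.re - 1 / 2| ≤ ε2)).filter (fun χ => χ.conductor = d) ⊆
        ((Finset.univ : Finset (DirichletCharacter ℂ d)).filter (fun θ => 1 < d ∧ θ.IsPrimitive ∧
      ∃ ρ : ℂ, DirichletCharacter.LFunction θ ρ = 0 ∧ 1 / 2 + ε2 ≤ ρ.re ∧ |ρ.im| ≤ T)).image
          (DirichletCharacter.changeLevel hdq) := by
      intro χ hχ
      rw [Finset.mem_filter, Finset.mem_filter] at hχ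
      obtain ⟨⟨_, hne, hz⟩, h⟩ := hχ
      subst h
      rw [Finset.mem_image]
      refine ⟨χ.primitiveCharacter, ?_, χ.changeLevel_primitiveCharacter⟩
      rw [Finset.mem_filter]
      have hc1 := cond_gt hne
      refine ⟨Finset.mem_univ _, hc1, χ.primitiveCharacter_isPrimitive, ?_⟩
      have hg := hgc χ.conductor χ.primitiveCharacter hc1 χ.primitiveCharacter_isPrimitive
      push Not at hz
      obtain ⟨z, hz0, hzi, hzr⟩ := hz
      have key : ∀ w : ℂ, DirichletCharacter.completedLFunction χ.primitiveCharacter w = 0 → |w.im| ≤ T →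
          1 / 2 + ε2 ≤ w.re → ∃ ρ : ℂ, DirichletCharacter.LFunction χ.primitiveCharacter ρ = 0 ∧ 1 / 2 + ε2 ≤ ρ.re ∧
            |ρ.im| ≤ T := by
        intro w hw hwi hwr
        refine ⟨w, ?_, hwr, hwi⟩
        have hw0 : 0 < w.re := by linarith
        rw [comp_eq hc1 hw0] at hw
        rcases mul_eq_zero.1 hw with h | h
        · exfalso
          refine Gammaℝ_ne_zero_of_re_pos ?_ h
          rw [add_re]
          have := (aa_re0 χ.primitiveCharacter).1
          linarith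
        · exact h
      rcases lt_abs.1 hzr with h | h
      · exact key z hz0 hzi (by linarith)
      · have h2 : DirichletCharacter.completedLFunction χ.primitiveCharacter (1 - conj z) = 0 := (zero_refl hg z).2 hz0
        refine key (1 - conj z) h2 (by simpa using hzi) ?_
        rw [sub_re, one_re, Complex.conj_re]
        linarith
    have h2 := (Finset.card_le_card hsub).trans Finset.card_image_le
    have h3 := hz d T hT
    have h4 : (d : ℝ) ^ (1 - ε2 + ε) ≤ (q : ℝ) ^ (1 - ε2 + ε) := by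
      apply Real.rpow_le_rpow (Nat.cast_nonneg _) _ (by linarith)
      exact_mod_cast Nat.le_of_dvd (Nat.pos_of_ne_zero (NeZero.ne q)) hdq
    refine le_trans (by exact_mod_cast h2) (h3.trans ?_)
    exact mul_le_mul_of_nonneg_left h4 (by positivity)
  · rw [Finset.sum_const, nsmul_eq_mul]

lemma growth_ev (δ : ℝ) (hδ : 0 < δ) (V0 : ℝ) (hV : 0 ≤ V0) (A : ℕ) : ∀ᶠ x : ℝ in atTop,
    (1 + V0 * Real.sqrt (Real.log x)) ^ A ≤ x ^ δ := by
  have hA : (0 : ℝ) < A + 1 := by positivity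
  set c : ℝ := δ / (A + 1) with hc
  have hc0 : 0 < c := by positivity
  have h3 := (isLittleO_log_rpow_atTop hc0).bound (show (0 : ℝ) < 1 / (2 * (V0 + 1)) by positivity)
  have h4 : Tendsto (fun x : ℝ => x ^ c) atTop atTop := tendsto_rpow_atTop hc0
  filter_upwards [h3, h4.eventually_ge_atTop 2, eventually_ge_atTop (Real.exp 1)] with x h5 h6 h7
  have hx1 : 1 ≤ x := by
    have := Real.add_one_le_exp (1 : ℝ)
    linarith
  have hl : 1 ≤ Real.log x := by
    rw [Real.le_log_iff_exp_le (by linarith)]; exact h7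
  rw [Real.norm_of_nonneg (by linarith), Real.norm_of_nonneg (by positivity), one_div, inv_mul_eq_div,
    le_div_iff₀ (by positivity)] at h5
  have h8 : Real.sqrt (Real.log x) ≤ Real.log x := by
    rw [Real.sqrt_le_left (by linarith)]
    nlinarith
  have h9 : 1 + V0 * Real.sqrt (Real.log x) ≤ x ^ c := by
    have := mul_le_mul_of_nonneg_left h8 hV
    nlinarith
  have h10 : (1 + V0 * Real.sqrt (Real.log x)) ^ A ≤ (x ^ c) ^ A :=
    pow_le_pow_left₀ (by positivity) h9 A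
  refine h10.trans ?_
  rw [← Real.rpow_natCast, ← Real.rpow_mul (by linarith)]
  apply Real.rpow_le_rpow_of_exponent_le hx1
  rw [hc, div_mul_eq_mul_div, div_le_iff₀ hA]
  nlinarith

open Classical in
theorem good_many (ε2 : ℝ) (h0 : 0 < ε2) (h1 : ε2 ≤ 1 / 2) (V0 : ℝ) (hV : 0 ≤ V0) (η : ℝ) (hη : 0 < η) :
    ∀ᶠ q : ℕ in atTop, ∀ [NeZero q],
      (1 - η) * q.totient ≤ ((Gd q ε2 (V0 * Real.sqrt (Real.log q))).card : ℝ) := by
  obtain ⟨C, A, hC, hz⟩ := bad_zeros ε2 h0 h1 (ε2 / 4) (by positivity)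
  obtain ⟨K, hK⟩ := exists_nat_ge (8 / ε2)
  have hK0 : 0 < K := by
    have : 0 < 8 / ε2 := by positivity
    have : (0 : ℝ) < K := by linarith
    exact_mod_cast this
  obtain ⟨C2, hC2, hdiv⟩ := div_bd K hK0
  have hKi : 1 / (K : ℝ) ≤ ε2 / 8 := by
    rw [div_le_iff₀ (by exact_mod_cast hK0)]
    rw [div_le_iff₀ h0] at hK
    linarith
  have hg := growth_ev (ε2 / 8) (by positivity) V0 hV A
  have hlog : ∀ᶠ x : ℝ in atTop, 1 + 2 * Real.log x ≤ x ^ (ε2 / 8) := by
    have h3 := (isLittleO_log_rpow_atTop (show (0 : ℝ) < ε2 / 8 by positivity)).bound (show (0 : ℝ) < 1 / 4 by norm_num)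
    have h4 : Tendsto (fun x : ℝ => x ^ (ε2 / 8)) atTop atTop := tendsto_rpow_atTop (by positivity)
    filter_upwards [h3, h4.eventually_ge_atTop 2, eventually_ge_atTop 1] with x h5 h6 h7
    rw [Real.norm_of_nonneg (Real.log_nonneg h7), Real.norm_of_nonneg (by positivity)] at h5
    linarith
  have hbig : ∀ᶠ x : ℝ in atTop, (1 + C2 + C2 * C) / η ≤ x ^ (3 * ε2 / 8) :=
    (tendsto_rpow_atTop (by positivity)).eventually_ge_atTop _
  have hall := tendsto_natCast_atTop_atTop.eventually ((hg.and hlog).and (hbig.and (eventually_ge_atTop (1 : ℝ))))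
  filter_upwards [hall] with q hq _
  obtain ⟨⟨hq1, hq2⟩, hq3, hq4⟩ := hq
  have hqn : q ≠ 0 := NeZero.ne q
  have hq0 : (0 : ℝ) < q := by linarith
  set T : ℝ := V0 * Real.sqrt (Real.log q) with hT
  have hT0 : 0 ≤ T := by positivity
  set G := Gd q ε2 T with hG
  -- the complement
  have hcompl : ((Finset.univ : Finset (DirichletCharacter ℂ q)) \ G) ⊆
      ({1} ∪ (Finset.univ : Finset (DirichletCharacter ℂ q)).filter (fun χ => (χ.conductor : ℝ) < (q : ℝ) ^ (1 - ε2))) ∪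
      (Finset.univ : Finset (DirichletCharacter ℂ q)).filter (fun χ => χ ≠ 1 ∧
      ¬ ∀ z : ℂ, Lc χ z = 0 → |z.im| ≤ T → |z.re - 1 / 2| ≤ ε2) := by
    intro χ hχ
    rw [Finset.mem_sdiff, hG, Gd, Finset.mem_filter] at hχ
    have h2 := hχ.2
    rw [Finset.mem_union, Finset.mem_union, Finset.mem_singleton, Finset.mem_filter, Finset.mem_filter]
    by_cases hc1 : χ = 1
    · left; left; exact hc1
    by_cases hc2 : (χ.conductor : ℝ) < (q : ℝ) ^ (1 - ε2)
    · left; right; exact ⟨Finset.mem_univ _, hc2⟩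
    · right
      refine ⟨Finset.mem_univ _, hc1, fun h => h2 ⟨Finset.mem_univ _, hc1, not_lt.1 hc2, h⟩⟩
  have hcard := Finset.card_le_card hcompl
  have hu := (Finset.card_union_le _ _).trans (Nat.add_le_add_right (Finset.card_union_le ({1} : Finset (DirichletCharacter ℂ q))
    ((Finset.univ : Finset (DirichletCharacter ℂ q)).filter (fun χ => (χ.conductor : ℝ) < (q : ℝ) ^ (1 - ε2))))
    (((Finset.univ : Finset (DirichletCharacter ℂ q)).filter (fun χ => χ ≠ 1 ∧
      ¬ ∀ z : ℂ, Lc χ z = 0 → |z.im| ≤ T → |z.re - 1 / 2| ≤ ε2)).card))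
  have h2 := hcard.trans hu
  rw [Finset.card_singleton] at h2
  have h3 : ((((Finset.univ : Finset (DirichletCharacter ℂ q)) \ G).card : ℕ) : ℝ) ≤
      1 + (((Finset.univ : Finset (DirichletCharacter ℂ q)).filter (fun χ => (χ.conductor : ℝ) < (q : ℝ) ^ (1 - ε2))).card : ℝ) +
      (((Finset.univ : Finset (DirichletCharacter ℂ q)).filter (fun χ => χ ≠ 1 ∧
      ¬ ∀ z : ℂ, Lc χ z = 0 → |z.im| ≤ T → |z.re - 1 / 2| ≤ ε2)).card : ℝ) := by exact_mod_cast h2
  have h4 := small_cond q ((q : ℝ) ^ (1 - ε2)) (by positivity)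
  have h5 := hz q T hT0
  have htau : (q.divisors.card : ℝ) ≤ C2 * (q : ℝ) ^ (ε2 / 8) := by
    refine (hdiv q hqn).trans ?_
    apply mul_le_mul_of_nonneg_left _ hC2.le
    exact Real.rpow_le_rpow_of_exponent_le hq4 hKi
  set P : ℝ := (q : ℝ) ^ (1 - ε2 / 2) with hP
  have hP0 : 0 < P := Real.rpow_pos_of_pos hq0 _
  have b1 : (1 : ℝ) ≤ P := Real.one_le_rpow hq4 (by linarith)
  have b2 : (q.divisors.card : ℝ) * (q : ℝ) ^ (1 - ε2) ≤ C2 * P := by
    calc (q.divisors.card : ℝ) * (q : ℝ) ^ (1 - ε2) ≤ C2 * (q : ℝ) ^ (ε2 / 8) * (q : ℝ) ^ (1 - ε2) :=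
          mul_le_mul_of_nonneg_right htau (by positivity)
      _ = C2 * (q : ℝ) ^ (ε2 / 8 + (1 - ε2)) := by rw [Real.rpow_add hq0]; ring
      _ ≤ C2 * P := by
          apply mul_le_mul_of_nonneg_left _ hC2.le
          exact Real.rpow_le_rpow_of_exponent_le hq4 (by linarith)
  have b3 : (q.divisors.card : ℝ) * (C * (1 + T) ^ A * (q : ℝ) ^ (1 - ε2 + ε2 / 4)) ≤ C2 * C * P := by
    calc (q.divisors.card : ℝ) * (C * (1 + T) ^ A * (q : ℝ) ^ (1 - ε2 + ε2 / 4))
        ≤ (C2 * (q : ℝ) ^ (ε2 / 8)) * (C * (q : ℝ) ^ (ε2 / 8) * (q : ℝ) ^ (1 - ε2 + ε2 / 4)) := by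
          apply mul_le_mul htau _ (by positivity) (by positivity)
          apply mul_le_mul_of_nonneg_right _ (by positivity)
          exact mul_le_mul_of_nonneg_left hq1 hC.le
      _ = C2 * C * (q : ℝ) ^ (ε2 / 8 + ε2 / 8 + (1 - ε2 + ε2 / 4)) := by
          rw [Real.rpow_add hq0 (ε2 / 8 + ε2 / 8) (1 - ε2 + ε2 / 4), Real.rpow_add hq0 (ε2 / 8) (ε2 / 8)]; ring
      _ = C2 * C * P := by
          rw [hP]; congr 2; ring
  have h6 : ((((Finset.univ : Finset (DirichletCharacter ℂ q)) \ G).card : ℕ) : ℝ) ≤ (1 + C2 + C2 * C) * P := by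
    linarith
  have hphi : (q : ℝ) ^ (1 - ε2 / 8) ≤ q.totient := by
    have h7 := phi_low q (Nat.pos_of_ne_zero hqn)
    have h8 : (q : ℝ) ≤ (q : ℝ) ^ (ε2 / 8) * q.totient := h7.trans (mul_le_mul_of_nonneg_right hq2 (Nat.cast_nonneg _))
    have h9 : (q : ℝ) = (q : ℝ) ^ (ε2 / 8) * (q : ℝ) ^ (1 - ε2 / 8) := by
      rw [← Real.rpow_add hq0]
      norm_num
    have h10 : 0 < (q : ℝ) ^ (ε2 / 8) := Real.rpow_pos_of_pos hq0 _
    have h11 : (q : ℝ) ^ (ε2 / 8) * (q : ℝ) ^ (1 - ε2 / 8) ≤ (q : ℝ) ^ (ε2 / 8) * q.totient := by rw [← h9]; exact h8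
    exact le_of_mul_le_mul_left h11 h10
  have h7 : (1 + C2 + C2 * C) * P ≤ η * q.totient := by
    rw [div_le_iff₀ hη] at hq3
    have e : (q : ℝ) ^ (1 - ε2 / 8) = (q : ℝ) ^ (3 * ε2 / 8) * P := by
      rw [hP, ← Real.rpow_add hq0]; congr 1; ring
    calc (1 + C2 + C2 * C) * P ≤ ((q : ℝ) ^ (3 * ε2 / 8) * η) * P := mul_le_mul_of_nonneg_right hq3 hP0.le
      _ = η * (q : ℝ) ^ (1 - ε2 / 8) := by rw [e]; ring
      _ ≤ η * q.totient := mul_le_mul_of_nonneg_left hphi hη.le
  have h8 : ((((Finset.univ : Finset (DirichletCharacter ℂ q)) \ G).card : ℕ) : ℝ) = q.totient - G.card := by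
    rw [Finset.card_sdiff_of_subset (Finset.subset_univ G), card_char, Nat.cast_sub]
    rw [← card_char q]
    exact Finset.card_le_card (Finset.subset_univ G)
  linarith

end Pool.Agent.L5helper10.QV
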