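import Pool.Agent.L5helper10.QV.Gc
import Pool.Agent.H353R6.E16

/-! Completed Dirichlet L-functions satisfy the analytic input, uniformly. -/

set_option autoImplicit false

open Complex Filter Topology Set MeasureTheory Metric
open scoped ComplexConjugate
open H370.DL H429.GP H855R2.SF

namespace Pool.Agent.L5helper10.QV

lemma digamma_crude : ∃ C : ℝ, 0 ≤ C ∧ ∀ w : ℂ, 1 / 4 ≤ w.re → ‖logDeriv Gamma w‖ ≤ C * (1 + ‖w‖) := by
  have hC0 : 0 ≤ ∑' n : ℕ, 1 / ((n : ℝ) + 1) ^ 2 := tsum_nonneg fun _ => by positivity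
  refine ⟨1 + Real.pi + 5 + ∑' n : ℕ, 1 / ((n : ℝ) + 1) ^ 2, by positivity, fun w hw => ?_⟩
  have hw0 : 0 < w.re := by linarith
  rw [H370.DG.logDeriv_Gamma' hw0]
  have h1 : ‖log (w + 2)‖ ≤ 1 + ‖w‖ + Real.pi := by
    have e : log (w + 2) = ((Real.log ‖w + 2‖ : ℝ) : ℂ) + (arg (w + 2) : ℂ) * I := by
      rw [log]
    have h2 : 2 ≤ ‖w + 2‖ := by
      have := re_le_norm (w + 2)
      simp only [add_re, re_ofNat] at this
      linarith
    have h3 : ‖w + 2‖ ≤ ‖w‖ + 2 := by
      have := norm_add_le w 2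
      simpa using this
    have h4 : Real.log ‖w + 2‖ ≤ ‖w + 2‖ - 1 := Real.log_le_sub_one_of_pos (by linarith)
    rw [e]
    refine (norm_add_le _ _).trans ?_
    rw [norm_mul, norm_I, mul_one, Complex.norm_real, Complex.norm_real, Real.norm_eq_abs, Real.norm_eq_abs,
      abs_of_nonneg (Real.log_nonneg (by linarith))]
    have := abs_arg_le_pi (w + 2)
    linarith
  have h2 : ‖1 / w‖ ≤ 4 := by
    rw [norm_div, norm_one, div_le_iff₀ (norm_pos_iff.2 (fun h => by rw [h] at hw0; simp at hw0))]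
    have := re_le_norm w
    linarith
  have h3 : ‖1 / (w + 1)‖ ≤ 1 := by
    have h4 : 1 ≤ ‖w + 1‖ := by
      have := re_le_norm (w + 1)
      simp only [add_re, one_re] at this
      linarith
    rw [norm_div, norm_one, div_le_iff₀ (by linarith)]
    linarith
  have h4 := H370.DG.norm_tsum_er hw0
  have h5 : ‖log (w + 2) - 1 / w - 1 / (w + 1) + ∑' n, H370.DG.er n w‖ ≤
      ‖log (w + 2)‖ + ‖1 / w‖ + ‖1 / (w + 1)‖ + ‖∑' n, H370.DG.er n w‖ := by
    refine (norm_add_le _ _).trans ?_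
    have := norm_sub_le (log (w + 2) - 1 / w) (1 / (w + 1))
    have := norm_sub_le (log (w + 2)) (1 / w)
    linarith
  refine h5.trans ?_
  have hn := norm_nonneg w
  have hpi := Real.pi_pos
  nlinarith

lemma ld_GammaR {z : ℂ} (hz : 0 < z.re) :
    logDeriv Gammaℝ z = -(Real.log Real.pi : ℂ) / 2 + 1 / 2 * logDeriv Gamma (z / 2) := by
  have hz2 : 0 < (z / 2).re := by
    have : (z / 2).re = z.re / 2 := by simp
    rw [this]; linarith
  have hpi : (Real.pi : ℂ) ≠ 0 := ofReal_ne_zero.mpr Real.pi_ne_zero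
  have d1 : HasDerivAt (fun z : ℂ => (Real.pi : ℂ) ^ (-z / 2))
      ((Real.pi : ℂ) ^ (-z / 2) * log (Real.pi : ℂ) * (-1 / 2)) z := by
    have h1 : HasDerivAt (fun z : ℂ => -z / 2) (-1 / 2) z := by
      simpa using ((hasDerivAt_id z).neg).div_const 2
    exact h1.const_cpow (Or.inl hpi)
  have hneg : ∀ m : ℕ, z / 2 ≠ -m := by
    intro m h
    rw [h] at hz2
    simp at hz2
    have : (0 : ℝ) ≤ m := Nat.cast_nonneg m
    linarith
  have d2 : HasDerivAt (fun z : ℂ => Gamma (z / 2)) (deriv Gamma (z / 2) * (1 / 2)) z := by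
    have h1 : HasDerivAt (fun z : ℂ => z / 2) (1 / 2) z := by
      simpa using (hasDerivAt_id z).div_const 2
    exact HasDerivAt.comp z (differentiableAt_Gamma _ hneg).hasDerivAt h1
  have hG : Gammaℝ = fun z : ℂ => (Real.pi : ℂ) ^ (-z / 2) * Gamma (z / 2) := by
    funext z
    rw [Gammaℝ_def]
  have d3 := d1.mul d2
  have hΓ : Gamma (z / 2) ≠ 0 := Gamma_ne_zero hneg
  have hpc : (Real.pi : ℂ) ^ (-z / 2) ≠ 0 := by
    rw [Ne, cpow_eq_zero_iff]
    exact fun h => hpi h.1
  rw [logDeriv_apply, logDeriv_apply, hG]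
  erw [d3.deriv]
  rw [← Complex.ofReal_log Real.pi_pos.le]
  field_simp

lemma ldR_crude : ∃ C : ℝ, 0 ≤ C ∧ ∀ z : ℂ, 1 / 2 ≤ z.re → ‖logDeriv Gammaℝ z‖ ≤ C * (1 + ‖z‖) := by
  obtain ⟨C, hC0, hC⟩ := digamma_crude
  refine ⟨1 + C, by positivity, fun z hz => ?_⟩
  rw [ld_GammaR (by linarith)]
  have hre : (z / 2).re = z.re / 2 := by simp
  have h1 := hC (z / 2) (by rw [hre]; linarith)
  have h2 : ‖z / 2‖ = ‖z‖ / 2 := by rw [norm_div]; simp
  rw [h2] at h1
  have h3 : ‖-(Real.log Real.pi : ℂ) / 2‖ ≤ 1 := by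
    rw [norm_div, norm_neg, Complex.norm_real, Real.norm_of_nonneg (Real.log_nonneg (by linarith [Real.pi_gt_three]))]
    have h4 : Real.log Real.pi ≤ 2 := by
      have h5 : Real.pi ≤ Real.exp 2 := by
        have := Real.add_one_le_exp (2 : ℝ)
        have h6 : (4 : ℝ) ≤ Real.exp 2 := by
          have h7 : Real.exp 2 = Real.exp 1 ^ 2 := by rw [← Real.exp_nat_mul]; norm_num
          rw [h7]
          nlinarith [Real.exp_one_gt_d9]
        linarith [Real.pi_le_four]
      rw [Real.log_le_iff_le_exp Real.pi_pos]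
      exact h5
    have : ‖(2 : ℂ)‖ = 2 := by simp
    rw [this]
    linarith
  have h4 : ‖(1 / 2 : ℂ) * logDeriv Gamma (z / 2)‖ ≤ 1 / 2 * (C * (1 + ‖z‖ / 2)) := by
    rw [norm_mul]
    have : ‖(1 / 2 : ℂ)‖ = 1 / 2 := by simp
    rw [this]
    linarith
  refine (norm_add_le _ _).trans ?_
  have hn := norm_nonneg z
  have : 0 ≤ C * ‖z‖ := by positivity
  nlinarith

lemma analyticAt_GammaR {s : ℂ} (hs : 0 < s.re) : AnalyticAt ℂ Gammaℝ s := by
  have h1 : AnalyticAt ℂ (fun s ↦ (Gammaℝ s)⁻¹) s := by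
    rw [analyticAt_iff_eventually_differentiableAt]
    exact Filter.Eventually.of_forall fun z => differentiable_Gammaℝ_inv z
  have h2 := h1.inv (inv_ne_zero (Gammaℝ_ne_zero_of_re_pos hs))
  simpa [Pi.inv_def] using h2

/-- lower bound for the Gamma factor along a ray -/
lemma gamma_ray (C : ℝ) (hC : ∀ z : ℂ, 1 / 2 ≤ z.re → ‖logDeriv Gammaℝ z‖ ≤ C * (1 + ‖z‖)) (hC0 : 0 ≤ C)
    (c : ℝ) (hc : 2 ≤ c) (hc3 : c ≤ 3) (σ : ℝ) (hσ : |σ| = 1) (Y : ℝ) (hY : 0 ≤ Y) :
    ‖(Gammaℝ (c + (σ * Y : ℝ) * I))⁻¹‖ ≤ ‖(Gammaℝ c)⁻¹‖ * Real.exp (C * (4 + Y) * Y) := by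
  set g : ℝ → ℂ := fun x => (Gammaℝ (c + (σ * x : ℝ) * I))⁻¹ with hg
  set g' : ℝ → ℂ := fun x => -(logDeriv Gammaℝ (c + (σ * x : ℝ) * I)) * g x * (σ * I) with hg'
  have hre : ∀ x : ℝ, ((c : ℂ) + (σ * x : ℝ) * I).re = c := by intro x; simp
  have hpath : ∀ x : ℝ, HasDerivAt (fun x : ℝ => (c : ℂ) + (σ * x : ℝ) * I) (σ * I) x := by
    intro x
    have h1 : HasDerivAt (fun x : ℝ => ((σ * x : ℝ) : ℂ)) ((σ * 1 : ℝ) : ℂ) x :=
      ((hasDerivAt_id x).const_mul σ).ofReal_comp
    have h2 := (h1.mul_const I).const_add (c : ℂ)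
    simpa using h2
  have hd : ∀ x : ℝ, HasDerivAt g (g' x) x := by
    intro x
    have ha : AnalyticAt ℂ Gammaℝ ((c : ℂ) + (σ * x : ℝ) * I) := analyticAt_GammaR (by rw [hre]; linarith)
    have hne : Gammaℝ ((c : ℂ) + (σ * x : ℝ) * I) ≠ 0 := Gammaℝ_ne_zero_of_re_pos (by rw [hre]; linarith)
    have h1 : HasDerivAt (fun z => (Gammaℝ z)⁻¹) (-deriv Gammaℝ ((c : ℂ) + (σ * x : ℝ) * I) /
        Gammaℝ ((c : ℂ) + (σ * x : ℝ) * I) ^ 2) ((c : ℂ) + (σ * x : ℝ) * I) :=
      ha.differentiableAt.hasDerivAt.inv hne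
    have h2 := h1.comp x (hpath x)
    refine h2.congr_deriv ?_
    simp only [hg', hg]
    rw [logDeriv_apply]
    field_simp
  have key := norm_le_gronwallBound_of_norm_deriv_right_le (f := g) (f' := g') (δ := ‖(Gammaℝ c)⁻¹‖)
    (K := C * (4 + Y)) (ε := 0) (a := 0) (b := Y)
    (fun x _ => (hd x).continuousAt.continuousWithinAt) (fun x _ => (hd x).hasDerivWithinAt)
    (by rw [hg]; simp) (fun x hx => by
      rw [hg', add_zero]
      simp only
      rw [norm_mul, norm_mul, norm_neg, norm_mul, norm_I, mul_one, Complex.norm_real, Real.norm_eq_abs, hσ, mul_one]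
      apply mul_le_mul_of_nonneg_right _ (norm_nonneg _)
      refine (hC _ (by rw [hre]; linarith)).trans ?_
      apply mul_le_mul_of_nonneg_left _ hC0
      have h3 : ‖(c : ℂ) + (σ * x : ℝ) * I‖ ≤ 3 + Y := by
        refine (norm_add_le _ _).trans ?_
        rw [norm_mul, norm_I, mul_one, Complex.norm_real, Complex.norm_real, Real.norm_eq_abs, Real.norm_eq_abs, abs_mul,
          hσ, one_mul, abs_of_nonneg (by linarith), abs_of_nonneg hx.1]
        linarith [hx.2]
      linarith)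
  have h1 := key Y ⟨hY, le_rfl⟩
  rw [sub_zero, gronwallBound_ε0] at h1
  exact h1

lemma gamma_low : ∃ A : ℝ, 0 ≤ A ∧ ∀ (c : ℝ), (c = 2 ∨ c = 3) → ∀ y : ℝ,
    Real.exp (-(A * (1 + y ^ 2))) ≤ ‖Gammaℝ (c + y * I)‖ := by
  obtain ⟨C, hC0, hC⟩ := ldR_crude
  set B : ℝ := max (Real.log ‖(Gammaℝ (2 : ℝ))⁻¹‖) (Real.log ‖(Gammaℝ (3 : ℝ))⁻¹‖) with hB
  refine ⟨|B| + 8 * C, by positivity, fun c hc y => ?_⟩
  have hc2 : 2 ≤ c := by rcases hc with h | h <;> linarith
  have hc3 : c ≤ 3 := by rcases hc with h | h <;> linarith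
  obtain ⟨σ, hσ, hσy⟩ : ∃ σ : ℝ, |σ| = 1 ∧ σ * |y| = y := by
    rcases le_total 0 y with h | h
    · exact ⟨1, by simp, by rw [abs_of_nonneg h]; ring⟩
    · exact ⟨-1, by simp, by rw [abs_of_nonpos h]; ring⟩
  have h1 := gamma_ray C hC hC0 c hc2 hc3 σ hσ |y| (abs_nonneg y)
  rw [hσy, norm_inv] at h1
  have hne : 0 < ‖Gammaℝ (c + y * I)‖ := norm_pos_iff.2 (Gammaℝ_ne_zero_of_re_pos (by simp; linarith))
  have hnc : 0 < ‖(Gammaℝ (c : ℂ))⁻¹‖ := norm_pos_iff.2 (inv_ne_zero (Gammaℝ_ne_zero_of_re_pos (by simp; linarith)))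
  have h2 : Real.log ‖(Gammaℝ (c : ℂ))⁻¹‖ ≤ B := by
    rcases hc with h | h
    · rw [h]; exact le_max_left _ _
    · rw [h]; exact le_max_right _ _
  have h3 : ‖(Gammaℝ (c : ℂ))⁻¹‖ ≤ Real.exp |B| := by
    rw [← Real.log_le_iff_le_exp hnc]
    exact h2.trans (le_abs_self _)
  have h4 : ‖Gammaℝ (c + y * I)‖⁻¹ ≤ Real.exp ((|B| + 8 * C) * (1 + y ^ 2)) := by
    refine h1.trans ?_
    calc ‖(Gammaℝ (c : ℂ))⁻¹‖ * Real.exp (C * (4 + |y|) * |y|) ≤ Real.exp |B| * Real.exp (C * (4 + |y|) * |y|) :=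
          mul_le_mul_of_nonneg_right h3 (Real.exp_pos _).le
      _ = Real.exp (|B| + C * (4 + |y|) * |y|) := by rw [Real.exp_add]
      _ ≤ _ := by
        apply Real.exp_le_exp.2
        have h5 : (4 + |y|) * |y| ≤ 8 * (1 + y ^ 2) := by
          rw [← sq_abs y]
          nlinarith [sq_nonneg (|y| - 1), abs_nonneg y]
        have h6 := mul_le_mul_of_nonneg_left h5 hC0
        have h7 : 0 ≤ |B| * y ^ 2 := by positivity
        nlinarith
  rw [Real.exp_neg]
  rw [inv_le_comm₀ (Real.exp_pos _) hne]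
  exact h4

/-- the logarithmic derivative of the Gamma factor -/
noncomputable def Gf {d : ℕ} [NeZero d] (χ : DirichletCharacter ℂ d) (s : ℂ) : ℂ := logDeriv Gammaℝ (s + aa χ)

/-- the coefficients -/
noncomputable def ac {d : ℕ} (χ : DirichletCharacter ℂ d) (n : ℕ) : ℂ :=
  χ n * (ArithmeticFunction.vonMangoldt n : ℂ)

lemma ac_norm {d : ℕ} (χ : DirichletCharacter ℂ d) (n : ℕ) : ‖ac χ n‖ ≤ ArithmeticFunction.vonMangoldt n := by
  unfold ac
  rw [norm_mul, Complex.norm_real, Real.norm_eq_abs, abs_of_nonneg ArithmeticFunction.vonMangoldt_nonneg]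
  exact mul_le_of_le_one_left ArithmeticFunction.vonMangoldt_nonneg (DirichletCharacter.norm_le_one χ _)

section

variable {d : ℕ} [NeZero d] {χ : DirichletCharacter ℂ d}

lemma aa_or (χ : DirichletCharacter ℂ d) : aa χ = 0 ∨ aa χ = 1 := by
  unfold aa
  split_ifs
  · left; rfl
  · right; rfl

lemma aa_re0 (χ : DirichletCharacter ℂ d) : 0 ≤ (aa χ).re ∧ (aa χ).re ≤ 1 := by
  rcases aa_or χ with h | h <;> rw [h] <;> simp

lemma comp_eq (hd : 1 < d) {s : ℂ} (hs : 0 < s.re) :
    DirichletCharacter.completedLFunction χ s = Gammaℝ (s + aa χ) * DirichletCharacter.LFunction χ s := by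
  have := H353.E.completed_eq (χ := χ) hd hs
  rwa [sub_neg_eq_add] at this

lemma comp_fe (hd : 1 < d) (hχ : χ.IsPrimitive) (s : ℂ) : DirichletCharacter.completedLFunction χ s =
    DirichletCharacter.rootNumber χ * ((d : ℝ) : ℂ) ^ (1 / 2 - s) *
      H370.DL.refl (DirichletCharacter.completedLFunction χ) s := by
  have h1 : χ ≠ 1 := fun h => by have := eq_one_of_prim hχ h; omega
  have h3 := DirichletCharacter.IsPrimitive.completedLFunction_one_sub hχ (1 - s)
  rw [show (1 : ℂ) - (1 - s) = s by ring, show (1 : ℂ) - s - 1 / 2 = 1 / 2 - s by ring] at h3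
  unfold H370.DL.refl
  rw [h3, ← H353.E.completed_conj hd h1]
  have e : conj (1 - conj s) = 1 - s := by simp
  rw [e, Complex.ofReal_natCast]
  ring

lemma L_ne (hd : 1 < d) (hχ : χ.IsPrimitive) {s : ℂ} (hs : 1 ≤ s.re) : DirichletCharacter.completedLFunction χ s ≠ 0 := by
  have h1 : χ ≠ 1 := fun h => by have := eq_one_of_prim hχ h; omega
  rw [comp_eq hd (by linarith)]
  apply mul_ne_zero
  · apply Gammaℝ_ne_zero_of_re_pos
    rw [add_re]
    have := (aa_re0 χ).1
    linarith
  · exact DirichletCharacter.LFunction_ne_zero_of_one_le_re χ (Or.inl h1) hs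

end

theorem gc_dir : ∃ A : ℝ, 1 ≤ A ∧ ∀ (d : ℕ) [NeZero d] (χ : DirichletCharacter ℂ d), 1 < d → χ.IsPrimitive →
    GC A (1 + Real.log d) (Real.log d) (DirichletCharacter.completedLFunction χ) (ac χ) (Gf χ) := by
  obtain ⟨C1, hC10, hC1⟩ := ldR_crude
  obtain ⟨A2, hA20, hA2⟩ := gamma_low
  obtain ⟨G, hG0, hG⟩ := H353.E.GammaR_bdd 9
  have hS : Summable (fun n : ℕ => 1 / (n : ℝ) ^ 2) := Real.summable_one_div_nat_pow.mpr (by norm_num)
  have hZ : 0 < ∑' n : ℕ, 1 / (n : ℝ) ^ 2 := hS.tsum_pos (fun n => by positivity) 1 (by norm_num)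
  obtain ⟨Z2, hZ2⟩ : ∃ Z : ℝ, Z = ∑' n : ℕ, 1 / (n : ℝ) ^ 2 := ⟨_, rfl⟩
  rw [← hZ2] at hZ
  refine ⟨1 + 2 * C1 + A2 + |Real.log Z2| + (8 + Real.log (1 + 32 * G)), ?_, ?_⟩
  · have := abs_nonneg (Real.log Z2)
    have := Real.log_nonneg (show (1 : ℝ) ≤ 1 + 32 * G by linarith)
    linarith
  intro d _ χ hd hχ
  have h1 : χ ≠ 1 := fun h => by have := eq_one_of_prim hχ h; omega
  have hd1 : (1 : ℝ) ≤ d := by exact_mod_cast hd.le
  have hd0 : (0 : ℝ) < d := by linarith
  have hld : 0 ≤ Real.log d := Real.log_nonneg hd1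
  have hdiff := DirichletCharacter.differentiable_completedLFunction h1
  have hZa := abs_nonneg (Real.log Z2)
  have hLG : 0 ≤ Real.log (1 + 32 * G) := Real.log_nonneg (by linarith)
  obtain ⟨A, hA⟩ : ∃ A : ℝ, A = 1 + 2 * C1 + A2 + |Real.log Z2| + (8 + Real.log (1 + 32 * G)) := ⟨_, rfl⟩
  rw [← hA]
  have haa := aa_re0 χ
  -- the growth on the right
  have hright : ∀ s : ℂ, 1 / 2 ≤ s.re → s.re ≤ 8 →
      ‖DirichletCharacter.completedLFunction χ s‖ ≤ 32 * G * d * (1 + |s.im|) := fun s hs1 hs2 => by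
    rw [comp_eq hd (by linarith), norm_mul]
    have h3 := hG (s + aa χ) (by rw [add_re]; linarith) (by rw [add_re]; linarith)
    have h4 := growth_right h1 (s := s) (by linarith)
    have h5 : ‖s‖ ≤ 8 * (1 + |s.im|) := by
      refine (norm_le_abs_re_add_abs_im s).trans ?_
      rw [abs_of_pos (by linarith)]
      nlinarith [abs_nonneg s.im]
    have h6 : ((d : ℝ) + 1) / s.re ≤ 4 * d := by
      rw [div_le_iff₀ (by linarith)]
      nlinarith
    have h7 : ‖s‖ * ((d + 1) / s.re) ≤ (8 * (1 + |s.im|)) * (4 * d) := by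
      have := abs_nonneg s.im
      have : 0 ≤ ((d : ℝ) + 1) / s.re := div_nonneg (by linarith) (by linarith)
      gcongr
    calc ‖Gammaℝ (s + aa χ)‖ * ‖DirichletCharacter.LFunction χ s‖ ≤
        G * ((8 * (1 + |s.im|)) * (4 * d)) := mul_le_mul h3 (h4.trans h7) (norm_nonneg _) hG0
      _ = 32 * G * d * (1 + |s.im|) := by ring
  refine ⟨?_, by linarith, hld, by linarith, hdiff, ?_, ?_, ?_, ?_, ?_, ?_, ?_, ac_norm χ, ?_⟩
  · rw [hA]; linarith
  · -- growth
    intro s hs1 hs2
    have hexp : 32 * G * d ^ 8 * (1 + |s.im|) ≤ Real.exp (A * (1 + Real.log d + |s.im|)) := by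
      have him := abs_nonneg s.im
      have h2 : 1 + |s.im| ≤ Real.exp |s.im| := by linarith [Real.add_one_le_exp |s.im|]
      have h3 : 32 * G ≤ Real.exp (Real.log (1 + 32 * G)) := by
        rw [Real.exp_log (by linarith)]; linarith
      have h4 : (d : ℝ) ^ 8 = Real.exp (8 * Real.log d) := by
        rw [show (8 : ℝ) * Real.log d = ((8 : ℕ) : ℝ) * Real.log d by norm_num, Real.exp_nat_mul, Real.exp_log hd0]
      calc 32 * G * d ^ 8 * (1 + |s.im|) ≤ Real.exp (Real.log (1 + 32 * G)) * Real.exp (8 * Real.log d) *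
            Real.exp |s.im| := by
            rw [h4]
            apply mul_le_mul (mul_le_mul_of_nonneg_right h3 (Real.exp_pos _).le) h2 (by linarith) (by positivity)
        _ = Real.exp (Real.log (1 + 32 * G) + 8 * Real.log d + |s.im|) := by rw [Real.exp_add, Real.exp_add]
        _ ≤ _ := by
            apply Real.exp_le_exp.2
            have h5 : 0 ≤ Real.log (1 + 32 * G) * Real.log d := by positivity
            have h6 : 0 ≤ Real.log (1 + 32 * G) * |s.im| := by positivity
            have h7 : 0 ≤ (1 + 2 * C1 + A2 + |Real.log Z2|) * (1 + Real.log d + |s.im|) := by positivity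
            have h8 : (1 + 2 * C1 + A2 + |Real.log Z2| + (8 + Real.log (1 + 32 * G))) * (1 + Real.log d + |s.im|) =
              (1 + 2 * C1 + A2 + |Real.log Z2|) * (1 + Real.log d + |s.im|) + 8 * (1 + Real.log d + |s.im|) +
              Real.log (1 + 32 * G) + Real.log (1 + 32 * G) * Real.log d + Real.log (1 + 32 * G) * |s.im| := by ring
            rw [hA, h8]
            linarith
    rcases le_total (1 / 2) s.re with h | h
    · refine (hright s h hs2).trans (le_trans ?_ hexp)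
      have h2 : (d : ℝ) ≤ (d : ℝ) ^ 8 := le_self_pow₀ hd1 (by norm_num)
      have := abs_nonneg s.im
      gcongr
    · rw [comp_fe hd hχ s, norm_mul, norm_mul, norm_rootNumber hχ, one_mul,
        Complex.norm_cpow_eq_rpow_re_of_pos hd0]
      unfold H370.DL.refl
      rw [Complex.norm_conj]
      have h3 : (1 - conj s).re = 1 - s.re := by rw [sub_re, one_re, Complex.conj_re]
      have h4 := hright (1 - conj s) (by rw [h3]; linarith) (by rw [h3]; linarith)
      have h5 : (1 - conj s).im = s.im := by simp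
      rw [h5] at h4
      have h6 : (d : ℝ) ^ (1 / 2 - s).re ≤ (d : ℝ) ^ (7 : ℝ) := by
        apply Real.rpow_le_rpow_of_exponent_le hd1
        have : (1 / 2 - s).re = 1 / 2 - s.re := by
          rw [sub_re]; norm_num
        rw [this]
        linarith
      have h7 : (d : ℝ) ^ (7 : ℝ) = (d : ℝ) ^ 7 := by exact_mod_cast Real.rpow_natCast (d : ℝ) 7
      rw [h7] at h6
      refine (mul_le_mul h6 h4 (norm_nonneg _) (by positivity)).trans (le_trans (le_of_eq ?_) hexp)
      ring
  · -- lower bound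
    intro y
    have e : (⟨2, y⟩ : ℂ) = (2 : ℂ) + y * I := by apply Complex.ext <;> simp
    rw [comp_eq hd (by simp), norm_mul]
    have h2 : Real.exp (-(A2 * (1 + y ^ 2))) ≤ ‖Gammaℝ ((⟨2, y⟩ : ℂ) + aa χ)‖ := by
      rcases aa_or χ with h | h
      · rw [h, add_zero, e]
        have := hA2 2 (Or.inl rfl) y
        exact_mod_cast this
      · rw [h, e]
        have := hA2 3 (Or.inr rfl) y
        have e2 : (2 : ℂ) + y * I + 1 = ((3 : ℝ) : ℂ) + y * I := by push_cast; ring
        rw [e2]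
        exact this
    have h3 : Z2⁻¹ ≤ ‖DirichletCharacter.LFunction χ (⟨2, y⟩ : ℂ)‖ := by
      have hre : (1 : ℝ) < (⟨2, y⟩ : ℂ).re := by norm_num
      rw [DirichletCharacter.LFunction_eq_LSeries χ hre]
      have h1 := DirichletCharacter.LSeries.mul_mu_eq_one χ hre
      have h2 : ‖LSeries ((fun n : ℕ => χ n) * fun n : ℕ => (ArithmeticFunction.moebius n : ℂ))
          (⟨2, y⟩ : ℂ)‖ ≤ Z2 := by
        rw [hZ2]
        unfold LSeries
        refine tsum_of_norm_bounded hS.hasSum fun n => ?_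
        rcases eq_or_ne n 0 with rfl | hn
        · simp
        · rw [LSeries.term_of_ne_zero hn, norm_div, norm_natCast_cpow_of_pos (Nat.pos_of_ne_zero hn)]
          simp only [Pi.mul_apply, norm_mul]
          rw [show ((2 : ℝ) : ℝ) = ((2 : ℕ) : ℝ) by norm_num, Real.rpow_natCast]
          apply div_le_div_of_nonneg_right _ (by positivity)
          have a1 := DirichletCharacter.norm_le_one χ (n : ZMod d)
          have a2 : ‖(ArithmeticFunction.moebius n : ℂ)‖ ≤ 1 := by
            have := ArithmeticFunction.abs_moebius_le_one (n := n)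
            rw [Complex.norm_intCast]
            exact_mod_cast this
          calc _ ≤ (1 : ℝ) * 1 := mul_le_mul a1 a2 (norm_nonneg _) zero_le_one
            _ = 1 := one_mul 1
      have h3 : ‖LSeries (fun n : ℕ => χ n) (⟨2, y⟩ : ℂ)‖ *
          ‖LSeries ((fun n : ℕ => χ n) * fun n : ℕ => (ArithmeticFunction.moebius n : ℂ))
          (⟨2, y⟩ : ℂ)‖ = 1 := by
        rw [← norm_mul, h1, norm_one]
      rw [inv_eq_one_div, div_le_iff₀ hZ]
      calc (1 : ℝ) = _ := h3.symm
        _ ≤ _ := mul_le_mul_of_nonneg_left h2 (norm_nonneg _)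
    have h4 : Real.exp (-|Real.log Z2|) ≤ Z2⁻¹ := by
      rw [← Real.exp_log (inv_pos.2 hZ), Real.log_inv]
      apply Real.exp_le_exp.2
      linarith [le_abs_self (Real.log Z2)]
    calc Real.exp (-(A * (1 + Real.log d + y ^ 2))) ≤ Real.exp (-(A2 * (1 + y ^ 2))) * Real.exp (-|Real.log Z2|) := by
          rw [← Real.exp_add]
          apply Real.exp_le_exp.2
          have h5 : 0 ≤ (1 + 2 * C1 + (8 + Real.log (1 + 32 * G))) * (1 + Real.log d + y ^ 2) := by positivity
          have h6 : 0 ≤ A2 * Real.log d := by positivity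
          have h7 : 0 ≤ |Real.log Z2| * (Real.log d + y ^ 2) := by positivity
          have h8 : A * (1 + Real.log d + y ^ 2) = (1 + 2 * C1 + (8 + Real.log (1 + 32 * G))) * (1 + Real.log d + y ^ 2) +
            A2 * Real.log d + A2 * (1 + y ^ 2) + |Real.log Z2| * (Real.log d + y ^ 2) + |Real.log Z2| := by rw [hA]; ring
          rw [h8]
          linarith
      _ ≤ ‖Gammaℝ ((⟨2, y⟩ : ℂ) + aa χ)‖ * ‖DirichletCharacter.LFunction χ (⟨2, y⟩ : ℂ)‖ :=
          mul_le_mul h2 (h4.trans h3) (Real.exp_pos _).le (norm_nonneg _)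
  · -- zeros
    intro s hs
    have h2 : s.re < 1 := by
      by_contra h
      exact L_ne hd hχ (not_lt.1 h) hs
    refine ⟨?_, h2⟩
    by_contra h
    have h3 := comp_fe hd hχ (1 - conj s)
    unfold H370.DL.refl at h3
    rw [show (1 : ℂ) - conj (1 - conj s) = s by simp, hs, map_zero, mul_zero] at h3
    apply L_ne hd hχ _ h3
    rw [sub_re, one_re, Complex.conj_re]
    linarith
  · -- functional equation
    intro s hs
    have hW : DirichletCharacter.rootNumber χ ≠ 0 := by
      rw [← norm_ne_zero_iff, norm_rootNumber hχ]; norm_num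
    have hdc : ((d : ℝ) : ℂ) ≠ 0 := by exact_mod_cast hd0.ne'
    have hr : H370.DL.refl (DirichletCharacter.completedLFunction χ) s ≠ 0 := by
      intro h
      rw [comp_fe hd hχ s, h, mul_zero] at hs
      exact hs rfl
    have hfun : DirichletCharacter.completedLFunction χ = fun s =>
        (DirichletCharacter.rootNumber χ * ((d : ℝ) : ℂ) ^ (1 / 2 - s)) * H370.DL.refl (DirichletCharacter.completedLFunction χ) s := by
      funext s; exact comp_fe hd hχ s
    have hd1' : HasDerivAt (fun s : ℂ => DirichletCharacter.rootNumber χ * ((d : ℝ) : ℂ) ^ (1 / 2 - s))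
        (DirichletCharacter.rootNumber χ * (((d : ℝ) : ℂ) ^ (1 / 2 - s) * log ((d : ℝ) : ℂ) * (-1))) s := by
      apply HasDerivAt.const_mul
      exact HasDerivAt.const_cpow (by simpa using (hasDerivAt_id s).const_sub (1 / 2 : ℂ)) (Or.inl hdc)
    have hd2' := hasDerivAt_refl (hdiff (1 - conj s)).hasDerivAt
    have hprod := hd1'.mul hd2'
    have hder : deriv (DirichletCharacter.completedLFunction χ) s =
        DirichletCharacter.rootNumber χ * (((d : ℝ) : ℂ) ^ (1 / 2 - s) * log ((d : ℝ) : ℂ) * (-1)) *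
          H370.DL.refl (DirichletCharacter.completedLFunction χ) s +
        (DirichletCharacter.rootNumber χ * ((d : ℝ) : ℂ) ^ (1 / 2 - s)) *
          (-conj (deriv (DirichletCharacter.completedLFunction χ) (1 - conj s))) := by
      have h5 := hprod.deriv
      rw [← h5]
      congr 1
    have hcp : ((d : ℝ) : ℂ) ^ (1 / 2 - s) ≠ 0 := by
      rw [Ne, cpow_eq_zero_iff]
      exact fun h => hdc h.1
    rw [hder]
    conv_lhs => rw [comp_fe hd hχ s]
    rw [← Complex.ofReal_log hd0.le, map_div₀]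
    have hre : H370.DL.refl (DirichletCharacter.completedLFunction χ) s =
        conj (DirichletCharacter.completedLFunction χ (1 - conj s)) := rfl
    rw [← hre]
    generalize ((d : ℝ) : ℂ) ^ (1 / 2 - s) = P at hcp ⊢
    field_simp
    ring
  · -- symmetry
    intro s
    have hW : DirichletCharacter.rootNumber χ ≠ 0 := by
      rw [← norm_ne_zero_iff, norm_rootNumber hχ]; norm_num
    have hdc : ((d : ℝ) : ℂ) ≠ 0 := by exact_mod_cast hd0.ne'
    have ha : AnalyticAt ℂ (DirichletCharacter.completedLFunction χ) (1 - conj s) := hdiff.analyticAt _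
    have hfun : DirichletCharacter.completedLFunction χ =ᶠ[𝓝 s]
        (fun s : ℂ => DirichletCharacter.rootNumber χ * ((d : ℝ) : ℂ) ^ (1 / 2 - s)) *
          H370.DL.refl (DirichletCharacter.completedLFunction χ) :=
      Filter.Eventually.of_forall fun s => comp_fe hd hχ s
    have hg : AnalyticAt ℂ (fun s : ℂ => DirichletCharacter.rootNumber χ * ((d : ℝ) : ℂ) ^ (1 / 2 - s)) s := by
      rw [analyticAt_iff_eventually_differentiableAt]
      refine Filter.Eventually.of_forall fun z => ?_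
      exact (DifferentiableAt.const_cpow (by fun_prop) (Or.inl hdc)).const_mul _
    have hg0 : DirichletCharacter.rootNumber χ * ((d : ℝ) : ℂ) ^ (1 / 2 - s) ≠ 0 := by
      apply mul_ne_zero hW
      rw [Ne, cpow_eq_zero_iff]
      exact fun h => hdc h.1
    rw [analyticOrderAt_congr (f := DirichletCharacter.completedLFunction χ) (z₀ := s) hfun,
      analyticOrderAt_mul hg (analyticAt_refl ha), hg.analyticOrderAt_eq_zero.mpr hg0, zero_add, order_refl ha]
  · -- Gamma factor
    intro s hs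
    have hs' : 0 < s.re := hs
    have h2 : 0 < (s + aa χ).re := by rw [add_re]; linarith
    have h3 : AnalyticAt ℂ (logDeriv Gammaℝ) (s + aa χ) := by
      have := analyticAt_GammaR h2
      exact this.deriv.div this (Gammaℝ_ne_zero_of_re_pos h2)
    have h4 : DifferentiableAt ℂ (Gf χ) s := by
      unfold Gf
      exact DifferentiableAt.comp (f := fun s => s + aa χ) s h3.differentiableAt (by fun_prop)
    exact h4.differentiableWithinAt
  · intro s hs1 hs2
    unfold Gf
    refine (hC1 _ (by rw [add_re]; linarith)).trans ?_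
    have h2 : ‖s + aa χ‖ ≤ ‖s‖ + 1 := by
      refine (norm_add_le _ _).trans ?_
      rcases aa_or χ with h | h <;> rw [h] <;> simp
    have h3 : C1 * (1 + ‖s + aa χ‖) ≤ C1 * (2 + ‖s‖) := mul_le_mul_of_nonneg_left (by linarith) hC10
    refine h3.trans ?_
    have hn := norm_nonneg s
    have h4 : 2 * C1 ≤ A := by rw [hA]; linarith
    nlinarith
  · -- Dirichlet series
    intro s hs
    have hs0 : 0 < s.re := by linarith
    have hs1 : 1 < s.re := by linarith
    have h2 : 0 < (s + aa χ).re := by rw [add_re]; linarith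
    have hev : DirichletCharacter.completedLFunction χ =ᶠ[𝓝 s]
        fun s => Gammaℝ (s + aa χ) * DirichletCharacter.LFunction χ s := by
      have : {z : ℂ | 0 < z.re} ∈ 𝓝 s := (isOpen_lt continuous_const continuous_re).mem_nhds hs0
      filter_upwards [this] with z hz
      exact comp_eq hd hz
    have ha := analyticAt_GammaR h2
    have hda : HasDerivAt (fun s => Gammaℝ (s + aa χ)) (deriv Gammaℝ (s + aa χ)) s := by
      have := ha.differentiableAt.hasDerivAt.comp s ((hasDerivAt_id s).add_const (aa χ))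
      simpa [Function.comp_def] using this
    have hdL : HasDerivAt (DirichletCharacter.LFunction χ) (deriv (DirichletCharacter.LFunction χ) s) s :=
      ((DirichletCharacter.differentiable_LFunction h1) s).hasDerivAt
    have hprod := hda.mul hdL
    have hder : deriv (DirichletCharacter.completedLFunction χ) s =
        deriv Gammaℝ (s + aa χ) * DirichletCharacter.LFunction χ s +
        Gammaℝ (s + aa χ) * deriv (DirichletCharacter.LFunction χ) s := by
      rw [hev.deriv_eq]
      exact hprod.deriv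
    have hg0 : Gammaℝ (s + aa χ) ≠ 0 := Gammaℝ_ne_zero_of_re_pos h2
    have hL0 : DirichletCharacter.LFunction χ s ≠ 0 :=
      DirichletCharacter.LFunction_ne_zero_of_one_le_re χ (Or.inl h1) hs1.le
    have h5 : deriv (DirichletCharacter.LFunction χ) s / DirichletCharacter.LFunction χ s =
        - ∑' n : ℕ, ac χ n * (n : ℂ) ^ (-s) := by
      have h1 := DirichletCharacter.LSeries_twist_vonMangoldt_eq χ hs1
      rw [DirichletCharacter.deriv_LFunction_eq_deriv_LSeries χ hs1,
        DirichletCharacter.LFunction_eq_LSeries χ hs1]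
      rw [neg_div, eq_neg_iff_add_eq_zero, add_comm, ← eq_neg_iff_add_eq_zero] at h1
      rw [h1]
      congr 1
      unfold LSeries
      refine tsum_congr fun n => ?_
      rw [term_eq_mul_cpow _ (by simp)]
      simp [ac]
    rw [hder, hev.eq_of_nhds]
    have e : (deriv Gammaℝ (s + aa χ) * DirichletCharacter.LFunction χ s +
        Gammaℝ (s + aa χ) * deriv (DirichletCharacter.LFunction χ) s) /
        (Gammaℝ (s + aa χ) * DirichletCharacter.LFunction χ s) = Gf χ s +
        deriv (DirichletCharacter.LFunction χ) s / DirichletCharacter.LFunction χ s := by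
      unfold Gf
      rw [logDeriv_apply]
      field_simp
    rw [e, h5]
    ring

end Pool.Agent.L5helper10.QV
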