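import Pool.Agent.L5helper10.QV.Scl

/-! The Gaussian kernel on vertical lines. -/

set_option autoImplicit false

open MeasureTheory Complex ComplexConjugate Set

namespace Pool.Agent.L5helper10.QV

lemma kk_norm (κ u t : ℝ) (z : ℂ) : ‖kk κ u t z‖ =
    Real.exp (u * (z.re - 1 / 2) + ((z.re - 1 / 2) ^ 2 - (z.im - t) ^ 2) / (2 * κ ^ 2)) := by
  unfold kk
  rw [norm_mul, Complex.norm_exp, Complex.norm_exp, ← Real.exp_add]
  congr 1
  have e1 : ((u : ℂ) * (z - 1 / 2)).re = u * (z.re - 1 / 2) := by simp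
  have e2 : ((z - 1 / 2 - I * (t : ℂ)) ^ 2 / (2 * (κ : ℂ) ^ 2)).re =
      ((z.re - 1 / 2) ^ 2 - (z.im - t) ^ 2) / (2 * κ ^ 2) := by
    have : (2 * (κ : ℂ) ^ 2) = ((2 * κ ^ 2 : ℝ) : ℂ) := by push_cast; ring
    rw [this, Complex.div_ofReal_re]
    congr 1
    rw [pow_two, Complex.mul_re]
    simp
    ring
  rw [e1, e2]

lemma kk_refl (κ u t : ℝ) (z : ℂ) : kk κ u t (1 - conj z) = conj (kk κ (-u) t z) := by
  unfold kk
  rw [map_mul, ← Complex.exp_conj, ← Complex.exp_conj, map_mul, map_div₀, map_pow, map_sub, map_sub, map_mul]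
  simp only [map_mul, map_pow, Complex.conj_ofReal, Complex.conj_I, map_one, map_sub, map_div₀, Complex.conj_ofNat,
    Complex.ofReal_neg, map_neg, neg_mul]
  congr 2
  · ring
  · ring

lemma kk_cont (κ u t c : ℝ) : Continuous (fun y : ℝ => kk κ u t (⟨c, y⟩ : ℂ)) := by
  have e : (fun y : ℝ => kk κ u t (⟨c, y⟩ : ℂ)) = fun y : ℝ => kk κ u t ((c : ℂ) + y * I) := by
    funext y
    congr 1
    apply Complex.ext <;> simp
  rw [e]
  unfold kk
  fun_prop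

lemma kk_full (κ w t c : ℝ) (hκ : 0 < κ) : ∫ y : ℝ, kk κ w t (⟨c, y⟩ : ℂ) =
    (Real.sqrt (2 * Real.pi) * κ : ℝ) * (cexp (I * t * w) * Real.exp (-(κ ^ 2 * w ^ 2 / 2))) := by
  have hκc : (κ : ℂ) ≠ 0 := ofReal_ne_zero.2 hκ.ne'
  set b : ℝ := c - 1 / 2 with hb
  have e : ∀ y : ℝ, kk κ w t (⟨c, y⟩ : ℂ) = cexp ((-(1 / (2 * κ ^ 2)) : ℂ) * y ^ 2 +
      (I * w + (b * I + t) / κ ^ 2) * y + (w * b + (b - I * t) ^ 2 / (2 * κ ^ 2))) := by
    intro y
    have e1 : (⟨c, y⟩ : ℂ) = (c : ℂ) + y * I := by apply Complex.ext <;> simp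
    rw [e1]
    unfold kk
    rw [← Complex.exp_add]
    congr 1
    rw [hb]
    push_cast
    field_simp
    ring_nf
    simp only [I_sq]
    ring
  simp_rw [e]
  have hre : ((-(1 / (2 * κ ^ 2)) : ℂ)).re < 0 := by
    have : (-(1 / (2 * (κ : ℂ) ^ 2)) : ℂ) = ((-(1 / (2 * κ ^ 2)) : ℝ) : ℂ) := by push_cast; ring
    rw [this, ofReal_re]
    have : 0 < 1 / (2 * κ ^ 2) := by positivity
    linarith
  rw [integral_cexp_quadratic hre]
  have h1 : ((Real.pi : ℂ) / -(-(1 / (2 * (κ : ℂ) ^ 2)))) ^ (1 / 2 : ℂ) = ((Real.sqrt (2 * Real.pi) * κ : ℝ) : ℂ) := by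
    have e2 : ((Real.pi : ℂ) / -(-(1 / (2 * (κ : ℂ) ^ 2)))) = ((2 * Real.pi * κ ^ 2 : ℝ) : ℂ) := by
      push_cast
      field_simp
    rw [e2]
    have e3 : (1 / 2 : ℂ) = ((1 / 2 : ℝ) : ℂ) := by push_cast; ring
    rw [e3, ← Complex.ofReal_cpow (by positivity), ← Real.sqrt_eq_rpow]
    congr 1
    rw [Real.sqrt_mul (by positivity), Real.sqrt_sq hκ.le]
  rw [h1]
  congr 1
  rw [ofReal_exp, ← Complex.exp_add]
  congr 1
  push_cast
  field_simp
  ring_nf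
  simp only [I_sq]
  ring

lemma gauss_int (κ t : ℝ) (hκ : 0 < κ) : Integrable (fun y : ℝ => Real.exp (-(y - t) ^ 2 / (2 * κ ^ 2))) := by
  have h := (integrable_exp_neg_mul_sq (b := 1 / (2 * κ ^ 2)) (by positivity)).comp_sub_right t
  refine h.congr (Filter.Eventually.of_forall fun y => ?_)
  simp only
  congr 1
  field_simp

lemma gauss_val (κ t : ℝ) (hκ : 0 < κ) : ∫ y : ℝ, Real.exp (-(y - t) ^ 2 / (2 * κ ^ 2)) = Real.sqrt (2 * Real.pi) * κ := by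
  have h := integral_sub_right_eq_self (fun y : ℝ => Real.exp (-(1 / (2 * κ ^ 2)) * y ^ 2)) (μ := volume) t
  rw [integral_gaussian] at h
  have e : Real.sqrt (Real.pi / (1 / (2 * κ ^ 2))) = Real.sqrt (2 * Real.pi) * κ := by
    have e2 : Real.pi / (1 / (2 * κ ^ 2)) = 2 * Real.pi * κ ^ 2 := by field_simp
    rw [e2, Real.sqrt_mul (by positivity), Real.sqrt_sq hκ.le]
  rw [e] at h
  rw [← h]
  congr 1
  funext y
  congr 1
  field_simp

lemma sqrt_two_pi_le : Real.sqrt (2 * Real.pi) ≤ 3 := by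
  rw [Real.sqrt_le_left (by norm_num)]
  linarith [Real.pi_lt_d2]

/-- truncation of an integral with a Gaussian majorant -/
lemma trunc (κ t U B : ℝ) (hκ : 0 < κ) (hU : |t| ≤ U) (hB : 0 ≤ B) (g : ℝ → ℂ) (hg : Integrable g)
    (hgB : ∀ y, ‖g y‖ ≤ B * Real.exp (-(y - t) ^ 2 / (2 * κ ^ 2))) :
    ‖(∫ y, g y) - ∫ y in (-U)..U, g y‖ ≤ B * (6 * κ) * Real.exp (-(U - |t|) ^ 2 / (4 * κ ^ 2)) := by
  have hU0 : 0 ≤ U := (abs_nonneg t).trans hU
  have h1 : (∫ y, g y) - ∫ y in (-U)..U, g y = ∫ y in (Ioc (-U) U)ᶜ, g y := by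
    rw [intervalIntegral.integral_of_le (by linarith), ← integral_add_compl measurableSet_Ioc hg]
    ring
  rw [h1]
  have h2 : ∀ y ∈ (Ioc (-U) U)ᶜ, ‖g y‖ ≤ B * Real.exp (-(U - |t|) ^ 2 / (4 * κ ^ 2)) *
      Real.exp (-(y - t) ^ 2 / (2 * (Real.sqrt 2 * κ) ^ 2)) := by
    intro y hy
    refine (hgB y).trans ?_
    rw [mul_assoc, ← Real.exp_add]
    apply mul_le_mul_of_nonneg_left _ hB
    apply Real.exp_le_exp.2
    have h3 : (U - |t|) ^ 2 ≤ (y - t) ^ 2 := by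
      have h4 : U - |t| ≤ |y - t| := by
        have h5 : U ≤ |y| := by
          rw [mem_compl_iff, mem_Ioc, not_and_or, not_lt, not_le] at hy
          rcases hy with hy | hy
          · rw [abs_of_nonpos (by linarith)]; linarith
          · exact hy.le.trans (le_abs_self y)
        have h6 : |y| ≤ |y - t| + |t| := by
          have := abs_add_le (y - t) t
          rwa [sub_add_cancel] at this
        linarith
      rw [← sq_abs (y - t)]
      exact pow_le_pow_left₀ (by linarith) h4 2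
    rw [mul_pow, Real.sq_sqrt (by norm_num)]
    have e : -(U - |t|) ^ 2 / (4 * κ ^ 2) + -(y - t) ^ 2 / (2 * (2 * κ ^ 2)) - -(y - t) ^ 2 / (2 * κ ^ 2) =
        ((y - t) ^ 2 - (U - |t|) ^ 2) / (4 * κ ^ 2) := by field_simp; ring
    have : 0 ≤ ((y - t) ^ 2 - (U - |t|) ^ 2) / (4 * κ ^ 2) := div_nonneg (by linarith) (by positivity)
    linarith
  have hκ2 : 0 < Real.sqrt 2 * κ := mul_pos (Real.sqrt_pos.2 two_pos) hκ
  have hi : Integrable (fun y : ℝ => B * Real.exp (-(U - |t|) ^ 2 / (4 * κ ^ 2)) *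
      Real.exp (-(y - t) ^ 2 / (2 * (Real.sqrt 2 * κ) ^ 2))) := (gauss_int _ t hκ2).const_mul _
  calc ‖∫ y in (Ioc (-U) U)ᶜ, g y‖ ≤ ∫ y in (Ioc (-U) U)ᶜ, ‖g y‖ := norm_integral_le_integral_norm _
    _ ≤ ∫ y in (Ioc (-U) U)ᶜ, B * Real.exp (-(U - |t|) ^ 2 / (4 * κ ^ 2)) *
      Real.exp (-(y - t) ^ 2 / (2 * (Real.sqrt 2 * κ) ^ 2)) :=
        setIntegral_mono_on hg.norm.integrableOn hi.integrableOn measurableSet_Ioc.compl h2
    _ ≤ ∫ y, B * Real.exp (-(U - |t|) ^ 2 / (4 * κ ^ 2)) * Real.exp (-(y - t) ^ 2 / (2 * (Real.sqrt 2 * κ) ^ 2)) :=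
        setIntegral_le_integral hi (Filter.Eventually.of_forall fun y => by positivity)
    _ = B * Real.exp (-(U - |t|) ^ 2 / (4 * κ ^ 2)) * (Real.sqrt (2 * Real.pi) * (Real.sqrt 2 * κ)) := by
        rw [integral_const_mul, gauss_val _ t hκ2]
    _ ≤ B * Real.exp (-(U - |t|) ^ 2 / (4 * κ ^ 2)) * (6 * κ) := by
        apply mul_le_mul_of_nonneg_left _ (by positivity)
        have h3 : Real.sqrt 2 ≤ 2 := by rw [Real.sqrt_le_left (by norm_num)]; norm_num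
        have h4 : Real.sqrt (2 * Real.pi) * Real.sqrt 2 ≤ 3 * 2 :=
          mul_le_mul sqrt_two_pi_le h3 (Real.sqrt_nonneg _) (by norm_num)
        calc Real.sqrt (2 * Real.pi) * (Real.sqrt 2 * κ) = (Real.sqrt (2 * Real.pi) * Real.sqrt 2) * κ := by ring
          _ ≤ 3 * 2 * κ := mul_le_mul_of_nonneg_right h4 hκ.le
          _ = 6 * κ := by ring
    _ = _ := by ring

lemma kk_line_norm (κ w t c y : ℝ) : ‖kk κ w t (⟨c, y⟩ : ℂ)‖ =
    Real.exp (w * (c - 1 / 2) + (c - 1 / 2) ^ 2 / (2 * κ ^ 2)) * Real.exp (-(y - t) ^ 2 / (2 * κ ^ 2)) := by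
  rw [kk_norm, ← Real.exp_add]
  congr 1
  simp only
  ring

lemma kk_int (κ w t c : ℝ) (hκ : 0 < κ) : Integrable (fun y : ℝ => kk κ w t (⟨c, y⟩ : ℂ)) := by
  refine ((gauss_int κ t hκ).const_mul (Real.exp (w * (c - 1 / 2) + (c - 1 / 2) ^ 2 / (2 * κ ^ 2)))).mono'
    (kk_cont κ w t c).aestronglyMeasurable (Filter.Eventually.of_forall fun y => ?_)
  rw [kk_line_norm]

end Pool.Agent.L5helper10.QV
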