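import Pool.Agent.H370R2.Local

/-! Entire functions with the analytic properties of a completed Dirichlet L-function. -/

set_option autoImplicit false

open Complex Filter Topology Set MeasureTheory Metric
open scoped ComplexConjugate
open H370 (mult)

namespace Pool.Agent.L5helper10.QV

/-- the analytic input -/
structure GC (A X ld : ℝ) (f : ℂ → ℂ) (a : ℕ → ℂ) (G : ℂ → ℂ) : Prop where
  hA : 1 ≤ A
  hX : 1 ≤ X
  ld0 : 0 ≤ ld
  ldX : ld ≤ X
  diff : Differentiable ℂ f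
  up : ∀ s : ℂ, -6 ≤ s.re → s.re ≤ 8 → ‖f s‖ ≤ Real.exp (A * (X + |s.im|))
  low : ∀ y : ℝ, Real.exp (-(A * (X + y ^ 2))) ≤ ‖f (⟨2, y⟩ : ℂ)‖
  nz : ∀ s : ℂ, f s = 0 → 0 < s.re ∧ s.re < 1
  fe : ∀ s : ℂ, f s ≠ 0 → deriv f s / f s = -(ld : ℂ) - conj (deriv f (1 - conj s) / f (1 - conj s))
  symm : ∀ s : ℂ, analyticOrderAt f (1 - conj s) = analyticOrderAt f s
  Gd : DifferentiableOn ℂ G {s : ℂ | 0 < s.re}
  Gb : ∀ s : ℂ, 1 / 2 ≤ s.re → s.re ≤ 2 → ‖G s‖ ≤ A * (1 + ‖s‖)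
  ha : ∀ n, ‖a n‖ ≤ ArithmeticFunction.vonMangoldt n
  ldr : ∀ s : ℂ, s.re = 2 → deriv f s / f s = G s - ∑' n : ℕ, a n * (n : ℂ) ^ (-s)

variable {A X ld : ℝ} {f : ℂ → ℂ} {a : ℕ → ℂ} {G : ℂ → ℂ}

/-- the data on a ball -/
lemma ball_data (hf : GC A X ld f a G) (y : ℝ) :
    ∃ M : ℝ, 1 ≤ M ∧ f ⟨2, y⟩ ≠ 0 ∧ (∀ z ∈ closedBall (⟨2, y⟩ : ℂ) 5, ‖f z‖ ≤ M) ∧ ‖f ⟨2, y⟩‖ ≤ M ∧
      Real.log (M / ‖f ⟨2, y⟩‖) ≤ 8 * A * (X + y ^ 2) := by
  have hA := hf.hA
  have hX := hf.hX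
  have hl := hf.low y
  have hpos : 0 < ‖f ⟨2, y⟩‖ := lt_of_lt_of_le (Real.exp_pos _) hl
  have hb : ∀ z ∈ closedBall (⟨2, y⟩ : ℂ) 5, ‖f z‖ ≤ Real.exp (A * (X + |y| + 5)) := by
    intro z hz
    rw [mem_closedBall, dist_eq_norm] at hz
    have h1 := (Complex.abs_re_le_norm (z - ⟨2, y⟩)).trans hz
    have h2 := (Complex.abs_im_le_norm (z - ⟨2, y⟩)).trans hz
    rw [sub_re] at h1
    rw [sub_im] at h2
    simp only at h1 h2
    rw [abs_le] at h1
    refine (hf.up z (by linarith) (by linarith)).trans ?_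
    apply Real.exp_le_exp.2
    have h3 : |z.im| ≤ |y| + 5 := by
      have := abs_add_le (z.im - y) y
      rw [sub_add_cancel] at this
      linarith
    have := mul_le_mul_of_nonneg_left h3 (by linarith : (0 : ℝ) ≤ A)
    nlinarith
  have hM1 : 1 ≤ Real.exp (A * (X + |y| + 5)) := by
    apply Real.one_le_exp
    have := abs_nonneg y
    positivity
  refine ⟨Real.exp (A * (X + |y| + 5)), hM1, norm_pos_iff.1 hpos, hb, hb _ (mem_closedBall_self (by norm_num)), ?_⟩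
  rw [Real.log_div (Real.exp_pos _).ne' hpos.ne', Real.log_exp]
  have h4 : -(A * (X + y ^ 2)) ≤ Real.log ‖f ⟨2, y⟩‖ := by
    rw [Real.le_log_iff_exp_le hpos]; exact hl
  have h5 : |y| ≤ 1 + y ^ 2 := by
    rw [abs_le]; constructor <;> nlinarith [sq_nonneg (y + 1 / 2), sq_nonneg (y - 1 / 2)]
  have h6 : A * (X + |y| + 5) ≤ A * (7 * X + y ^ 2) := by
    apply mul_le_mul_of_nonneg_left _ (by linarith)
    linarith
  have h7 : 0 ≤ A * y ^ 2 := by positivity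
  nlinarith

/-- number of zeros near a height -/
lemma cnt_loc (hf : GC A X ld f a G) (y : ℝ) (S : Finset ℂ)
    (hS : ∀ z ∈ S, f z = 0 ∧ |z.im - y| ≤ 1) :
    ∑ z ∈ S, (mult f z : ℝ) ≤ 16 * A * (X + y ^ 2) := by
  obtain ⟨M, hM1, h0, hb, -, hlog⟩ := ball_data hf y
  have hA := hf.hA
  have hX := hf.hX
  have h1 := H370.Loc.jensen_mult (f := f) (c := ⟨2, y⟩) (r := 2.3) (R := 5) (M := M) (by norm_num) (by norm_num) hM1
    (fun z _ => hf.diff.analyticAt z) h0 hb S (fun z hz => by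
      obtain ⟨hz0, hzi⟩ := hS z hz
      obtain ⟨hr0, hr1⟩ := hf.nz z hz0
      rw [mem_closedBall, dist_eq_norm]
      have h2 : ‖z - ⟨2, y⟩‖ ^ 2 ≤ 2.3 ^ 2 := by
        rw [Complex.sq_norm, normSq_apply, sub_re, sub_im]
        simp only
        have h3 : (z.im - y) * (z.im - y) ≤ 1 := by
          have := abs_le.1 hzi
          nlinarith
        nlinarith
      exact le_of_sq_le_sq h2 (by norm_num))
  refine h1.trans ?_
  have hlog2 : (1 : ℝ) / 2 ≤ Real.log (5 / 2.3) := by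
    rw [Real.le_log_iff_exp_le (by norm_num)]
    have h3 := Real.exp_one_lt_d9
    have h4 : Real.exp (1 / 2) ^ 2 = Real.exp 1 := by
      rw [← Real.exp_nat_mul]; norm_num
    have h5 : Real.exp (1 / 2) ^ 2 ≤ (5 / 2.3) ^ 2 := by rw [h4]; norm_num; linarith
    exact le_of_sq_le_sq h5 (by norm_num)
  rw [div_le_iff₀ (by linarith)]
  have h6 : 0 ≤ 8 * A * (X + y ^ 2) := by positivity
  nlinarith

/-- the zeros up to a height -/
def Zs (f : ℂ → ℂ) (W : ℝ) : Set ℂ := {z : ℂ | f z = 0 ∧ |z.im| ≤ W}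

lemma Zs_finite (hf : GC A X ld f a G) (W : ℝ) : (Zs f W).Finite := by
  have hcomp : IsCompact (Icc (0 : ℝ) 1 ×ℂ Icc (-W) W) := isCompact_Icc.reProdIm isCompact_Icc
  have hsub : Zs f W ⊆ Icc (0 : ℝ) 1 ×ℂ Icc (-W) W := by
    rintro s ⟨h1, h2⟩
    obtain ⟨h3, h4⟩ := hf.nz s h1
    exact ⟨⟨h3.le, h4.le⟩, abs_le.1 h2⟩
  by_contra hinf
  have hinf : (Zs f W).Infinite := hinf
  obtain ⟨x, hx, hacc⟩ := hinf.exists_accPt_of_subset_isCompact hcomp hsub
  have hA : AnalyticOnNhd ℂ f univ := fun z _ => hf.diff.analyticAt z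
  have hfr : ∃ᶠ z in 𝓝[≠] x, f z = 0 := by
    have h1 := accPt_iff_frequently.1 hacc
    rw [frequently_nhdsWithin_iff]
    exact h1.mono fun z hz => ⟨hz.2.1, hz.1⟩
  have h2 := hA.eqOn_zero_of_preconnected_of_frequently_eq_zero isPreconnected_univ (mem_univ x) hfr
  have h3 := h2 (mem_univ (⟨2, 0⟩ : ℂ))
  have h4 := hf.low 0
  rw [h3] at h4
  simp only [Pi.zero_apply, norm_zero] at h4
  exact absurd (Real.exp_pos _) (not_lt.2 h4)

/-- the zeros up to a height, as a finite set -/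
noncomputable def Zf (f : ℂ → ℂ) (W : ℝ) : Finset ℂ := by
  classical
  exact if h : (Zs f W).Finite then h.toFinset else ∅

lemma mem_Zf (hf : GC A X ld f a G) (W : ℝ) (z : ℂ) : z ∈ Zf f W ↔ f z = 0 ∧ |z.im| ≤ W := by
  unfold Zf
  rw [dif_pos (Zs_finite hf W), Set.Finite.mem_toFinset]
  rfl

lemma mult_pos (hf : GC A X ld f a G) (z : ℂ) (hz : f z = 0) : 1 ≤ mult f z := by
  have hl := hf.low 0
  have h0 : f ⟨2, 0⟩ ≠ 0 := norm_pos_iff.1 (lt_of_lt_of_le (Real.exp_pos _) hl)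
  exact (H370.Loc.mult_pos (f := f) (K := univ) isPreconnected_univ (fun s _ => hf.diff.analyticAt s) (mem_univ _) h0
    (mem_univ z)).2 hz

lemma mult_refl (hf : GC A X ld f a G) (z : ℂ) : mult f (1 - conj z) = mult f z := by
  unfold mult analyticOrderNatAt
  rw [hf.symm z]

lemma zero_refl (hf : GC A X ld f a G) (z : ℂ) : f (1 - conj z) = 0 ↔ f z = 0 := by
  rw [← (hf.diff.analyticAt (1 - conj z)).analyticOrderAt_ne_zero, ← (hf.diff.analyticAt z).analyticOrderAt_ne_zero,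
    hf.symm z]

/-- number of zeros up to a height -/
lemma cnt_tot (hf : GC A X ld f a G) (W : ℝ) (hW : 1 ≤ W) :
    ∑ z ∈ Zf f W, (mult f z : ℝ) ≤ 320 * A * W * (X + W ^ 2) := by
  classical
  have hA := hf.hA
  have hX := hf.hX
  set m : ℕ := ⌈W⌉₊ with hm
  have hm1 : W ≤ m := Nat.le_ceil W
  have hm2 : (m : ℝ) ≤ 2 * W := by
    have := (Nat.ceil_lt_add_one (by linarith : 0 ≤ W)).le
    linarith
  set I : Finset ℤ := Finset.Icc (-(m : ℤ)) m with hI
  have hmaps : ∀ z ∈ Zf f W, ⌊z.im⌋ ∈ I := by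
    intro z hz
    have h2 := abs_le.1 ((mem_Zf hf W z).1 hz).2
    rw [hI, Finset.mem_Icc]
    constructor
    · apply Int.le_floor.2
      push_cast
      linarith
    · apply Int.floor_le_iff.2
      push_cast; linarith
  have h3 := (Finset.sum_fiberwise_of_maps_to (s := Zf f W) (t := I) (g := fun z => ⌊z.im⌋) hmaps
    (fun z => (mult f z : ℝ))).symm
  rw [h3]
  have h4 : ∀ k ∈ I, ∑ z ∈ (Zf f W).filter (fun z => ⌊z.im⌋ = k), (mult f z : ℝ) ≤ 64 * A * (X + W ^ 2) := by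
    intro k hk
    have h5 := cnt_loc hf (k : ℝ) ((Zf f W).filter (fun z => ⌊z.im⌋ = k)) (fun z hz => by
      rw [Finset.mem_filter] at hz
      refine ⟨((mem_Zf hf W z).1 hz.1).1, ?_⟩
      rw [← hz.2, abs_le]
      have h3 := Int.floor_le z.im
      have h4 := Int.lt_floor_add_one z.im
      constructor <;> linarith)
    refine h5.trans ?_
    rw [hI, Finset.mem_Icc] at hk
    have h6 : (-(m : ℝ)) ≤ k := by exact_mod_cast hk.1
    have h7 : (k : ℝ) ≤ m := by exact_mod_cast hk.2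
    have h8 : (k : ℝ) ^ 2 ≤ 4 * W ^ 2 := by nlinarith
    have h9 : A * (X + (k : ℝ) ^ 2) ≤ A * (X + 4 * W ^ 2) := mul_le_mul_of_nonneg_left (by linarith) (by linarith)
    have h10 : 0 ≤ A * X := by positivity
    nlinarith
  refine (Finset.sum_le_sum h4).trans ?_
  rw [Finset.sum_const, nsmul_eq_mul]
  have hcard : (I.card : ℝ) ≤ 5 * W := by
    rw [hI, Int.card_Icc]
    have e : ((m : ℤ) + 1 - -(m : ℤ)).toNat = 2 * m + 1 := by omega
    rw [e]
    push_cast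
    linarith
  have h11 : 0 ≤ 64 * A * (X + W ^ 2) := by positivity
  calc (I.card : ℝ) * (64 * A * (X + W ^ 2)) ≤ 5 * W * (64 * A * (X + W ^ 2)) := mul_le_mul_of_nonneg_right hcard h11
    _ = _ := by ring

lemma gh_num {A X V N K : ℝ} (hA : 1 ≤ A) (hX : 1 ≤ X) (hV : 1 ≤ V) (hN0 : 0 ≤ N)
    (hN1 : N ≤ 320 * A * (V + 6) * (X + (V + 6) ^ 2)) (hK0 : 0 ≤ K) (hK1 : K ≤ 32 * A * (X + V ^ 2)) :
    5 * K * (2 * (N + 1)) + 45 * (16 * K + 1) ≤ 10 ^ 9 * A ^ 2 * (X + V ^ 2) ^ 2 * V := by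
  obtain ⟨S, hS⟩ : ∃ S : ℝ, S = X + V ^ 2 := ⟨_, rfl⟩
  have hS1 : 1 ≤ S := by rw [hS]; nlinarith
  obtain ⟨P, hP⟩ : ∃ P : ℝ, P = A * S := ⟨_, rfl⟩
  have hP1 : 1 ≤ P := by rw [hP]; nlinarith
  have hP0 : 0 ≤ P := by linarith
  have hPV : 1 ≤ P * V := by nlinarith
  rw [← hS] at hK1
  have hK2 : K ≤ 32 * P := by rw [hP]; linarith
  have h6 : X + (V + 6) ^ 2 ≤ 49 * S := by rw [hS]; nlinarith
  have hN2 : N ≤ 109760 * (P * V) := by
    refine hN1.trans ?_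
    have h7 : (V + 6) * (X + (V + 6) ^ 2) ≤ 7 * V * (49 * S) :=
      mul_le_mul (by linarith) h6 (by positivity) (by positivity)
    have h8 := mul_le_mul_of_nonneg_left h7 (by positivity : 0 ≤ 320 * A)
    rw [hP]
    linarith
  have hN3 : N + 1 ≤ 109761 * (P * V) := by linarith
  have h9 : 5 * K * (2 * (N + 1)) ≤ 5 * (32 * P) * (2 * (109761 * (P * V))) :=
    mul_le_mul (by linarith) (by linarith) (by positivity) (by positivity)
  have h10 : P * 1 ≤ P * (P * V) := mul_le_mul_of_nonneg_left hPV hP0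
  have e : 10 ^ 9 * A ^ 2 * (X + V ^ 2) ^ 2 * V = 10 ^ 9 * (P * (P * V)) := by rw [hP, hS]; ring
  rw [e]
  have e2 : 5 * (32 * P) * (2 * (109761 * (P * V))) = 35123520 * (P * (P * V)) := by ring
  rw [e2] at h9
  linarith

/-- a good height -/
lemma good_height (hf : GC A X ld f a G) (V : ℝ) (hV : 1 ≤ V) :
    ∃ U ∈ Set.Icc V (V + 1), ∀ z : ℂ, |z.im| = U → -1 ≤ z.re → z.re ≤ 2 →
      f z ≠ 0 ∧ ‖deriv f z / f z‖ ≤ 10 ^ 9 * A ^ 2 * (X + V ^ 2) ^ 2 * V := by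
  classical
  have hA := hf.hA
  have hX := hf.hX
  obtain ⟨U, hU, hd⟩ := H370.Loc.pigeon ((Zf f (V + 6)).image (fun z => |z.im|)) V
  refine ⟨U, hU, fun z hzi hz1 hz2 => ?_⟩
  set N : ℝ := (((Zf f (V + 6)).image (fun z => |z.im|)).card : ℝ) with hN
  have hN0 : 0 ≤ N := Nat.cast_nonneg _
  have hN1 : N ≤ 320 * A * (V + 6) * (X + (V + 6) ^ 2) := by
    refine le_trans ?_ (cnt_tot hf (V + 6) (by linarith))
    have h1 : N ≤ ((Zf f (V + 6)).card : ℝ) := by rw [hN]; exact_mod_cast Finset.card_image_le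
    refine h1.trans ?_
    rw [Finset.card_eq_sum_ones]
    push_cast
    apply Finset.sum_le_sum
    intro w hw
    have := mult_pos hf w ((mem_Zf hf _ w).1 hw).1
    exact_mod_cast this
  have hUV := hU.1
  have hUV2 := hU.2
  obtain ⟨M, hM1, h0, hb, hMf, hlog⟩ := ball_data hf z.im
  have hδ : 0 < 1 / (2 * (N + 1)) := by positivity
  have hz : z ∈ closedBall (⟨2, z.im⟩ : ℂ) 3.2 := by
    rw [mem_closedBall, dist_eq_norm]
    have e : z - ⟨2, z.im⟩ = ((z.re - 2 : ℝ) : ℂ) := by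
      apply Complex.ext <;> simp
    rw [e, Complex.norm_real, Real.norm_eq_abs, abs_le]
    constructor <;> linarith
  have hl := H370.Loc.landau (f := f) (c := ⟨2, z.im⟩) (r := 4) (r1 := 3.6) (r2 := 3.2) (R := 5) (M := M)
    (by norm_num) (by norm_num) (by norm_num) (by norm_num) (by norm_num) hM1 hMf
    (fun w _ => hf.diff.analyticAt w) h0 hb z hz (1 / (2 * (N + 1))) hδ (fun ρ hρ hρ0 => by
      rw [mem_closedBall, dist_eq_norm] at hρ
      have h2 := (Complex.abs_im_le_norm (ρ - ⟨2, z.im⟩)).trans hρ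
      rw [sub_im] at h2
      simp only at h2
      have h3 : |ρ.im| ≤ V + 6 := by
        have := abs_add_le (ρ.im - z.im) z.im
        rw [sub_add_cancel] at this
        linarith
      have h4 := hd |ρ.im| (Finset.mem_image_of_mem _ ((mem_Zf hf _ ρ).2 ⟨hρ0, h3⟩))
      refine h4.trans ?_
      rw [← hzi]
      refine (abs_abs_sub_abs_le_abs_sub z.im ρ.im).trans ?_
      have := Complex.abs_im_le_norm (z - ρ)
      rwa [sub_im] at this)
  refine ⟨hl.1, hl.2.trans ?_⟩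
  set K := Real.log (M / ‖f ⟨2, z.im⟩‖) with hK
  have hzsq : z.im ^ 2 ≤ (V + 1) ^ 2 := by
    rw [← sq_abs, hzi]
    exact pow_le_pow_left₀ (by linarith) hUV2 2
  have hK0 : 0 ≤ K := by
    apply Real.log_nonneg
    rw [le_div_iff₀ (norm_pos_iff.2 h0), one_mul]
    exact hMf
  have hK1 : K ≤ 32 * A * (X + V ^ 2) := by
    refine hlog.trans ?_
    have h1 : X + z.im ^ 2 ≤ 4 * (X + V ^ 2) := by nlinarith
    nlinarith
  have hlog1 : (1 : ℝ) / 5 ≤ Real.log (5 / 4) := by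
    rw [Real.le_log_iff_exp_le (by norm_num)]
    have h3 := Real.exp_one_lt_d9
    have h4 : Real.exp (1 / 5) ^ 5 = Real.exp 1 := by
      rw [← Real.exp_nat_mul]; norm_num
    have h5 : Real.exp (1 / 5) ^ 5 ≤ (5 / 4) ^ 5 := by rw [h4]; norm_num; linarith
    exact le_of_pow_le_pow_left₀ (by norm_num) (by norm_num) h5
  have hlog2 : Real.log (4 / (5 - 4)) ≤ 3 := by
    have := Real.log_le_sub_one_of_pos (show (0 : ℝ) < 4 / (5 - 4) by norm_num)
    norm_num at this ⊢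
    linarith
  have hlog20 : 0 ≤ Real.log (4 / (5 - 4)) := Real.log_nonneg (by norm_num)
  have hq : K / Real.log (5 / 4) ≤ 5 * K := by
    rw [div_le_iff₀ (by linarith)]
    nlinarith
  have hq0 : 0 ≤ K / Real.log (5 / 4) := div_nonneg hK0 (by linarith)
  have e1 : K / Real.log (5 / 4) / (1 / (2 * (N + 1))) ≤ 5 * K * (2 * (N + 1)) := by
    rw [div_div_eq_mul_div, div_one]
    exact mul_le_mul_of_nonneg_right hq (by positivity)
  have e2 : 2 * (K + K / Real.log (5 / 4) * Real.log (4 / (5 - 4)) + 1) * 3.6 / (4 - 3.6) / (3.6 - 3.2) ≤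
      45 * (16 * K + 1) := by
    have h1 : K / Real.log (5 / 4) * Real.log (4 / (5 - 4)) ≤ 5 * K * 3 :=
      mul_le_mul hq hlog2 hlog20 (by linarith)
    have h2 : 2 * (K + K / Real.log (5 / 4) * Real.log (4 / (5 - 4)) + 1) * 3.6 / (4 - 3.6) / (3.6 - 3.2) =
      45 * (K + K / Real.log (5 / 4) * Real.log (4 / (5 - 4)) + 1) := by ring
    rw [h2]
    linarith
  refine (add_le_add e1 e2).trans ?_
  exact gh_num hA hX hV hN0 hN1 hK0 hK1

end Pool.Agent.L5helper10.QV
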