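import Pool.Agent.L5helper10.QV.Ef1
import Pool.Agent.L5helper10.QV.Gc
import Pool.Agent.H370R2.Rect

/-! Pieces of the explicit formula. -/

set_option autoImplicit false

open MeasureTheory Complex ComplexConjugate Set Filter

namespace Pool.Agent.L5helper10.QV

/-- bound of the kernel on horizontal lines -/
lemma kk_hor (κ w t U : ℝ) (hκ : 0 < κ) (hU : |t| ≤ U) (z : ℂ) (h1 : -1 ≤ z.re) (h2 : z.re ≤ 2)
    (hz : |z.im| = U) : ‖kk κ w t z‖ ≤ Real.exp (3 / 2 * |w| + 9 / (8 * κ ^ 2) - (U - |t|) ^ 2 / (4 * κ ^ 2)) := by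
  rw [kk_norm]
  apply Real.exp_le_exp.2
  have h3 : w * (z.re - 1 / 2) ≤ 3 / 2 * |w| := by
    refine (le_abs_self _).trans ?_
    rw [abs_mul, mul_comm]
    apply mul_le_mul_of_nonneg_right _ (abs_nonneg w)
    rw [abs_le]; constructor <;> linarith
  have h4 : (z.re - 1 / 2) ^ 2 ≤ 9 / 4 := by nlinarith
  have h5 : (U - |t|) ^ 2 ≤ (z.im - t) ^ 2 := by
    have h6 : U - |t| ≤ |z.im - t| := by
      rw [← hz]
      have := abs_add_le (z.im - t) t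
      rw [sub_add_cancel] at this
      linarith
    rw [← sq_abs (z.im - t)]
    exact pow_le_pow_left₀ (by linarith) h6 2
  have h7 : ((z.re - 1 / 2) ^ 2 - (z.im - t) ^ 2) / (2 * κ ^ 2) ≤ (9 / 4 - (U - |t|) ^ 2) / (2 * κ ^ 2) := by
    apply div_le_div_of_nonneg_right _ (by positivity)
    linarith
  have h8 : (9 / 4 - (U - |t|) ^ 2) / (2 * κ ^ 2) = 9 / (8 * κ ^ 2) - (U - |t|) ^ 2 / (4 * κ ^ 2) -
      (U - |t|) ^ 2 / (4 * κ ^ 2) := by field_simp; ring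
  have h9 : 0 ≤ (U - |t|) ^ 2 / (4 * κ ^ 2) := by positivity
  linarith

lemma kk_diff (κ w t : ℝ) : Differentiable ℂ (kk κ w t) := by
  unfold kk; fun_prop

lemma int_line_bound (g : ℝ → ℂ) (a b C : ℝ) (hab : a ≤ b) (h : ∀ x ∈ Icc a b, ‖g x‖ ≤ C) :
    ‖∫ x in a..b, g x‖ ≤ C * (b - a) := by
  have := intervalIntegral.norm_integral_le_of_norm_le_const (a := a) (b := b) (f := g) (C := C) (fun x hx => by
    rw [uIoc_of_le hab] at hx
    exact h x ⟨hx.1.le, hx.2⟩)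
  rwa [abs_of_nonneg (by linarith)] at this

/-- moving a factor from the line `2` to the line `1 / 2` -/
lemma shift (φ : ℂ → ℂ) (hφ : DifferentiableOn ℂ φ {s : ℂ | 0 < s.re}) (κ w t U B : ℝ) (hκ : 0 < κ) (hU : |t| ≤ U)
    (hB : 0 ≤ B) (hb : ∀ s : ℂ, 1 / 2 ≤ s.re → s.re ≤ 2 → |s.im| ≤ U → ‖φ s‖ ≤ B) :
    ‖(∫ y in (-U)..U, φ ⟨2, y⟩ * kk κ w t ⟨2, y⟩) - ∫ y in (-U)..U, φ ⟨1 / 2, y⟩ * kk κ w t ⟨1 / 2, y⟩‖ ≤
      3 * B * Real.exp (3 / 2 * |w| + 9 / (8 * κ ^ 2) - (U - |t|) ^ 2 / (4 * κ ^ 2)) := by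
  have hU0 : 0 ≤ U := (abs_nonneg t).trans hU
  have h0 := H370.RI_zero (a := 1 / 2) (b := 2) (c := -U) (d := U) (by norm_num) (by linarith)
    (f := fun s => φ s * kk κ w t s) (by
      apply DifferentiableOn.mul _ (kk_diff κ w t).differentiableOn
      apply hφ.mono
      intro s hs
      have : 1 / 2 ≤ s.re := hs.1.1
      simp only [mem_ofPred_eq]
      linarith)
  unfold H370.RI at h0
  set E := Real.exp (3 / 2 * |w| + 9 / (8 * κ ^ 2) - (U - |t|) ^ 2 / (4 * κ ^ 2)) with hE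
  have hh : ∀ c : ℝ, |c| = U → ‖∫ x in (1 / 2 : ℝ)..2, φ ⟨x, c⟩ * kk κ w t ⟨x, c⟩‖ ≤ B * E * (2 - 1 / 2) := by
    intro c hc
    apply int_line_bound _ _ _ _ (by norm_num)
    intro x hx
    rw [norm_mul]
    apply mul_le_mul (hb _ hx.1 hx.2 hc.le) _ (norm_nonneg _) hB
    exact kk_hor κ w t U hκ hU _ (by simp only; linarith [hx.1]) hx.2 hc
  have h1 := hh (-U) (by rw [abs_neg, abs_of_nonneg hU0])
  have h2 := hh U (abs_of_nonneg hU0)
  have e : (∫ y in (-U)..U, φ ⟨2, y⟩ * kk κ w t ⟨2, y⟩) - ∫ y in (-U)..U, φ ⟨1 / 2, y⟩ * kk κ w t ⟨1 / 2, y⟩ =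
      I * ((∫ x in (1 / 2 : ℝ)..2, φ ⟨x, -U⟩ * kk κ w t ⟨x, -U⟩) - ∫ x in (1 / 2 : ℝ)..2, φ ⟨x, U⟩ * kk κ w t ⟨x, U⟩) := by
    linear_combination (-I) * h0 + (∫ y in (-U)..U, φ ⟨2, y⟩ * kk κ w t ⟨2, y⟩) * I_sq -
      (∫ y in (-U)..U, φ ⟨1 / 2, y⟩ * kk κ w t ⟨1 / 2, y⟩) * I_sq
  rw [e, norm_mul, norm_I, one_mul]
  refine (norm_sub_le _ _).trans ?_
  linarith

/-- the contribution of the factor `G` -/
lemma G_half {A X ld : ℝ} {f : ℂ → ℂ} {a : ℕ → ℂ} {G : ℂ → ℂ} (hf : GC A X ld f a G) (κ w t U : ℝ) (hκ : 0 < κ)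
    (hκ1 : κ ≤ 1) (hU0 : 0 ≤ U) :
    ‖∫ y in (-U)..U, G ⟨1 / 2, y⟩ * kk κ w t ⟨1 / 2, y⟩‖ ≤ 6 * A * κ * (3 + |t|) := by
  have hA := hf.hA
  have hκ2 : 0 < Real.sqrt 2 * κ := mul_pos (Real.sqrt_pos.2 two_pos) hκ
  have hpt : ∀ y : ℝ, ‖G ⟨1 / 2, y⟩ * kk κ w t ⟨1 / 2, y⟩‖ ≤ A * (3 + |t|) *
      Real.exp (-(y - t) ^ 2 / (2 * (Real.sqrt 2 * κ) ^ 2)) := by
    intro y
    rw [norm_mul, kk_line_norm, sub_self, mul_zero, zero_pow (by norm_num), zero_div, zero_add, Real.exp_zero, one_mul]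
    have h1 := hf.Gb ⟨1 / 2, y⟩ (by simp) (by norm_num)
    have h2 : ‖(⟨1 / 2, y⟩ : ℂ)‖ ≤ 1 / 2 + |y| := by
      refine (norm_le_abs_re_add_abs_im _).trans ?_
      simp only
      rw [abs_of_nonneg (by norm_num : (0 : ℝ) ≤ 1 / 2)]
    have h3 : |y| ≤ |t| + |y - t| := by
      have := abs_add_le (y - t) t
      rw [sub_add_cancel] at this
      linarith
    have h4 : |y - t| ≤ Real.exp ((y - t) ^ 2 / 4) := by
      have h5 := Real.add_one_le_exp ((y - t) ^ 2 / 4)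
      have h6 : |y - t| ≤ (y - t) ^ 2 / 4 + 1 := by
        rw [← sq_abs]
        nlinarith [sq_nonneg (|y - t| - 2)]
      linarith
    have h7 : Real.exp ((y - t) ^ 2 / 4) ≤ Real.exp ((y - t) ^ 2 / (4 * κ ^ 2)) := by
      apply Real.exp_le_exp.2
      apply div_le_div_of_nonneg_left (sq_nonneg _) (by positivity)
      have : κ ^ 2 ≤ 1 := pow_le_one₀ hκ.le hκ1
      linarith
    have h8 : 1 ≤ Real.exp ((y - t) ^ 2 / (4 * κ ^ 2)) := Real.one_le_exp (by positivity)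
    have h9 : 1 + ‖(⟨1 / 2, y⟩ : ℂ)‖ ≤ (3 + |t|) * Real.exp ((y - t) ^ 2 / (4 * κ ^ 2)) := by
      have := abs_nonneg t
      nlinarith
    have h10 : Real.exp ((y - t) ^ 2 / (4 * κ ^ 2)) * Real.exp (-(y - t) ^ 2 / (2 * κ ^ 2)) =
        Real.exp (-(y - t) ^ 2 / (2 * (Real.sqrt 2 * κ) ^ 2)) := by
      rw [← Real.exp_add, mul_pow, Real.sq_sqrt (by norm_num)]
      congr 1
      field_simp
      ring
    calc ‖G ⟨1 / 2, y⟩‖ * Real.exp (-(y - t) ^ 2 / (2 * κ ^ 2))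
        ≤ (A * ((3 + |t|) * Real.exp ((y - t) ^ 2 / (4 * κ ^ 2)))) * Real.exp (-(y - t) ^ 2 / (2 * κ ^ 2)) := by
          apply mul_le_mul_of_nonneg_right _ (Real.exp_pos _).le
          exact h1.trans (mul_le_mul_of_nonneg_left h9 (by linarith))
      _ = A * (3 + |t|) * (Real.exp ((y - t) ^ 2 / (4 * κ ^ 2)) * Real.exp (-(y - t) ^ 2 / (2 * κ ^ 2))) := by ring
      _ = _ := by rw [h10]
  have hi : Integrable (fun y : ℝ => A * (3 + |t|) * Real.exp (-(y - t) ^ 2 / (2 * (Real.sqrt 2 * κ) ^ 2))) :=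
    (gauss_int _ t hκ2).const_mul _
  have hAt : 0 ≤ A * (3 + |t|) := by have := abs_nonneg t; positivity
  calc ‖∫ y in (-U)..U, G ⟨1 / 2, y⟩ * kk κ w t ⟨1 / 2, y⟩‖
      ≤ ∫ y in (-U)..U, A * (3 + |t|) * Real.exp (-(y - t) ^ 2 / (2 * (Real.sqrt 2 * κ) ^ 2)) := by
        apply intervalIntegral.norm_integral_le_of_norm_le (by linarith)
        · exact Filter.Eventually.of_forall fun y _ => hpt y
        · exact hi.intervalIntegrable
    _ ≤ ∫ y, A * (3 + |t|) * Real.exp (-(y - t) ^ 2 / (2 * (Real.sqrt 2 * κ) ^ 2)) := by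
        rw [intervalIntegral.integral_of_le (by linarith)]
        exact setIntegral_le_integral hi (Filter.Eventually.of_forall fun y => by positivity)
    _ = A * (3 + |t|) * (Real.sqrt (2 * Real.pi) * (Real.sqrt 2 * κ)) := by
        rw [integral_const_mul, gauss_val _ t hκ2]
    _ ≤ A * (3 + |t|) * (6 * κ) := by
        apply mul_le_mul_of_nonneg_left _ hAt
        have h3 : Real.sqrt 2 ≤ 2 := by rw [Real.sqrt_le_left (by norm_num)]; norm_num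
        have h4 : Real.sqrt (2 * Real.pi) * Real.sqrt 2 ≤ 3 * 2 :=
          mul_le_mul sqrt_two_pi_le h3 (Real.sqrt_nonneg _) (by norm_num)
        calc Real.sqrt (2 * Real.pi) * (Real.sqrt 2 * κ) = (Real.sqrt (2 * Real.pi) * Real.sqrt 2) * κ := by ring
          _ ≤ 3 * 2 * κ := mul_le_mul_of_nonneg_right h4 hκ.le
          _ = 6 * κ := by ring
    _ = _ := by ring

/-- the sum over primes -/
noncomputable def PP (a : ℕ → ℂ) (κ u t : ℝ) : ℂ :=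
  ∑' n : ℕ, a n * (Real.sqrt n : ℂ)⁻¹ * (cexp (I * t * (u - Real.log n : ℝ)) *
    Real.exp (-(κ ^ 2 * (u - Real.log n) ^ 2 / 2)))

lemma cpow_kk (κ w t : ℝ) (n : ℕ) (hn : n ≠ 0) (s : ℂ) :
    (n : ℂ) ^ (-s) * kk κ w t s = (Real.sqrt n : ℂ)⁻¹ * kk κ (w - Real.log n) t s := by
  have hn0 : (0 : ℝ) < n := by exact_mod_cast Nat.pos_of_ne_zero hn
  have hnc : (n : ℂ) ≠ 0 := by exact_mod_cast hn
  have e1 : (n : ℂ) ^ (-s) = cexp (-(Real.log n / 2 : ℝ)) * cexp (-(Real.log n : ℂ) * (s - 1 / 2)) := by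
    rw [cpow_def_of_ne_zero hnc, ← Complex.exp_add, ← Complex.natCast_log]
    congr 1
    push_cast
    ring
  have e2 : (Real.sqrt n : ℂ)⁻¹ = cexp (-(Real.log n / 2 : ℝ)) := by
    rw [← Complex.ofReal_neg, ← Complex.ofReal_exp, ← Complex.ofReal_inv]
    congr 1
    rw [Real.exp_neg]
    congr 1
    rw [Real.sqrt_eq_rpow, Real.rpow_def_of_pos hn0]
    congr 1
    ring
  rw [e1, e2]
  unfold kk
  have e3 : cexp (((w - Real.log n : ℝ) : ℂ) * (s - 1 / 2)) = cexp (-(Real.log n : ℂ) * (s - 1 / 2)) *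
      cexp ((w : ℂ) * (s - 1 / 2)) := by
    rw [← Complex.exp_add]
    congr 1
    push_cast
    ring
  rw [e3]
  ring

lemma vm_sq (n : ℕ) : ArithmeticFunction.vonMangoldt n / (n : ℝ) ^ 2 ≤ 2 / (n : ℝ) ^ (3 / 2 : ℝ) := by
  rcases Nat.eq_zero_or_pos n with h | h
  · subst h; simp
  have hn0 : (0 : ℝ) < n := by exact_mod_cast h
  have h1 : ArithmeticFunction.vonMangoldt n ≤ 2 * (n : ℝ) ^ (1 / 2 : ℝ) := by
    refine ArithmeticFunction.vonMangoldt_le_log.trans ?_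
    have := Real.log_le_rpow_div hn0.le (show (0 : ℝ) < 1 / 2 by norm_num)
    linarith
  have e : (n : ℝ) ^ 2 = (n : ℝ) ^ (3 / 2 : ℝ) * (n : ℝ) ^ (1 / 2 : ℝ) := by
    rw [← Real.rpow_add hn0]
    norm_num
  rw [e, div_le_div_iff₀ (by positivity) (by positivity)]
  have : 0 < (n : ℝ) ^ (3 / 2 : ℝ) := by positivity
  nlinarith

lemma vm_summable : Summable (fun n : ℕ => ArithmeticFunction.vonMangoldt n / (n : ℝ) ^ 2) := by
  have h : Summable (fun n : ℕ => 2 / (n : ℝ) ^ (3 / 2 : ℝ)) := by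
    have := (Real.summable_one_div_nat_rpow (p := 3 / 2)).2 (by norm_num)
    exact (this.mul_left 2).congr fun n => by ring
  exact Summable.of_nonneg_of_le (fun n => div_nonneg ArithmeticFunction.vonMangoldt_nonneg (by positivity)) vm_sq h

/-- the constant -/
noncomputable def S0 : ℝ := ∑' n : ℕ, ArithmeticFunction.vonMangoldt n / (n : ℝ) ^ 2

lemma S0_nonneg : 0 ≤ S0 := tsum_nonneg fun _ => div_nonneg ArithmeticFunction.vonMangoldt_nonneg (by positivity)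

lemma term_norm {a : ℕ → ℂ} (ha : ∀ n, ‖a n‖ ≤ ArithmeticFunction.vonMangoldt n) (n : ℕ) (y : ℝ) :
    ‖a n * (n : ℂ) ^ (-(⟨2, y⟩ : ℂ))‖ ≤ ArithmeticFunction.vonMangoldt n / (n : ℝ) ^ 2 := by
  rcases Nat.eq_zero_or_pos n with h | h
  · subst h
    have h0 : ‖a 0‖ ≤ 0 := by simpa using ha 0
    have : a 0 = 0 := norm_le_zero_iff.1 h0
    rw [this]; simp
  · have e : ‖(n : ℂ) ^ (-(⟨2, y⟩ : ℂ))‖ = 1 / (n : ℝ) ^ 2 := by
      rw [Complex.norm_natCast_cpow_of_pos h]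
      have : (-(⟨2, y⟩ : ℂ)).re = -2 := by simp
      rw [this, Real.rpow_neg (by positivity)]
      norm_num
    rw [norm_mul, e, mul_one_div]
    exact div_le_div_of_nonneg_right (ha n) (by positivity)

lemma La_norm {a : ℕ → ℂ} (ha : ∀ n, ‖a n‖ ≤ ArithmeticFunction.vonMangoldt n) (y : ℝ) :
    ‖∑' n : ℕ, a n * (n : ℂ) ^ (-(⟨2, y⟩ : ℂ))‖ ≤ S0 :=
  tsum_of_norm_bounded vm_summable.hasSum fun n => term_norm ha n y

lemma La_cont {a : ℕ → ℂ} (ha : ∀ n, ‖a n‖ ≤ ArithmeticFunction.vonMangoldt n) :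
    Continuous (fun y : ℝ => ∑' n : ℕ, a n * (n : ℂ) ^ (-(⟨2, y⟩ : ℂ))) := by
  apply continuous_tsum (u := fun n : ℕ => ArithmeticFunction.vonMangoldt n / (n : ℝ) ^ 2) _ vm_summable
    (fun n y => term_norm ha n y)
  intro n
  rcases Nat.eq_zero_or_pos n with h | h
  · subst h
    have h0 : ‖a 0‖ ≤ 0 := by simpa using ha 0
    have : a 0 = 0 := norm_le_zero_iff.1 h0
    rw [this]
    simp only [zero_mul]
    exact continuous_const
  · have e : (fun y : ℝ => a n * (n : ℂ) ^ (-(⟨2, y⟩ : ℂ))) = fun y : ℝ => a n * (n : ℂ) ^ (-((2 : ℂ) + y * I)) := by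
      funext y
      congr 3
      apply Complex.ext <;> simp
    rw [e]
    have hnc : (n : ℂ) ≠ 0 := by exact_mod_cast h.ne'
    exact continuous_const.mul (Continuous.const_cpow (by fun_prop) (Or.inl hnc))

/-- the full integral of the Dirichlet series against the kernel -/
lemma La_full {a : ℕ → ℂ} (ha : ∀ n, ‖a n‖ ≤ ArithmeticFunction.vonMangoldt n) (κ w t : ℝ) (hκ : 0 < κ) :
    ∫ y : ℝ, (∑' n : ℕ, a n * (n : ℂ) ^ (-(⟨2, y⟩ : ℂ))) * kk κ w t ⟨2, y⟩ =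
      (Real.sqrt (2 * Real.pi) * κ : ℝ) * PP a κ w t := by
  set F : ℕ → ℝ → ℂ := fun n y => a n * (n : ℂ) ^ (-(⟨2, y⟩ : ℂ)) * kk κ w t ⟨2, y⟩ with hF
  have ha0 : a 0 = 0 := norm_le_zero_iff.1 (by simpa using ha 0)
  have eF : ∀ n y, F n y = a n * (Real.sqrt n : ℂ)⁻¹ * kk κ (w - Real.log n) t ⟨2, y⟩ := by
    intro n y
    rw [hF]
    simp only
    rcases Nat.eq_zero_or_pos n with h | h
    · subst h; rw [ha0]; simp
    · rw [mul_assoc, cpow_kk κ w t n h.ne', mul_assoc]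
  have hFi : ∀ n, Integrable (F n) := by
    intro n
    refine ((kk_int κ (w - Real.log n) t 2 hκ).const_mul (a n * (Real.sqrt n : ℂ)⁻¹)).congr
      (Filter.Eventually.of_forall fun y => ?_)
    simp only
    rw [eF]
  have hFn : ∀ n y, ‖F n y‖ ≤ ArithmeticFunction.vonMangoldt n / (n : ℝ) ^ 2 * ‖kk κ w t ⟨2, y⟩‖ := by
    intro n y
    rw [hF]
    simp only
    rw [norm_mul]
    exact mul_le_mul_of_nonneg_right (term_norm ha n y) (norm_nonneg _)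
  have hkn : Integrable (fun y : ℝ => ‖kk κ w t ⟨2, y⟩‖) := (kk_int κ w t 2 hκ).norm
  have hsum : Summable (fun n => ∫ y, ‖F n y‖) := by
    refine Summable.of_nonneg_of_le (fun n => integral_nonneg fun y => norm_nonneg _) (fun n => ?_)
      (vm_summable.mul_right (∫ y, ‖kk κ w t ⟨2, y⟩‖))
    rw [← integral_const_mul]
    exact integral_mono (hFi n).norm (hkn.const_mul _) (hFn n)
  have h := hasSum_integral_of_summable_integral_norm hFi hsum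
  have e1 : ∀ y : ℝ, ∑' n, F n y = (∑' n : ℕ, a n * (n : ℂ) ^ (-(⟨2, y⟩ : ℂ))) * kk κ w t ⟨2, y⟩ := by
    intro y
    rw [← tsum_mul_right]
  simp_rw [e1] at h
  rw [← h.tsum_eq]
  unfold PP
  rw [← tsum_mul_left]
  apply tsum_congr
  intro n
  simp_rw [eF]
  rw [integral_const_mul, kk_full κ _ t 2 hκ]
  ring

end Pool.Agent.L5helper10.QV
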