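import Pool.Agent.L5helper10.QV.Ef2

/-! The explicit formula. -/

set_option autoImplicit false

open MeasureTheory Complex ComplexConjugate Set Filter
open H370 (mult)

namespace Pool.Agent.L5helper10.QV

variable {A X ld : ℝ} {f : ℂ → ℂ} {a : ℕ → ℂ} {G : ℂ → ℂ}

/-- the exponential error -/
noncomputable def ER (κ w t U : ℝ) : ℝ := Real.exp (3 / 2 * |w| + 9 / (8 * κ ^ 2) - (U - |t|) ^ 2 / (4 * κ ^ 2))

lemma ER_pos (κ w t U : ℝ) : 0 < ER κ w t U := Real.exp_pos _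

lemma ER_neg (κ w t U : ℝ) : ER κ (-w) t U = ER κ w t U := by unfold ER; rw [abs_neg]

lemma ER_split (κ w t U : ℝ) : Real.exp (3 / 2 * |w| + 9 / (8 * κ ^ 2)) * Real.exp (-(U - |t|) ^ 2 / (4 * κ ^ 2)) =
    ER κ w t U := by
  unfold ER
  rw [← Real.exp_add]
  congr 1
  ring

lemma line_B (κ w t y : ℝ) : ‖kk κ w t (⟨2, y⟩ : ℂ)‖ ≤
    Real.exp (3 / 2 * |w| + 9 / (8 * κ ^ 2)) * Real.exp (-(y - t) ^ 2 / (2 * κ ^ 2)) := by
  rw [kk_line_norm]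
  apply mul_le_mul_of_nonneg_right _ (Real.exp_pos _).le
  apply Real.exp_le_exp.2
  have h1 : w * (2 - 1 / 2) ≤ 3 / 2 * |w| := by nlinarith [le_abs_self w]
  have h2 : ((2 : ℝ) - 1 / 2) ^ 2 / (2 * κ ^ 2) = 9 / (8 * κ ^ 2) := by
    rw [show ((2 : ℝ) - 1 / 2) ^ 2 = 9 / 4 by norm_num, div_div]
    congr 1
    ring
  linarith

lemma mk_cont (c : ℝ) : Continuous (fun y : ℝ => (⟨c, y⟩ : ℂ)) := by
  have : (fun y : ℝ => (⟨c, y⟩ : ℂ)) = fun y : ℝ => (c : ℂ) + y * I := by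
    funext y; apply Complex.ext <;> simp
  rw [this]; fun_prop

lemma TT (hf : GC A X ld f a G) (κ w t U : ℝ) (hκ : 0 < κ) (hκ1 : κ ≤ 1) (hU : |t| ≤ U) :
    ‖(∫ y in (-U)..U, deriv f ⟨2, y⟩ / f ⟨2, y⟩ * kk κ w t ⟨2, y⟩) +
      (Real.sqrt (2 * Real.pi) * κ : ℝ) * PP a κ w t‖ ≤
      6 * A * κ * (3 + |t|) + (3 * (A * (3 + U)) + 6 * S0) * ER κ w t U := by
  have hA := hf.hA
  have hU0 : 0 ≤ U := (abs_nonneg t).trans hU
  have hGc : Continuous (fun y : ℝ => G ⟨2, y⟩) := by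
    apply continuous_iff_continuousAt.2
    intro y
    have h1 : ContinuousAt G (⟨2, y⟩ : ℂ) := by
      apply (hf.Gd.differentiableAt _).continuousAt
      apply (isOpen_lt continuous_const continuous_re).mem_nhds
      simp
    exact ContinuousAt.comp (f := fun y : ℝ => (⟨2, y⟩ : ℂ)) (g := G) h1 (mk_cont 2).continuousAt
  have hLc := La_cont hf.ha
  have hkc := kk_cont κ w t 2
  have e1 : ∀ y : ℝ, deriv f ⟨2, y⟩ / f ⟨2, y⟩ * kk κ w t ⟨2, y⟩ =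
      G ⟨2, y⟩ * kk κ w t ⟨2, y⟩ - (∑' n : ℕ, a n * (n : ℂ) ^ (-(⟨2, y⟩ : ℂ))) * kk κ w t ⟨2, y⟩ := by
    intro y
    rw [hf.ldr _ rfl]
    ring
  simp_rw [e1]
  have hc1 : Continuous (fun y : ℝ => G ⟨2, y⟩ * kk κ w t ⟨2, y⟩) := hGc.mul hkc
  have hc2 : Continuous (fun y : ℝ => (∑' n : ℕ, a n * (n : ℂ) ^ (-(⟨2, y⟩ : ℂ))) * kk κ w t ⟨2, y⟩) := hLc.mul hkc
  rw [intervalIntegral.integral_sub (hc1.intervalIntegrable _ _) (hc2.intervalIntegrable _ _)]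
  set I1 := ∫ y in (-U)..U, G ⟨2, y⟩ * kk κ w t ⟨2, y⟩ with hI1
  set I2 := ∫ y in (-U)..U, (∑' n : ℕ, a n * (n : ℂ) ^ (-(⟨2, y⟩ : ℂ))) * kk κ w t ⟨2, y⟩ with hI2
  have h1 : ‖I1‖ ≤ 6 * A * κ * (3 + |t|) + 3 * (A * (3 + U)) * ER κ w t U := by
    have h2 := shift G hf.Gd κ w t U (A * (3 + U)) hκ hU (by positivity) (fun s hs1 hs2 hs3 => by
      refine (hf.Gb s hs1 hs2).trans ?_
      apply mul_le_mul_of_nonneg_left _ (by linarith)
      have h3 := norm_le_abs_re_add_abs_im s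
      rw [abs_of_nonneg (by linarith : 0 ≤ s.re)] at h3
      linarith)
    have h3 := G_half hf κ w t U hκ hκ1 hU0
    have h4 := norm_add_le (I1 - ∫ y in (-U)..U, G ⟨1 / 2, y⟩ * kk κ w t ⟨1 / 2, y⟩)
      (∫ y in (-U)..U, G ⟨1 / 2, y⟩ * kk κ w t ⟨1 / 2, y⟩)
    rw [sub_add_cancel] at h4
    unfold ER
    linarith
  have h2 : ‖(∫ y : ℝ, (∑' n : ℕ, a n * (n : ℂ) ^ (-(⟨2, y⟩ : ℂ))) * kk κ w t ⟨2, y⟩) - I2‖ ≤ 6 * S0 * ER κ w t U := by
    have h3 := trunc κ t U (S0 * Real.exp (3 / 2 * |w| + 9 / (8 * κ ^ 2))) hκ hU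
      (mul_nonneg S0_nonneg (Real.exp_pos _).le)
      (fun y : ℝ => (∑' n : ℕ, a n * (n : ℂ) ^ (-(⟨2, y⟩ : ℂ))) * kk κ w t ⟨2, y⟩) (by
        refine ((gauss_int κ t hκ).const_mul (S0 * Real.exp (3 / 2 * |w| + 9 / (8 * κ ^ 2)))).mono'
          (hLc.mul hkc).aestronglyMeasurable (Filter.Eventually.of_forall fun y => ?_)
        rw [norm_mul, mul_assoc]
        exact mul_le_mul (La_norm hf.ha y) (line_B κ w t y) (norm_nonneg _) S0_nonneg) (fun y => by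
        rw [norm_mul, mul_assoc]
        exact mul_le_mul (La_norm hf.ha y) (line_B κ w t y) (norm_nonneg _) S0_nonneg)
    refine h3.trans ?_
    have e2 : S0 * Real.exp (3 / 2 * |w| + 9 / (8 * κ ^ 2)) * (6 * κ) * Real.exp (-(U - |t|) ^ 2 / (4 * κ ^ 2)) =
        6 * S0 * κ * ER κ w t U := by rw [← ER_split]; ring
    rw [e2]
    apply mul_le_mul_of_nonneg_right _ (ER_pos _ _ _ _).le
    have := S0_nonneg
    nlinarith
  rw [La_full hf.ha κ w t hκ] at h2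
  have e3 : I1 - I2 + (Real.sqrt (2 * Real.pi) * κ : ℝ) * PP a κ w t =
      I1 + ((Real.sqrt (2 * Real.pi) * κ : ℝ) * PP a κ w t - I2) := by ring
  rw [e3]
  refine (norm_add_le _ _).trans ?_
  linarith

lemma MM (κ w t U : ℝ) (hκ : 0 < κ) (hκ1 : κ ≤ 1) (hU : |t| ≤ U) :
    ‖(∫ y in (-U)..U, kk κ w t ⟨2, y⟩) - (Real.sqrt (2 * Real.pi) * κ : ℝ) *
      (cexp (I * t * w) * Real.exp (-(κ ^ 2 * w ^ 2 / 2)))‖ ≤ 6 * ER κ w t U := by
  have h3 := trunc κ t U (Real.exp (3 / 2 * |w| + 9 / (8 * κ ^ 2))) hκ hU (Real.exp_pos _).le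
    (fun y : ℝ => kk κ w t ⟨2, y⟩) (kk_int κ w t 2 hκ) (fun y => line_B κ w t y)
  rw [kk_full κ w t 2 hκ, norm_sub_rev] at h3
  refine h3.trans ?_
  have e2 : Real.exp (3 / 2 * |w| + 9 / (8 * κ ^ 2)) * (6 * κ) * Real.exp (-(U - |t|) ^ 2 / (4 * κ ^ 2)) =
      6 * κ * ER κ w t U := by rw [← ER_split]; ring
  rw [e2]
  apply mul_le_mul_of_nonneg_right _ (ER_pos _ _ _ _).le
  linarith

/-- the zero side, exactly -/
lemma rect_eq (hf : GC A X ld f a G) (κ w t U : ℝ) (hU1 : 1 ≤ U)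
    (hgood : ∀ z : ℂ, |z.im| = U → -1 ≤ z.re → z.re ≤ 2 → f z ≠ 0) :
    2 * Real.pi * I * EE (Zf f U) (fun z => (mult f z : ℂ)) κ w t =
      (∫ x in (-1 : ℝ)..2, deriv f ⟨x, -U⟩ / f ⟨x, -U⟩ * kk κ w t ⟨x, -U⟩) -
      (∫ x in (-1 : ℝ)..2, deriv f ⟨x, U⟩ / f ⟨x, U⟩ * kk κ w t ⟨x, U⟩) +
      I * ((∫ y in (-U)..U, deriv f ⟨2, y⟩ / f ⟨2, y⟩ * kk κ w t ⟨2, y⟩) +
        conj (ld * (∫ y in (-U)..U, kk κ (-w) t ⟨2, y⟩) +
          ∫ y in (-U)..U, deriv f ⟨2, y⟩ / f ⟨2, y⟩ * kk κ (-w) t ⟨2, y⟩)) := by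
  have hU0 : 0 < U := by linarith
  obtain ⟨hfin, hres⟩ := H370.rect_residue f (kk κ w t) (-1) 2 (-U) U (by norm_num) (by linarith)
    (fun z _ => hf.diff.analyticAt z) (kk_diff κ w t) (fun s hs h0 => by
      obtain ⟨h1, h2⟩ := hf.nz s h0
      refine ⟨⟨by linarith, by linarith⟩, ?_, ?_⟩
      · rcases (hs.2.1 : -U ≤ s.im).eq_or_lt with h | h
        · exact absurd h0 (hgood s (by rw [← h, abs_neg, abs_of_pos hU0]) (by linarith) (by linarith))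
        · exact h
      · rcases (hs.2.2 : s.im ≤ U).eq_or_lt with h | h
        · exact absurd h0 (hgood s (by rw [h, abs_of_pos hU0]) (by linarith) (by linarith))
        · exact h)
  have hset : {s : ℂ | s ∈ Ioo (-1 : ℝ) 2 ×ℂ Ioo (-U) U ∧ f s = 0} = Zs f U := by
    ext s
    constructor
    · rintro ⟨hs, h0⟩
      exact ⟨h0, abs_le.2 ⟨hs.2.1.le, hs.2.2.le⟩⟩
    · rintro ⟨h0, hs⟩
      obtain ⟨h1, h2⟩ := hf.nz s h0
      have h3 : |s.im| ≠ U := fun h => hgood s h (by linarith) (by linarith) h0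
      have h4 := abs_lt.1 (lt_of_le_of_ne hs h3)
      exact ⟨⟨⟨by linarith, by linarith⟩, ⟨h4.1, h4.2⟩⟩, h0⟩
  rw [hset] at hres
  have hsum : ∑ᶠ s ∈ Zs f U, (mult f s : ℂ) * kk κ w t s = EE (Zf f U) (fun z => (mult f z : ℂ)) κ w t := by
    rw [finsum_mem_eq_finite_toFinset_sum _ (Zs_finite hf U)]
    unfold EE Zf
    rw [dif_pos (Zs_finite hf U)]
  rw [hsum] at hres
  rw [← hres]
  -- the left side
  have hl : ∀ y : ℝ, deriv f ⟨-1, y⟩ / f ⟨-1, y⟩ * kk κ w t ⟨-1, y⟩ =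
      -conj (ld * kk κ (-w) t ⟨2, y⟩ + deriv f ⟨2, y⟩ / f ⟨2, y⟩ * kk κ (-w) t ⟨2, y⟩) := by
    intro y
    have e : (⟨-1, y⟩ : ℂ) = 1 - conj (⟨2, y⟩ : ℂ) := by apply Complex.ext <;> simp; norm_num
    have hne : f ⟨2, y⟩ ≠ 0 := by
      intro h
      have := (hf.nz _ h).2
      simp only at this
      linarith
    have h1 := hf.fe ⟨2, y⟩ hne
    have h2 : deriv f (1 - conj (⟨2, y⟩ : ℂ)) / f (1 - conj (⟨2, y⟩ : ℂ)) = -(ld : ℂ) - conj (deriv f ⟨2, y⟩ / f ⟨2, y⟩) := by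
      have h3 := congrArg conj h1
      rw [map_sub, map_neg, Complex.conj_conj, Complex.conj_ofReal] at h3
      linear_combination h3
    rw [e, h2, kk_refl, map_add, map_mul, map_mul, Complex.conj_ofReal]
    ring
  have hcf : Continuous (fun y : ℝ => deriv f ⟨2, y⟩ / f ⟨2, y⟩) := by
    have hd : Differentiable ℂ (deriv f) := hf.diff.deriv
    apply Continuous.div (hd.continuous.comp (mk_cont 2)) (hf.diff.continuous.comp (mk_cont 2))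
    intro y h
    have := (hf.nz _ h).2
    simp only at this
    linarith
  have hI : ∫ y in (-U)..U, deriv f ⟨-1, y⟩ / f ⟨-1, y⟩ * kk κ w t ⟨-1, y⟩ =
      -conj (ld * (∫ y in (-U)..U, kk κ (-w) t ⟨2, y⟩) +
          ∫ y in (-U)..U, deriv f ⟨2, y⟩ / f ⟨2, y⟩ * kk κ (-w) t ⟨2, y⟩) := by
    simp_rw [hl]
    rw [intervalIntegral.integral_neg]
    congr 1
    have hc1 : Continuous (fun y : ℝ => (ld : ℂ) * kk κ (-w) t ⟨2, y⟩) := continuous_const.mul (kk_cont κ (-w) t 2)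
    have hc2 : Continuous (fun y : ℝ => deriv f ⟨2, y⟩ / f ⟨2, y⟩ * kk κ (-w) t ⟨2, y⟩) :=
      hcf.mul (kk_cont κ (-w) t 2)
    rw [← intervalIntegral.integral_const_mul, ← intervalIntegral.integral_add
      (hc1.intervalIntegrable _ _) (hc2.intervalIntegrable _ _),
      intervalIntegral.integral_of_le (by linarith), intervalIntegral.integral_of_le (by linarith)]
    exact integral_conj
  rw [hI]
  ring

end Pool.Agent.L5helper10.QV
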