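import Pool.Agent.L5helper10.QV.Ef3

/-! The explicit formula, final form. -/

set_option autoImplicit false

open MeasureTheory Complex ComplexConjugate Set Filter
open H370 (mult)

namespace Pool.Agent.L5helper10.QV

/-- the main terms of the explicit formula -/
noncomputable def MN (ld : ℝ) (a : ℕ → ℂ) (κ u t : ℝ) : ℂ :=
  (κ / Real.sqrt (2 * Real.pi) : ℝ) * (ld * (cexp (I * t * u) * Real.exp (-(κ ^ 2 * u ^ 2 / 2))) -
    PP a κ u t - conj (PP a κ (-u) t))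

variable {A X ld : ℝ} {f : ℂ → ℂ} {a : ℕ → ℂ} {G : ℂ → ℂ}

lemma ER_mono (κ w t U V : ℝ) (hV : |t| ≤ V) (hVU : V ≤ U) : ER κ w t U ≤ ER κ w t V := by
  unfold ER
  apply Real.exp_le_exp.2
  have h : (V - |t|) ^ 2 / (4 * κ ^ 2) ≤ (U - |t|) ^ 2 / (4 * κ ^ 2) := by
    apply div_le_div_of_nonneg_right _ (by positivity)
    exact pow_le_pow_left₀ (by linarith) (by linarith) 2
  linarith

lemma kk_far (κ w t V : ℝ) (hV : |t| ≤ V) (z : ℂ) (h0 : 0 < z.re) (h1 : z.re < 1) (hz : V ≤ |z.im|) :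
    ‖kk κ w t z‖ ≤ ER κ w t V := by
  rw [kk_norm]
  unfold ER
  apply Real.exp_le_exp.2
  have h2 : w * (z.re - 1 / 2) ≤ 3 / 2 * |w| := by
    refine (le_abs_self _).trans ?_
    rw [abs_mul, mul_comm]
    apply mul_le_mul_of_nonneg_right _ (abs_nonneg w)
    rw [abs_le]; constructor <;> linarith
  have h5 : (V - |t|) ^ 2 ≤ (z.im - t) ^ 2 := by
    have h6 : V - |t| ≤ |z.im - t| := by
      have := abs_add_le (z.im - t) t
      rw [sub_add_cancel] at this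
      linarith
    rw [← sq_abs (z.im - t)]
    exact pow_le_pow_left₀ (by linarith) h6 2
  have h4 : (z.re - 1 / 2) ^ 2 ≤ 9 / 4 := by nlinarith
  have h7 : ((z.re - 1 / 2) ^ 2 - (z.im - t) ^ 2) / (2 * κ ^ 2) ≤ (9 / 4 - (V - |t|) ^ 2) / (2 * κ ^ 2) := by
    apply div_le_div_of_nonneg_right _ (by positivity)
    linarith
  rcases eq_or_ne κ 0 with hk | hk
  · subst hk
    simp only [ne_eq, OfNat.ofNat_ne_zero, not_false_eq_true, zero_pow, mul_zero, div_zero] at h7 ⊢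
    linarith
  have h8 : (9 / 4 - (V - |t|) ^ 2) / (2 * κ ^ 2) = 9 / (8 * κ ^ 2) - (V - |t|) ^ 2 / (4 * κ ^ 2) -
      (V - |t|) ^ 2 / (4 * κ ^ 2) := by field_simp; ring
  have h9 : 0 ≤ (V - |t|) ^ 2 / (4 * κ ^ 2) := by positivity
  linarith

lemma Q_ge {A X V : ℝ} (hA : 1 ≤ A) (hX : 1 ≤ X) (hV : 1 ≤ V) :
    1 ≤ A ^ 2 * (X + V ^ 2) ^ 2 * V ∧ X ≤ A ^ 2 * (X + V ^ 2) ^ 2 * V ∧
      A * V * (X + V ^ 2) ≤ A ^ 2 * (X + V ^ 2) ^ 2 * V ∧ A * V ≤ A ^ 2 * (X + V ^ 2) ^ 2 * V := by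
  obtain ⟨S, hS⟩ : ∃ S : ℝ, S = X + V ^ 2 := ⟨_, rfl⟩
  have hS1 : 1 ≤ S := by rw [hS]; nlinarith
  have hXS : X ≤ S := by rw [hS]; nlinarith
  obtain ⟨P, hP⟩ : ∃ P : ℝ, P = A * S := ⟨_, rfl⟩
  have hSP : S ≤ P := by rw [hP]; nlinarith
  have hAP : A ≤ P := by rw [hP]; nlinarith
  have hP1 : 1 ≤ P := hS1.trans hSP
  have e : A ^ 2 * (X + V ^ 2) ^ 2 * V = P * (P * V) := by rw [hP, hS]; ring
  have hPV : P ≤ P * V := by nlinarith
  have hPPV : P * V ≤ P * (P * V) := by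
    have : 0 ≤ P * V := by positivity
    nlinarith
  rw [e]
  refine ⟨by linarith, by linarith, ?_, ?_⟩
  · have : A * V * (X + V ^ 2) = P * V := by rw [hP, hS]; ring
    rw [this]; exact hPPV
  · have : A * V ≤ P * V := mul_le_mul_of_nonneg_right hAP (by linarith)
    linarith

theorem explicit_U (hf : GC A X ld f a G) (κ w t V U : ℝ) (hκ : 0 < κ) (hκ1 : κ ≤ 1) (ht : |t| ≤ V) (hV : 1 ≤ V)
    (hU : U ∈ Set.Icc V (V + 1)) (hgood : ∀ z : ℂ, |z.im| = U → -1 ≤ z.re → z.re ≤ 2 →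
      f z ≠ 0 ∧ ‖deriv f z / f z‖ ≤ 10 ^ 9 * A ^ 2 * (X + V ^ 2) ^ 2 * V) :
    ‖EE (Zf f U) (fun z => (mult f z : ℂ)) κ w t - MN ld a κ w t‖ ≤ 2 * A * κ * (3 + |t|) +
      (10 ^ 9 + 6 + 2 * S0) * (A ^ 2 * (X + V ^ 2) ^ 2 * V) * ER κ w t V := by
  have hA := hf.hA
  have hX := hf.hX
  have hld0 := hf.ld0
  have hldX := hf.ldX
  have hUV := hU.1
  have hUV2 := hU.2
  have htU : |t| ≤ U := ht.trans hUV
  have hU0 : 0 ≤ U := by linarith
  set Q := A ^ 2 * (X + V ^ 2) ^ 2 * V with hQ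
  obtain ⟨q1, q2, q3, q4⟩ := Q_ge hA hX hV
  rw [← hQ] at q1 q2 q3 q4
  set E := ER κ w t V with hE
  have hE0 : 0 < E := ER_pos _ _ _ _
  have hEU : ER κ w t U ≤ E := ER_mono κ w t U V ht hUV
  have hEU0 := ER_pos κ w t U
  have hr := rect_eq hf κ w t U (by linarith) (fun z h1 h2 h3 => (hgood z h1 h2 h3).1)
  set H1 := ∫ x in (-1 : ℝ)..2, deriv f ⟨x, -U⟩ / f ⟨x, -U⟩ * kk κ w t ⟨x, -U⟩ with hH1
  set H2 := ∫ x in (-1 : ℝ)..2, deriv f ⟨x, U⟩ / f ⟨x, U⟩ * kk κ w t ⟨x, U⟩ with hH2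
  set T1 := ∫ y in (-U)..U, deriv f ⟨2, y⟩ / f ⟨2, y⟩ * kk κ w t ⟨2, y⟩ with hT1
  set T2 := ∫ y in (-U)..U, deriv f ⟨2, y⟩ / f ⟨2, y⟩ * kk κ (-w) t ⟨2, y⟩ with hT2
  set M := ∫ y in (-U)..U, kk κ (-w) t ⟨2, y⟩ with hM
  have hh : ∀ c : ℝ, |c| = U → ‖∫ x in (-1 : ℝ)..2, deriv f ⟨x, c⟩ / f ⟨x, c⟩ * kk κ w t ⟨x, c⟩‖ ≤
      10 ^ 9 * Q * E * (2 - -1) := by
    intro c hc
    apply int_line_bound _ _ _ _ (by norm_num)
    intro x hx
    rw [norm_mul]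
    have h1 := (hgood ⟨x, c⟩ hc hx.1 hx.2).2
    have h2 : ‖kk κ w t ⟨x, c⟩‖ ≤ E := (kk_hor κ w t U hκ htU _ hx.1 hx.2 hc).trans hEU
    have e : 10 ^ 9 * A ^ 2 * (X + V ^ 2) ^ 2 * V = 10 ^ 9 * Q := by rw [hQ]; ring
    rw [e] at h1
    exact mul_le_mul h1 h2 (norm_nonneg _) (by positivity)
  have b1 : ‖H1‖ ≤ 3 * (10 ^ 9 * Q * E) := by
    have := hh (-U) (by rw [abs_neg, abs_of_nonneg hU0])
    linarith
  have b2 : ‖H2‖ ≤ 3 * (10 ^ 9 * Q * E) := by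
    have := hh U (abs_of_nonneg hU0)
    linarith
  have t1 := TT hf κ w t U hκ hκ1 htU
  have t2 := TT hf κ (-w) t U hκ hκ1 htU
  have t3 := MM κ (-w) t U hκ hκ1 htU
  rw [ER_neg] at t2 t3
  rw [← hT1] at t1
  rw [← hT2] at t2
  rw [← hM] at t3
  set c0 : ℂ := ((Real.sqrt (2 * Real.pi) * κ : ℝ) : ℂ) with hc0
  set e1 := T1 + c0 * PP a κ w t with he1
  set e2 := T2 + c0 * PP a κ (-w) t with he2
  set e3 := M - c0 * (cexp (I * t * (-w : ℝ)) * Real.exp (-(κ ^ 2 * (-w) ^ 2 / 2))) with he3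
  have hpi : (Real.pi : ℂ) ≠ 0 := ofReal_ne_zero.2 Real.pi_ne_zero
  have hs2 : Real.sqrt (2 * Real.pi) ≠ 0 := (Real.sqrt_pos.2 (by positivity)).ne'
  have hc0' : c0 = 2 * Real.pi * (κ / Real.sqrt (2 * Real.pi) : ℝ) := by
    rw [hc0]
    have : Real.sqrt (2 * Real.pi) * κ = 2 * Real.pi * (κ / Real.sqrt (2 * Real.pi)) := by
      have h := Real.mul_self_sqrt (show (0 : ℝ) ≤ 2 * Real.pi by positivity)
      field_simp
      linarith
    rw [this]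
    push_cast
    ring
  have hc0c : conj c0 = c0 := by rw [hc0, Complex.conj_ofReal]
  have hmain : EE (Zf f U) (fun z => (mult f z : ℂ)) κ w t - MN ld a κ w t =
      (1 / (2 * Real.pi) : ℂ) * (e1 + conj (ld * e3 + e2)) + (1 / (2 * Real.pi) : ℂ) * (-I * (H1 - H2)) := by
    have h1 : conj (cexp (I * t * ((-w : ℝ) : ℂ)) * (Real.exp (-(κ ^ 2 * (-w) ^ 2 / 2)) : ℂ)) =
        cexp (I * t * w) * Real.exp (-(κ ^ 2 * w ^ 2 / 2)) := by
      rw [map_mul, ← Complex.exp_conj, Complex.conj_ofReal]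
      congr 2
      · simp only [map_mul, Complex.conj_I, Complex.conj_ofReal]
        push_cast; ring
      · rw [neg_sq]
    have h2 : MN ld a κ w t = (1 / (2 * Real.pi) : ℂ) * (c0 * (ld * (cexp (I * t * w) * Real.exp (-(κ ^ 2 * w ^ 2 / 2))) -
        PP a κ w t - conj (PP a κ (-w) t))) := by
      unfold MN
      rw [hc0']
      field_simp
    have h3 : EE (Zf f U) (fun z => (mult f z : ℂ)) κ w t =
        (1 / (2 * Real.pi) : ℂ) * (-I * (2 * Real.pi * I * EE (Zf f U) (fun z => (mult f z : ℂ)) κ w t)) := by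
      field_simp
      linear_combination (EE (Zf f U) (fun z => (mult f z : ℂ)) κ w t) * I_sq
    rw [h3, hr, h2, he1, he2, he3]
    simp only [map_add, map_sub, map_mul, Complex.conj_ofReal, hc0c]
    have h4 : conj (cexp (I * t * ((-w : ℝ) : ℂ))) * (Real.exp (-(κ ^ 2 * (-w) ^ 2 / 2)) : ℂ) =
        cexp (I * t * w) * Real.exp (-(κ ^ 2 * w ^ 2 / 2)) := by
      rw [← h1, map_mul, Complex.conj_ofReal]
    rw [h4]
    linear_combination (1 / (2 * (Real.pi : ℂ)) * (-(T1 + (ld * conj M + conj T2)))) * I_sq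
  rw [hmain]
  have hpin : ‖(1 / (2 * Real.pi) : ℂ)‖ ≤ 1 / 6 := by
    have : (1 / (2 * Real.pi) : ℂ) = ((1 / (2 * Real.pi) : ℝ) : ℂ) := by push_cast; ring
    rw [this, Complex.norm_real, Real.norm_of_nonneg (by positivity)]
    apply one_div_le_one_div_of_le (by norm_num)
    linarith [Real.pi_gt_three]
  have n1 : ‖e1 + conj (ld * e3 + e2)‖ ≤ 2 * (6 * A * κ * (3 + |t|) + (3 * (A * (3 + U)) + 6 * S0) * E) + 6 * X * E := by
    refine (norm_add_le _ _).trans ?_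
    rw [Complex.norm_conj]
    have h1 := norm_add_le (ld * e3 : ℂ) e2
    rw [norm_mul, Complex.norm_real, Real.norm_of_nonneg hld0] at h1
    have h2 : ld * ‖e3‖ ≤ X * (6 * E) := mul_le_mul hldX (t3.trans (by linarith)) (norm_nonneg _) (by linarith)
    have h3 : (3 * (A * (3 + U)) + 6 * S0) * ER κ w t U ≤ (3 * (A * (3 + U)) + 6 * S0) * E := by
      apply mul_le_mul_of_nonneg_left hEU
      have := S0_nonneg
      positivity
    linarith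
  have n2 : ‖-I * (H1 - H2)‖ ≤ 6 * (10 ^ 9 * Q * E) := by
    rw [norm_mul, norm_neg, norm_I, one_mul]
    refine (norm_sub_le _ _).trans ?_
    linarith
  calc _ ≤ ‖(1 / (2 * Real.pi) : ℂ) * (e1 + conj (ld * e3 + e2))‖ + ‖(1 / (2 * Real.pi) : ℂ) * (-I * (H1 - H2))‖ :=
        norm_add_le _ _
    _ ≤ 1 / 6 * (2 * (6 * A * κ * (3 + |t|) + (3 * (A * (3 + U)) + 6 * S0) * E) + 6 * X * E) +
        1 / 6 * (6 * (10 ^ 9 * Q * E)) := by
        rw [norm_mul, norm_mul]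
        apply add_le_add
        · exact mul_le_mul hpin n1 (norm_nonneg _) (by norm_num)
        · exact mul_le_mul hpin n2 (norm_nonneg _) (by norm_num)
    _ = 2 * A * κ * (3 + |t|) + (A * (3 + U) + 2 * S0 + X + 10 ^ 9 * Q) * E := by ring
    _ ≤ 2 * A * κ * (3 + |t|) + (10 ^ 9 + 6 + 2 * S0) * Q * E := by
        have h1 : A * (3 + U) ≤ 5 * Q := by nlinarith
        have h2 : 2 * S0 ≤ 2 * S0 * Q := by
          have := S0_nonneg
          nlinarith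
        have h3 : (A * (3 + U) + 2 * S0 + X + 10 ^ 9 * Q) * E ≤ (10 ^ 9 + 6 + 2 * S0) * Q * E := by
          apply mul_le_mul_of_nonneg_right _ hE0.le
          linarith
        linarith

theorem explicit : ∃ C : ℝ, 0 < C ∧ ∀ {A X ld : ℝ} {f : ℂ → ℂ} {a : ℕ → ℂ} {G : ℂ → ℂ}, GC A X ld f a G →
    ∀ κ w t V : ℝ, 0 < κ → κ ≤ 1 → |t| ≤ V → 1 ≤ V →
    ‖EE (Zf f V) (fun z => (mult f z : ℂ)) κ w t - MN ld a κ w t‖ ≤ 2 * A * κ * (3 + |t|) +
      C * (A ^ 2 * (X + V ^ 2) ^ 2 * V) * ER κ w t V := by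
  classical
  refine ⟨10 ^ 9 + 6 + 2 * S0 + 2560, by have := S0_nonneg; positivity, ?_⟩
  intro A X ld f a G hf κ w t V hκ hκ1 ht hV
  have hA := hf.hA
  have hX := hf.hX
  obtain ⟨U, hU, hgood⟩ := good_height hf V hV
  have h1 := explicit_U hf κ w t V U hκ hκ1 ht hV hU hgood
  have hsub : Zf f V ⊆ Zf f U := by
    intro z hz
    rw [mem_Zf hf] at hz ⊢
    exact ⟨hz.1, hz.2.trans hU.1⟩
  have h2 : ‖EE (Zf f U) (fun z => (mult f z : ℂ)) κ w t - EE (Zf f V) (fun z => (mult f z : ℂ)) κ w t‖ ≤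
      2560 * (A ^ 2 * (X + V ^ 2) ^ 2 * V) * ER κ w t V := by
    unfold EE
    rw [← Finset.sum_sdiff hsub, add_sub_cancel_right]
    refine (norm_sum_le _ _).trans ?_
    have h3 : ∀ z ∈ Zf f U \ Zf f V, ‖(mult f z : ℂ) * kk κ w t z‖ ≤ (mult f z : ℝ) * ER κ w t V := by
      intro z hz
      rw [Finset.mem_sdiff, mem_Zf hf, mem_Zf hf] at hz
      obtain ⟨h4, h5⟩ := hf.nz z hz.1.1
      rw [norm_mul, Complex.norm_natCast]
      apply mul_le_mul_of_nonneg_left _ (Nat.cast_nonneg _)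
      apply kk_far κ w t V ht z h4 h5
      by_contra h6
      exact hz.2 ⟨hz.1.1, (not_le.1 h6).le⟩
    refine (Finset.sum_le_sum h3).trans ?_
    rw [← Finset.sum_mul]
    apply mul_le_mul_of_nonneg_right _ (ER_pos _ _ _ _).le
    have h4 : ∑ z ∈ Zf f U \ Zf f V, (mult f z : ℝ) ≤ ∑ z ∈ Zf f U, (mult f z : ℝ) :=
      Finset.sum_le_sum_of_subset_of_nonneg Finset.sdiff_subset fun _ _ _ => Nat.cast_nonneg _
    refine h4.trans ((cnt_tot hf U (by linarith [hU.1])).trans ?_)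
    obtain ⟨q1, q2, q3, q4⟩ := Q_ge hA hX hV
    have hU2 : U ≤ 2 * V := by linarith [hU.2]
    have hU0 : 0 ≤ U := by linarith [hU.1]
    have h6 : X + U ^ 2 ≤ 4 * (X + V ^ 2) := by nlinarith
    have h7 : U * (X + U ^ 2) ≤ 2 * V * (4 * (X + V ^ 2)) := mul_le_mul hU2 h6 (by positivity) (by positivity)
    have h8 := mul_le_mul_of_nonneg_left h7 (by positivity : 0 ≤ 320 * A)
    linarith
  have h3 : EE (Zf f V) (fun z => (mult f z : ℂ)) κ w t - MN ld a κ w t =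
      (EE (Zf f U) (fun z => (mult f z : ℂ)) κ w t - MN ld a κ w t) -
      (EE (Zf f U) (fun z => (mult f z : ℂ)) κ w t - EE (Zf f V) (fun z => (mult f z : ℂ)) κ w t) := by ring
  rw [h3]
  refine (norm_sub_le _ _).trans ?_
  linarith

end Pool.Agent.L5helper10.QV
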