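import Pool.Agent.L5helper10.QV.As6

/-! The main inequality for the variance of primes in progressions to one modulus. -/

set_option autoImplicit false

open Filter Topology Set MeasureTheory
open Pool.Agent.L5helper10.TV

namespace Pool.Agent.L5helper10.QV

lemma final_alg (s W σ v1 T1 X a1 η b2 c a3 b4 : ℝ) (hs : 0 < s) (hs1 : s ≤ 1) (hσ : 0 < σ) (hσ2 : σ ≤ 2) (hπ : Real.pi = σ * σ)
    (hW1 : 2 * Real.pi - s / 4 ≤ W) (hv1 : 0 ≤ v1) (hT1 : 0 ≤ T1) (hX : 0 ≤ X)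
    (ha1 : a1 ≤ s / 2) (hη0 : 0 ≤ η) (hη : η ≤ s) (hb2 : b2 ≤ s / 8) (hc : c ≤ 1 + s / 4)
    (hc0 : 0 ≤ c) (ha3 : a3 ≤ s / 16) (ha30 : 0 ≤ a3) (hb4 : b4 ≤ s / 8)
    (h : v1 ^ 2 * (W / (2 * σ) - a1) ≤ W / σ * ((1 + η) * (v1 / 2 + T1)) + b2 + 2 * σ * c * (X + a3) + b4) :
    v1 ^ 2 * (1 - s) ≤ (1 + s) * (v1 + 2 * T1) + s + 2 * (1 + s) * X := by
  have hp : 3.14 < Real.pi := Real.pi_gt_d2
  have hW0 : 6 < W := by linarith
  have hWpos : 0 < W := by linarith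
  set m : ℝ := 2 * σ / W with hm
  have hm0 : 0 < m := by positivity
  have hm1 : m ≤ 1 := by rw [hm, div_le_one hWpos]; linarith
  have h1 := mul_le_mul_of_nonneg_left h hm0.le
  have e1 : m * (v1 ^ 2 * (W / (2 * σ) - a1)) = v1 ^ 2 - v1 ^ 2 * (m * a1) := by
    rw [hm]; field_simp
  have e2 : m * (W / σ * ((1 + η) * (v1 / 2 + T1)) + b2 + 2 * σ * c * (X + a3) + b4) =
      (1 + η) * (v1 + 2 * T1) + m * b2 + 4 * (σ * σ) / W * c * (X + a3) + m * b4 := by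
    rw [hm]; field_simp; ring
  rw [e1, e2, ← hπ] at h1
  have f1 : m * a1 ≤ s / 2 := by
    rcases le_or_gt 0 a1 with g | g
    · exact (mul_le_of_le_one_left g hm1).trans ha1
    · have := mul_neg_of_pos_of_neg hm0 g
      linarith
  have f2 : m * b2 ≤ s / 8 := by
    rcases le_or_gt 0 b2 with g | g
    · exact (mul_le_of_le_one_left g hm1).trans hb2
    · have := mul_neg_of_pos_of_neg hm0 g
      linarith
  have f4 : m * b4 ≤ s / 8 := by
    rcases le_or_gt 0 b4 with g | g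
    · exact (mul_le_of_le_one_left g hm1).trans hb4
    · have := mul_neg_of_pos_of_neg hm0 g
      linarith
  have g1 : 4 * Real.pi / W ≤ 2 * (1 + s / 4) := by
    rw [div_le_iff₀ hWpos]
    have g2 : 2 * (1 + s / 4) * (2 * Real.pi - s / 4) ≤ 2 * (1 + s / 4) * W := mul_le_mul_of_nonneg_left hW1 (by positivity)
    have g3 : 2 * (1 + s / 4) * (2 * Real.pi - s / 4) = 4 * Real.pi + s * Real.pi - s / 2 - s * s / 8 := by ring
    have g4 : s * 3.14 ≤ s * Real.pi := mul_le_mul_of_nonneg_left hp.le hs.le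
    have g5 : s * s ≤ s * 1 := mul_le_mul_of_nonneg_left hs1 hs.le
    linarith
  have g3 : 4 * Real.pi / W * c ≤ 2 * (1 + s) := by
    have g4 : 4 * Real.pi / W * c ≤ 2 * (1 + s / 4) * (1 + s / 4) := mul_le_mul g1 hc hc0 (by positivity)
    have g5 : 2 * (1 + s / 4) * (1 + s / 4) = 2 + s + s * s / 8 := by ring
    have g6 : s * s ≤ s * 1 := mul_le_mul_of_nonneg_left hs1 hs.le
    linarith
  have g5 : 4 * Real.pi / W * c * (X + a3) ≤ 2 * (1 + s) * (X + s / 16) :=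
    mul_le_mul g3 (by linarith) (by positivity) (by positivity)
  have g6 : (1 + η) * (v1 + 2 * T1) ≤ (1 + s) * (v1 + 2 * T1) := mul_le_mul_of_nonneg_right (by linarith) (by positivity)
  have g7 : v1 ^ 2 * (m * a1) ≤ v1 ^ 2 * (s / 2) := mul_le_mul_of_nonneg_left f1 (sq_nonneg _)
  have g8 : 0 ≤ v1 ^ 2 * s := by positivity
  have e3 : v1 ^ 2 * (1 - s) = v1 ^ 2 - v1 ^ 2 * s := by ring
  have e4 : 2 * (1 + s) * (X + s / 16) = 2 * (1 + s) * X + (1 + s) * s / 8 := by ring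
  have e5 : (1 + s) * s ≤ 2 * s := mul_le_mul_of_nonneg_right (by linarith) hs.le
  have e6 : v1 ^ 2 * (s / 2) = v1 ^ 2 * s / 2 := by ring
  rw [e4] at g5
  rw [e6] at g7
  rw [e3]
  linarith

open Classical in
lemma Gd_ne {q : ℕ} [NeZero q] {ε2 V : ℝ} {χ : DirichletCharacter ℂ q} (h : χ ∈ Gd q ε2 V) : χ ≠ 1 := by
  unfold Gd at h
  rw [Finset.mem_filter] at h
  exact h.2.1

/-- the main inequality -/
theorem qv_main (S : Set ℝ) (hS : MeasurableSet S) (ℓ : ℝ) (hℓ : 1 ≤ ℓ) (hSℓ : S ⊆ Icc 0 ℓ) (ω : ℝ → ℝ) (hω : Measurable ω)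
    (hω0 : ∀ x, 0 ≤ ω x) (B : ℝ) (hωB : ∀ x, ω x ≤ B) (hωℓ : ∀ x, ℓ < x → ω x = 0) (δ0 : ℝ) (hδ0 : 0 < δ0)
    (hsh0 : ∀ α β, 0 ≤ α → |α - β| ≤ δ0 → GG S α ≤ ω β) (ε : ℝ) (hε : 0 < ε) :
    ∀ᶠ q : ℕ in atTop, (volume S).toReal ^ 2 ≤
      (volume S).toReal + 2 * (∫ x in Ioc 0 1, GG S x * x) + 2 * (∫ α in Ioc 1 ℓ, ω α * Rq q α) + ε := by
  have hSf : volume S < ⊤ := (measure_mono hSℓ).trans_lt (by simp)
  set v1 : ℝ := (volume S).toReal with hv1
  have hv10 : 0 ≤ v1 := ENNReal.toReal_nonneg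
  have hv1ℓ : v1 ≤ ℓ := by
    have h1 : volume S ≤ volume (Icc 0 ℓ) := measure_mono hSℓ
    have h2 := ENNReal.toReal_mono (by simp) h1
    rw [Real.volume_Icc, sub_zero, ENNReal.toReal_ofReal (by linarith)] at h2
    exact h2
  set T1 : ℝ := ∫ x in Ioc 0 1, GG S x * x with hT1
  have hT10 : 0 ≤ T1 := setIntegral_nonneg measurableSet_Ioc fun x hx => mul_nonneg (GG_nn S x) hx.1.le
  have hT1v : T1 ≤ v1 / 2 := by
    have i1 : IntegrableOn (fun x => GG S x * x) (Ioc 0 1) :=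
      GG_mul_intOn S hS hSf _ 0 1 (continuous_id.continuousOn.integrableOn_Icc.mono_set Ioc_subset_Icc_self)
    have i2 : IntegrableOn (fun x : ℝ => v1 * x) (Ioc 0 1) :=
      (continuous_id.const_mul v1).continuousOn.integrableOn_Icc.mono_set Ioc_subset_Icc_self
    have h1 : T1 ≤ ∫ x in Ioc (0 : ℝ) 1, v1 * x := by
      apply setIntegral_mono_on i1 i2 measurableSet_Ioc
      intro x hx
      exact GG_mul_le S hSf x x hx.1.le
    refine h1.trans (le_of_eq ?_)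
    rw [integral_const_mul, ← intervalIntegral.integral_of_le zero_le_one, integral_id]
    ring
  have hB0 : 0 ≤ B := (hω0 0).trans (hωB 0)
  have hKc := Kc_pos
  -- the parameters
  set s : ℝ := min 1 (ε / (2 * ℓ ^ 2 + 2 * ℓ + 1)) with hs
  have hs0 : 0 < s := by positivity
  have hs1 : s ≤ 1 := min_le_left _ _
  have hsε : s * (2 * ℓ ^ 2 + 2 * ℓ + 1) ≤ ε := by
    have := min_le_right 1 (ε / (2 * ℓ ^ 2 + 2 * ℓ + 1))
    rw [← hs, le_div_iff₀ (by positivity)] at this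
    exact this
  set δ : ℝ := min δ0 (min (1 / 2) (s / (32 * Kc * B + 32))) with hδ
  have hδ00 : 0 < δ := by positivity
  have hδδ0 : δ ≤ δ0 := min_le_left _ _
  have hδ2 : δ ≤ 1 / 2 := (min_le_right _ _).trans (min_le_left _ _)
  have hδ3 : 2 * δ * Kc * B ≤ s / 16 := by
    have h1 : δ ≤ s / (32 * Kc * B + 32) := (min_le_right _ _).trans (min_le_right _ _)
    rw [le_div_iff₀ (by positivity)] at h1
    have h2 : δ * (32 * Kc * B + 32) = 16 * (2 * δ * Kc * B) + 32 * δ := by ring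
    linarith
  have hsh : ∀ α β, 0 ≤ α → |α - β| ≤ δ → GG S α ≤ ω β := fun α β h1 h2 => hsh0 α β h1 (h2.trans hδδ0)
  set κ0 : ℝ := max 2 ((4 * ℓ + 8) / δ) with hκ0d
  have hκ0 : 2 ≤ κ0 := le_max_left _ _
  have hκ00 : 0 < κ0 := by linarith
  have hκδ : 4 * ℓ + 8 ≤ κ0 ^ 2 * δ ^ 2 := by
    have h1 : (4 * ℓ + 8) / δ ≤ κ0 := le_max_right _ _
    rw [div_le_iff₀ hδ00] at h1
    have h2 := pow_le_pow_left₀ (by positivity) h1 2
    rw [mul_pow] at h2
    exact (le_self_pow₀ (by linarith) two_ne_zero).trans h2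
  obtain ⟨D, n, a, w, hD0, ha0, han, ha, hw, hw4, hwt, hW1, hW2⟩ := blocks_ex (s / 4) (by positivity)
  set W : ℝ := ∑ j ∈ Finset.range n, w j * (a (j + 1) - a j) with hW
  have hmono : Monotone a := monotone_nat_of_le_succ ha
  set η : ℝ := s / (16 * κ0 * ℓ * (1 + ℓ)) with hη
  have hη0 : 0 < η := by positivity
  have hη64 : η ≤ s / 64 := by
    rw [hη]
    apply div_le_div_of_nonneg_left hs0.le (by norm_num)
    have h1 : 2 * 1 ≤ κ0 * ℓ := mul_le_mul hκ0 hℓ zero_le_one hκ00.le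
    have h2 : 2 * 2 ≤ (κ0 * ℓ) * (1 + ℓ) := mul_le_mul (by linarith) (by linarith) (by norm_num) (by positivity)
    linarith
  set η1 : ℝ := s / 16 with hη1
  have hη10 : 0 < η1 := by positivity
  set r : ℝ := s / (64 * (n + 1)) with hr
  have hn0 : (0 : ℝ) ≤ n := Nat.cast_nonneg n
  have hr0 : 0 < r := by positivity
  have hr1 : r ≤ 1 := by
    rw [hr, div_le_one (by positivity)]
    linarith
  have hnr : n * r ≤ s / 64 := by
    have e : n * r = s / 64 * (n / (n + 1)) := by rw [hr]; field_simp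
    rw [e]
    have h1 : (n : ℝ) / (n + 1) ≤ 1 := by rw [div_le_one (by positivity)]; linarith
    exact mul_le_of_le_one_right (by positivity) h1
  obtain ⟨e0a, he0a, hblk⟩ := blk_err ℓ D r κ0 (by linarith) hr0 hκ00
  obtain ⟨e0b, he0b, hcnt⟩ := count_sum D r r hD0 hr0 hr1 hr0
  set ε2 : ℝ := min (min e0a e0b) (s / 32) with hε2
  have hε20 : 0 < ε2 := by positivity
  have hε2a : ε2 ≤ e0a := (min_le_left _ _).trans (min_le_left _ _)
  have hε2b : ε2 ≤ e0b := (min_le_left _ _).trans (min_le_right _ _)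
  have hε2s : ε2 ≤ s / 32 := min_le_right _ _
  have hε2h : ε2 ≤ 1 / 2 := by linarith
  have hBE : BE ℓ D r κ0 ε2 := hblk ε2 hε20.le hε2a
  have ev1 := lem_A hBE hκ0 hℓ δ hδ00 (by linarith) (by linarith) η hη0 (by linarith)
  have ev2 := lem_B hBE hκ0 δ hδ2 η hη0 (by linarith)
  have ev3 := trace_low hBE hκ0 (by linarith) hε20 hε2h (s / 64) (by positivity) (by linarith)
  have ev4 := hcnt ε2 hε20.le hε2b
  have ev5 : ∀ᶠ L : ℝ in atTop, 1 ≤ L ∧ (1 + 1 / η1) * (8 * κ0 ^ 2) / (s / 16) ≤ L ∧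
      15 * ℓ * B * Kc ^ 2 * L ^ 2 * Real.exp (-(1 * L)) ≤ s / 8 := by
    filter_upwards [eventually_ge_atTop 1, eventually_ge_atTop ((1 + 1 / η1) * (8 * κ0 ^ 2) / (s / 16)),
      pe (15 * ℓ * B * Kc ^ 2) 1 one_pos 2 (s / 8) (by positivity)] with L g1 g2 g3
    exact ⟨g1, g2, g3⟩
  filter_upwards [ev1, ev2, ev3, ev4, log_tend.eventually ev5, eventually_ge_atTop 2] with q h1 h2 h3 h4 h5 hq
  have : NeZero q := ⟨by omega⟩
  have h1' := @h1 _
  have h2' := @h2 _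
  have h3' := @h3 _
  have h4' := @h4 _
  obtain ⟨hL1, hLκ, hE⟩ := h5
  have hX0 : 0 ≤ ∫ α in Ioc 1 ℓ, ω α * Rq q α :=
    setIntegral_nonneg measurableSet_Ioc fun x _ => mul_nonneg (hω0 x) (Rq_nonneg q x)
  set Gs := Gd q ε2 (Real.sqrt (Real.log q)) with hGs
  have hGne : ∀ χ ∈ Gs, χ ≠ 1 := fun χ hχ => Gd_ne hχ
  have hDj : ∀ j ∈ Finset.range n, -D ≤ a j ∧ a (j + 1) ≤ D := by
    intro j hj
    rw [Finset.mem_range] at hj
    constructor
    · rw [← ha0]; exact hmono (Nat.zero_le j)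
    · rw [← han]; exact hmono hj
  have hrhs := rhs_up hq hL1 Gs n a w ha hw hwt S hS ω hω hω0 B ℓ δ hωB hωℓ hSℓ hℓ hδ00 hδ2 hsh κ0 hκ0 hκδ r η η1 hη0.le hη10
    (fun u hu1 hu2 j hj t ht => h1' (a j) (a (j + 1)) u t (hDj j hj).1 (hDj j hj).2 ht.1 ht.2 hu1 hu2)
    (fun u hu1 hu2 j hj t ht => h2' (a j) (a (j + 1)) u t (hDj j hj).1 (hDj j hj).2 ht.1 ht.2 hu1 hu2)
  rw [← hW, ← hv1, ← hT1] at hrhs
  set L := Real.log q with hL
  have hL0 : 0 < L := by linarith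
  obtain ⟨k1, k2, k3, k4, k5⟩ := kap (L := L) (κ0 := κ0) (by linarith) hL1
  set κ := κ0 / Real.sqrt L with hκ
  have hcore := core Gs hGne n a w ha hw r κ k1 (SL S L) (SL_meas S hS L) (ℓ * L) (by positivity) (SL_sub S L ℓ hL0 hSℓ)
  rw [SL_vol S L hL0, ← hv1] at hcore
  have hφ0 : 0 < (q.totient : ℝ) := by exact_mod_cast Nat.totient_pos.2 (by omega)
  set φ : ℝ := (q.totient : ℝ) with hφ
  have hlhs := lhs_low n a w (fun j => ∑ χ ∈ Gs, (∫ t in (a j)..(a (j + 1)), Eb χ r (a j) (a (j + 1)) κ 0 t).re)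
    (fun j => ∑ χ ∈ Gs, ((Pz (Lc χ) (Real.sqrt L) (a j - r) (a (j + 1) + r)).card : ℝ)) ha hw hw4 κ φ L ε2 (s / 64) r r
    k1 hφ0.le hL0.le hr0.le hr0.le
    (fun j hj => h3' (a j) (a (j + 1)) (hDj j hj).1 (hDj j hj).2 (ha j))
    (fun j hj => h4' (a j) (a (j + 1)) (hDj j hj).1 (hDj j hj).2 (ha j))
  rw [← hW] at hlhs
  have hσ0 := sqrt_pi_pos
  have hσ2 := sqrt_pi_le
  set σ := Real.sqrt Real.pi with hσ
  have hπ : Real.pi = σ * σ := pi_eq
  set a1 : ℝ := W * (ε2 + s / 64) / σ + 4 * n * (σ * (2 * r / Real.pi + r)) with ha1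
  set X : ℝ := ∫ α in Ioc 1 ℓ, ω α * Rq q α with hX
  set c : ℝ := (1 + η) * ((1 + η1) + (1 + 1 / η1) * (8 * κ ^ 2)) with hc
  have hp : 3 < Real.pi := Real.pi_gt_three
  have hκ2 : (1 + 1 / η1) * (8 * κ ^ 2) ≤ s / 16 := by
    rw [div_le_iff₀ (by positivity)] at hLκ
    rw [k2]
    have e : (1 + 1 / η1) * (8 * (κ0 ^ 2 / L)) = ((1 + 1 / η1) * (8 * κ0 ^ 2)) / L := by ring
    rw [e, div_le_iff₀ hL0]
    linarith
  have hc1 : c ≤ 1 + s / 4 := by
    have h6 : c ≤ (1 + s / 64) * (1 + s / 16 + s / 16) := by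
      rw [hc]
      apply mul_le_mul (by linarith) (by linarith) (by positivity) (by positivity)
    have h7 : (1 + s / 64) * (1 + s / 16 + s / 16) = 1 + s / 8 + s / 64 + s * s / 512 := by ring
    have h8 : s * s ≤ s * 1 := mul_le_mul_of_nonneg_left hs1 hs0.le
    linarith
  have hc0 : 0 ≤ c := by positivity
  have ha1s : a1 ≤ s / 2 := by
    have g1 : W * (ε2 + s / 64) / σ ≤ s / 4 := by
      have g2 : W / σ ≤ 4 := by
        rw [div_le_iff₀ hσ0]
        calc W ≤ 2 * Real.pi := hW2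
          _ = 2 * σ * σ := by rw [hπ]; ring
          _ ≤ 2 * 2 * σ := by
            apply mul_le_mul_of_nonneg_right _ hσ0.le
            linarith
          _ = 4 * σ := by ring
      have g3 : W * (ε2 + s / 64) / σ = W / σ * (ε2 + s / 64) := by ring
      rw [g3]
      have g4 := mul_le_mul_of_nonneg_right g2 (by positivity : 0 ≤ ε2 + s / 64)
      linarith
    have g2 : 4 * n * (σ * (2 * r / Real.pi + r)) ≤ s / 4 := by
      have g3 : 2 * r / Real.pi ≤ r := by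
        rw [div_le_iff₀ (by linarith)]
        have := mul_le_mul_of_nonneg_left hp.le hr0.le
        linarith
      have g4 : σ * (2 * r / Real.pi + r) ≤ 2 * (2 * r) := mul_le_mul hσ2 (by linarith) (by positivity) (by norm_num)
      have g5 := mul_le_mul_of_nonneg_left g4 (by positivity : (0 : ℝ) ≤ 4 * n)
      linarith
    rw [ha1]
    linarith
  have hb2 : κ0 * W * η * v1 * (1 + ℓ) / Real.pi ≤ s / 8 := by
    have g1 : κ0 * W * η * v1 * (1 + ℓ) / Real.pi ≤ κ0 * (2 * Real.pi) * η * ℓ * (1 + ℓ) / Real.pi := by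
      apply div_le_div_of_nonneg_right _ Real.pi_pos.le
      apply mul_le_mul_of_nonneg_right _ (by positivity)
      apply mul_le_mul _ hv1ℓ hv10 (by positivity)
      apply mul_le_mul_of_nonneg_right _ hη0.le
      exact mul_le_mul_of_nonneg_left hW2 hκ00.le
    refine g1.trans (le_of_eq ?_)
    rw [hη]
    field_simp
    norm_num
  set E : ℝ := 5 * ℓ * B * Kc ^ 2 * L ^ 2 * Real.exp (-(1 * L)) with hEd
  have hE0 : 0 ≤ E := by positivity
  have hEs : 2 * (1 + η) * ((1 + η1) + (1 + 1 / η1) * (4 * κ ^ 2)) * E ≤ s / 8 := by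
    have g1 : 2 * (1 + η) * ((1 + η1) + (1 + 1 / η1) * (4 * κ ^ 2)) ≤ 2 * c := by
      rw [hc, mul_assoc]
      apply mul_le_mul_of_nonneg_left _ (by norm_num)
      apply mul_le_mul_of_nonneg_left _ (by positivity)
      have : (1 + 1 / η1) * (4 * κ ^ 2) ≤ (1 + 1 / η1) * (8 * κ ^ 2) := by
        apply mul_le_mul_of_nonneg_left _ (by positivity)
        have := sq_nonneg κ
        linarith
      linarith
    have g2 : 2 * c ≤ 3 := by linarith
    have g3 := mul_le_mul_of_nonneg_right (g1.trans g2) hE0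
    have g4 : 3 * E ≤ s / 8 := by
      rw [hEd]
      linarith
    linarith
  have hkey : v1 ^ 2 * (W / (2 * σ) - a1) ≤ W / σ * ((1 + η) * (v1 / 2 + T1)) + κ0 * W * η * v1 * (1 + ℓ) / Real.pi +
      2 * σ * c * (X + 2 * δ * Kc * B) + s / 8 := by
    have hpos : 0 < κ * φ * L ^ 3 := by positivity
    refine le_of_mul_le_mul_left ?_ hpos
    have g1 := mul_le_mul_of_nonneg_left hlhs (sq_nonneg (L * v1))
    have g2 : (L * v1) ^ 2 * (κ * φ * L * (W / (2 * σ) - a1)) = κ * φ * L ^ 3 * (v1 ^ 2 * (W / (2 * σ) - a1)) := by ring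
    rw [g2] at g1
    refine g1.trans (hcore.trans (hrhs.trans ?_))
    have g3 : κ * φ * (2 * (1 + η) * ((1 + η1) + (1 + 1 / η1) * (4 * κ ^ 2)) * E) ≤ κ * φ * L ^ 3 * (s / 8) := by
      have g4 : (1 : ℝ) ≤ L ^ 3 := one_le_pow₀ hL1
      have g5 := mul_le_mul_of_nonneg_left hEs (by positivity : 0 ≤ κ * φ)
      have g6 : κ * φ * (s / 8) ≤ κ * φ * (s / 8) * L ^ 3 := le_mul_of_one_le_right (by positivity) g4
      linarith
    have g4 : κ * φ * L ^ 3 * (W / σ * ((1 + η) * (v1 / 2 + T1)) + κ0 * W * η * v1 * (1 + ℓ) / Real.pi +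
      2 * σ * c * (X + 2 * δ * Kc * B) + s / 8) = κ * φ * L ^ 3 * (W / σ * ((1 + η) * (v1 / 2 + T1)) + κ0 * W * η * v1 * (1 + ℓ) / Real.pi +
      2 * σ * c * (X + 2 * δ * Kc * B)) + κ * φ * L ^ 3 * (s / 8) := by ring
    rw [g4]
    linarith
  have hfin := final_alg s W σ v1 T1 X a1 η _ c (2 * δ * Kc * B) (s / 8) hs0 hs1 hσ0 hσ2 hπ hW1 hv10 hT10 hX0 ha1s hη0.le
    (by linarith) hb2 hc1 hc0 hδ3 (by positivity) le_rfl hkey
  rcases le_or_gt (v1 ^ 2) (2 * X) with hcase | hcase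
  · linarith
  · have hv2 : v1 ^ 2 ≤ ℓ ^ 2 := pow_le_pow_left₀ hv10 hv1ℓ 2
    have g1 : s * (v1 ^ 2 + (v1 + 2 * T1) + 1 + 2 * X) ≤ s * (2 * ℓ ^ 2 + 2 * ℓ + 1) := by
      apply mul_le_mul_of_nonneg_left _ hs0.le
      linarith
    have g2 : v1 ^ 2 * (1 - s) = v1 ^ 2 - s * v1 ^ 2 := by ring
    have g3 : (1 + s) * (v1 + 2 * T1) + s + 2 * (1 + s) * X = v1 + 2 * T1 + 2 * X + s * ((v1 + 2 * T1) + 1 + 2 * X) := by ring
    have g4 : s * (v1 ^ 2 + (v1 + 2 * T1) + 1 + 2 * X) = s * v1 ^ 2 + s * ((v1 + 2 * T1) + 1 + 2 * X) := by ring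
    rw [g2, g3] at hfin
    rw [g4] at g1
    linarith

end Pool.Agent.L5helper10.QV
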