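import Pool.Agent.H370R2.NT

/-! Smoothed sums over prime powers, from the theorem of Mertens. -/

set_option autoImplicit false

open Filter Topology Set MeasureTheory Finset
open ArithmeticFunction (vonMangoldt vonMangoldt_nonneg vonMangoldt_le_log)

namespace Pool.Agent.L5helper10.QV

open Classical in
/-- mass of a window -/
lemma win_mass (q : ℕ) (a b : ℝ) (hab : a ≤ b) :
    ∑ n ∈ (Finset.Ioc 0 q).filter (fun n : ℕ => a ≤ Real.log n ∧ Real.log n ≤ b), vonMangoldt n / n ≤ (b - a) + 10 := by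
  rcases lt_or_ge b 0 with hb | hb
  · rw [Finset.sum_eq_zero]
    · linarith
    · intro n hn
      rw [Finset.mem_filter, Finset.mem_Ioc] at hn
      have : 0 ≤ Real.log n := Real.log_natCast_nonneg n
      linarith [hn.2.2]
  set N2 : ℕ := ⌊Real.exp b⌋₊ with hN2
  have hN2' : 1 ≤ N2 := by
    rw [hN2, Nat.one_le_floor_iff]
    exact Real.one_le_exp hb
  have hsub2 : (Finset.Ioc 0 q).filter (fun n : ℕ => a ≤ Real.log n ∧ Real.log n ≤ b) ⊆ Finset.Icc 1 N2 := by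
    intro n hn
    rw [Finset.mem_filter, Finset.mem_Ioc] at hn
    rw [Finset.mem_Icc]
    refine ⟨hn.1.1, ?_⟩
    apply Nat.le_floor
    rw [← Real.log_le_iff_le_exp (by exact_mod_cast hn.1.1)]
    exact hn.2.2
  have hnn : ∀ n : ℕ, 0 ≤ vonMangoldt n / (n : ℝ) := fun n => div_nonneg vonMangoldt_nonneg (Nat.cast_nonneg _)
  have hup : ∑ n ∈ Finset.Icc 1 N2, vonMangoldt n / n ≤ b + 6 := by
    refine (H370.nt_mertens_upper N2 hN2').trans ?_
    have : Real.log N2 ≤ b := by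
      rw [Real.log_le_iff_le_exp (by exact_mod_cast hN2')]
      exact Nat.floor_le (Real.exp_pos b).le
    linarith
  rcases le_or_gt a 1 with ha | ha
  · have := Finset.sum_le_sum_of_subset_of_nonneg hsub2 (f := fun n : ℕ => vonMangoldt n / (n : ℝ)) fun n _ _ => hnn n
    linarith
  · set N1 : ℕ := ⌈Real.exp a⌉₊ - 1 with hN1
    have hea : 2 ≤ Real.exp a := by
      have := Real.add_one_le_exp a
      linarith
    have hceil : 2 ≤ ⌈Real.exp a⌉₊ := by
      have h1 := Nat.le_ceil (Real.exp a)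
      have h2 : (2 : ℝ) ≤ ⌈Real.exp a⌉₊ := hea.trans h1
      exact_mod_cast h2
    have hN1' : 1 ≤ N1 := by omega
    have hN1r : Real.exp a - 1 ≤ N1 := by
      rw [hN1, Nat.cast_sub (by omega)]
      have := Nat.le_ceil (Real.exp a)
      push_cast
      linarith
    have hlow : a - 2 ≤ ∑ n ∈ Finset.Icc 1 N1, vonMangoldt n / n := by
      refine le_trans ?_ (H370.nt_mertens_lower N1 hN1')
      have h1 : a - 1 ≤ Real.log N1 := by
        rw [Real.le_log_iff_exp_le (by exact_mod_cast hN1')]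
        refine le_trans ?_ hN1r
        have h2 : Real.exp (a - 1) * Real.exp 1 = Real.exp a := by rw [← Real.exp_add]; congr 1; ring
        have h3 := Real.exp_one_gt_d9
        have h4 : 0 < Real.exp (a - 1) := Real.exp_pos _
        nlinarith
      linarith
    have hdisj : Disjoint (Finset.Icc 1 N1)
        ((Finset.Ioc 0 q).filter (fun n : ℕ => a ≤ Real.log n ∧ Real.log n ≤ b)) := by
      rw [Finset.disjoint_left]
      intro n hn hn2
      rw [Finset.mem_Icc] at hn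
      rw [Finset.mem_filter, Finset.mem_Ioc] at hn2
      have h1 : Real.exp a ≤ n := by
        rw [← Real.le_log_iff_exp_le (by exact_mod_cast hn2.1.1)]
        exact hn2.2.1
      have h2 : ⌈Real.exp a⌉₊ ≤ n := Nat.ceil_le.2 h1
      omega
    have hsub : Finset.Icc 1 N1 ∪ ((Finset.Ioc 0 q).filter (fun n : ℕ => a ≤ Real.log n ∧ Real.log n ≤ b)) ⊆
        Finset.Icc 1 N2 := by
      apply Finset.union_subset _ hsub2
      apply Finset.Icc_subset_Icc_right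
      have h1 : (N1 : ℝ) ≤ Real.exp b := by
        have h2 : (⌈Real.exp a⌉₊ : ℝ) < Real.exp a + 1 := Nat.ceil_lt_add_one (Real.exp_pos a).le
        have h3 : Real.exp a ≤ Real.exp b := Real.exp_le_exp.2 hab
        have h4 : (N1 : ℝ) = ⌈Real.exp a⌉₊ - 1 := by
          rw [hN1, Nat.cast_sub (by omega)]; push_cast; ring
        linarith
      exact Nat.le_floor h1
    have h5 := Finset.sum_le_sum_of_subset_of_nonneg hsub (f := fun n : ℕ => vonMangoldt n / (n : ℝ)) fun n _ _ => hnn n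
    rw [Finset.sum_union hdisj] at h5
    linarith

/-- layers of the Gaussian -/
lemma layer (κ w : ℝ) (hκ : 0 < κ) : IntegrableOn (fun r : ℝ => 2 * κ ^ 2 * r * Real.exp (-(κ ^ 2 * r ^ 2))) (Ioi |w|) ∧
    ∫ r in Ioi |w|, 2 * κ ^ 2 * r * Real.exp (-(κ ^ 2 * r ^ 2)) = Real.exp (-(κ ^ 2 * w ^ 2)) := by
  have hd : ∀ x : ℝ, HasDerivAt (fun r : ℝ => -Real.exp (-(κ ^ 2 * r ^ 2))) (2 * κ ^ 2 * x * Real.exp (-(κ ^ 2 * x ^ 2))) x := by
    intro x
    have h1 : HasDerivAt (fun r : ℝ => -(κ ^ 2 * r ^ 2)) (-(κ ^ 2 * (2 * x))) x := by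
      have := ((hasDerivAt_pow 2 x).const_mul (κ ^ 2)).fun_neg
      simpa using this
    have h2 := h1.exp.fun_neg
    refine h2.congr_deriv ?_
    ring
  have ht : Tendsto (fun r : ℝ => -Real.exp (-(κ ^ 2 * r ^ 2))) atTop (𝓝 0) := by
    have h1 : Tendsto (fun r : ℝ => κ ^ 2 * r ^ 2) atTop atTop :=
      (tendsto_pow_atTop two_ne_zero).const_mul_atTop (by positivity)
    have h2 := (Real.tendsto_exp_neg_atTop_nhds_zero.comp h1).neg
    simpa using h2
  have hpos : ∀ x ∈ Ioi |w|, 0 ≤ 2 * κ ^ 2 * x * Real.exp (-(κ ^ 2 * x ^ 2)) := by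
    intro x hx
    have : 0 ≤ x := (abs_nonneg w).trans hx.le
    positivity
  refine ⟨integrableOn_Ioi_deriv_of_nonneg (hd _).continuousAt.continuousWithinAt (fun x _ => hd x) hpos ht, ?_⟩
  rw [integral_Ioi_of_hasDerivAt_of_nonneg (hd _).continuousAt.continuousWithinAt (fun x _ => hd x) hpos ht]
  rw [sq_abs]
  ring

/-- moments -/
lemma moments (κ : ℝ) (hκ : 0 < κ) :
    (IntegrableOn (fun r : ℝ => r * Real.exp (-(κ ^ 2 * r ^ 2))) (Ioi 0) ∧
      ∫ r in Ioi (0 : ℝ), r * Real.exp (-(κ ^ 2 * r ^ 2)) = 1 / (2 * κ ^ 2)) ∧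
    (IntegrableOn (fun r : ℝ => r ^ 2 * Real.exp (-(κ ^ 2 * r ^ 2))) (Ioi 0) ∧
      ∫ r in Ioi (0 : ℝ), r ^ 2 * Real.exp (-(κ ^ 2 * r ^ 2)) = Real.sqrt Real.pi / (4 * κ ^ 3)) ∧
    (IntegrableOn (fun r : ℝ => r ^ 3 * Real.exp (-(κ ^ 2 * r ^ 2))) (Ioi 0) ∧
      ∫ r in Ioi (0 : ℝ), r ^ 3 * Real.exp (-(κ ^ 2 * r ^ 2)) = 1 / (2 * κ ^ 4)) := by
  have hb : 0 < κ ^ 2 := by positivity
  have hint : ∀ s : ℝ, -1 < s → IntegrableOn (fun x : ℝ => x ^ s * Real.exp (-κ ^ 2 * x ^ (2 : ℝ))) (Ioi 0) := by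
    intro s hs
    have := integrableOn_rpow_mul_exp_neg_mul_rpow hs (by norm_num : (0 : ℝ) < 2) hb
    simpa using this
  have key : ∀ k : ℕ, 1 ≤ k → (IntegrableOn (fun r : ℝ => r ^ k * Real.exp (-(κ ^ 2 * r ^ 2))) (Ioi 0) ∧
      ∫ r in Ioi (0 : ℝ), r ^ k * Real.exp (-(κ ^ 2 * r ^ 2)) =
        (κ ^ 2) ^ (-((k : ℝ) + 1) / 2) * (1 / 2) * Real.Gamma (((k : ℝ) + 1) / 2)) := by
    intro k hk
    have e : ∀ x ∈ Ioi (0 : ℝ), x ^ (k : ℝ) * Real.exp (-κ ^ 2 * x ^ (2 : ℝ)) = x ^ k * Real.exp (-(κ ^ 2 * x ^ 2)) := by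
      intro x hx
      rw [Real.rpow_natCast]
      congr 2
      rw [show (2 : ℝ) = ((2 : ℕ) : ℝ) by norm_num, Real.rpow_natCast]
      push_cast; ring
    have hk' : (-1 : ℝ) < k := by
      have : (0 : ℝ) ≤ k := Nat.cast_nonneg k
      linarith
    refine ⟨(hint k hk').congr_fun e measurableSet_Ioi, ?_⟩
    rw [← integral_rpow_mul_exp_neg_mul_rpow (by norm_num : (0 : ℝ) < 2) hk' hb]
    apply setIntegral_congr_fun measurableSet_Ioi
    intro x hx
    exact (e x hx).symm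
  have g1 : Real.Gamma 1 = 1 := Real.Gamma_one
  have g2 : Real.Gamma 2 = 1 := Real.Gamma_two
  have g3 : Real.Gamma (3 / 2) = Real.sqrt Real.pi / 2 := by
    rw [show (3 : ℝ) / 2 = 1 / 2 + 1 by norm_num, Real.Gamma_add_one (by norm_num), Real.Gamma_one_half_eq]
    ring
  have hp : ∀ m : ℕ, (κ ^ 2) ^ (-(m : ℝ) / 2) = 1 / κ ^ m := by
    intro m
    rw [show (κ ^ 2) = κ ^ (2 : ℝ) by rw [show (2 : ℝ) = ((2 : ℕ) : ℝ) by norm_num, Real.rpow_natCast],
      ← Real.rpow_mul hκ.le, show (2 : ℝ) * (-(m : ℝ) / 2) = -(m : ℝ) by ring, Real.rpow_neg hκ.le, Real.rpow_natCast,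
      one_div]
  refine ⟨?_, ?_, ?_⟩
  · obtain ⟨h1, h2⟩ := key 1 le_rfl
    simp only [pow_one] at h1 h2
    refine ⟨h1, ?_⟩
    rw [h2]
    have e : ((1 : ℕ) : ℝ) + 1 = ((2 : ℕ) : ℝ) := by norm_num
    rw [e, hp 2]
    norm_num
  · obtain ⟨h1, h2⟩ := key 2 (by norm_num)
    refine ⟨h1, ?_⟩
    rw [h2]
    have e : ((2 : ℕ) : ℝ) + 1 = ((3 : ℕ) : ℝ) := by norm_num
    rw [e, hp 3]
    have e2 : ((3 : ℕ) : ℝ) / 2 = 3 / 2 := by norm_num
    rw [e2, g3]
    field_simp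
    norm_num
  · obtain ⟨h1, h2⟩ := key 3 (by norm_num)
    refine ⟨h1, ?_⟩
    rw [h2]
    have e : ((3 : ℕ) : ℝ) + 1 = ((4 : ℕ) : ℝ) := by norm_num
    rw [e, hp 4]
    have e2 : ((4 : ℕ) : ℝ) / 2 = 2 := by norm_num
    rw [e2, g2]
    field_simp

open Classical in
/-- the diagonal sum -/
theorem diag_bd (q : ℕ) (κ u : ℝ) (hκ : 0 < κ) (hu : 0 ≤ u) :
    ∑ n ∈ Finset.Ioc 0 q, vonMangoldt n ^ 2 / n * Real.exp (-(κ ^ 2 * (u - Real.log n) ^ 2)) ≤
      Real.sqrt Real.pi * u / κ + 2 / κ ^ 2 + 10 * u + 10 / κ := by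
  obtain ⟨⟨i1, v1⟩, ⟨i2, v2⟩, ⟨i3, v3⟩⟩ := moments κ hκ
  set g : ℝ → ℝ := fun r => 2 * κ ^ 2 * r * Real.exp (-(κ ^ 2 * r ^ 2)) with hg
  have hg0 : ∀ r : ℝ, 0 ≤ r → 0 ≤ g r := by
    intro r hr
    rw [hg]; positivity
  -- each term as an integral over `(0, ∞)`
  have hterm : ∀ n ∈ Finset.Ioc 0 q, vonMangoldt n ^ 2 / n * Real.exp (-(κ ^ 2 * (u - Real.log n) ^ 2)) =
      ∫ r in Ioi (0 : ℝ), vonMangoldt n ^ 2 / n * (Ioi |u - Real.log n|).indicator g r := by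
    intro n _
    rw [integral_const_mul, setIntegral_indicator measurableSet_Ioi]
    congr 1
    have e : Ioi (0 : ℝ) ∩ Ioi |u - Real.log n| = Ioi |u - Real.log n| := by
      rw [Ioi_inter_Ioi, sup_eq_right.2 (abs_nonneg _)]
    rw [e, (layer κ _ hκ).2]
  have hintn : ∀ n ∈ Finset.Ioc 0 q, IntegrableOn (fun r : ℝ => vonMangoldt n ^ 2 / n *
      (Ioi |u - Real.log n|).indicator g r) (Ioi 0) := by
    intro n _
    apply Integrable.const_mul
    have h1 : Integrable ((Ioi |u - Real.log n|).indicator g) :=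
      (layer κ _ hκ).1.integrable_indicator measurableSet_Ioi
    exact h1.integrableOn
  rw [Finset.sum_congr rfl hterm, ← integral_finsetSum _ hintn]
  -- the majorant
  have hmaj : ∀ r ∈ Ioi (0 : ℝ), ∑ n ∈ Finset.Ioc 0 q, vonMangoldt n ^ 2 / n * (Ioi |u - Real.log n|).indicator g r ≤
      (4 * κ ^ 2 * u + 20 * κ ^ 2) * (r ^ 2 * Real.exp (-(κ ^ 2 * r ^ 2))) +
      4 * κ ^ 2 * (r ^ 3 * Real.exp (-(κ ^ 2 * r ^ 2))) + 20 * κ ^ 2 * u * (r * Real.exp (-(κ ^ 2 * r ^ 2))) := by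
    intro r hr
    have hr0 : 0 < r := hr
    have h1 : ∑ n ∈ Finset.Ioc 0 q, vonMangoldt n ^ 2 / n * (Ioi |u - Real.log n|).indicator g r ≤
        ∑ n ∈ (Finset.Ioc 0 q).filter (fun n : ℕ => u - r ≤ Real.log n ∧ Real.log n ≤ u + r),
          vonMangoldt n / n * ((u + r) * g r) := by
      rw [Finset.sum_filter]
      apply Finset.sum_le_sum
      intro n hn
      rw [Finset.mem_Ioc] at hn
      by_cases h : |u - Real.log n| < r
      · rw [Set.indicator_of_mem (show r ∈ Ioi |u - Real.log n| from h)]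
        have h2 := abs_lt.1 h
        rw [if_pos ⟨by linarith, by linarith⟩]
        have h3 : vonMangoldt n ≤ u + r := vonMangoldt_le_log.trans (by linarith)
        have h4 : vonMangoldt n ^ 2 / n ≤ vonMangoldt n / n * (u + r) := by
          have : vonMangoldt n ^ 2 / (n : ℝ) = vonMangoldt n / n * vonMangoldt n := by ring
          rw [this]
          exact mul_le_mul_of_nonneg_left h3 (div_nonneg vonMangoldt_nonneg (Nat.cast_nonneg _))
        have h5 := mul_le_mul_of_nonneg_right h4 (hg0 r hr0.le)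
        linarith
      · rw [Set.indicator_of_notMem (show r ∉ Ioi |u - Real.log n| from h), mul_zero]
        split_ifs
        · apply mul_nonneg (div_nonneg vonMangoldt_nonneg (Nat.cast_nonneg _))
          exact mul_nonneg (by linarith) (hg0 r hr0.le)
        · exact le_rfl
    refine h1.trans ?_
    rw [← Finset.sum_mul]
    have h2 := win_mass q (u - r) (u + r) (by linarith)
    have h3 : 0 ≤ (u + r) * g r := mul_nonneg (by linarith) (hg0 r hr0.le)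
    refine (mul_le_mul_of_nonneg_right h2 h3).trans (le_of_eq ?_)
    rw [hg]
    ring
  have j2 := i2.const_mul (4 * κ ^ 2 * u + 20 * κ ^ 2)
  have j3 := i3.const_mul (4 * κ ^ 2)
  have j1 := i1.const_mul (20 * κ ^ 2 * u)
  have j23 : Integrable (fun r : ℝ => (4 * κ ^ 2 * u + 20 * κ ^ 2) * (r ^ 2 * Real.exp (-(κ ^ 2 * r ^ 2))) +
      4 * κ ^ 2 * (r ^ 3 * Real.exp (-(κ ^ 2 * r ^ 2)))) (volume.restrict (Ioi 0)) := j2.add j3
  refine (setIntegral_mono_on (integrable_finsetSum _ hintn) ((j2.add j3).add j1) measurableSet_Ioi hmaj).trans ?_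
  have e : ∫ r in Ioi (0 : ℝ), ((4 * κ ^ 2 * u + 20 * κ ^ 2) * (r ^ 2 * Real.exp (-(κ ^ 2 * r ^ 2))) +
      4 * κ ^ 2 * (r ^ 3 * Real.exp (-(κ ^ 2 * r ^ 2))) + 20 * κ ^ 2 * u * (r * Real.exp (-(κ ^ 2 * r ^ 2)))) =
      (4 * κ ^ 2 * u + 20 * κ ^ 2) * (Real.sqrt Real.pi / (4 * κ ^ 3)) + 4 * κ ^ 2 * (1 / (2 * κ ^ 4)) +
      20 * κ ^ 2 * u * (1 / (2 * κ ^ 2)) := by
    rw [integral_add j23 j1, integral_add j2 j3, integral_const_mul, integral_const_mul, integral_const_mul,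
      v1, v2, v3]
  refine (le_of_eq e).trans ?_
  have hs : Real.sqrt Real.pi ≤ 2 := by
    rw [Real.sqrt_le_left (by norm_num)]
    linarith [Real.pi_le_four]
  have e2 : (4 * κ ^ 2 * u + 20 * κ ^ 2) * (Real.sqrt Real.pi / (4 * κ ^ 3)) + 4 * κ ^ 2 * (1 / (2 * κ ^ 4)) +
      20 * κ ^ 2 * u * (1 / (2 * κ ^ 2)) = Real.sqrt Real.pi * u / κ + 2 / κ ^ 2 + 10 * u + 5 * Real.sqrt Real.pi / κ := by
    field_simp
    ring
  rw [e2]
  have h3 : 5 * Real.sqrt Real.pi / κ ≤ 10 / κ := div_le_div_of_nonneg_right (by linarith) hκ.le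
  linarith

end Pool.Agent.L5helper10.QV
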