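import Pool.Agent.L5helper10.QV.Cor

/-! Large deviations in some residue class. -/

set_option autoImplicit false

open Filter Topology Set MeasureTheory
open Pool.Agent.L5helper10.TV

namespace Pool.Agent.L5helper10.QV

lemma tri_full (a c : ℝ) (ha : 0 ≤ a) : ∫ α in (c - a)..(c + a), (a - |α - c|) = a ^ 2 := by
  have h0 : ∫ α in (c - a)..(c + a), (a - |α - c|) = ∫ x in (-a)..a, (a - |x|) := by
    have := intervalIntegral.integral_comp_sub_right (a := c - a) (b := c + a) (fun x => a - |x|) c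
    rw [this]
    congr 1 <;> ring
  have hc : Continuous (fun x : ℝ => a - |x|) := by fun_prop
  rw [h0, ← intervalIntegral.integral_add_adjacent_intervals (hc.intervalIntegrable (-a) 0) (hc.intervalIntegrable 0 a)]
  have h1 : ∫ x in (-a)..0, (a - |x|) = ∫ x in (-a)..0, (a + x) := by
    apply intervalIntegral.integral_congr
    intro x hx
    rw [uIcc_of_le (by linarith)] at hx
    simp only
    rw [abs_of_nonpos hx.2]
    ring
  have h2 : ∫ x in (0 : ℝ)..a, (a - |x|) = ∫ x in (0 : ℝ)..a, (a - x) := by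
    apply intervalIntegral.integral_congr
    intro x hx
    rw [uIcc_of_le ha] at hx
    simp only
    rw [abs_of_nonneg hx.1]
  rw [h1, h2, intervalIntegral.integral_add (by simp) (by simp), intervalIntegral.integral_sub (by simp) (by simp)]
  simp
  ring

/-- some exponent of a window has a large normalised variance -/
lemma win_sup (q : ℕ) (hq : 0 < q) (a c K : ℝ) (ha : 0 < a) (h : K * a ^ 2 < ∫ α in (c - a)..(c + a), (a - |α - c|) * Rq q α) :
    ∃ α ∈ Icc (c - a) (c + a), K ≤ Rq q α := by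
  by_contra hno
  push Not at hno
  have hle : c - a ≤ c + a := by linarith
  have hpi : IntegrableOn (fun α => max (a - |α - c|) 0 * Rq q α) (Ioc (c - a) (c + a)) :=
    Rq_intOn q hq (fun α => max (a - |α - c|) 0) (by fun_prop) (fun α => le_max_right _ _) a
      (fun α => max_le (by linarith [abs_nonneg (α - c)]) ha.le) _ _
  have hpi' : IntegrableOn (fun α => (a - |α - c|) * Rq q α) (Ioc (c - a) (c + a)) := by
    refine hpi.congr_fun ?_ measurableSet_Ioc
    intro α hα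
    simp only
    rw [max_eq_left]
    have : |α - c| ≤ a := by rw [abs_le]; constructor <;> linarith [hα.1, hα.2]
    linarith
  have hcont : Continuous (fun α : ℝ => (a - |α - c|) * K) := by fun_prop
  have h1 : ∫ α in (c - a)..(c + a), (a - |α - c|) * Rq q α ≤ ∫ α in (c - a)..(c + a), (a - |α - c|) * K := by
    rw [intervalIntegral.integral_of_le hle, intervalIntegral.integral_of_le hle]
    apply setIntegral_mono_on hpi' (hcont.continuousOn.integrableOn_Icc.mono_set Ioc_subset_Icc_self) measurableSet_Ioc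
    intro α hα
    apply mul_le_mul_of_nonneg_left (hno α ⟨hα.1.le, hα.2⟩).le
    have : |α - c| ≤ a := by rw [abs_le]; constructor <;> linarith [hα.1, hα.2]
    linarith
  rw [intervalIntegral.integral_mul_const, tri_full a c ha.le] at h1
  linarith

/-- from the variance to a residue class -/
lemma class_of_var (q : ℕ) (hq : 2 ≤ q) (α K : ℝ) (hK : 0 ≤ K) (h : K ^ 2 ≤ Rq q α) :
    ∃ A : ℕ, A < q ∧ A.Coprime q ∧
      K * Real.sqrt ((q : ℝ) ^ α * Real.log q / Nat.totient q) ≤ |psi ((q : ℝ) ^ α) q A - (q : ℝ) ^ α / Nat.totient q| := by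
  have hq0 : (0 : ℝ) < q := by exact_mod_cast (by omega : 0 < q)
  have hL : 0 < Real.log q := Real.log_pos (by exact_mod_cast (by omega : 1 < q))
  have hφ : (0 : ℝ) < Nat.totient q := by exact_mod_cast Nat.totient_pos.2 (by omega)
  set x : ℝ := (q : ℝ) ^ α with hx
  have hx0 : 0 < x := Real.rpow_pos_of_pos hq0 α
  have h1 : K ^ 2 * (x * Real.log q) ≤ GV x q := by
    unfold Rq at h
    rw [← hx, le_div_iff₀ (by positivity)] at h
    exact h
  by_contra hno
  push Not at hno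
  have h2 : GV x q < K ^ 2 * (x * Real.log q) := by
    unfold GV
    have hcard : (((Finset.range q).filter (fun A => A.Coprime q)).card : ℝ) = Nat.totient q := by
      congr 1
      rw [Nat.totient_eq_card_coprime]
      congr 1
      ext A
      simp only [Finset.mem_filter]
      rw [Nat.coprime_comm]
    have h3 : ∀ A ∈ (Finset.range q).filter (fun A => A.Coprime q), (psi x q A - x / Nat.totient q) ^ 2 <
        K ^ 2 * (x * Real.log q / Nat.totient q) := by
      intro A hA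
      rw [Finset.mem_filter, Finset.mem_range] at hA
      have h4 := hno A hA.1 hA.2
      have h5 := pow_lt_pow_left₀ h4 (abs_nonneg _) (two_ne_zero)
      rw [sq_abs, mul_pow, Real.sq_sqrt (by positivity)] at h5
      exact h5
    have hne : ((Finset.range q).filter (fun A => A.Coprime q)).Nonempty := by
      rw [← Finset.card_pos]
      have : (0 : ℝ) < (((Finset.range q).filter (fun A => A.Coprime q)).card : ℝ) := by rw [hcard]; exact hφ
      exact_mod_cast this
    refine (Finset.sum_lt_sum_of_nonempty hne h3).trans_le (le_of_eq ?_)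
    rw [Finset.sum_const, nsmul_eq_mul, hcard]
    field_simp
  linarith

theorem omega_window (a B K : ℝ) (ha0 : 0 < a) (ha1 : a ≤ 1) (hK0 : 0 ≤ K) (hK : K ^ 2 < 2 - 1 / a - a / 3) :
    ∀ᶠ q : ℕ in atTop, ∀ y : ℝ, 1 ≤ y → y ≤ B → ∃ x : ℝ, (q : ℝ) ^ y ≤ x ∧ x ≤ (q : ℝ) ^ (y + 2 * a) ∧
      ∃ A : ℕ, A < q ∧ A.Coprime q ∧
      K * Real.sqrt (x * Real.log q / Nat.totient q) ≤ |psi x q A - x / Nat.totient q| := by
  have h1 : K ^ 2 * a ^ 2 < 2 * a ^ 2 - a - a ^ 3 / 3 := by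
    have h2 := mul_lt_mul_of_pos_right hK (by positivity : 0 < a ^ 2)
    have e : (2 - 1 / a - a / 3) * a ^ 2 = 2 * a ^ 2 - a - a ^ 3 / 3 := by field_simp
    rwa [e] at h2
  set ε : ℝ := (2 * a ^ 2 - a - a ^ 3 / 3 - K ^ 2 * a ^ 2) / 2 with hε
  have hε0 : 0 < ε := by rw [hε]; linarith
  filter_upwards [window_ev a (B + a) ε ha0 ha1 hε0, eventually_ge_atTop 2] with q hq hq2
  intro y hy hyB
  have hq1 : (1 : ℝ) ≤ q := by exact_mod_cast (by omega : 1 ≤ q)
  have h2 := hq (y + a) (by linarith) (by linarith)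
  obtain ⟨α, hα, hR⟩ := win_sup q (by omega) a (y + a) (K ^ 2) ha0 (by rw [hε] at h2; linarith)
  obtain ⟨A, hA1, hA2, hA3⟩ := class_of_var q hq2 α K hK0 hR
  refine ⟨(q : ℝ) ^ α, ?_, ?_, A, hA1, hA2, hA3⟩
  · exact Real.rpow_le_rpow_of_exponent_le hq1 (by linarith [hα.1])
  · exact Real.rpow_le_rpow_of_exponent_le hq1 (by linarith [hα.2])

theorem omega_comb (m : ℕ) (hm : 2 ≤ m) (a c K : ℝ) (ha0 : 0 < a) (ha1 : a ≤ 1) (hc : 1 + a ≤ c) (hK0 : 0 ≤ K)
    (hK : K ^ 2 * (m - 1) < m - 1 / a - a / 3) :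
    ∀ᶠ q : ℕ in atTop, ∃ k : ℕ, 1 ≤ k ∧ k < m ∧ ∃ x : ℝ, (q : ℝ) ^ (k * c - a) ≤ x ∧ x ≤ (q : ℝ) ^ (k * c + a) ∧
      ∃ A : ℕ, A < q ∧ A.Coprime q ∧
      K * Real.sqrt (x * Real.log q / Nat.totient q) ≤ |psi x q A - x / Nat.totient q| := by
  have hm0 : (0 : ℝ) < m := by exact_mod_cast (by omega : 0 < m)
  have h1 : K ^ 2 * a ^ 2 * (m * (m - 1) / 2) < ((m * a) ^ 2 - m * a - m * a ^ 3 / 3) / 2 := by
    have h2 := mul_lt_mul_of_pos_right hK (by positivity : 0 < a ^ 2 * m / 2)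
    have e : (m - 1 / a - a / 3) * (a ^ 2 * m / 2) = ((m * a) ^ 2 - m * a - m * a ^ 3 / 3) / 2 := by field_simp
    rw [e] at h2
    linarith
  set ε : ℝ := (((m * a) ^ 2 - m * a - m * a ^ 3 / 3) / 2 - K ^ 2 * a ^ 2 * (m * (m - 1) / 2)) / 2 with hε
  have hε0 : 0 < ε := by rw [hε]; linarith
  filter_upwards [comb_ev m a c ε ha0 ha1 hc hε0, eventually_ge_atTop 2] with q hq hq2
  have hq1 : (1 : ℝ) ≤ q := by exact_mod_cast (by omega : 1 ≤ q)
  by_contra hno
  have hall : ∀ j ∈ Finset.range m, ∀ k ∈ Finset.range j,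
      ∫ α in (((j : ℝ) - k) * c - a)..(((j : ℝ) - k) * c + a), (a - |α - ((j : ℝ) - k) * c|) * Rq q α ≤ K ^ 2 * a ^ 2 := by
    intro j hj k hk
    rw [Finset.mem_range] at hj hk
    by_contra h2
    rw [not_le] at h2
    obtain ⟨α, hα, hR⟩ := win_sup q (by omega) a (((j : ℝ) - k) * c) (K ^ 2) ha0 h2
    obtain ⟨A, hA1, hA2, hA3⟩ := class_of_var q hq2 α K hK0 hR
    apply hno
    have e : ((j - k : ℕ) : ℝ) = (j : ℝ) - k := Nat.cast_sub hk.le
    refine ⟨j - k, by omega, by omega, (q : ℝ) ^ α, ?_, ?_, A, hA1, hA2, hA3⟩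
    · rw [e]; exact Real.rpow_le_rpow_of_exponent_le hq1 hα.1
    · rw [e]; exact Real.rpow_le_rpow_of_exponent_le hq1 hα.2
  have h2 := Finset.sum_le_sum fun j hj => Finset.sum_le_sum (hall j hj)
  simp only [Finset.sum_const, Finset.card_range, nsmul_eq_mul] at h2
  rw [← Finset.sum_mul] at h2
  have h3 : ∑ j ∈ Finset.range m, (j : ℝ) = m * (m - 1) / 2 := by
    have h4 := Finset.sum_range_id_mul_two m
    have h5 : ((∑ j ∈ Finset.range m, j : ℕ) : ℝ) * 2 = (m : ℝ) * ((m - 1 : ℕ) : ℝ) := by exact_mod_cast h4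
    rw [Nat.cast_sub (by omega), Nat.cast_one, Nat.cast_sum] at h5
    linarith
  rw [h3] at h2
  rw [hε] at hq
  linarith

/-- uniformly in the exponent -/
theorem omega_unif (m : ℕ) (hm : 2 ≤ m) (a B K : ℝ) (ha0 : 0 < a) (ha1 : a ≤ 1) (hK0 : 0 ≤ K)
    (hK : K ^ 2 * (m - 1) < m - 1 / a - a / 3) :
    ∀ᶠ q : ℕ in atTop, ∀ c : ℝ, 1 + a ≤ c → c ≤ B → ∃ k : ℕ, 1 ≤ k ∧ k < m ∧
      ∃ x : ℝ, (q : ℝ) ^ (k * c - a) ≤ x ∧ x ≤ (q : ℝ) ^ (k * c + a) ∧
      ∃ A : ℕ, A < q ∧ A.Coprime q ∧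
      K * Real.sqrt (x * Real.log q / Nat.totient q) ≤ |psi x q A - x / Nat.totient q| := by
  have hm0 : (0 : ℝ) < m := by exact_mod_cast (by omega : 0 < m)
  set gap : ℝ := m - 1 / a - a / 3 - K ^ 2 * (m - 1) with hgap
  have hgap0 : 0 < gap := by rw [hgap]; linarith
  set η : ℝ := min (a / 2) (gap * a ^ 2 / 4) with hη
  have hη0 : 0 < η := by positivity
  have hη1 : η ≤ a / 2 := min_le_left _ _
  have hη2 : η ≤ gap * a ^ 2 / 4 := min_le_right _ _
  set a' : ℝ := a - η with ha'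
  have ha'0 : 0 < a' := by rw [ha']; linarith
  have hK' : K ^ 2 * (m - 1) < m - 1 / a' - a' / 3 := by
    have h1 : 1 / a' ≤ 1 / a + gap / 2 := by
      have e : 1 / a' - 1 / a = η / (a * a') := by
        rw [ha'] at ha'0 ⊢
        field_simp
        ring
      have h2 : η / (a * a') ≤ gap / 2 := by
        rw [div_le_iff₀ (by positivity)]
        have h3 : a / 2 ≤ a' := by rw [ha']; linarith
        have h4 : a * (a / 2) ≤ a * a' := mul_le_mul_of_nonneg_left h3 ha0.le
        have h5 := mul_le_mul_of_nonneg_left h4 (by positivity : 0 ≤ gap / 2)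
        have h6 : gap / 2 * (a * (a / 2)) = gap * a ^ 2 / 4 := by ring
        linarith
      linarith
    have h2 : a' ≤ a := by rw [ha']; linarith
    rw [hgap] at h1 hgap0
    linarith
  set st : ℝ := η / m with hst
  have hst0 : 0 < st := by positivity
  set N : ℕ := ⌊|B| / st⌋₊ with hN
  have h1 : ∀ᶠ q : ℕ in atTop, ∀ j ∈ Finset.range (N + 1), ∃ k : ℕ, 1 ≤ k ∧ k < m ∧
      ∃ x : ℝ, (q : ℝ) ^ (k * (1 + a + j * st) - a') ≤ x ∧ x ≤ (q : ℝ) ^ (k * (1 + a + j * st) + a') ∧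
      ∃ A : ℕ, A < q ∧ A.Coprime q ∧
      K * Real.sqrt (x * Real.log q / Nat.totient q) ≤ |psi x q A - x / Nat.totient q| := by
    rw [Filter.eventually_all_finset]
    intro j _
    have hk0 : 0 ≤ (j : ℝ) * st := by positivity
    exact omega_comb m hm a' (1 + a + j * st) K ha'0 (by rw [ha']; linarith) (by rw [ha']; linarith) hK0 hK'
  filter_upwards [h1, eventually_ge_atTop 2] with q hq hq2
  intro c hc hcB
  have hq1 : (1 : ℝ) ≤ q := by exact_mod_cast (by omega : 1 ≤ q)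
  set j : ℕ := ⌊(c - (1 + a)) / st⌋₊ with hj
  have hnn : 0 ≤ (c - (1 + a)) / st := div_nonneg (by linarith) hst0.le
  have hk1 : (j : ℝ) * st ≤ c - (1 + a) := by
    have := Nat.floor_le hnn
    rwa [← hj, le_div_iff₀ hst0] at this
  have hk2 : c - (1 + a) < ((j : ℝ) + 1) * st := by
    have := Nat.lt_floor_add_one ((c - (1 + a)) / st)
    rwa [← hj, div_lt_iff₀ hst0] at this
  have hkN : j ∈ Finset.range (N + 1) := by
    rw [Finset.mem_range, Nat.lt_succ_iff]
    apply Nat.floor_le_floor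
    apply div_le_div_of_nonneg_right _ hst0.le
    linarith [le_abs_self B]
  obtain ⟨k, hk3, hk4, x, hx1, hx2, hA⟩ := hq j hkN
  have hkm : (k : ℝ) * st ≤ η := by
    have h3 : (k : ℝ) ≤ m := by exact_mod_cast hk4.le
    have h4 := mul_le_mul_of_nonneg_right h3 hst0.le
    have h5 : (m : ℝ) * st = η := by rw [hst]; field_simp
    linarith
  have hk0 : (0 : ℝ) ≤ k := Nat.cast_nonneg k
  set t : ℝ := 1 + a + j * st with ht
  have g1 : (k : ℝ) * (c - st) ≤ k * t := mul_le_mul_of_nonneg_left (by linarith) hk0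
  have g2 : (k : ℝ) * t ≤ k * c := mul_le_mul_of_nonneg_left (by linarith) hk0
  refine ⟨k, hk3, hk4, x, ?_, ?_, hA⟩
  · refine le_trans (Real.rpow_le_rpow_of_exponent_le hq1 ?_) hx1
    rw [ha']
    linarith
  · refine hx2.trans (Real.rpow_le_rpow_of_exponent_le hq1 ?_)
    rw [ha']
    linarith

end Pool.Agent.L5helper10.QV
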