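import Pool.Agent.L5helper10.QV.RA
import Pool.Agent.L5helper10.QV.Den2

/-! Primitive and imprimitive characters. -/

set_option autoImplicit false

open Filter Topology Set MeasureTheory Finset Complex ComplexConjugate
open ArithmeticFunction (vonMangoldt vonMangoldt_nonneg vonMangoldt_le_log)

namespace Pool.Agent.L5helper10.QV

lemma tm_bd {a : ℕ → ℂ} (ha : ∀ n, ‖a n‖ ≤ vonMangoldt n) (κ u t : ℝ) (hκ : 0 < κ) (n : ℕ) :
    ‖tm a κ u t n‖ ≤ Real.exp (2 * u + 2 / κ ^ 2) * (vonMangoldt n / (n : ℝ) ^ 2) := by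
  rw [tm_norm]
  rcases Nat.eq_zero_or_pos n with h | h
  · subst h; simp
  have hn1 : (1 : ℝ) ≤ n := by exact_mod_cast h
  have h4 : Real.exp (-(κ ^ 2 * (u - Real.log n) ^ 2 / 2)) ≤ Real.exp (2 * u + 2 / κ ^ 2) * (1 / (n : ℝ) ^ 2) := by
    have : 1 / (n : ℝ) ^ 2 = Real.exp (-(2 * Real.log n)) := by
      rw [Real.exp_neg, one_div]
      congr 1
      rw [show (2 : ℝ) * Real.log n = ((2 : ℕ) : ℝ) * Real.log n by norm_num, Real.exp_nat_mul, Real.exp_log (by linarith)]
    rw [this, ← Real.exp_add]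
    apply Real.exp_le_exp.2
    have h1 : 0 ≤ (κ * (Real.log n - u) - 2 / κ) ^ 2 := sq_nonneg _
    have h2 : (κ * (Real.log n - u) - 2 / κ) ^ 2 = κ ^ 2 * (u - Real.log n) ^ 2 - 4 * (Real.log n - u) + 4 / κ ^ 2 := by
      field_simp
      ring
    rw [h2] at h1
    have h3 : 4 / κ ^ 2 = 2 * (2 / κ ^ 2) := by ring
    rw [h3] at h1
    linarith
  have h5 : (Real.sqrt n)⁻¹ ≤ 1 := by
    apply inv_le_one_of_one_le₀
    rw [Real.one_le_sqrt]; exact hn1
  calc ‖a n‖ * (Real.sqrt n)⁻¹ * Real.exp (-(κ ^ 2 * (u - Real.log n) ^ 2 / 2))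
      ≤ vonMangoldt n * 1 * (Real.exp (2 * u + 2 / κ ^ 2) * (1 / (n : ℝ) ^ 2)) := by
        apply mul_le_mul _ h4 (Real.exp_pos _).le (by have := vonMangoldt_nonneg (n := n); linarith)
        exact mul_le_mul (ha n) h5 (by positivity) vonMangoldt_nonneg
    _ = _ := by ring

lemma tm_summable {a : ℕ → ℂ} (ha : ∀ n, ‖a n‖ ≤ vonMangoldt n) (κ u t : ℝ) (hκ : 0 < κ) :
    Summable (tm a κ u t) :=
  Summable.of_norm_bounded (vm_summable.mul_left _) (tm_bd ha κ u t hκ)

lemma PP_eq (a : ℕ → ℂ) (κ u t : ℝ) : PP a κ u t = ∑' n, tm a κ u t n := rfl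

/-- the weight of the prime powers not prime to `q` -/
noncomputable def ew (q n : ℕ) : ℝ := if n.Coprime q then 0 else vonMangoldt n * (Real.sqrt n)⁻¹

lemma ew_nonneg (q n : ℕ) : 0 ≤ ew q n := by
  unfold ew
  split_ifs
  · exact le_rfl
  · exact mul_nonneg vonMangoldt_nonneg (inv_nonneg.2 (Real.sqrt_nonneg _))

lemma geo_bd (x : ℝ) (hx0 : 0 ≤ x) (hx : x ≤ 3 / 4) (K : ℕ) : ∑ k ∈ Finset.Icc 1 K, x ^ k ≤ 4 * x := by
  have h1 : (∑ k ∈ Finset.Icc 1 K, x ^ k) * (1 - x) = x - x ^ (K + 1) := by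
    induction K with
    | zero => simp
    | succ K ih =>
      rw [Finset.sum_Icc_succ_top (by omega), add_mul, ih]
      ring
  have h2 : 0 ≤ ∑ k ∈ Finset.Icc 1 K, x ^ k := Finset.sum_nonneg fun k _ => pow_nonneg hx0 k
  have h3 : 0 ≤ x ^ (K + 1) := pow_nonneg hx0 _
  nlinarith

/-- the sum over the primes dividing `q` -/
noncomputable def Dq (q : ℕ) : ℝ := ∑ p ∈ q.primeFactors, Real.log p * (Real.sqrt p)⁻¹

lemma ew_finset (q : ℕ) (hq : q ≠ 0) (T : Finset ℕ) : ∑ n ∈ T, ew q n ≤ 4 * Dq q := by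
  classical
  set T' : Finset ℕ := T.filter (fun n => ¬ n.Coprime q ∧ IsPrimePow n) with hT'
  obtain ⟨K, hK⟩ : ∃ K : ℕ, ∀ n ∈ T, n ≤ K := ⟨T.sup id, fun n hn => Finset.le_sup (f := id) hn⟩
  have h1 : ∑ n ∈ T, ew q n = ∑ n ∈ T', vonMangoldt n * (Real.sqrt n)⁻¹ := by
    rw [hT', Finset.sum_filter]
    apply Finset.sum_congr rfl
    intro n _
    unfold ew
    by_cases h : n.Coprime q
    · simp [h]
    · by_cases h2 : IsPrimePow n
      · simp [h, h2]
      · have : vonMangoldt n = 0 := by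
          rw [ArithmeticFunction.vonMangoldt_apply, if_neg h2]
        simp [h, h2, this]
  set φ : ℕ → ℕ × ℕ := fun n => (n.minFac, n.factorization n.minFac) with hφ
  set g : ℕ × ℕ → ℝ := fun x => Real.log x.1 * (Real.sqrt x.1)⁻¹ ^ x.2 with hg
  have hdata : ∀ n ∈ T', n = n.minFac ^ (n.factorization n.minFac) ∧ n.minFac.Prime ∧ 1 ≤ n.factorization n.minFac ∧
      n.minFac ∈ q.primeFactors ∧ n.factorization n.minFac ≤ K := by
    intro n hn
    rw [hT', Finset.mem_filter] at hn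
    obtain ⟨hnT, hco, hpp⟩ := hn
    have h2 : n.minFac ^ n.factorization n.minFac = n := IsPrimePow.minFac_pow_factorization_eq hpp
    have hp : n.minFac.Prime := Nat.minFac_prime hpp.ne_one
    have h3 : 1 ≤ n.factorization n.minFac := by
      by_contra h
      have h4 : n.factorization n.minFac = 0 := by omega
      rw [h4, pow_zero] at h2
      exact hpp.ne_one h2.symm
    refine ⟨h2.symm, hp, h3, ?_, ?_⟩
    · rw [Nat.mem_primeFactors]
      refine ⟨hp, ?_, hq⟩
      by_contra h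
      apply hco
      rw [← h2]
      exact Nat.Coprime.pow_left _ ((Nat.Prime.coprime_iff_not_dvd hp).2 h)
    · have h5 : n.factorization n.minFac < n := by
        calc n.factorization n.minFac < n.minFac ^ n.factorization n.minFac := Nat.lt_pow_self hp.one_lt
          _ = n := h2
      exact h5.le.trans (hK n hnT)
  have h2 : ∑ n ∈ T', vonMangoldt n * (Real.sqrt n)⁻¹ = ∑ n ∈ T', g (φ n) := by
    apply Finset.sum_congr rfl
    intro n hn
    obtain ⟨d1, d2, d3, d4, d5⟩ := hdata n hn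
    rw [hg, hφ]
    simp only
    have e1 : vonMangoldt n = Real.log n.minFac := by
      conv_lhs => rw [d1]
      rw [ArithmeticFunction.vonMangoldt_apply_pow (by omega), ArithmeticFunction.vonMangoldt_apply_prime d2]
    have e2 : (Real.sqrt n)⁻¹ = (Real.sqrt n.minFac)⁻¹ ^ n.factorization n.minFac := by
      rw [inv_pow]
      congr 1
      conv_lhs => rw [d1]
      push_cast
      rw [Real.sqrt_eq_rpow, Real.sqrt_eq_rpow, ← Real.rpow_natCast, ← Real.rpow_natCast, ← Real.rpow_mul (Nat.cast_nonneg _),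
        ← Real.rpow_mul (Nat.cast_nonneg _)]
      congr 1
      ring
    rw [e1, e2]
  have hinj : Set.InjOn φ T' := by
    intro n hn m hm h
    have hn' := (hdata n hn).1
    have hm' := (hdata m hm).1
    rw [hφ] at h
    simp only [Prod.mk.injEq] at h
    rw [hn', hm', h.2, h.1]
  have h3 : ∑ n ∈ T', g (φ n) = ∑ x ∈ T'.image φ, g x := (Finset.sum_image hinj).symm
  have h4 : T'.image φ ⊆ q.primeFactors ×ˢ Finset.Icc 1 K := by
    intro x hx
    rw [Finset.mem_image] at hx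
    obtain ⟨n, hn, rfl⟩ := hx
    obtain ⟨d1, d2, d3, d4, d5⟩ := hdata n hn
    rw [Finset.mem_product, Finset.mem_Icc]
    exact ⟨d4, d3, d5⟩
  have h5 : ∑ x ∈ T'.image φ, g x ≤ ∑ x ∈ q.primeFactors ×ˢ Finset.Icc 1 K, g x := by
    apply Finset.sum_le_sum_of_subset_of_nonneg h4
    intro x _ _
    rw [hg]
    exact mul_nonneg (Real.log_natCast_nonneg _) (pow_nonneg (inv_nonneg.2 (Real.sqrt_nonneg _)) _)
  rw [h1, h2, h3]
  refine h5.trans ?_
  rw [Finset.sum_product]
  unfold Dq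
  rw [Finset.mul_sum]
  apply Finset.sum_le_sum
  intro p hp
  have hp2 : 2 ≤ p := (Nat.prime_of_mem_primeFactors hp).two_le
  rw [hg]
  simp only
  rw [← Finset.mul_sum]
  have h6 : (Real.sqrt p)⁻¹ ≤ 3 / 4 := by
    rw [inv_le_comm₀ (Real.sqrt_pos.2 (by exact_mod_cast (by omega : 0 < p))) (by norm_num)]
    apply Real.le_sqrt_of_sq_le
    have : (2 : ℝ) ≤ p := by exact_mod_cast hp2
    norm_num
    linarith
  have h7 := geo_bd (Real.sqrt p)⁻¹ (inv_nonneg.2 (Real.sqrt_nonneg _)) h6 K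
  have h8 := mul_le_mul_of_nonneg_left h7 (Real.log_natCast_nonneg p)
  linarith

lemma ew_summable (q : ℕ) (hq : q ≠ 0) : Summable (ew q) :=
  summable_of_sum_le (ew_nonneg q) (ew_finset q hq)

lemma ew_tsum (q : ℕ) (hq : q ≠ 0) : ∑' n, ew q n ≤ 4 * Dq q :=
  (ew_summable q hq).tsum_le_of_sum_le (ew_finset q hq)

lemma Dq_le (q : ℕ) (hq : 1 ≤ Real.log q) : Dq q ≤ 2 * Real.log q ^ (2 / 3 : ℝ) := by
  classical
  set L := Real.log q with hL
  have hL0 : 0 < L := by linarith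
  have hq0 : q ≠ 0 := by
    intro h
    rw [hL, h] at hq
    simp at hq
    linarith
  set y : ℝ := L ^ (2 / 3 : ℝ) with hy
  have hy1 : 1 ≤ y := Real.one_le_rpow hq (by norm_num)
  have hys : Real.sqrt y = L ^ (1 / 3 : ℝ) := by
    rw [hy, Real.sqrt_eq_rpow, ← Real.rpow_mul hL0.le]
    norm_num
  have hsplit : Dq q = ∑ p ∈ q.primeFactors.filter (fun p : ℕ => (p : ℝ) ≤ y), Real.log p * (Real.sqrt p)⁻¹ +
      ∑ p ∈ q.primeFactors.filter (fun p : ℕ => ¬ (p : ℝ) ≤ y), Real.log p * (Real.sqrt p)⁻¹ := by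
    unfold Dq
    rw [Finset.sum_filter_add_sum_filter_not]
  have h1 : ∑ p ∈ q.primeFactors.filter (fun p : ℕ => (p : ℝ) ≤ y), Real.log p * (Real.sqrt p)⁻¹ ≤ y := by
    have h2 : ∀ p ∈ q.primeFactors.filter (fun p : ℕ => (p : ℝ) ≤ y), Real.log p * (Real.sqrt p)⁻¹ ≤ 1 := by
      intro p hp
      rw [Finset.mem_filter] at hp
      have hp2 : 2 ≤ p := (Nat.prime_of_mem_primeFactors hp.1).two_le
      have hp0 : (0 : ℝ) < p := by exact_mod_cast (by omega : 0 < p)
      have hs : 0 < Real.sqrt p := Real.sqrt_pos.2 hp0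
      rw [← div_eq_mul_inv, div_le_one hs]
      have h3 : Real.log p = 2 * Real.log (Real.sqrt p) := by
        rw [Real.log_sqrt hp0.le]; ring
      rw [h3]
      have h4 := Real.log_le_sub_one_of_pos (show 0 < Real.sqrt p / 2 by positivity)
      rw [Real.log_div hs.ne' (by norm_num)] at h4
      have h5 : Real.log 2 ≤ 1 := by linarith [Real.log_two_lt_d9]
      linarith
    refine (Finset.sum_le_sum h2).trans ?_
    rw [Finset.sum_const, nsmul_eq_mul, mul_one]
    have h3 : q.primeFactors.filter (fun p : ℕ => (p : ℝ) ≤ y) ⊆ Finset.Icc 1 ⌊y⌋₊ := by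
      intro p hp
      rw [Finset.mem_filter] at hp
      rw [Finset.mem_Icc]
      exact ⟨(Nat.prime_of_mem_primeFactors hp.1).one_lt.le, Nat.le_floor hp.2⟩
    have h4 := Finset.card_le_card h3
    rw [Nat.card_Icc, Nat.add_sub_cancel] at h4
    have h5 : (⌊y⌋₊ : ℝ) ≤ y := Nat.floor_le (by linarith)
    have h6 : ((q.primeFactors.filter (fun p : ℕ => (p : ℝ) ≤ y)).card : ℝ) ≤ ⌊y⌋₊ := by exact_mod_cast h4
    linarith
  have h2 : ∑ p ∈ q.primeFactors.filter (fun p : ℕ => ¬ (p : ℝ) ≤ y), Real.log p * (Real.sqrt p)⁻¹ ≤ y := by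
    have h3 : ∀ p ∈ q.primeFactors.filter (fun p : ℕ => ¬ (p : ℝ) ≤ y), Real.log p * (Real.sqrt p)⁻¹ ≤
        Real.log p * (Real.sqrt y)⁻¹ := by
      intro p hp
      rw [Finset.mem_filter, not_le] at hp
      apply mul_le_mul_of_nonneg_left _ (Real.log_natCast_nonneg p)
      apply inv_anti₀ (Real.sqrt_pos.2 (by linarith))
      exact Real.sqrt_le_sqrt hp.2.le
    refine (Finset.sum_le_sum h3).trans ?_
    rw [← Finset.sum_mul]
    have h4 : ∑ p ∈ q.primeFactors.filter (fun p : ℕ => ¬ (p : ℝ) ≤ y), Real.log p ≤ L := by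
      have h5 : ∑ p ∈ q.primeFactors.filter (fun p : ℕ => ¬ (p : ℝ) ≤ y), Real.log p ≤ ∑ p ∈ q.primeFactors, Real.log p :=
        Finset.sum_le_sum_of_subset_of_nonneg (Finset.filter_subset _ _) fun p _ _ => Real.log_natCast_nonneg p
      refine h5.trans ?_
      rw [← Real.log_prod (fun p hp => by
        have := (Nat.prime_of_mem_primeFactors hp).pos
        exact_mod_cast this.ne')]
      rw [hL]
      have h6 : ∏ p ∈ q.primeFactors, p ≤ q := Nat.le_of_dvd (Nat.pos_of_ne_zero hq0) (Nat.prod_primeFactors_dvd q)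
      apply Real.log_le_log
      · apply Finset.prod_pos
        intro p hp
        exact_mod_cast (Nat.prime_of_mem_primeFactors hp).pos
      · have h7 := (Nat.cast_le (α := ℝ)).2 h6
        rwa [Nat.cast_prod] at h7
    rw [hys]
    have h5 : 0 < (L ^ (1 / 3 : ℝ))⁻¹ := by positivity
    have h6 : L * (L ^ (1 / 3 : ℝ))⁻¹ = y := by
      rw [hy]
      have h7 : L = L ^ (2 / 3 : ℝ) * L ^ (1 / 3 : ℝ) := by
        rw [← Real.rpow_add hL0]; norm_num
      have h8 : L ^ (1 / 3 : ℝ) ≠ 0 := by positivity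
      field_simp
      linarith
    calc (∑ p ∈ q.primeFactors.filter (fun p : ℕ => ¬ (p : ℝ) ≤ y), Real.log p) * (L ^ (1 / 3 : ℝ))⁻¹
        ≤ L * (L ^ (1 / 3 : ℝ))⁻¹ := mul_le_mul_of_nonneg_right h4 h5.le
      _ = y := h6
  rw [hsplit]
  linarith

/-- the primitive character agrees on the integers prime to `q` -/
lemma prim_apply {q : ℕ} [NeZero q] (χ : DirichletCharacter ℂ q) (n : ℕ) (h : n.Coprime q) :
    χ.primitiveCharacter (n : ZMod χ.conductor) = χ (n : ZMod q) := by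
  have h1 := DirichletCharacter.changeLevel_eq_cast_of_dvd χ.primitiveCharacter χ.conductor_dvd_level
    (ZMod.unitOfCoprime n h)
  rw [χ.changeLevel_primitiveCharacter] at h1
  rw [ZMod.coe_unitOfCoprime] at h1
  rw [h1, ZMod.cast_natCast χ.conductor_dvd_level]

/-- replacing the primitive character -/
theorem PP_prim {q : ℕ} [NeZero q] (χ : DirichletCharacter ℂ q) (κ u t : ℝ) (hκ : 0 < κ) (hq : 1 ≤ Real.log q) :
    ‖PP (ac χ.primitiveCharacter) κ u t - PP (ac χ) κ u t‖ ≤ 8 * Real.log q ^ (2 / 3 : ℝ) := by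
  have s1 := tm_summable (ac_norm χ.primitiveCharacter) κ u t hκ
  have s2 := tm_summable (ac_norm χ) κ u t hκ
  rw [PP_eq, PP_eq, ← s1.tsum_sub s2]
  have hb : ∀ n, ‖tm (ac χ.primitiveCharacter) κ u t n - tm (ac χ) κ u t n‖ ≤ ew q n := by
    intro n
    unfold ew
    split_ifs with h
    · have : tm (ac χ.primitiveCharacter) κ u t n = tm (ac χ) κ u t n := by
        unfold tm ac
        rw [prim_apply χ n h]
      rw [this, sub_self, norm_zero]
    · have h0 : ac χ n = 0 := by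
        unfold ac
        rw [χ.map_nonunit (fun hu => h ((ZMod.isUnit_iff_coprime n q).1 hu)), zero_mul]
      have h1 : tm (ac χ) κ u t n = 0 := by unfold tm; rw [h0]; ring
      rw [h1, sub_zero, tm_norm]
      have h2 : Real.exp (-(κ ^ 2 * (u - Real.log n) ^ 2 / 2)) ≤ 1 := by
        rw [Real.exp_le_one_iff]
        have : 0 ≤ κ ^ 2 * (u - Real.log n) ^ 2 / 2 := by positivity
        linarith
      have h3 := ac_norm χ.primitiveCharacter n
      have h4 : 0 ≤ (Real.sqrt n)⁻¹ := inv_nonneg.2 (Real.sqrt_nonneg _)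
      calc ‖ac χ.primitiveCharacter n‖ * (Real.sqrt n)⁻¹ * Real.exp (-(κ ^ 2 * (u - Real.log n) ^ 2 / 2))
          ≤ ‖ac χ.primitiveCharacter n‖ * (Real.sqrt n)⁻¹ * 1 :=
            mul_le_mul_of_nonneg_left h2 (by positivity)
        _ ≤ vonMangoldt n * (Real.sqrt n)⁻¹ := by
            rw [mul_one]
            exact mul_le_mul_of_nonneg_right h3 h4
  refine (tsum_of_norm_bounded (ew_summable q (NeZero.ne q)).hasSum hb).trans ?_
  refine (ew_tsum q (NeZero.ne q)).trans ?_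
  have := Dq_le q hq
  linarith

end Pool.Agent.L5helper10.QV
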