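import Pool.Agent.L5helper10.QV.RB3

/-! The variance and the sums over primes twisted by characters. -/

set_option autoImplicit false

open Filter Topology Set MeasureTheory Finset Complex ComplexConjugate
open ArithmeticFunction (vonMangoldt vonMangoldt_nonneg vonMangoldt_le_log)

namespace Pool.Agent.L5helper10.QV

/-- `ψ(X; Q, A)` -/
noncomputable def psi (X : ℝ) (Q A : ℕ) : ℝ :=
  ∑ n ∈ (Finset.Icc 1 ⌊X⌋₊).filter (fun n => n ≡ A [MOD Q]), vonMangoldt n

/-- `G(X, Q)` -/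
noncomputable def GV (X : ℝ) (Q : ℕ) : ℝ :=
  ∑ A ∈ (Finset.range Q).filter (fun A => A.Coprime Q), (psi X Q A - X / Nat.totient Q) ^ 2

lemma GV_nonneg (X : ℝ) (Q : ℕ) : 0 ≤ GV X Q := Finset.sum_nonneg fun _ _ => sq_nonneg _

lemma sum_range_char {q : ℕ} [NeZero q] (χ : DirichletCharacter ℂ q) (hχ : χ ≠ 1) :
    ∑ A ∈ Finset.range q, χ (A : ZMod q) = 0 := by
  have h := MulChar.sum_eq_zero_of_ne_one hχ
  rw [← h]
  refine Finset.sum_bij' (fun A _ => (A : ZMod q)) (fun a _ => a.val) ?_ ?_ ?_ ?_ ?_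
  · intro A _; exact Finset.mem_univ _
  · intro a _; exact Finset.mem_range.2 (ZMod.val_lt a)
  · intro A hA; exact ZMod.val_cast_of_lt (Finset.mem_range.1 hA)
  · intro a _; exact ZMod.natCast_zmod_val a
  · intro A _; rfl

lemma char_noncop {q : ℕ} [NeZero q] (χ : DirichletCharacter ℂ q) (A : ℕ) (h : ¬ A.Coprime q) : χ (A : ZMod q) = 0 := by
  apply MulChar.map_nonunit
  rw [ZMod.isUnit_iff_coprime]
  exact h

lemma psi_char {q : ℕ} [NeZero q] (χ : DirichletCharacter ℂ q) (hχ : χ ≠ 1) (v : ℝ) :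
    Ps (ac χ) v = ∑ A ∈ (Finset.range q).filter (fun A => A.Coprime q),
      χ (A : ZMod q) * ((psi (Real.exp v) q A - Real.exp v / Nat.totient q : ℝ) : ℂ) := by
  classical
  have h1 : Ps (ac χ) v = ∑ A ∈ Finset.range q, χ (A : ZMod q) * (psi (Real.exp v) q A : ℂ) := by
    unfold Ps
    have hmaps : ∀ n ∈ Finset.Ioc 0 ⌊Real.exp v⌋₊, n % q ∈ Finset.range q := fun n _ =>
      Finset.mem_range.2 (Nat.mod_lt _ (Nat.pos_of_ne_zero (NeZero.ne q)))
    rw [← Finset.sum_fiberwise_of_maps_to hmaps]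
    apply Finset.sum_congr rfl
    intro A hA
    have hA' := Finset.mem_range.1 hA
    unfold psi
    rw [Complex.ofReal_sum, Finset.mul_sum]
    have e : (Finset.Icc 1 ⌊Real.exp v⌋₊).filter (fun n => n ≡ A [MOD q]) =
        (Finset.Ioc 0 ⌊Real.exp v⌋₊).filter (fun n => n % q = A) := by
      ext n
      simp only [Finset.mem_filter, Finset.mem_Icc, Finset.mem_Ioc, Nat.ModEq, Nat.mod_eq_of_lt hA']
      constructor <;> rintro ⟨⟨h1, h2⟩, h3⟩ <;> exact ⟨⟨by omega, h2⟩, h3⟩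
    rw [e]
    apply Finset.sum_congr rfl
    intro n hn
    rw [Finset.mem_filter] at hn
    unfold ac
    congr 2
    rw [ZMod.natCast_eq_natCast_iff, Nat.ModEq, hn.2, Nat.mod_eq_of_lt hA']
  have h2 : ∑ A ∈ Finset.range q, χ (A : ZMod q) * (psi (Real.exp v) q A : ℂ) =
      ∑ A ∈ Finset.range q, χ (A : ZMod q) * ((psi (Real.exp v) q A - Real.exp v / Nat.totient q : ℝ) : ℂ) := by
    have h3 : ∑ A ∈ Finset.range q, χ (A : ZMod q) * ((psi (Real.exp v) q A - Real.exp v / Nat.totient q : ℝ) : ℂ) =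
        ∑ A ∈ Finset.range q, χ (A : ZMod q) * (psi (Real.exp v) q A : ℂ) -
        (∑ A ∈ Finset.range q, χ (A : ZMod q)) * ((Real.exp v / Nat.totient q : ℝ) : ℂ) := by
      rw [Finset.sum_mul, ← Finset.sum_sub_distrib]
      apply Finset.sum_congr rfl
      intro A _
      push_cast
      ring
    rw [h3, sum_range_char χ hχ, zero_mul, sub_zero]
  rw [h1, h2, Finset.sum_filter]
  apply Finset.sum_congr rfl
  intro A _
  split_ifs with h
  · rfl
  · rw [char_noncop χ A h, zero_mul]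

/-- the mean square over the non-principal characters -/
noncomputable def Ph (q : ℕ) [NeZero q] (v : ℝ) : ℝ :=
  by classical exact ∑ χ ∈ (Finset.univ : Finset (DirichletCharacter ℂ q)).filter (fun χ => χ ≠ 1), ‖ff (ac χ) v‖ ^ 2

lemma Ph_nonneg (q : ℕ) [NeZero q] (v : ℝ) : 0 ≤ Ph q v := Finset.sum_nonneg fun _ _ => sq_nonneg _

lemma Ph_meas (q : ℕ) [NeZero q] : Measurable (Ph q) := by
  unfold Ph
  apply Finset.measurable_fun_sum
  intro χ _
  exact (ff_meas (ac χ)).norm.pow_const 2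

lemma Ph_le (q : ℕ) [NeZero q] (v : ℝ) : Ph q v ≤ (q.totient * Kc ^ 2) * Real.exp v := by
  classical
  unfold Ph
  have h1 : ∀ χ ∈ (Finset.univ : Finset (DirichletCharacter ℂ q)).filter (fun χ => χ ≠ 1), ‖ff (ac χ) v‖ ^ 2 ≤ Kc ^ 2 * Real.exp v :=
    fun χ _ => ff_sq (ac_norm χ) v
  refine (Finset.sum_le_sum h1).trans ?_
  rw [Finset.sum_const, nsmul_eq_mul, mul_assoc]
  apply mul_le_mul_of_nonneg_right _ (by positivity)
  have h2 := Finset.card_filter_le (Finset.univ : Finset (DirichletCharacter ℂ q)) (fun χ => χ ≠ 1)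
  rw [card_char] at h2
  exact_mod_cast h2

lemma ff_sq_eq (a : ℕ → ℂ) (v : ℝ) : ‖ff a v‖ ^ 2 = ‖Ps a v‖ ^ 2 * Real.exp (-v) := by
  unfold ff
  rw [norm_mul, Complex.norm_real, Real.norm_of_nonneg (Real.exp_pos _).le, mul_pow, ← Real.exp_nat_mul]
  congr 2
  push_cast; ring

theorem Ph_GV (q : ℕ) [NeZero q] (hq : 2 ≤ q) (v : ℝ) : Ph q v ≤ q.totient * (GV (Real.exp v) q * Real.exp (-v)) := by
  classical
  set c : ℕ → ℂ := fun A => if A.Coprime q then ((psi (Real.exp v) q A - Real.exp v / Nat.totient q : ℝ) : ℂ) else 0 with hc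
  have hset : (Finset.range q).filter (fun A => A.Coprime q) = (Finset.Ioc 0 q).filter (fun A => A.Coprime q) := by
    ext A
    simp only [Finset.mem_filter, Finset.mem_range, Finset.mem_Ioc]
    constructor
    · rintro ⟨h1, h2⟩
      refine ⟨⟨Nat.pos_of_ne_zero fun h => ?_, h1.le⟩, h2⟩
      rw [h, Nat.coprime_zero_left] at h2
      omega
    · rintro ⟨⟨h1, h2⟩, h3⟩
      refine ⟨lt_of_le_of_ne h2 fun h => ?_, h3⟩
      rw [h, Nat.coprime_self] at h3
      omega
  have h1 : ∀ χ ∈ (Finset.univ : Finset (DirichletCharacter ℂ q)).filter (fun χ => χ ≠ 1),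
      ‖ff (ac χ) v‖ ^ 2 = ‖∑ n ∈ Finset.Ioc 0 q, χ (n : ZMod q) * c n‖ ^ 2 * Real.exp (-v) := by
    intro χ hχ
    rw [Finset.mem_filter] at hχ
    rw [ff_sq_eq, psi_char χ hχ.2, hset, Finset.sum_filter]
    congr 3
    refine Finset.sum_congr rfl fun A _ => ?_
    simp only [hc]
    split_ifs with h
    · rfl
    · rw [mul_zero]
  unfold Ph
  rw [Finset.sum_congr rfl h1, ← Finset.sum_mul, ← mul_assoc]
  apply mul_le_mul_of_nonneg_right _ (Real.exp_pos _).le
  refine (Finset.sum_le_sum_of_subset_of_nonneg (Finset.filter_subset _ _) fun _ _ _ => sq_nonneg _).trans ?_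
  refine (orth c).trans (le_of_eq ?_)
  congr 1
  unfold GV
  rw [hset, Finset.sum_filter]
  apply Finset.sum_congr rfl
  intro A _
  simp only [hc]
  split_ifs with h
  · rw [Complex.norm_real, Real.norm_eq_abs, sq_abs]
  · simp

/-- below the modulus -/
theorem Ph_small (q : ℕ) [NeZero q] (v : ℝ) (hv : v ≤ Real.log q) : Ph q v ≤ q.totient * (Kc * Real.log q) := by
  classical
  have hq0 : (0 : ℝ) < q := by exact_mod_cast Nat.pos_of_ne_zero (NeZero.ne q)
  set x := Real.exp v with hx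
  have hxq : ⌊x⌋₊ ≤ q := by
    have h1 : x ≤ q := by rw [hx, ← Real.exp_log hq0]; exact Real.exp_le_exp.2 hv
    exact_mod_cast (Nat.floor_le (Real.exp_pos v).le).trans h1
  set c : ℕ → ℂ := fun n => if n ≤ ⌊x⌋₊ then (vonMangoldt n : ℂ) else 0 with hc
  have h1 : ∀ χ : DirichletCharacter ℂ q, Ps (ac χ) v = ∑ n ∈ Finset.Ioc 0 q, χ (n : ZMod q) * c n := by
    intro χ
    unfold Ps ac
    rw [← Finset.sum_subset (Finset.Ioc_subset_Ioc_right hxq)]
    · apply Finset.sum_congr rfl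
      intro n hn
      rw [Finset.mem_Ioc] at hn
      simp only [hc]
      rw [if_pos hn.2]
    · intro n _ hn2
      rw [Finset.mem_Ioc, not_and] at hn2
      simp only [hc]
      split_ifs with h
      · by_cases h0 : 0 < n
        · exact absurd h (hn2 h0)
        · have : n = 0 := by omega
          subst this
          simp
      · rw [mul_zero]
  have h2 : ∑ n ∈ Finset.Ioc 0 q, ‖c n‖ ^ 2 ≤ Real.log q * (Kc * x) := by
    have h3 : ∑ n ∈ Finset.Ioc 0 q, ‖c n‖ ^ 2 = ∑ n ∈ Finset.Ioc 0 ⌊x⌋₊, vonMangoldt n ^ 2 := by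
      rw [← Finset.sum_subset (Finset.Ioc_subset_Ioc_right hxq)]
      · apply Finset.sum_congr rfl
        intro n hn
        rw [Finset.mem_Ioc] at hn
        simp only [hc, hn.2, if_true]
        rw [Complex.norm_real, Real.norm_eq_abs, sq_abs]
      · intro n hn1 hn2
        rw [Finset.mem_Ioc] at hn1
        rw [Finset.mem_Ioc, not_and] at hn2
        simp only [hc, if_neg (hn2 hn1.1)]
        simp
    rw [h3]
    have h4 : ∀ n ∈ Finset.Ioc 0 ⌊x⌋₊, vonMangoldt n ^ 2 ≤ Real.log q * vonMangoldt n := by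
      intro n hn
      rw [Finset.mem_Ioc] at hn
      rw [pow_two]
      apply mul_le_mul_of_nonneg_right _ vonMangoldt_nonneg
      refine vonMangoldt_le_log.trans (Real.log_le_log (by exact_mod_cast hn.1) ?_)
      exact_mod_cast hn.2.trans hxq
    refine (Finset.sum_le_sum h4).trans ?_
    rw [← Finset.mul_sum]
    apply mul_le_mul_of_nonneg_left _ (Real.log_nonneg (by exact_mod_cast Nat.one_le_iff_ne_zero.2 (NeZero.ne q)))
    exact Chebyshev.psi_le_const_mul_self (Real.exp_pos v).le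
  unfold Ph
  have h5 : ∑ χ ∈ (Finset.univ : Finset (DirichletCharacter ℂ q)).filter (fun χ => χ ≠ 1), ‖ff (ac χ) v‖ ^ 2 ≤
      (∑ χ : DirichletCharacter ℂ q, ‖∑ n ∈ Finset.Ioc 0 q, χ (n : ZMod q) * c n‖ ^ 2) * Real.exp (-v) := by
    rw [Finset.sum_mul]
    refine le_trans (Finset.sum_le_sum_of_subset_of_nonneg (Finset.filter_subset _ _) fun _ _ _ => sq_nonneg _) ?_
    apply Finset.sum_le_sum
    intro χ _
    rw [ff_sq_eq, h1 χ]
  refine h5.trans ?_
  have h6 := mul_le_mul_of_nonneg_right ((orth c).trans (mul_le_mul_of_nonneg_left h2 (Nat.cast_nonneg _))) (Real.exp_pos (-v)).le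
  refine h6.trans (le_of_eq ?_)
  have h7 : x * Real.exp (-v) = 1 := by rw [hx, ← Real.exp_add, add_neg_cancel, Real.exp_zero]
  calc (q.totient : ℝ) * (Real.log q * (Kc * x)) * Real.exp (-v) = q.totient * (Kc * Real.log q) * (x * Real.exp (-v)) := by ring
    _ = _ := by rw [h7, mul_one]

end Pool.Agent.L5helper10.QV
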