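import Pool.Agent.L5helper10.QV.Mer
import Pool.Agent.L5helper10.QV.Ef4
import Pool.Agent.L5helper10.QV.Dir
import Pool.Agent.L5helper10.TV.Ps

/-! The sum over primes in mean square over the characters, below the modulus. -/

set_option autoImplicit false

open Filter Topology Set MeasureTheory Finset Complex ComplexConjugate
open ArithmeticFunction (vonMangoldt vonMangoldt_nonneg vonMangoldt_le_log)

namespace Pool.Agent.L5helper10.QV

lemma natCast_inj_Ioc {q n m : ℕ} (hn : n ∈ Finset.Ioc 0 q) (hm : m ∈ Finset.Ioc 0 q)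
    (h : (n : ZMod q) = (m : ZMod q)) : n = m := by
  rw [Finset.mem_Ioc] at hn hm
  rw [ZMod.natCast_eq_natCast_iff] at h
  rcases le_total n m with hnm | hnm
  · have h1 := (Nat.modEq_iff_dvd' hnm).1 h
    have h2 := Nat.eq_zero_of_dvd_of_lt h1 (by omega)
    omega
  · have h1 := (Nat.modEq_iff_dvd' hnm).1 h.symm
    have h2 := Nat.eq_zero_of_dvd_of_lt h1 (by omega)
    omega

lemma char_orth {q : ℕ} [NeZero q] (n m : ZMod q) :
    ∑ χ : DirichletCharacter ℂ q, χ n * conj (χ m) = if m = n ∧ IsUnit m then (q.totient : ℂ) else 0 := by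
  by_cases hm : IsUnit m
  · have h := DirichletCharacter.sum_char_inv_mul_char_eq ℂ hm n
    have e : ∀ χ : DirichletCharacter ℂ q, χ n * conj (χ m) = χ m⁻¹ * χ n := by
      intro χ
      have h1 : conj (χ m) = χ m⁻¹ := by
        have h2 : χ m⁻¹ * χ m = 1 := by rw [← map_mul, ZMod.inv_mul_of_unit m hm, map_one]
        have h3 : conj (χ m) * χ m = 1 := by
          obtain ⟨v, rfl⟩ := hm
          rw [Complex.conj_mul', χ.unit_norm_eq_one v]
          norm_num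
        have h4 : χ m ≠ 0 := fun h0 => by rw [h0, mul_zero] at h2; exact zero_ne_one h2
        exact mul_right_cancel₀ h4 (h3.trans h2.symm)
      rw [h1]; ring
    rw [Finset.sum_congr rfl fun χ _ => e χ, h]
    simp [hm]
  · have e : ∀ χ : DirichletCharacter ℂ q, χ n * conj (χ m) = 0 := by
      intro χ
      rw [MulChar.map_nonunit χ hm, map_zero, mul_zero]
    rw [Finset.sum_congr rfl fun χ _ => e χ]
    simp [hm]

/-- orthogonality for sums up to `q` -/
theorem orth {q : ℕ} [NeZero q] (c : ℕ → ℂ) :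
    ∑ χ : DirichletCharacter ℂ q, ‖∑ n ∈ Finset.Ioc 0 q, χ (n : ZMod q) * c n‖ ^ 2 ≤
      q.totient * ∑ n ∈ Finset.Ioc 0 q, ‖c n‖ ^ 2 := by
  classical
  have h1 : ((∑ χ : DirichletCharacter ℂ q, ‖∑ n ∈ Finset.Ioc 0 q, χ (n : ZMod q) * c n‖ ^ 2 : ℝ) : ℂ) =
      ∑ n ∈ Finset.Ioc 0 q, ∑ m ∈ Finset.Ioc 0 q, (c n * conj (c m)) *
        (if (m : ZMod q) = (n : ZMod q) ∧ IsUnit (m : ZMod q) then (q.totient : ℂ) else 0) := by
    push_cast
    have e : ∀ χ : DirichletCharacter ℂ q, ((‖∑ n ∈ Finset.Ioc 0 q, χ (n : ZMod q) * c n‖ : ℂ)) ^ 2 =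
        ∑ n ∈ Finset.Ioc 0 q, ∑ m ∈ Finset.Ioc 0 q, (c n * conj (c m)) * (χ (n : ZMod q) * conj (χ (m : ZMod q))) := by
      intro χ
      rw [← Complex.mul_conj', map_sum, Finset.sum_mul_sum]
      apply Finset.sum_congr rfl
      intro n _
      apply Finset.sum_congr rfl
      intro m _
      rw [map_mul]
      ring
    rw [Finset.sum_congr rfl fun χ _ => e χ, Finset.sum_comm]
    apply Finset.sum_congr rfl
    intro n _
    rw [Finset.sum_comm]
    apply Finset.sum_congr rfl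
    intro m _
    rw [← Finset.mul_sum, char_orth]
  have h2 : ∑ n ∈ Finset.Ioc 0 q, ∑ m ∈ Finset.Ioc 0 q, (c n * conj (c m)) *
        (if (m : ZMod q) = (n : ZMod q) ∧ IsUnit (m : ZMod q) then (q.totient : ℂ) else 0) =
      ((∑ n ∈ Finset.Ioc 0 q, ‖c n‖ ^ 2 * (if IsUnit (n : ZMod q) then (q.totient : ℝ) else 0) : ℝ) : ℂ) := by
    push_cast
    apply Finset.sum_congr rfl
    intro n hn
    rw [Finset.sum_eq_single_of_mem n hn]
    · rw [Complex.mul_conj']
      by_cases h : IsUnit (n : ZMod q) <;> simp [h]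
    · intro m hm hmn
      rw [if_neg, mul_zero]
      rintro ⟨h, _⟩
      exact hmn (natCast_inj_Ioc hm hn h)
  rw [h2] at h1
  have h3 := Complex.ofReal_injective h1
  rw [h3, Finset.mul_sum]
  apply Finset.sum_le_sum
  intro n _
  have : (0 : ℝ) ≤ q.totient := Nat.cast_nonneg _
  split_ifs
  · linarith
  · rw [mul_zero]; positivity

/-- the terms of the sum over primes -/
noncomputable def tm (a : ℕ → ℂ) (κ u t : ℝ) (n : ℕ) : ℂ :=
  a n * (Real.sqrt n : ℂ)⁻¹ * (cexp (I * t * (u - Real.log n : ℝ)) * Real.exp (-(κ ^ 2 * (u - Real.log n) ^ 2 / 2)))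

lemma tm_norm (a : ℕ → ℂ) (κ u t : ℝ) (n : ℕ) :
    ‖tm a κ u t n‖ = ‖a n‖ * (Real.sqrt n)⁻¹ * Real.exp (-(κ ^ 2 * (u - Real.log n) ^ 2 / 2)) := by
  unfold tm
  rw [norm_mul, norm_mul, norm_mul, norm_inv, Complex.norm_real, Complex.norm_real, Real.norm_of_nonneg (Real.sqrt_nonneg _),
    Real.norm_of_nonneg (Real.exp_pos _).le,
    show I * t * ((u - Real.log n : ℝ) : ℂ) = ((t * (u - Real.log n) : ℝ) : ℂ) * I by push_cast; ring,
    Complex.norm_exp_ofReal_mul_I, one_mul]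

/-- the tail of the series -/
lemma tm_tail {a : ℕ → ℂ} (ha : ∀ n, ‖a n‖ ≤ vonMangoldt n) (q : ℕ) (κ δ u t : ℝ) (hδ : 0 < δ)
    (hδ1 : δ ≤ 1) (hk : 4 ≤ κ ^ 2 * δ ^ 2 * Real.log q) (hu : u ≤ (1 - δ) * Real.log q) (n : ℕ)
    (hn : n ∉ Finset.Ioc 0 q) : ‖tm a κ u t n‖ ≤ vonMangoldt n / (n : ℝ) ^ 2 := by
  rw [tm_norm]
  rcases Nat.eq_zero_or_pos n with h | h
  · subst h; simp
  have hnq : q < n := by
    rw [Finset.mem_Ioc] at hn
    omega
  have hq : 0 < q := by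
    rcases Nat.eq_zero_or_pos q with h0 | h0
    · subst h0
      simp at hk
      linarith
    · exact h0
  have hn1 : (1 : ℝ) ≤ n := by exact_mod_cast h
  have hL : Real.log q ≤ Real.log n := Real.log_le_log (by exact_mod_cast hq) (by exact_mod_cast hnq.le)
  have hL0 : 0 ≤ Real.log q := Real.log_natCast_nonneg q
  have hn0 : 0 ≤ Real.log n := hL0.trans hL
  have h1 : δ * Real.log n ≤ Real.log n - u := by
    have h2 := hu
    have h3 : (1 - δ) * Real.log q ≤ (1 - δ) * Real.log n := mul_le_mul_of_nonneg_left hL (by linarith)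
    linarith
  have h2 : (δ * Real.log n) ^ 2 ≤ (u - Real.log n) ^ 2 := by
    have : (u - Real.log n) ^ 2 = (Real.log n - u) ^ 2 := by ring
    rw [this]
    exact pow_le_pow_left₀ (by positivity) h1 2
  have h3 : 4 * Real.log n ≤ κ ^ 2 * (u - Real.log n) ^ 2 := by
    have h4 : κ ^ 2 * (δ * Real.log n) ^ 2 ≤ κ ^ 2 * (u - Real.log n) ^ 2 := mul_le_mul_of_nonneg_left h2 (sq_nonneg _)
    have h5 : κ ^ 2 * δ ^ 2 * Real.log q * Real.log n ≤ κ ^ 2 * δ ^ 2 * Real.log n * Real.log n := by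
      apply mul_le_mul_of_nonneg_right _ hn0
      exact mul_le_mul_of_nonneg_left hL (by positivity)
    have h6 : 4 * Real.log n ≤ κ ^ 2 * δ ^ 2 * Real.log q * Real.log n := mul_le_mul_of_nonneg_right hk hn0
    nlinarith
  have h4 : Real.exp (-(κ ^ 2 * (u - Real.log n) ^ 2 / 2)) ≤ 1 / (n : ℝ) ^ 2 := by
    have : 1 / (n : ℝ) ^ 2 = Real.exp (-(2 * Real.log n)) := by
      rw [Real.exp_neg, one_div]
      congr 1
      rw [show (2 : ℝ) * Real.log n = ((2 : ℕ) : ℝ) * Real.log n by norm_num, Real.exp_nat_mul, Real.exp_log (by linarith)]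
    rw [this]
    apply Real.exp_le_exp.2
    linarith
  have h5 : (Real.sqrt n)⁻¹ ≤ 1 := by
    apply inv_le_one_of_one_le₀
    rw [Real.one_le_sqrt]; exact hn1
  calc ‖a n‖ * (Real.sqrt n)⁻¹ * Real.exp (-(κ ^ 2 * (u - Real.log n) ^ 2 / 2))
      ≤ vonMangoldt n * 1 * (1 / (n : ℝ) ^ 2) := by
        apply mul_le_mul _ h4 (Real.exp_pos _).le (by have := vonMangoldt_nonneg (n := n); linarith)
        exact mul_le_mul (ha n) h5 (by positivity) vonMangoldt_nonneg
    _ = _ := by ring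

/-- the series up to a bounded error -/
lemma PP_trunc {a : ℕ → ℂ} (ha : ∀ n, ‖a n‖ ≤ vonMangoldt n) (q : ℕ) (κ δ u t : ℝ) (hδ : 0 < δ)
    (hδ1 : δ ≤ 1) (hk : 4 ≤ κ ^ 2 * δ ^ 2 * Real.log q) (hu : u ≤ (1 - δ) * Real.log q) :
    ‖PP a κ u t - ∑ n ∈ Finset.Ioc 0 q, tm a κ u t n‖ ≤ S0 := by
  classical
  set F : Finset ℕ := Finset.Ioc 0 q with hF
  set g1 : ℕ → ℂ := fun n => if n ∈ F then tm a κ u t n else 0 with hg1
  set g2 : ℕ → ℂ := fun n => if n ∈ F then 0 else tm a κ u t n with hg2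
  have hb2 : ∀ n, ‖g2 n‖ ≤ vonMangoldt n / (n : ℝ) ^ 2 := by
    intro n
    rw [hg2]
    simp only
    split_ifs with h
    · rw [norm_zero]; exact div_nonneg vonMangoldt_nonneg (by positivity)
    · exact tm_tail ha q κ δ u t hδ hδ1 hk hu n h
  have s2 : Summable g2 := Summable.of_norm_bounded vm_summable hb2
  have s1 : Summable g1 := summable_of_ne_finset_zero (s := F) fun n hn => by rw [hg1]; simp [hn]
  have e : PP a κ u t = ∑' n, g1 n + ∑' n, g2 n := by
    rw [← s1.tsum_add s2]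
    unfold PP
    apply tsum_congr
    intro n
    rw [hg1, hg2]
    simp only
    split_ifs <;> simp [tm]
  have e1 : ∑' n, g1 n = ∑ n ∈ F, tm a κ u t n := by
    rw [tsum_eq_sum (s := F) fun n hn => by rw [hg1]; simp [hn]]
    apply Finset.sum_congr rfl
    intro n hn
    rw [hg1]
    simp [hn]
  rw [e, e1, add_sub_cancel_left]
  exact tsum_of_norm_bounded vm_summable.hasSum hb2

/-- the mean square over the characters -/
theorem RA {q : ℕ} [NeZero q] (κ δ u t η B : ℝ) (hδ : 0 < δ)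
    (hδ1 : δ ≤ 1) (hk : 4 ≤ κ ^ 2 * δ ^ 2 * Real.log q) (hu : u ≤ (1 - δ) * Real.log q) (hη : 0 < η)
    (hB : ∑ n ∈ Finset.Ioc 0 q, vonMangoldt n ^ 2 / n * Real.exp (-(κ ^ 2 * (u - Real.log n) ^ 2)) ≤ B) :
    ∑ χ : DirichletCharacter ℂ q, ‖PP (ac χ) κ u t‖ ^ 2 ≤ q.totient * ((1 + η) * B + (1 + 1 / η) * S0 ^ 2) := by
  have h1 : ∀ χ : DirichletCharacter ℂ q, ‖PP (ac χ) κ u t‖ ^ 2 ≤
      (1 + η) * ‖∑ n ∈ Finset.Ioc 0 q, χ (n : ZMod q) * tm (fun n => (vonMangoldt n : ℂ)) κ u t n‖ ^ 2 +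
        (1 + 1 / η) * S0 ^ 2 := by
    intro χ
    have h2 := PP_trunc (ac_norm χ) q κ δ u t hδ hδ1 hk hu
    have e : ∑ n ∈ Finset.Ioc 0 q, tm (ac χ) κ u t n =
        ∑ n ∈ Finset.Ioc 0 q, χ (n : ZMod q) * tm (fun n => (vonMangoldt n : ℂ)) κ u t n := by
      apply Finset.sum_congr rfl
      intro n _
      unfold tm ac
      ring
    rw [e] at h2
    set P := ∑ n ∈ Finset.Ioc 0 q, χ (n : ZMod q) * tm (fun n => (vonMangoldt n : ℂ)) κ u t n with hP
    have h3 := TV.norm_add_sq_young P (PP (ac χ) κ u t - P) η hη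
    rw [add_sub_cancel] at h3
    refine h3.trans ?_
    have h4 : ‖PP (ac χ) κ u t - P‖ ^ 2 ≤ S0 ^ 2 := pow_le_pow_left₀ (norm_nonneg _) h2 2
    have h5 : 0 ≤ 1 + 1 / η := by positivity
    have := mul_le_mul_of_nonneg_left h4 h5
    linarith
  refine (Finset.sum_le_sum fun χ _ => h1 χ).trans ?_
  rw [Finset.sum_add_distrib, ← Finset.mul_sum, Finset.sum_const, nsmul_eq_mul]
  have hcard : ((Finset.univ : Finset (DirichletCharacter ℂ q)).card : ℝ) = q.totient := by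
    rw [Finset.card_univ, ← Nat.card_eq_fintype_card, DirichletCharacter.card_eq_totient_of_hasEnoughRootsOfUnity ℂ q]
  rw [hcard]
  have h2 := orth (q := q) (fun n => tm (fun n => (vonMangoldt n : ℂ)) κ u t n)
  have h3 : ∑ n ∈ Finset.Ioc 0 q, ‖tm (fun n => (vonMangoldt n : ℂ)) κ u t n‖ ^ 2 =
      ∑ n ∈ Finset.Ioc 0 q, vonMangoldt n ^ 2 / n * Real.exp (-(κ ^ 2 * (u - Real.log n) ^ 2)) := by
    apply Finset.sum_congr rfl
    intro n _
    rw [tm_norm, Complex.norm_real, Real.norm_of_nonneg vonMangoldt_nonneg, mul_pow, mul_pow, inv_pow,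
      Real.sq_sqrt (Nat.cast_nonneg n), ← Real.exp_nat_mul]
    rw [← div_eq_mul_inv]
    congr 2
    push_cast
    ring
  rw [h3] at h2
  have h4 : (q.totient : ℝ) * ∑ n ∈ Finset.Ioc 0 q, vonMangoldt n ^ 2 / n * Real.exp (-(κ ^ 2 * (u - Real.log n) ^ 2)) ≤
      q.totient * B := mul_le_mul_of_nonneg_left hB (Nat.cast_nonneg _)
  have h5 := mul_le_mul_of_nonneg_left (h2.trans h4) (by positivity : 0 ≤ 1 + η)
  linarith

end Pool.Agent.L5helper10.QV
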