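import Pool.Agent.L5helper10.QV.PI
import Pool.Agent.TH794.QD.Planch

/-! Plancherel's theorem for the sum over primes. -/

set_option autoImplicit false

open Filter Topology Set MeasureTheory Complex ComplexConjugate FourierTransform
open scoped ENNReal
open ArithmeticFunction (vonMangoldt vonMangoldt_nonneg vonMangoldt_le_log)

namespace Pool.Agent.L5helper10.QV

/-- the windowed Fourier transform -/
noncomputable def FT (g : ℝ → ℂ) (u t : ℝ) : ℂ := ∫ v : ℝ, g v * cexp (I * t * (u - v : ℝ))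

lemma FT_fourier (g : ℝ → ℂ) (u t : ℝ) : FT g u t = cexp (I * t * u) * 𝓕 g (t / (2 * Real.pi)) := by
  rw [Real.fourier_eq', ← integral_const_mul]
  unfold FT
  apply integral_congr_ae
  refine Eventually.of_forall fun v => ?_
  simp only
  rw [smul_eq_mul]
  have e1 : ((-2 * Real.pi * inner ℝ v (t / (2 * Real.pi)) : ℝ) : ℂ) * I = -(I * t * v) := by
    have : inner ℝ v (t / (2 * Real.pi)) = t / (2 * Real.pi) * v := by simp [mul_comm]
    rw [this]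
    push_cast
    have hpi : (Real.pi : ℂ) ≠ 0 := by exact_mod_cast Real.pi_ne_zero
    field_simp
  rw [e1, ← mul_assoc, ← Complex.exp_add, mul_comm]
  congr 2
  push_cast
  ring

lemma FT_norm (g : ℝ → ℂ) (u t : ℝ) : ‖FT g u t‖ = ‖𝓕 g (t / (2 * Real.pi))‖ := by
  rw [FT_fourier, norm_mul, show I * t * u = ((t * u : ℝ) : ℂ) * I by push_cast; ring,
    Complex.norm_exp_ofReal_mul_I, one_mul]

theorem FT_planch (g : ℝ → ℂ) (h1 : Integrable g) (hsq : Integrable (fun v => ‖g v‖ ^ 2)) (u : ℝ) :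
    Integrable (fun t : ℝ => ‖FT g u t‖ ^ 2) ∧
    ∫ t : ℝ, ‖FT g u t‖ ^ 2 = 2 * Real.pi * ∫ v : ℝ, ‖g v‖ ^ 2 := by
  have h2 : MemLp g 2 := by
    rw [memLp_two_iff_integrable_sq_norm h1.1]
    exact hsq
  have hpl := Pool.Agent.TH794.QD.plancherel g h1 h2
  have hc : Continuous (𝓕 g) := by
    exact VectorFourier.fourierIntegral_continuous Real.continuous_fourierChar
      (by exact continuous_inner) h1
  have hGi : ∫⁻ x, ‖g x‖ₑ ^ 2 = ENNReal.ofReal (∫ v : ℝ, ‖g v‖ ^ 2) := by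
    rw [ofReal_integral_eq_lintegral_ofReal hsq (Eventually.of_forall fun v => sq_nonneg _)]
    apply lintegral_congr
    intro v
    rw [← ofReal_norm, ← ENNReal.ofReal_pow (norm_nonneg _)]
  rw [hGi] at hpl
  have hFi : Integrable (fun ξ => ‖𝓕 g ξ‖ ^ 2) := by
    refine ⟨(hc.norm.pow 2).aestronglyMeasurable, ?_⟩
    rw [hasFiniteIntegral_iff_enorm]
    have : ∫⁻ ξ, ‖‖𝓕 g ξ‖ ^ 2‖ₑ = ∫⁻ ξ, ‖𝓕 g ξ‖ₑ ^ 2 := by
      apply lintegral_congr
      intro ξ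
      rw [enorm_pow, enorm_norm]
    rw [this, hpl]
    exact ENNReal.ofReal_lt_top
  have hFe : ∫ ξ, ‖𝓕 g ξ‖ ^ 2 = ∫ v : ℝ, ‖g v‖ ^ 2 := by
    rw [integral_eq_lintegral_of_nonneg_ae (Eventually.of_forall fun ξ => by positivity) hFi.1]
    have : ∫⁻ ξ, ENNReal.ofReal (‖𝓕 g ξ‖ ^ 2) = ∫⁻ ξ, ‖𝓕 g ξ‖ₑ ^ 2 := by
      apply lintegral_congr
      intro ξ
      rw [← ofReal_norm, ← ENNReal.ofReal_pow (norm_nonneg _)]
    rw [this, hpl, ENNReal.toReal_ofReal (integral_nonneg fun v => sq_nonneg _)]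
  have hpi : (2 * Real.pi) ≠ 0 := by positivity
  have hn : (fun t : ℝ => ‖FT g u t‖ ^ 2) = fun t : ℝ => (fun ξ => ‖𝓕 g ξ‖ ^ 2) (t / (2 * Real.pi)) := by
    funext t
    rw [FT_norm]
  rw [hn]
  refine ⟨hFi.comp_div hpi, ?_⟩
  rw [Measure.integral_comp_div (fun ξ => ‖𝓕 g ξ‖ ^ 2) (2 * Real.pi), hFe, abs_of_pos (by positivity), smul_eq_mul]

/-- the summatory function on the logarithmic scale -/
noncomputable def Ps (a : ℕ → ℂ) (v : ℝ) : ℂ := ∑ n ∈ Finset.Ioc 0 ⌊Real.exp v⌋₊, a n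

/-- normalised -/
noncomputable def ff (a : ℕ → ℂ) (v : ℝ) : ℂ := Ps a v * (Real.exp (-(v / 2)) : ℂ)

/-- the constant in the bound of Chebyshev -/
noncomputable def Kc : ℝ := Real.log 4 + 4

lemma Kc_pos : 0 < Kc := by
  unfold Kc
  have := Real.log_nonneg (show (1 : ℝ) ≤ 4 by norm_num)
  linarith

lemma Ps_norm {a : ℕ → ℂ} (ha : ∀ n, ‖a n‖ ≤ vonMangoldt n) (v : ℝ) : ‖Ps a v‖ ≤ Kc * Real.exp v := by
  unfold Ps
  refine (norm_sum_le _ _).trans ?_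
  have h1 : ∑ n ∈ Finset.Ioc 0 ⌊Real.exp v⌋₊, ‖a n‖ ≤ Chebyshev.psi (Real.exp v) := by
    unfold Chebyshev.psi
    exact Finset.sum_le_sum fun n _ => ha n
  exact h1.trans (Chebyshev.psi_le_const_mul_self (Real.exp_pos v).le)

lemma ff_norm {a : ℕ → ℂ} (ha : ∀ n, ‖a n‖ ≤ vonMangoldt n) (v : ℝ) : ‖ff a v‖ ≤ Kc * Real.exp (v / 2) := by
  unfold ff
  rw [norm_mul, Complex.norm_real, Real.norm_of_nonneg (Real.exp_pos _).le]
  have h1 := mul_le_mul_of_nonneg_right (Ps_norm ha v) (Real.exp_pos (-(v / 2))).le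
  refine h1.trans (le_of_eq ?_)
  rw [mul_assoc, ← Real.exp_add]
  congr 2
  ring

lemma ff_sq {a : ℕ → ℂ} (ha : ∀ n, ‖a n‖ ≤ vonMangoldt n) (v : ℝ) : ‖ff a v‖ ^ 2 ≤ Kc ^ 2 * Real.exp v := by
  have h := pow_le_pow_left₀ (norm_nonneg _) (ff_norm ha v) 2
  refine h.trans (le_of_eq ?_)
  rw [mul_pow, ← Real.exp_nat_mul]
  congr 2
  push_cast; ring

lemma Ps_meas (a : ℕ → ℂ) : Measurable (Ps a) := by
  have h1 : Measurable (fun m : ℕ => ∑ n ∈ Finset.Ioc 0 m, a n) := measurable_from_nat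
  exact h1.comp (Nat.measurable_floor.comp Real.measurable_exp)

lemma ff_meas (a : ℕ → ℂ) : Measurable (ff a) := by
  unfold ff
  exact (Ps_meas a).mul (by fun_prop)

/-- integrability with a Gaussian factor -/
lemma ff_gauss_int {a : ℕ → ℂ} (ha : ∀ n, ‖a n‖ ≤ vonMangoldt n) (κ u : ℝ) (hκ : 0 < κ) (ω : ℝ → ℝ) (hω : Continuous ω)
    (B : ℝ) (hB : ∀ w, |ω w| ≤ B * Real.exp (-(κ ^ 2 * w ^ 2 / 4))) :
    Integrable (fun v => ff a v * (ω (u - v) : ℂ)) ∧ Integrable (fun v => ‖ff a v * (ω (u - v) : ℂ)‖ ^ 2) := by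
  have hB0 : 0 ≤ B := by
    have := (abs_nonneg _).trans (hB 0)
    simpa using this
  have hm : Measurable (fun v => ff a v * (ω (u - v) : ℂ)) :=
    (ff_meas a).mul (Complex.measurable_ofReal.comp (hω.measurable.comp (by fun_prop)))
  -- the Gaussian majorants
  have hgi : ∀ b c : ℝ, 0 < b → Integrable (fun v : ℝ => Real.exp (c * v - b * (u - v) ^ 2)) := by
    intro b c hb
    have h1 : Integrable (fun x : ℝ => Real.exp (-b * x ^ 2)) := integrable_exp_neg_mul_sq hb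
    have h2 := (h1.comp_sub_right (u + c / (2 * b))).const_mul (Real.exp (c * u + c ^ 2 / (4 * b)))
    refine h2.congr (Eventually.of_forall fun v => ?_)
    simp only
    rw [← Real.exp_add]
    congr 1
    field_simp
    ring
  have hn : ∀ v, ‖ff a v * (ω (u - v) : ℂ)‖ ≤ Kc * B * Real.exp (1 / 2 * v - κ ^ 2 / 4 * (u - v) ^ 2) := by
    intro v
    rw [norm_mul, Complex.norm_real, Real.norm_eq_abs]
    calc ‖ff a v‖ * |ω (u - v)| ≤ (Kc * Real.exp (v / 2)) * (B * Real.exp (-(κ ^ 2 * (u - v) ^ 2 / 4))) :=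
          mul_le_mul (ff_norm ha v) (hB _) (abs_nonneg _) (mul_nonneg Kc_pos.le (Real.exp_pos _).le)
      _ = Kc * B * (Real.exp (v / 2) * Real.exp (-(κ ^ 2 * (u - v) ^ 2 / 4))) := by ring
      _ = _ := by rw [← Real.exp_add]; congr 2; ring
  refine ⟨((hgi (κ ^ 2 / 4) (1 / 2) (by positivity)).const_mul (Kc * B)).mono' hm.aestronglyMeasurable
    (Eventually.of_forall hn), ?_⟩
  refine ((hgi (κ ^ 2 / 2) 1 (by positivity)).const_mul ((Kc * B) ^ 2)).mono' (hm.norm.pow_const 2).aestronglyMeasurable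
    (Eventually.of_forall fun v => ?_)
  rw [Real.norm_of_nonneg (sq_nonneg _)]
  have h := pow_le_pow_left₀ (norm_nonneg _) (hn v) 2
  refine h.trans (le_of_eq ?_)
  rw [mul_pow, ← Real.exp_nat_mul]
  congr 2
  push_cast; ring

lemma w0_bd (κ w : ℝ) : |Real.exp (-(κ ^ 2 * w ^ 2 / 2))| ≤ 1 * Real.exp (-(κ ^ 2 * w ^ 2 / 4)) := by
  rw [abs_of_pos (Real.exp_pos _), one_mul]
  apply Real.exp_le_exp.2
  have : 0 ≤ κ ^ 2 * w ^ 2 := by positivity
  linarith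

lemma w1_bd (κ w : ℝ) : |κ * w * Real.exp (-(κ ^ 2 * w ^ 2 / 2))| ≤ 1 * Real.exp (-(κ ^ 2 * w ^ 2 / 4)) := by
  rw [abs_mul, abs_of_pos (Real.exp_pos _), one_mul]
  have h1 : |κ * w| ≤ Real.exp (κ ^ 2 * w ^ 2 / 4) := by
    have h2 := Real.add_one_le_exp (κ ^ 2 * w ^ 2 / 4)
    have h3 : |κ * w| ≤ κ ^ 2 * w ^ 2 / 4 + 1 := by
      have e : κ ^ 2 * w ^ 2 = |κ * w| ^ 2 := by rw [sq_abs]; ring
      rw [e]
      nlinarith [sq_nonneg (|κ * w| - 2)]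
    linarith
  calc |κ * w| * Real.exp (-(κ ^ 2 * w ^ 2 / 2)) ≤ Real.exp (κ ^ 2 * w ^ 2 / 4) * Real.exp (-(κ ^ 2 * w ^ 2 / 2)) :=
        mul_le_mul_of_nonneg_right h1 (Real.exp_pos _).le
    _ = _ := by rw [← Real.exp_add]; congr 1; ring

/-- the two transforms -/
noncomputable def T0 (a : ℕ → ℂ) (κ u t : ℝ) : ℂ :=
  FT (fun v => ff a v * ((Real.exp (-(κ ^ 2 * (u - v) ^ 2 / 2)) : ℝ) : ℂ)) u t

noncomputable def T1 (a : ℕ → ℂ) (κ u t : ℝ) : ℂ :=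
  FT (fun v => ff a v * ((κ * (u - v) * Real.exp (-(κ ^ 2 * (u - v) ^ 2 / 2)) : ℝ) : ℂ)) u t

end Pool.Agent.L5helper10.QV
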