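import Pool.Agent.L5helper10.QV.RB1

/-! Partial summation for the sum over primes. -/

set_option autoImplicit false

open Filter Topology Set MeasureTheory Complex ComplexConjugate FourierTransform
open ArithmeticFunction (vonMangoldt vonMangoldt_nonneg vonMangoldt_le_log)

namespace Pool.Agent.L5helper10.QV

/-- the smooth weight -/
noncomputable def Hk (κ u t v : ℝ) : ℂ := cexp (-(v / 2) + I * t * (u - v) - κ ^ 2 * (u - v) ^ 2 / 2)

/-- minus its derivative -/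
noncomputable def Wk (κ u t v : ℝ) : ℂ := Hk κ u t v * (1 / 2 + I * t - κ ^ 2 * (u - v))

lemma Hk_deriv (κ u t v : ℝ) : HasDerivAt (Hk κ u t) (-Wk κ u t v) v := by
  unfold Wk Hk
  have h0 : HasDerivAt (fun v : ℝ => (v : ℂ)) 1 v := Complex.ofRealCLM.hasDerivAt
  have h1 : HasDerivAt (fun v : ℝ => -((v : ℂ) / 2) + I * t * (u - v) - κ ^ 2 * ((u : ℂ) - v) ^ 2 / 2)
      (-(1 / 2) + I * t * (-1) - κ ^ 2 * (2 * ((u : ℂ) - v) * (-1)) / 2) v := by
    have h2 : HasDerivAt (fun v : ℝ => (u : ℂ) - v) (-1) v := by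
      simpa using h0.const_sub (u : ℂ)
    have h3 := h2.pow 2
    have h4 := ((h0.div_const 2).fun_neg.fun_add (h2.const_mul (I * t))).fun_sub ((h3.const_mul ((κ : ℂ) ^ 2)).div_const 2)
    refine h4.congr_deriv ?_
    push_cast
    ring
  have h5 := h1.cexp
  refine h5.congr_deriv ?_
  ring

lemma Hk_norm (κ u t v : ℝ) : ‖Hk κ u t v‖ = Real.exp (-(v / 2) - κ ^ 2 * (u - v) ^ 2 / 2) := by
  unfold Hk
  rw [Complex.norm_exp]
  congr 1
  have e : (-((v : ℂ) / 2) + I * t * (u - v) - κ ^ 2 * (u - v) ^ 2 / 2) =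
      ((-(v / 2) - κ ^ 2 * (u - v) ^ 2 / 2 : ℝ) : ℂ) + ((t * (u - v) : ℝ) : ℂ) * I := by
    push_cast; ring
  rw [e, Complex.add_re, Complex.ofReal_re, Complex.re_ofReal_mul, Complex.I_re]
  ring

lemma expo_bd (κ u v : ℝ) (hκ : 0 < κ) : -(v / 2) - κ ^ 2 * (u - v) ^ 2 / 4 ≤ (5 / 2 * u + 25 / (4 * κ ^ 2)) - 3 * v := by
  have h : 0 ≤ (κ * (u - v) / 2 + 5 / (2 * κ)) ^ 2 := sq_nonneg _
  have e : (κ * (u - v) / 2 + 5 / (2 * κ)) ^ 2 = κ ^ 2 * (u - v) ^ 2 / 4 + 5 / 2 * (u - v) + 25 / (4 * κ ^ 2) := by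
    field_simp
    ring
  rw [e] at h
  linarith

lemma Hk_le (κ u t v : ℝ) (hκ : 0 < κ) : ‖Hk κ u t v‖ ≤ Real.exp (5 / 2 * u + 25 / (4 * κ ^ 2)) * Real.exp (-3 * v) := by
  rw [Hk_norm, ← Real.exp_add]
  apply Real.exp_le_exp.2
  have h1 := expo_bd κ u v hκ
  have h2 : 0 ≤ κ ^ 2 * (u - v) ^ 2 := by positivity
  linarith

lemma Wk_le (κ u t v : ℝ) (hκ : 0 < κ) : ‖Wk κ u t v‖ ≤
    (1 / 2 + |t| + κ) * Real.exp (5 / 2 * u + 25 / (4 * κ ^ 2)) * Real.exp (-3 * v) := by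
  unfold Wk
  rw [norm_mul, Hk_norm]
  have h1 : ‖(1 / 2 + I * t - κ ^ 2 * (u - v) : ℂ)‖ ≤ 1 / 2 + |t| + κ * |κ * (u - v)| := by
    refine (norm_sub_le _ _).trans (add_le_add ((norm_add_le _ _).trans (add_le_add ?_ ?_)) ?_)
    · norm_num
    · rw [norm_mul, Complex.norm_I, one_mul, Complex.norm_real, Real.norm_eq_abs]
    · have e : ((κ : ℂ) ^ 2 * (u - v)) = ((κ ^ 2 * (u - v) : ℝ) : ℂ) := by push_cast; ring
      rw [e, Complex.norm_real, Real.norm_eq_abs, pow_two, mul_assoc, abs_mul, abs_of_pos hκ]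
  have h2 := w1_bd κ (u - v)
  have h3 := w0_bd κ (u - v)
  rw [abs_of_pos (Real.exp_pos _)] at h3
  rw [abs_mul, abs_of_pos (Real.exp_pos _)] at h2
  rw [one_mul] at h2 h3
  have h4 : Real.exp (-(v / 2) - κ ^ 2 * (u - v) ^ 2 / 2) * ‖(1 / 2 + I * t - κ ^ 2 * (u - v) : ℂ)‖ ≤
      Real.exp (-(v / 2)) * ((1 / 2 + |t| + κ) * Real.exp (-(κ ^ 2 * (u - v) ^ 2 / 4))) := by
    have e : Real.exp (-(v / 2) - κ ^ 2 * (u - v) ^ 2 / 2) = Real.exp (-(v / 2)) * Real.exp (-(κ ^ 2 * (u - v) ^ 2 / 2)) := by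
      rw [← Real.exp_add]; congr 1
    rw [e, mul_assoc]
    apply mul_le_mul_of_nonneg_left _ (Real.exp_pos _).le
    calc Real.exp (-(κ ^ 2 * (u - v) ^ 2 / 2)) * ‖(1 / 2 + I * t - κ ^ 2 * (u - v) : ℂ)‖ ≤
        Real.exp (-(κ ^ 2 * (u - v) ^ 2 / 2)) * (1 / 2 + |t| + κ * |κ * (u - v)|) :=
          mul_le_mul_of_nonneg_left h1 (Real.exp_pos _).le
      _ = (1 / 2 + |t|) * Real.exp (-(κ ^ 2 * (u - v) ^ 2 / 2)) + κ * (|κ * (u - v)| * Real.exp (-(κ ^ 2 * (u - v) ^ 2 / 2))) := by ring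
      _ ≤ (1 / 2 + |t|) * Real.exp (-(κ ^ 2 * (u - v) ^ 2 / 4)) + κ * Real.exp (-(κ ^ 2 * (u - v) ^ 2 / 4)) := by
          apply add_le_add
          · exact mul_le_mul_of_nonneg_left h3 (by positivity)
          · exact mul_le_mul_of_nonneg_left h2 hκ.le
      _ = _ := by ring
  refine h4.trans ?_
  have h5 : Real.exp (-(v / 2)) * Real.exp (-(κ ^ 2 * (u - v) ^ 2 / 4)) ≤
      Real.exp (5 / 2 * u + 25 / (4 * κ ^ 2)) * Real.exp (-3 * v) := by
    rw [← Real.exp_add, ← Real.exp_add]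
    apply Real.exp_le_exp.2
    have h1 := expo_bd κ u v hκ
    linarith
  calc Real.exp (-(v / 2)) * ((1 / 2 + |t| + κ) * Real.exp (-(κ ^ 2 * (u - v) ^ 2 / 4))) =
      (1 / 2 + |t| + κ) * (Real.exp (-(v / 2)) * Real.exp (-(κ ^ 2 * (u - v) ^ 2 / 4))) := by ring
    _ ≤ (1 / 2 + |t| + κ) * (Real.exp (5 / 2 * u + 25 / (4 * κ ^ 2)) * Real.exp (-3 * v)) :=
        mul_le_mul_of_nonneg_left h5 (by positivity)
    _ = _ := by ring

lemma Wk_cont (κ u t : ℝ) : Continuous (Wk κ u t) := by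
  unfold Wk Hk
  fun_prop

lemma Wk_int (κ u t c : ℝ) (hκ : 0 < κ) : IntegrableOn (Wk κ u t) (Ioi c) := by
  have h := (integrableOn_exp_mul_Ioi (show (-3 : ℝ) < 0 by norm_num) c).const_mul
    ((1 / 2 + |t| + κ) * Real.exp (5 / 2 * u + 25 / (4 * κ ^ 2)))
  exact h.mono' (Wk_cont κ u t).aestronglyMeasurable (Eventually.of_forall fun v => Wk_le κ u t v hκ)

lemma Wk_val (κ u t c : ℝ) (hκ : 0 < κ) : ∫ v in Ioi c, Wk κ u t v = Hk κ u t c := by
  have hT : Tendsto (Hk κ u t) atTop (𝓝 0) := by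
    apply squeeze_zero_norm (fun v => Hk_le κ u t v hκ)
    have h1 : Tendsto (fun v : ℝ => Real.exp (-3 * v)) atTop (𝓝 0) :=
      Real.tendsto_exp_atBot.comp (tendsto_id.const_mul_atTop_of_neg (by norm_num))
    simpa using h1.const_mul (Real.exp (5 / 2 * u + 25 / (4 * κ ^ 2)))
  have h := integral_Ioi_of_hasDerivAt_of_tendsto (f := Hk κ u t) (f' := fun v => -Wk κ u t v) (a := c) (m := 0)
    ((Hk_deriv κ u t c).continuousAt.continuousWithinAt) (fun v _ => Hk_deriv κ u t v) (Wk_int κ u t c hκ).neg hT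
  rw [integral_neg, zero_sub, neg_inj] at h
  exact h

lemma Wk_norm_int (κ u t c : ℝ) (hκ : 0 < κ) : ∫ v in Ioi c, ‖Wk κ u t v‖ ≤
    (1 / 2 + |t| + κ) * Real.exp (5 / 2 * u + 25 / (4 * κ ^ 2)) * Real.exp (-3 * c) := by
  have h := integrableOn_exp_mul_Ioi (show (-3 : ℝ) < 0 by norm_num) c
  refine (setIntegral_mono (Wk_int κ u t c hκ).norm (h.const_mul
    ((1 / 2 + |t| + κ) * Real.exp (5 / 2 * u + 25 / (4 * κ ^ 2)))) (fun v => Wk_le κ u t v hκ)).trans ?_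
  rw [integral_const_mul, integral_exp_mul_Ioi (show (-3 : ℝ) < 0 by norm_num) c]
  apply mul_le_mul_of_nonneg_left _ (by positivity)
  have := Real.exp_pos (-3 * c)
  rw [neg_div_neg_eq]
  linarith

lemma Hk_log (a : ℕ → ℂ) (κ u t : ℝ) (n : ℕ) (hn : 0 < n) : tm a κ u t n = a n * Hk κ u t (Real.log n) := by
  unfold tm Hk
  have hn0 : (0 : ℝ) < n := by exact_mod_cast hn
  have e1 : ((Real.sqrt n : ℝ) : ℂ)⁻¹ = ((Real.exp (-(Real.log n / 2)) : ℝ) : ℂ) := by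
    rw [← Complex.ofReal_inv]
    congr 1
    rw [Real.exp_neg, inv_inj, Real.sqrt_eq_rpow, Real.rpow_def_of_pos hn0]
    congr 1; ring
  rw [e1, mul_assoc]
  congr 1
  rw [Complex.ofReal_exp, Complex.ofReal_exp, ← Complex.exp_add, ← Complex.exp_add]
  congr 1
  push_cast
  ring

/-- partial summation -/
theorem PP_int {a : ℕ → ℂ} (ha : ∀ n, ‖a n‖ ≤ vonMangoldt n) (κ u t : ℝ) (hκ : 0 < κ) :
    PP a κ u t = ∫ v : ℝ, Ps a v * Wk κ u t v := by
  classical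
  have ha0 : a 0 = 0 := by
    have := ha 0
    simpa using this
  set C : ℝ := (1 / 2 + |t| + κ) * Real.exp (5 / 2 * u + 25 / (4 * κ ^ 2)) with hC
  have hC0 : 0 ≤ C := by positivity
  set F : ℕ → ℝ → ℂ := fun n v => if 0 < n then (Ioi (Real.log n)).indicator (fun v => a n * Wk κ u t v) v else 0 with hF
  have hFint : ∀ n, Integrable (F n) := by
    intro n
    rcases Nat.eq_zero_or_pos n with h | h
    · subst h
      simp [hF]
    · have : F n = (Ioi (Real.log n)).indicator (fun v => a n * Wk κ u t v) := by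
        funext v; simp [hF, h]
      rw [this, integrable_indicator_iff measurableSet_Ioi]
      exact (Wk_int κ u t _ hκ).const_mul (a n)
  have hFn : ∀ n, ∫ v, ‖F n v‖ ≤ C * (vonMangoldt n / (n : ℝ) ^ 2) := by
    intro n
    rcases Nat.eq_zero_or_pos n with h | h
    · subst h
      simp [hF]
    · have hn0 : (0 : ℝ) < n := by exact_mod_cast h
      have hn1 : (1 : ℝ) ≤ n := by exact_mod_cast h
      have e1 : (fun v => ‖F n v‖) = (Ioi (Real.log n)).indicator (fun v => ‖a n‖ * ‖Wk κ u t v‖) := by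
        funext v
        simp only [hF, h, if_true]
        rw [norm_indicator_eq_indicator_norm]
        congr 1
        funext v
        rw [norm_mul]
      rw [e1, integral_indicator measurableSet_Ioi, integral_const_mul]
      have h1 := Wk_norm_int κ u t (Real.log n) hκ
      have h2 : Real.exp (-3 * Real.log n) ≤ 1 / (n : ℝ) ^ 2 := by
        rw [show -3 * Real.log n = -(3 * Real.log n) by ring, Real.exp_neg,
          show 3 * Real.log n = Real.log n + Real.log n + Real.log n by ring, Real.exp_add, Real.exp_add, Real.exp_log hn0,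
          ← one_div]
        apply one_div_le_one_div_of_le (by positivity)
        nlinarith [sq_nonneg (n : ℝ)]
      calc ‖a n‖ * ∫ v in Ioi (Real.log n), ‖Wk κ u t v‖ ≤ vonMangoldt n * (C * (1 / (n : ℝ) ^ 2)) := by
            apply mul_le_mul (ha n) (h1.trans (mul_le_mul_of_nonneg_left h2 hC0))
              (integral_nonneg fun v => norm_nonneg _) vonMangoldt_nonneg
        _ = _ := by ring
  have hsum : Summable (fun n => ∫ v, ‖F n v‖) :=
    Summable.of_nonneg_of_le (fun n => integral_nonneg fun v => norm_nonneg _) hFn (vm_summable.mul_left C)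
  have hS := hasSum_integral_of_summable_integral_norm hFint hsum
  have h1 : ∀ n, ∫ v, F n v = tm a κ u t n := by
    intro n
    rcases Nat.eq_zero_or_pos n with h | h
    · subst h
      simp [hF, tm, ha0]
    · have : F n = (Ioi (Real.log n)).indicator (fun v => a n * Wk κ u t v) := by
        funext v; simp [hF, h]
      rw [this, integral_indicator measurableSet_Ioi, integral_const_mul, Wk_val κ u t _ hκ, Hk_log a κ u t n h]
  simp only [h1] at hS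
  rw [PP_eq, hS.tsum_eq]
  -- the pointwise value, off a countable set
  have hnull : ∀ᵐ v : ℝ, v ∉ Set.range (fun n : ℕ => Real.log n) :=
    (Set.countable_range _).ae_notMem _
  apply integral_congr_ae
  filter_upwards [hnull] with v hv
  rw [tsum_eq_sum (s := Finset.Ioc 0 ⌊Real.exp v⌋₊)]
  · unfold Ps
    rw [Finset.sum_mul]
    apply Finset.sum_congr rfl
    intro n hn
    rw [Finset.mem_Ioc] at hn
    have hn0 : (0 : ℝ) < n := by exact_mod_cast hn.1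
    have h2 : (n : ℝ) ≤ Real.exp v := (Nat.le_floor_iff (Real.exp_pos v).le).1 hn.2
    have h3 : Real.log n ≤ v := (Real.log_le_iff_le_exp hn0).2 h2
    have h4 : Real.log n < v := lt_of_le_of_ne h3 (fun h => hv ⟨n, h⟩)
    simp only [hF, hn.1, if_true]
    rw [Set.indicator_of_mem (show v ∈ Ioi (Real.log n) from h4)]
  · intro n hn
    simp only [hF]
    split_ifs with h
    · rw [Set.indicator_of_notMem]
      intro h2
      apply hn
      rw [Finset.mem_Ioc]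
      refine ⟨h, (Nat.le_floor_iff (Real.exp_pos v).le).2 ?_⟩
      have hn0 : (0 : ℝ) < n := by exact_mod_cast h
      exact (Real.log_le_iff_le_exp hn0).1 (le_of_lt h2)
    · rfl

lemma FT_int (g : ℝ → ℂ) (hg : Integrable g) (u t : ℝ) : Integrable (fun v => g v * cexp (I * t * (u - v : ℝ))) := by
  have hc : Continuous (fun v : ℝ => cexp (I * t * ((u - v : ℝ) : ℂ))) := by fun_prop
  refine hg.norm.mono' (hg.1.mul hc.aestronglyMeasurable) (Eventually.of_forall fun v => ?_)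
  rw [norm_mul, show I * t * ((u - v : ℝ) : ℂ) = ((t * (u - v) : ℝ) : ℂ) * I by push_cast; ring,
    Complex.norm_exp_ofReal_mul_I, mul_one]

theorem PP_T {a : ℕ → ℂ} (ha : ∀ n, ‖a n‖ ≤ vonMangoldt n) (κ u t : ℝ) (hκ : 0 < κ) :
    PP a κ u t = (1 / 2 + I * t) * T0 a κ u t - κ * T1 a κ u t := by
  rw [PP_int ha κ u t hκ]
  unfold T0 T1 FT
  have i0 := FT_int _ (ff_gauss_int ha κ u hκ (fun w => Real.exp (-(κ ^ 2 * w ^ 2 / 2))) (by fun_prop) 1 (w0_bd κ)).1 u t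
  have i1 := FT_int _ (ff_gauss_int ha κ u hκ (fun w => κ * w * Real.exp (-(κ ^ 2 * w ^ 2 / 2))) (by fun_prop) 1 (w1_bd κ)).1 u t
  rw [← integral_const_mul, ← integral_const_mul, ← integral_sub (i0.const_mul _) (i1.const_mul _)]
  apply integral_congr_ae
  refine Eventually.of_forall fun v => ?_
  simp only
  unfold ff Wk Hk
  have e : cexp (-((v : ℂ) / 2) + I * t * (u - v) - κ ^ 2 * (u - v) ^ 2 / 2) =
      ((Real.exp (-(v / 2)) : ℝ) : ℂ) * cexp (I * t * ((u - v : ℝ) : ℂ)) * ((Real.exp (-(κ ^ 2 * (u - v) ^ 2 / 2)) : ℝ) : ℂ) := by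
    rw [Complex.ofReal_exp, Complex.ofReal_exp, ← Complex.exp_add, ← Complex.exp_add]
    congr 1
    push_cast; ring
  rw [e]
  push_cast
  ring

/-- the majorant -/
noncomputable def FM (a : ℕ → ℂ) (κ u η t : ℝ) : ℝ :=
  (1 + η) * ‖T0 a κ u t‖ ^ 2 + (1 + 1 / η) * (4 * κ ^ 2) * ‖T1 a κ u t‖ ^ 2

theorem PP_FM {a : ℕ → ℂ} (ha : ∀ n, ‖a n‖ ≤ vonMangoldt n) (κ u t η : ℝ) (hκ : 0 < κ) (hη : 0 < η) :
    ‖PP a κ u t‖ ^ 2 ≤ (1 / 4 + t ^ 2) * FM a κ u η t := by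
  rw [PP_T ha κ u t hκ]
  have h1 := TV.norm_add_sq_young ((1 / 2 + I * t) * T0 a κ u t) (-(κ * T1 a κ u t)) η hη
  rw [← sub_eq_add_neg, norm_neg, norm_mul, norm_mul, mul_pow, mul_pow] at h1
  have h2 : ‖(1 / 2 + I * t : ℂ)‖ ^ 2 = 1 / 4 + t ^ 2 := by
    rw [Complex.sq_norm, Complex.normSq_apply]
    simp
    ring
  have h3 : ‖(κ : ℂ)‖ ^ 2 = κ ^ 2 := by
    rw [Complex.norm_real, Real.norm_eq_abs, sq_abs]
  rw [h2, h3] at h1
  unfold FM
  have h4 : 0 ≤ (1 + 1 / η) * (κ ^ 2 * ‖T1 a κ u t‖ ^ 2) := by positivity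
  have h5 : (1 + 1 / η) * (κ ^ 2 * ‖T1 a κ u t‖ ^ 2) ≤ (1 / 4 + t ^ 2) * ((1 + 1 / η) * (4 * κ ^ 2) * ‖T1 a κ u t‖ ^ 2) := by
    have h6 : 0 ≤ t ^ 2 := sq_nonneg t
    nlinarith
  linarith

theorem FM_int {a : ℕ → ℂ} (ha : ∀ n, ‖a n‖ ≤ vonMangoldt n) (κ u η : ℝ) (hκ : 0 < κ) (hη : 0 < η) :
    Integrable (FM a κ u η) ∧ ∫ t, FM a κ u η t ≤ 2 * Real.pi * ((1 + η) * (∫ v, ‖ff a v‖ ^ 2 * Real.exp (-(κ ^ 2 * (u - v) ^ 2))) +
      (1 + 1 / η) * (4 * κ ^ 2) * (∫ v, ‖ff a v‖ ^ 2 * Real.exp (-(κ ^ 2 * (u - v) ^ 2 / 2)))) := by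
  have g0 := ff_gauss_int ha κ u hκ (fun w => Real.exp (-(κ ^ 2 * w ^ 2 / 2))) (by fun_prop) 1 (w0_bd κ)
  have g1 := ff_gauss_int ha κ u hκ (fun w => κ * w * Real.exp (-(κ ^ 2 * w ^ 2 / 2))) (by fun_prop) 1 (w1_bd κ)
  obtain ⟨p0, q0⟩ := FT_planch _ g0.1 g0.2 u
  obtain ⟨p1, q1⟩ := FT_planch _ g1.1 g1.2 u
  have p0' : Integrable (fun t => ‖T0 a κ u t‖ ^ 2) := p0
  have p1' : Integrable (fun t => ‖T1 a κ u t‖ ^ 2) := p1
  refine ⟨(p0'.const_mul _).add (p1'.const_mul _), ?_⟩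
  unfold FM
  rw [integral_add (p0'.const_mul _) (p1'.const_mul _), integral_const_mul, integral_const_mul]
  have q0' : ∫ t, ‖T0 a κ u t‖ ^ 2 = 2 * Real.pi * ∫ v, ‖ff a v‖ ^ 2 * Real.exp (-(κ ^ 2 * (u - v) ^ 2)) := by
    unfold T0
    rw [q0]
    congr 1
    apply integral_congr_ae
    refine Eventually.of_forall fun v => ?_
    simp only
    rw [norm_mul, Complex.norm_real, Real.norm_eq_abs, abs_of_pos (Real.exp_pos _), mul_pow, ← Real.exp_nat_mul]
    congr 2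
    push_cast; ring
  have hi : Integrable (fun v => ‖ff a v‖ ^ 2 * Real.exp (-(κ ^ 2 * (u - v) ^ 2 / 2))) := by
    have h := (ff_gauss_int ha κ u hκ (fun w => Real.exp (-(κ ^ 2 * w ^ 2 / 4))) (by fun_prop) 1 (fun w => by
      rw [abs_of_pos (Real.exp_pos _), one_mul])).2
    refine h.congr (Eventually.of_forall fun v => ?_)
    simp only
    rw [norm_mul, Complex.norm_real, Real.norm_eq_abs, abs_of_pos (Real.exp_pos _), mul_pow, ← Real.exp_nat_mul]
    congr 2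
    push_cast; ring
  have q1' : ∫ t, ‖T1 a κ u t‖ ^ 2 ≤ 2 * Real.pi * ∫ v, ‖ff a v‖ ^ 2 * Real.exp (-(κ ^ 2 * (u - v) ^ 2 / 2)) := by
    unfold T1
    rw [q1]
    apply mul_le_mul_of_nonneg_left _ (by positivity)
    apply integral_mono g1.2 hi
    intro v
    simp only
    rw [norm_mul, Complex.norm_real, Real.norm_eq_abs, mul_pow]
    apply mul_le_mul_of_nonneg_left _ (sq_nonneg _)
    have h := pow_le_pow_left₀ (abs_nonneg _) (w1_bd κ (u - v)) 2
    refine h.trans (le_of_eq ?_)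
    rw [one_mul, ← Real.exp_nat_mul]
    congr 1
    push_cast; ring
  rw [q0']
  have h2 : 0 ≤ (1 + 1 / η) * (4 * κ ^ 2) := by positivity
  have h3 := mul_le_mul_of_nonneg_left q1' h2
  nlinarith [h3]

end Pool.Agent.L5helper10.QV
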