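import Pool.Agent.L5helper10.QV.RB2

/-! Integrating the convolution with a Gaussian against a weight. -/

set_option autoImplicit false

open Filter Topology Set MeasureTheory

namespace Pool.Agent.L5helper10.QV

lemma gauss_exp (β u : ℝ) (hβ : 0 < β) : Integrable (fun v : ℝ => Real.exp (v - β ^ 2 * (u - v) ^ 2 / 2)) ∧
    ∫ v : ℝ, Real.exp (v - β ^ 2 * (u - v) ^ 2 / 2) = Real.exp (u + 1 / (2 * β ^ 2)) * (Real.sqrt (2 * Real.pi) / β) := by
  have hb : 0 < β ^ 2 / 2 := by positivity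
  have e : (fun v : ℝ => Real.exp (v - β ^ 2 * (u - v) ^ 2 / 2)) =
      fun v : ℝ => Real.exp (u + 1 / (2 * β ^ 2)) * (fun x : ℝ => Real.exp (-(β ^ 2 / 2) * x ^ 2)) (v - (u + 1 / β ^ 2)) := by
    funext v
    simp only
    rw [← Real.exp_add]
    congr 1
    field_simp
    ring
  have h1 : Integrable (fun x : ℝ => Real.exp (-(β ^ 2 / 2) * x ^ 2)) := integrable_exp_neg_mul_sq hb
  constructor
  · rw [e]
    exact (h1.comp_sub_right (u + 1 / β ^ 2)).const_mul _
  · rw [e, integral_const_mul, integral_sub_right_eq_self (fun x : ℝ => Real.exp (-(β ^ 2 / 2) * x ^ 2)), integral_gaussian]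
    congr 1
    rw [show Real.pi / (β ^ 2 / 2) = 2 * Real.pi / β ^ 2 by field_simp, Real.sqrt_div (by positivity), Real.sqrt_sq hβ.le]

lemma gauss_part (β v a b : ℝ) (hβ : 0 < β) : ∫ u in Ioc a b, Real.exp (-(β ^ 2 * (u - v) ^ 2)) ≤ Real.sqrt Real.pi / β := by
  have hb : 0 < β ^ 2 := by positivity
  have h1 : Integrable (fun x : ℝ => Real.exp (-(β ^ 2) * x ^ 2)) := integrable_exp_neg_mul_sq hb
  have h2 : Integrable (fun u : ℝ => Real.exp (-(β ^ 2 * (u - v) ^ 2))) := by
    refine (h1.comp_sub_right v).congr (Eventually.of_forall fun u => ?_)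
    simp only
    congr 1; ring
  have h3 := setIntegral_le_integral (s := Ioc a b) h2 (Eventually.of_forall fun u => (Real.exp_pos _).le)
  refine h3.trans (le_of_eq ?_)
  have e : (fun u : ℝ => Real.exp (-(β ^ 2 * (u - v) ^ 2))) = fun u => (fun x : ℝ => Real.exp (-(β ^ 2) * x ^ 2)) (u - v) := by
    funext u
    simp only
    congr 1; ring
  rw [e, integral_sub_right_eq_self (fun x : ℝ => Real.exp (-(β ^ 2) * x ^ 2)), integral_gaussian,
    Real.sqrt_div Real.pi_pos.le, Real.sqrt_sq hβ.le]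

theorem conv_bd (Φ g gp : ℝ → ℝ) (hΦm : Measurable Φ) (hΦ0 : ∀ v, 0 ≤ Φ v) (M : ℝ) (hΦ : ∀ v, Φ v ≤ M * Real.exp v)
    (hg0 : ∀ u, 0 ≤ g u) (B : ℝ) (hgB : ∀ u, g u ≤ B)
    (hgpm : Measurable gp) (hgp0 : ∀ v, 0 ≤ gp v) (hgpB : ∀ v, gp v ≤ B) (a b Δ : ℝ) (hab : a ≤ b)
    (hsh : ∀ u v, u ∈ Icc a b → |u - v| ≤ Δ → g u ≤ gp v) (hΔ : 0 ≤ Δ)
    (β : ℝ) (hβ : 0 < β) :
    ∫ u in Ioc a b, g u * ∫ v, Φ v * Real.exp (-(β ^ 2 * (u - v) ^ 2)) ≤
      (Real.sqrt Real.pi / β) * (∫ v in Icc (a - Δ) (b + Δ), gp v * Φ v) +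
      (b - a) * (B * M * Real.exp (-(β ^ 2 * Δ ^ 2 / 2)) * (Real.exp (b + 1 / (2 * β ^ 2)) * (Real.sqrt (2 * Real.pi) / β))) := by
  have hM0 : 0 ≤ M := by
    have := (hΦ0 0).trans (hΦ 0)
    simpa using this
  have hB0 : 0 ≤ B := (hg0 0).trans (hgB 0)
  set J : Set ℝ := Icc (a - Δ) (b + Δ) with hJ
  have hJm : MeasurableSet J := measurableSet_Icc
  have hfull : ∀ u, Integrable (fun v => Φ v * Real.exp (-(β ^ 2 * (u - v) ^ 2))) := by
    intro u
    refine ((gauss_exp β u hβ).1.const_mul M).mono' (hΦm.mul (by fun_prop)).aestronglyMeasurable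
      (Eventually.of_forall fun v => ?_)
    rw [Real.norm_of_nonneg (mul_nonneg (hΦ0 v) (Real.exp_pos _).le)]
    have h1 : Real.exp (-(β ^ 2 * (u - v) ^ 2)) ≤ Real.exp (-(β ^ 2 * (u - v) ^ 2 / 2)) := by
      apply Real.exp_le_exp.2
      have : 0 ≤ β ^ 2 * (u - v) ^ 2 := by positivity
      linarith
    calc Φ v * Real.exp (-(β ^ 2 * (u - v) ^ 2)) ≤ (M * Real.exp v) * Real.exp (-(β ^ 2 * (u - v) ^ 2 / 2)) :=
          mul_le_mul (hΦ v) h1 (Real.exp_pos _).le (by positivity)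
      _ = _ := by rw [mul_assoc, ← Real.exp_add]; congr 2
  have hgpΦ : ∀ v ∈ J, gp v * Φ v ≤ B * (M * Real.exp (b + Δ)) := by
    intro v hv
    exact mul_le_mul (hgpB v) ((hΦ v).trans (mul_le_mul_of_nonneg_left (Real.exp_le_exp.2 hv.2) hM0)) (hΦ0 v) hB0
  have hKint : Integrable (Function.uncurry fun u v : ℝ => gp v * Φ v * Real.exp (-(β ^ 2 * (u - v) ^ 2)))
      ((volume.restrict (Ioc a b)).prod (volume.restrict J)) := by
    have hfin1 : IsFiniteMeasure (volume.restrict (Ioc a b)) := ⟨by simp⟩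
    have hfin2 : IsFiniteMeasure (volume.restrict J) := ⟨by simp [hJ]⟩
    refine Integrable.of_bound (C := B * (M * Real.exp (b + Δ))) ?_ ?_
    · apply Measurable.aestronglyMeasurable
      have m1 : Measurable fun p : ℝ × ℝ => gp p.2 := hgpm.comp measurable_snd
      have m2 : Measurable fun p : ℝ × ℝ => Φ p.2 := hΦm.comp measurable_snd
      have m3 : Measurable fun p : ℝ × ℝ => Real.exp (-(β ^ 2 * (p.1 - p.2) ^ 2)) := by fun_prop
      exact (m1.mul m2).mul m3
    · rw [Measure.prod_restrict, ae_restrict_iff' (measurableSet_Ioc.prod hJm)]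
      refine Eventually.of_forall fun p hp => ?_
      simp only [Function.uncurry]
      rw [Real.norm_of_nonneg (mul_nonneg (mul_nonneg (hgp0 _) (hΦ0 _)) (Real.exp_pos _).le)]
      have h1 : Real.exp (-(β ^ 2 * (p.1 - p.2) ^ 2)) ≤ 1 := by
        rw [← Real.exp_zero]
        apply Real.exp_le_exp.2
        have : 0 ≤ β ^ 2 * (p.1 - p.2) ^ 2 := by positivity
        linarith
      calc gp p.2 * Φ p.2 * Real.exp (-(β ^ 2 * (p.1 - p.2) ^ 2)) ≤ (B * (M * Real.exp (b + Δ))) * 1 :=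
            mul_le_mul (hgpΦ _ hp.2) h1 (Real.exp_pos _).le (by positivity)
        _ = _ := mul_one _
  set Er : ℝ := B * M * Real.exp (-(β ^ 2 * Δ ^ 2 / 2)) * (Real.exp (b + 1 / (2 * β ^ 2)) * (Real.sqrt (2 * Real.pi) / β)) with hEr
  have hpt : ∀ u ∈ Ioc a b, g u * ∫ v, Φ v * Real.exp (-(β ^ 2 * (u - v) ^ 2)) ≤
      (∫ v in J, gp v * Φ v * Real.exp (-(β ^ 2 * (u - v) ^ 2))) + Er := by
    intro u hu
    have hJi : IntegrableOn (fun v => gp v * Φ v * Real.exp (-(β ^ 2 * (u - v) ^ 2))) J := by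
      have hfin2 : IsFiniteMeasure (volume.restrict J) := ⟨by simp [hJ]⟩
      refine Integrable.of_bound (C := B * (M * Real.exp (b + Δ))) ?_ ?_
      · exact ((hgpm.mul hΦm).mul (by fun_prop)).aestronglyMeasurable
      · rw [ae_restrict_iff' hJm]
        refine Eventually.of_forall fun v hv => ?_
        rw [Real.norm_of_nonneg (mul_nonneg (mul_nonneg (hgp0 _) (hΦ0 _)) (Real.exp_pos _).le)]
        have h1 : Real.exp (-(β ^ 2 * (u - v) ^ 2)) ≤ 1 := by
          rw [← Real.exp_zero]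
          apply Real.exp_le_exp.2
          have : 0 ≤ β ^ 2 * (u - v) ^ 2 := by positivity
          linarith
        calc gp v * Φ v * Real.exp (-(β ^ 2 * (u - v) ^ 2)) ≤ (B * (M * Real.exp (b + Δ))) * 1 :=
              mul_le_mul (hgpΦ _ hv) h1 (Real.exp_pos _).le (by positivity)
          _ = _ := mul_one _
    have hge := gauss_exp β u hβ
    rw [← integral_const_mul, ← integral_indicator hJm]
    have hsum : ∫ v, (g u * (Φ v * Real.exp (-(β ^ 2 * (u - v) ^ 2)))) ≤
        ∫ v, (J.indicator (fun v => gp v * Φ v * Real.exp (-(β ^ 2 * (u - v) ^ 2))) v +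
          B * M * Real.exp (-(β ^ 2 * Δ ^ 2 / 2)) * Real.exp (v - β ^ 2 * (u - v) ^ 2 / 2)) := by
      apply integral_mono ((hfull u).const_mul _) (((integrable_indicator_iff hJm).2 hJi).add (hge.1.const_mul _))
      intro v
      show g u * (Φ v * Real.exp (-(β ^ 2 * (u - v) ^ 2))) ≤
        J.indicator (fun v => gp v * Φ v * Real.exp (-(β ^ 2 * (u - v) ^ 2))) v +
          B * M * Real.exp (-(β ^ 2 * Δ ^ 2 / 2)) * Real.exp (v - β ^ 2 * (u - v) ^ 2 / 2)
      have hpos2 : 0 ≤ B * M * Real.exp (-(β ^ 2 * Δ ^ 2 / 2)) * Real.exp (v - β ^ 2 * (u - v) ^ 2 / 2) := by positivity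
      by_cases hv : |u - v| ≤ Δ
      · have hvJ : v ∈ J := by
          rw [hJ]
          have h3 := abs_le.1 hv
          exact ⟨by linarith [hu.1, h3.2], by linarith [hu.2, h3.1]⟩
        rw [Set.indicator_of_mem hvJ]
        have h4 := hsh u v ⟨hu.1.le, hu.2⟩ hv
        have h5 : 0 ≤ Φ v * Real.exp (-(β ^ 2 * (u - v) ^ 2)) := mul_nonneg (hΦ0 v) (Real.exp_pos _).le
        have h6 := mul_le_mul_of_nonneg_right h4 h5
        linarith
      · have hind : 0 ≤ J.indicator (fun v => gp v * Φ v * Real.exp (-(β ^ 2 * (u - v) ^ 2))) v :=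
          Set.indicator_nonneg (fun w _ => mul_nonneg (mul_nonneg (hgp0 _) (hΦ0 _)) (Real.exp_pos _).le) v
        have h5 : g u * (Φ v * Real.exp (-(β ^ 2 * (u - v) ^ 2))) ≤
            B * M * Real.exp (-(β ^ 2 * Δ ^ 2 / 2)) * Real.exp (v - β ^ 2 * (u - v) ^ 2 / 2) := by
          have h6 : Real.exp (-(β ^ 2 * (u - v) ^ 2)) ≤ Real.exp (-(β ^ 2 * Δ ^ 2 / 2)) * Real.exp (-(β ^ 2 * (u - v) ^ 2 / 2)) := by
            rw [← Real.exp_add]
            apply Real.exp_le_exp.2
            have h7 : Δ ^ 2 ≤ (u - v) ^ 2 := by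
              rw [← sq_abs (u - v)]
              exact pow_le_pow_left₀ hΔ (not_le.1 hv).le 2
            have h8 := mul_le_mul_of_nonneg_left h7 (sq_nonneg β)
            linarith
          calc g u * (Φ v * Real.exp (-(β ^ 2 * (u - v) ^ 2))) ≤
              B * ((M * Real.exp v) * (Real.exp (-(β ^ 2 * Δ ^ 2 / 2)) * Real.exp (-(β ^ 2 * (u - v) ^ 2 / 2)))) :=
                mul_le_mul (hgB u) (mul_le_mul (hΦ v) h6 (Real.exp_pos _).le (by positivity))
                  (mul_nonneg (hΦ0 v) (Real.exp_pos _).le) hB0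
            _ = B * M * Real.exp (-(β ^ 2 * Δ ^ 2 / 2)) * (Real.exp v * Real.exp (-(β ^ 2 * (u - v) ^ 2 / 2))) := by ring
            _ = _ := by rw [← Real.exp_add]; congr 2
        linarith
    refine hsum.trans ?_
    rw [integral_add ((integrable_indicator_iff hJm).2 hJi) (hge.1.const_mul _), integral_const_mul, hge.2]
    apply add_le_add_right
    rw [hEr]
    have h9 : Real.exp (u + 1 / (2 * β ^ 2)) ≤ Real.exp (b + 1 / (2 * β ^ 2)) := Real.exp_le_exp.2 (by linarith [hu.2])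
    apply mul_le_mul_of_nonneg_left _ (by positivity)
    exact mul_le_mul_of_nonneg_right h9 (by positivity)
  have hI1 : Integrable (fun u => ∫ v in J, gp v * Φ v * Real.exp (-(β ^ 2 * (u - v) ^ 2))) (volume.restrict (Ioc a b)) :=
    hKint.integral_prod_left
  have hI2 : IntegrableOn (fun _ : ℝ => Er) (Ioc a b) := by
    exact integrableOn_const (by simp) (by simp)
  have h1 : ∫ u in Ioc a b, g u * ∫ v, Φ v * Real.exp (-(β ^ 2 * (u - v) ^ 2)) ≤
      ∫ u in Ioc a b, ((∫ v in J, gp v * Φ v * Real.exp (-(β ^ 2 * (u - v) ^ 2))) + Er) := by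
    apply integral_mono_of_nonneg
    · exact Eventually.of_forall fun u => mul_nonneg (hg0 u) (integral_nonneg fun v => mul_nonneg (hΦ0 v) (Real.exp_pos _).le)
    · exact hI1.add hI2
    · rw [EventuallyLE, ae_restrict_iff' measurableSet_Ioc]
      exact Eventually.of_forall hpt
  refine h1.trans ?_
  rw [integral_add hI1 hI2, setIntegral_const]
  have h2 : (volume.real (Ioc a b)) • Er = (b - a) * Er := by
    rw [Real.volume_real_Ioc_of_le hab, smul_eq_mul]
  rw [h2]
  apply add_le_add_left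
  rw [integral_integral_swap hKint, ← integral_const_mul]
  apply integral_mono_of_nonneg
  · rw [EventuallyLE, ae_restrict_iff' hJm]
    refine Eventually.of_forall fun v _ => ?_
    exact integral_nonneg fun u => mul_nonneg (mul_nonneg (hgp0 _) (hΦ0 _)) (Real.exp_pos _).le
  · have hfin2 : IsFiniteMeasure (volume.restrict J) := ⟨by simp [hJ]⟩
    apply Integrable.const_mul
    refine Integrable.of_bound (C := B * (M * Real.exp (b + Δ))) (hgpm.mul hΦm).aestronglyMeasurable ?_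
    rw [ae_restrict_iff' hJm]
    refine Eventually.of_forall fun v hv => ?_
    rw [Real.norm_of_nonneg (mul_nonneg (hgp0 _) (hΦ0 _))]
    exact hgpΦ v hv
  · refine Eventually.of_forall fun v => ?_
    simp only
    rw [integral_const_mul, mul_comm]
    exact mul_le_mul_of_nonneg_right (gauss_part β v a b hβ) (mul_nonneg (hgp0 _) (hΦ0 _))

end Pool.Agent.L5helper10.QV
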