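import Pool.Agent.L5helper10.TV.Spl

/-! The rank inequality for Gaussian sums, scaled. -/

set_option autoImplicit false

open MeasureTheory Finset Complex ComplexConjugate H370
open Pool.Agent.L5helper10.TV (FF GG R_main GG_nn GG_measR GG_bdd)

namespace Pool.Agent.L5helper10.QV

/-- the Gaussian test function of width `κ` -/
noncomputable def kk (κ u t : ℝ) (z : ℂ) : ℂ :=
  cexp (u * (z - 1 / 2)) * cexp ((z - 1 / 2 - I * t) ^ 2 / (2 * κ ^ 2))

/-- the Gaussian sum over a finite set with coefficients -/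
noncomputable def EE (P : Finset ℂ) (c : ℂ → ℂ) (κ u t : ℝ) : ℂ := ∑ z ∈ P, c z * kk κ u t z

noncomputable def sc (κ : ℝ) (z : ℂ) : ℂ := 1 / 2 + (z - 1 / 2) / κ

noncomputable def us (κ : ℝ) (w : ℂ) : ℂ := 1 / 2 + κ * (w - 1 / 2)

lemma us_sc (κ : ℝ) (hκ : 0 < κ) (z : ℂ) : us κ (sc κ z) = z := by
  unfold us sc
  have : (κ : ℂ) ≠ 0 := ofReal_ne_zero.2 hκ.ne'
  field_simp
  ring

lemma hh_sc (κ u t : ℝ) (hκ : 0 < κ) (z : ℂ) : hh (κ * u) (t / κ) (sc κ z) = kk κ u t z := by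
  unfold hh kk sc
  have : (κ : ℂ) ≠ 0 := ofReal_ne_zero.2 hκ.ne'
  congr 2
  · push_cast
    field_simp
    ring
  · push_cast
    field_simp
    ring

lemma FF_sc (P : Finset ℂ) (c : ℂ → ℂ) (κ u t : ℝ) (hκ : 0 < κ) :
    FF (P.image (sc κ)) (fun w => c (us κ w)) (κ * u) (t / κ) = EE P c κ u t := by
  unfold FF EE
  rw [Finset.sum_image]
  · apply Finset.sum_congr rfl
    intro z _
    simp only
    rw [us_sc κ hκ, hh_sc κ u t hκ]
  · intro x _ y _ h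
    have := congrArg (us κ) h
    rwa [us_sc κ hκ, us_sc κ hκ] at this

theorem rank_scaled (P : Finset ℂ) (c : ℂ → ℂ) (κ : ℝ) (hκ : 0 < κ) (S : Set ℝ) (hS : MeasurableSet S) (R : ℝ)
    (hSR : S ⊆ Set.Icc 0 R) (a b : ℝ) (hab : a ≤ b) :
    (volume S).toReal ^ 2 * ‖∫ t in a..b, EE P c κ 0 t‖ ^ 2 ≤
      2 * Real.sqrt Real.pi * κ * P.card * ∫ u : ℝ, GG S u * ∫ t in a..b, ‖EE P c κ u t‖ ^ 2 := by
  have hκi : 0 < κ⁻¹ := inv_pos.2 hκ
  set S' : Set ℝ := (fun x => κ⁻¹ * x) ⁻¹' S with hS'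
  have hS'm : MeasurableSet S' := hS.preimage (by fun_prop)
  have hS'R : S' ⊆ Set.Icc 0 (κ * R) := by
    intro x hx
    have h := hSR hx
    have e : κ * (κ⁻¹ * x) = x := by field_simp
    constructor
    · have := mul_nonneg hκ.le h.1
      rwa [e] at this
    · have := mul_le_mul_of_nonneg_left h.2 hκ.le
      rwa [e] at this
  have hvol : (volume S').toReal = κ * (volume S).toReal := by
    rw [hS', Real.volume_preimage_mul_left hκi.ne', ENNReal.toReal_mul, inv_inv, abs_of_pos hκ,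
      ENNReal.toReal_ofReal hκ.le]
  have hGG : ∀ u : ℝ, GG S' (κ * u) = κ * GG S u := by
    intro u
    unfold GG
    have e : {v : ℝ | v ∈ S' ∧ v - κ * u ∈ S'} = (fun x => κ⁻¹ * x) ⁻¹' {w : ℝ | w ∈ S ∧ w - u ∈ S} := by
      ext v
      simp only [hS', Set.mem_preimage, Set.mem_ofPred_eq]
      have : κ⁻¹ * (v - κ * u) = κ⁻¹ * v - u := by field_simp
      rw [this]
    rw [e, Real.volume_preimage_mul_left hκi.ne', ENNReal.toReal_mul, inv_inv, abs_of_pos hκ,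
      ENNReal.toReal_ofReal hκ.le]
  have key := R_main (P.image (sc κ)) (fun w => c (us κ w)) S' hS'm (κ * R) hS'R (a / κ) (b / κ)
    (div_le_div_of_nonneg_right hab hκ.le)
  have e1 : ∫ t in (a / κ)..(b / κ), FF (P.image (sc κ)) (fun w => c (us κ w)) 0 t =
      ((κ⁻¹ : ℝ) : ℂ) * ∫ t in a..b, EE P c κ 0 t := by
    have h := intervalIntegral.integral_comp_div (a := a) (b := b)
      (fun t => FF (P.image (sc κ)) (fun w => c (us κ w)) 0 t) hκ.ne'
    have h2 : ∀ t : ℝ, FF (P.image (sc κ)) (fun w => c (us κ w)) 0 (t / κ) = EE P c κ 0 t := by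
      intro t
      have := FF_sc P c κ 0 t hκ
      rwa [mul_zero] at this
    simp_rw [h2] at h
    rw [h, Complex.real_smul, ← mul_assoc, ← Complex.ofReal_mul, inv_mul_cancel₀ hκ.ne', Complex.ofReal_one, one_mul]
  have e2 : ∀ u : ℝ, ∫ t in (a / κ)..(b / κ), ‖FF (P.image (sc κ)) (fun w => c (us κ w)) (κ * u) t‖ ^ 2 =
      κ⁻¹ * ∫ t in a..b, ‖EE P c κ u t‖ ^ 2 := by
    intro u
    have h := intervalIntegral.integral_comp_div (a := a) (b := b)
      (fun t => ‖FF (P.image (sc κ)) (fun w => c (us κ w)) (κ * u) t‖ ^ 2) hκ.ne'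
    simp_rw [FF_sc P c κ u _ hκ] at h
    rw [h, smul_eq_mul, ← mul_assoc, inv_mul_cancel₀ hκ.ne', one_mul]
  have e3 : ∫ u : ℝ, GG S' u * ∫ t in (a / κ)..(b / κ), ‖FF (P.image (sc κ)) (fun w => c (us κ w)) u t‖ ^ 2 =
      κ * ∫ u : ℝ, GG S u * ∫ t in a..b, ‖EE P c κ u t‖ ^ 2 := by
    have h := MeasureTheory.Measure.integral_comp_mul_left
      (fun u : ℝ => GG S' u * ∫ t in (a / κ)..(b / κ), ‖FF (P.image (sc κ)) (fun w => c (us κ w)) u t‖ ^ 2) κ
    have h2 : ∀ u : ℝ, GG S' (κ * u) * ∫ t in (a / κ)..(b / κ),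
        ‖FF (P.image (sc κ)) (fun w => c (us κ w)) (κ * u) t‖ ^ 2 = GG S u * ∫ t in a..b, ‖EE P c κ u t‖ ^ 2 := by
      intro u
      rw [hGG, e2]
      have : κ * κ⁻¹ = 1 := mul_inv_cancel₀ hκ.ne'
      linear_combination (GG S u * ∫ t in a..b, ‖EE P c κ u t‖ ^ 2) * this
    simp only [h2] at h
    rw [h, abs_of_pos hκi, smul_eq_mul, ← mul_assoc, mul_inv_cancel₀ hκ.ne', one_mul]
  rw [e1, e3, hvol, norm_mul, Complex.norm_real, Real.norm_of_nonneg hκi.le] at key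
  have hJ : 0 ≤ ∫ u : ℝ, GG S u * ∫ t in a..b, ‖EE P c κ u t‖ ^ 2 :=
    integral_nonneg fun u => mul_nonneg (GG_nn S u) (intervalIntegral.integral_nonneg hab fun t _ => by positivity)
  have hcard : ((P.image (sc κ)).card : ℝ) ≤ P.card := by exact_mod_cast Finset.card_image_le
  have e4 : (κ * (volume S).toReal) ^ 2 * (κ⁻¹ * ‖∫ t in a..b, EE P c κ 0 t‖) ^ 2 =
      (volume S).toReal ^ 2 * ‖∫ t in a..b, EE P c κ 0 t‖ ^ 2 := by
    have : κ * κ⁻¹ = 1 := mul_inv_cancel₀ hκ.ne'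
    calc _ = (κ * κ⁻¹) ^ 2 * ((volume S).toReal ^ 2 * ‖∫ t in a..b, EE P c κ 0 t‖ ^ 2) := by ring
      _ = _ := by rw [this]; ring
  rw [e4] at key
  refine key.trans ?_
  have h5 : 2 * Real.sqrt Real.pi * ((P.image (sc κ)).card : ℝ) ≤ 2 * Real.sqrt Real.pi * (P.card : ℝ) :=
    mul_le_mul_of_nonneg_left hcard (by positivity)
  calc _ ≤ 2 * Real.sqrt Real.pi * (P.card : ℝ) * (κ * ∫ u : ℝ, GG S u * ∫ t in a..b, ‖EE P c κ u t‖ ^ 2) :=
        mul_le_mul_of_nonneg_right h5 (mul_nonneg hκ.le hJ)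
    _ = _ := by ring

/-- linear form of the rank inequality -/
theorem rank_lin (P : Finset ℂ) (c : ℂ → ℂ) (κ : ℝ) (hκ : 0 < κ) (S : Set ℝ) (hS : MeasurableSet S) (R : ℝ)
    (hSR : S ⊆ Set.Icc 0 R) (a b : ℝ) (hab : a ≤ b) :
    (volume S).toReal ^ 2 * (Real.sqrt 2 * (∫ t in a..b, EE P c κ 0 t).re - Real.sqrt Real.pi * κ * P.card) ≤
      ∫ u : ℝ, GG S u * ∫ t in a..b, ‖EE P c κ u t‖ ^ 2 := by
  have key := rank_scaled P c κ hκ S hS R hSR a b hab
  set J := ∫ u : ℝ, GG S u * ∫ t in a..b, ‖EE P c κ u t‖ ^ 2 with hJd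
  have hJ : 0 ≤ J :=
    integral_nonneg fun u => mul_nonneg (GG_nn S u) (intervalIntegral.integral_nonneg hab fun t _ => by positivity)
  set W := (volume S).toReal with hW
  set x := ‖∫ t in a..b, EE P c κ 0 t‖ with hx
  have hx0 : 0 ≤ x := norm_nonneg _
  have hre : (∫ t in a..b, EE P c κ 0 t).re ≤ x := Complex.re_le_norm _
  obtain ⟨n, hn⟩ : ∃ n : ℝ, n = (P.card : ℝ) := ⟨_, rfl⟩
  rw [← hn] at key ⊢
  have hn0 : 0 ≤ n := hn ▸ Nat.cast_nonneg _
  have hsp : 0 < Real.sqrt Real.pi := Real.sqrt_pos.2 Real.pi_pos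
  have hs2 : 0 < Real.sqrt 2 := Real.sqrt_pos.2 two_pos
  have hsq2 : Real.sqrt 2 ^ 2 = 2 := Real.sq_sqrt (by norm_num)
  have hsqp : Real.sqrt Real.pi ^ 2 = Real.pi := Real.sq_sqrt Real.pi_pos.le
  rcases hn0.eq_or_lt with h0 | h0
  · have hP : P = ∅ := by
      have : (P.card : ℝ) = 0 := by rw [← hn, ← h0]
      exact Finset.card_eq_zero.1 (by exact_mod_cast this)
    have e : (∫ t in a..b, EE P c κ 0 t) = 0 := by rw [hP]; simp [EE]
    rw [e, ← h0]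
    simp only [Complex.zero_re, mul_zero, sub_zero]
    exact hJ
  · have h1 : W ^ 2 * (Real.sqrt 2 * (∫ t in a..b, EE P c κ 0 t).re - Real.sqrt Real.pi * κ * n) ≤
        W ^ 2 * (Real.sqrt 2 * x - Real.sqrt Real.pi * κ * n) := by
      apply mul_le_mul_of_nonneg_left _ (sq_nonneg W)
      have := mul_le_mul_of_nonneg_left hre hs2.le
      linarith
    refine h1.trans ?_
    -- `2 √π κ n (√2 x - √π κ n) ≤ x ^ 2`
    have h2 : 2 * Real.sqrt Real.pi * κ * n * (Real.sqrt 2 * x - Real.sqrt Real.pi * κ * n) ≤ x ^ 2 := by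
      have h3 := sq_nonneg (x - Real.sqrt 2 * Real.sqrt Real.pi * κ * n)
      have e : (x - Real.sqrt 2 * Real.sqrt Real.pi * κ * n) ^ 2 = x ^ 2 -
          2 * Real.sqrt Real.pi * κ * n * (Real.sqrt 2 * x) + Real.sqrt 2 ^ 2 * (Real.sqrt Real.pi * κ * n) ^ 2 := by ring
      rw [e, hsq2] at h3
      nlinarith
    have h4 : 2 * Real.sqrt Real.pi * κ * n * (W ^ 2 * (Real.sqrt 2 * x - Real.sqrt Real.pi * κ * n)) ≤
        2 * Real.sqrt Real.pi * κ * n * J := by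
      refine le_trans ?_ key
      have := mul_le_mul_of_nonneg_left h2 (sq_nonneg W)
      linarith
    exact le_of_mul_le_mul_left h4 (by positivity)

end Pool.Agent.L5helper10.QV
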